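import Pool.Agent.Lib_helper24.TN.KA

/-!
# Linear algebra for a point of order six
-/

set_option autoImplicit false
set_option linter.unusedSectionVars false
set_option linter.unusedVariables false
set_option linter.unusedSimpArgs false

namespace Pool.Agent.N6

open Pool.Agent.TN

set_option maxHeartbeats 4000000 in
theorem alg6 {V : Type*} [AddCommGroup V] [Module ℚ V]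
    {φ0 φ1 φ2 φ3 φ4 : V →ₗ[ℚ] ℚ} {y0 y1 y2 y3 y4 τ β u0 u1 u2 u3 u4 u5 u6 u7 : V}
    {v0 v1 v2 v3 v4 v5 v6 v7 v8 v9 v10 v11 v12 v13 v14 v15 v16 v17 v18 v19 v20 v21 v22 v23 v24 v25 v26 : V} {w : ExteriorAlgebra ℚ V}
    (f00 : φ0 y0 = 1)
    (f01 : φ0 y1 = 0)
    (f02 : φ0 y2 = 0)
    (f03 : φ0 y3 = 0)
    (f04 : φ0 y4 = 0)
    (g0τ : φ0 τ = 0)
    (g0β : φ0 β = 0)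
    (f10 : φ1 y0 = 0)
    (f11 : φ1 y1 = 1)
    (f12 : φ1 y2 = 0)
    (f13 : φ1 y3 = 0)
    (f14 : φ1 y4 = 0)
    (g1τ : φ1 τ = 0)
    (g1β : φ1 β = 0)
    (f20 : φ2 y0 = 0)
    (f21 : φ2 y1 = 0)
    (f22 : φ2 y2 = 1)
    (f23 : φ2 y3 = 0)
    (f24 : φ2 y4 = 0)
    (g2τ : φ2 τ = 0)
    (g2β : φ2 β = 0)
    (f30 : φ3 y0 = 0)
    (f31 : φ3 y1 = 0)
    (f32 : φ3 y2 = 0)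
    (f33 : φ3 y3 = 1)
    (f34 : φ3 y4 = 0)
    (g3τ : φ3 τ = 0)
    (g3β : φ3 β = 0)
    (f40 : φ4 y0 = 0)
    (f41 : φ4 y1 = 0)
    (f42 : φ4 y2 = 0)
    (f43 : φ4 y3 = 0)
    (f44 : φ4 y4 = 1)
    (g4τ : φ4 τ = 0)
    (g4β : φ4 β = 0)
    (w01 : ct φ0 φ1 w = 0)
    (w02 : ct φ0 φ2 w = 0)
    (w03 : ct φ0 φ3 w = 0)
    (w04 : ct φ0 φ4 w = 0)
    (w12 : ct φ1 φ2 w = 0)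
    (w13 : ct φ1 φ3 w = 0)
    (w14 : ct φ1 φ4 w = 0)
    (w23 : ct φ2 φ3 w = 0)
    (w24 : ct φ2 φ4 w = 0)
    (w34 : ct φ3 φ4 w = 0)
    (hv0 : v0 = y0 + ((-1) : ℚ) • β)
    (hv1 : v1 = y0 + ((-1) : ℚ) • y2 + ((-1) : ℚ) • y3 + ((-1) : ℚ) • y4 + τ + β)
    (hv2 : v2 = y1 + ((-1) : ℚ) • β)
    (hv3 : v3 = y0 + (2 : ℚ) • y1 + y2 + ((-3) : ℚ) • β)
    (hv4 : v4 = y2 + ((-1) : ℚ) • β)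
    (hv5 : v5 = y1 + (2 : ℚ) • y2 + y3 + ((-3) : ℚ) • β)
    (hv6 : v6 = y3 + ((-1) : ℚ) • β)
    (hv7 : v7 = y2 + (2 : ℚ) • y3 + y4 + ((-3) : ℚ) • β)
    (hv8 : v8 = y4 + ((-1) : ℚ) • β)
    (hv9 : v9 = ((-1) : ℚ) • y0 + ((-1) : ℚ) • y1 + ((-1) : ℚ) • y2 + y4 + τ + β)
    (hv10 : v10 = ((-1) : ℚ) • y0 + ((-1) : ℚ) • y1 + ((-1) : ℚ) • y2 + ((-1) : ℚ) • y3 + ((-1) : ℚ) • y4 + τ + (3 : ℚ) • β)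
    (hv11 : v11 = ((-1) : ℚ) • y0 + ((-2) : ℚ) • y1 + ((-2) : ℚ) • y2 + ((-2) : ℚ) • y3 + ((-1) : ℚ) • y4 + (2 : ℚ) • τ + (5 : ℚ) • β)
    (hv12 : v12 = y0 + ((-1) : ℚ) • τ)
    (hv13 : v13 = y0 + ((-1) : ℚ) • y2 + ((-2) : ℚ) • y3 + ((-1) : ℚ) • y4 + τ + (2 : ℚ) • β)
    (hv14 : v14 = y1 + ((-1) : ℚ) • τ)
    (hv15 : v15 = y0 + (2 : ℚ) • y1 + y2 + ((-1) : ℚ) • y4 + ((-2) : ℚ) • β)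
    (hv16 : v16 = y2 + ((-1) : ℚ) • τ)
    (hv17 : v17 = y0 + (2 : ℚ) • y1 + (3 : ℚ) • y2 + (2 : ℚ) • y3 + y4 + ((-1) : ℚ) • τ + ((-6) : ℚ) • β)
    (hv18 : v18 = y3 + ((-1) : ℚ) • τ)
    (hv19 : v19 = ((-1) : ℚ) • y0 + y2 + (2 : ℚ) • y3 + y4 + ((-2) : ℚ) • β)
    (hv20 : v20 = y4 + ((-1) : ℚ) • τ)
    (hv21 : v21 = ((-1) : ℚ) • y0 + ((-2) : ℚ) • y1 + ((-1) : ℚ) • y2 + y4 + τ + (2 : ℚ) • β)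
    (hv22 : v22 = y0 + y1 + ((-1) : ℚ) • τ + ((-1) : ℚ) • β)
    (hv23 : v23 = y0 + y1 + ((-1) : ℚ) • y3 + ((-1) : ℚ) • y4)
    (hv24 : v24 = y1 + y2 + ((-1) : ℚ) • τ + ((-1) : ℚ) • β)
    (hv25 : v25 = y0 + (2 : ℚ) • y1 + (2 : ℚ) • y2 + y3 + ((-1) : ℚ) • τ + ((-4) : ℚ) • β)
    (hv26 : v26 = y2 + y3 + ((-1) : ℚ) • τ + ((-1) : ℚ) • β)
    (hind : ∀ p q : ℚ, p • τ + q • β = 0 → p = 0 ∧ q = 0)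
    (h : ExteriorAlgebra.ι ℚ (y0 + ((-1) : ℚ) • y2 + ((-1) : ℚ) • y3 + ((-1) : ℚ) • y4 + τ + β) * ExteriorAlgebra.ι ℚ (y0 + ((-1) : ℚ) • β) * ExteriorAlgebra.ι ℚ u0 +
      ExteriorAlgebra.ι ℚ (y0 + (2 : ℚ) • y1 + y2 + ((-3) : ℚ) • β) * ExteriorAlgebra.ι ℚ (y1 + ((-1) : ℚ) • β) * ExteriorAlgebra.ι ℚ u1 +
      ExteriorAlgebra.ι ℚ (y1 + (2 : ℚ) • y2 + y3 + ((-3) : ℚ) • β) * ExteriorAlgebra.ι ℚ (y2 + ((-1) : ℚ) • β) * ExteriorAlgebra.ι ℚ u2 +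
      ExteriorAlgebra.ι ℚ (y2 + (2 : ℚ) • y3 + y4 + ((-3) : ℚ) • β) * ExteriorAlgebra.ι ℚ (y3 + ((-1) : ℚ) • β) * ExteriorAlgebra.ι ℚ u3 +
      ExteriorAlgebra.ι ℚ (((-1) : ℚ) • y0 + ((-1) : ℚ) • y1 + ((-1) : ℚ) • y2 + y4 + τ + β) * ExteriorAlgebra.ι ℚ (y4 + ((-1) : ℚ) • β) * ExteriorAlgebra.ι ℚ u4 +
      ExteriorAlgebra.ι ℚ (y0 + y1 + ((-1) : ℚ) • y3 + ((-1) : ℚ) • y4) * ExteriorAlgebra.ι ℚ (y0 + y1 + ((-1) : ℚ) • τ + ((-1) : ℚ) • β) * ExteriorAlgebra.ι ℚ u5 +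
      ExteriorAlgebra.ι ℚ (y0 + (2 : ℚ) • y1 + (2 : ℚ) • y2 + y3 + ((-1) : ℚ) • τ + ((-4) : ℚ) • β) * ExteriorAlgebra.ι ℚ (y1 + y2 + ((-1) : ℚ) • τ + ((-1) : ℚ) • β) * ExteriorAlgebra.ι ℚ u6 +
      ExteriorAlgebra.ι ℚ (y1 + (2 : ℚ) • y2 + (2 : ℚ) • y3 + y4 + ((-1) : ℚ) • τ + ((-4) : ℚ) • β) * ExteriorAlgebra.ι ℚ (y2 + y3 + ((-1) : ℚ) • τ + ((-1) : ℚ) • β) * ExteriorAlgebra.ι ℚ u7 + w = 0) :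
    ∃ p0 p1 p2 p3 p4 p5 p6 p7 p8 p9 p10 p11 p12 p13 p14 p15 p16 p17 p18 p19 p20 p21 p22 p23 p24 p25 p26 : ℚ, u0 = p0 • ((1 : ℚ) • v0) + p1 • ((1 : ℚ) • v1) + p10 • (((-1) : ℚ) • v10) + p11 • (((-1) : ℚ) • v11) + p12 • ((1 : ℚ) • v12) + p13 • ((1 : ℚ) • v13) + p14 • (((-1) : ℚ) • v14) + p15 • (((-1) : ℚ) • v15) + p20 • ((1 : ℚ) • v20) + p21 • ((1 : ℚ) • v21) ∧
      u1 = p2 • ((1 : ℚ) • v2) + p3 • ((1 : ℚ) • v3) + p10 • (((-1) : ℚ) • v10) + p11 • (((-1) : ℚ) • v11) + p16 • (((-1) : ℚ) • v16) + p17 • (((-1) : ℚ) • v17) + p20 • ((1 : ℚ) • v20) + p21 • ((1 : ℚ) • v21) ∧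
      u2 = p4 • ((1 : ℚ) • v4) + p5 • ((1 : ℚ) • v5) + p10 • (((-1) : ℚ) • v10) + p11 • (((-1) : ℚ) • v11) + p12 • ((1 : ℚ) • v12) + p13 • ((1 : ℚ) • v13) + p14 • (((-1) : ℚ) • v14) + p15 • (((-1) : ℚ) • v15) + p18 • (((-1) : ℚ) • v18) + p19 • (((-1) : ℚ) • v19) + p20 • ((1 : ℚ) • v20) + p21 • ((1 : ℚ) • v21) ∧
      u3 = p6 • ((1 : ℚ) • v6) + p7 • ((1 : ℚ) • v7) + p10 • (((-1) : ℚ) • v10) + p11 • (((-1) : ℚ) • v11) + p12 • ((1 : ℚ) • v12) + p13 • ((1 : ℚ) • v13) + p16 • (((-1) : ℚ) • v16) + p17 • (((-1) : ℚ) • v17) ∧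
      u4 = p8 • ((1 : ℚ) • v8) + p9 • ((1 : ℚ) • v9) + p10 • (((-1) : ℚ) • v10) + p11 • (((-1) : ℚ) • v11) + p12 • ((1 : ℚ) • v12) + p13 • ((1 : ℚ) • v13) + p18 • (((-1) : ℚ) • v18) + p19 • (((-1) : ℚ) • v19) + p20 • ((1 : ℚ) • v20) + p21 • ((1 : ℚ) • v21) ∧
      u5 = p12 • ((1 : ℚ) • v12) + p13 • ((1 : ℚ) • v13) + p14 • ((1 : ℚ) • v14) + p15 • ((1 : ℚ) • v15) + p18 • (((-1) : ℚ) • v18) + p19 • (((-1) : ℚ) • v19) + p20 • (((-1) : ℚ) • v20) + p21 • (((-1) : ℚ) • v21) + p22 • ((1 : ℚ) • v22) + p23 • ((1 : ℚ) • v23) ∧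
      u6 = p14 • ((1 : ℚ) • v14) + p15 • ((1 : ℚ) • v15) + p16 • ((1 : ℚ) • v16) + p17 • ((1 : ℚ) • v17) + p20 • (((-1) : ℚ) • v20) + p21 • (((-1) : ℚ) • v21) + p24 • ((1 : ℚ) • v24) + p25 • ((1 : ℚ) • v25) ∧
      u7 = p12 • (((-1) : ℚ) • v12) + p13 • (((-1) : ℚ) • v13) + p16 • ((1 : ℚ) • v16) + p17 • ((1 : ℚ) • v17) + p18 • ((1 : ℚ) • v18) + p19 • ((1 : ℚ) • v19) + p26 • ((1 : ℚ) • v26) := by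
  subst hv0 hv1 hv2 hv3 hv4 hv5 hv6 hv7 hv8 hv9 hv10 hv11 hv12 hv13 hv14 hv15 hv16 hv17 hv18 hv19 hv20 hv21 hv22 hv23 hv24 hv25 hv26
  have key : ∀ {φ ψ : V →ₗ[ℚ] ℚ}, ct φ ψ w = 0 →
      (((φ (y0 + ((-1) : ℚ) • y2 + ((-1) : ℚ) • y3 + ((-1) : ℚ) • y4 + τ + β)) * (ψ (y0 + ((-1) : ℚ) • β)) - (φ (y0 + ((-1) : ℚ) • β)) * (ψ (y0 + ((-1) : ℚ) • y2 + ((-1) : ℚ) • y3 + ((-1) : ℚ) • y4 + τ + β))) • u0 - ((φ (y0 + ((-1) : ℚ) • y2 + ((-1) : ℚ) • y3 + ((-1) : ℚ) • y4 + τ + β)) * (ψ u0) - (φ u0) * (ψ (y0 + ((-1) : ℚ) • y2 + ((-1) : ℚ) • y3 + ((-1) : ℚ) • y4 + τ + β))) • (y0 + ((-1) : ℚ) • β) + ((φ (y0 + ((-1) : ℚ) • β)) * (ψ u0) - (φ u0) * (ψ (y0 + ((-1) : ℚ) • β))) • (y0 + ((-1) : ℚ) • y2 + ((-1) : ℚ) • y3 + ((-1) : ℚ) • y4 + τ + β)) +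
      (((φ (y0 + (2 : ℚ) • y1 + y2 + ((-3) : ℚ) • β)) * (ψ (y1 + ((-1) : ℚ) • β)) - (φ (y1 + ((-1) : ℚ) • β)) * (ψ (y0 + (2 : ℚ) • y1 + y2 + ((-3) : ℚ) • β))) • u1 - ((φ (y0 + (2 : ℚ) • y1 + y2 + ((-3) : ℚ) • β)) * (ψ u1) - (φ u1) * (ψ (y0 + (2 : ℚ) • y1 + y2 + ((-3) : ℚ) • β))) • (y1 + ((-1) : ℚ) • β) + ((φ (y1 + ((-1) : ℚ) • β)) * (ψ u1) - (φ u1) * (ψ (y1 + ((-1) : ℚ) • β))) • (y0 + (2 : ℚ) • y1 + y2 + ((-3) : ℚ) • β)) +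
      (((φ (y1 + (2 : ℚ) • y2 + y3 + ((-3) : ℚ) • β)) * (ψ (y2 + ((-1) : ℚ) • β)) - (φ (y2 + ((-1) : ℚ) • β)) * (ψ (y1 + (2 : ℚ) • y2 + y3 + ((-3) : ℚ) • β))) • u2 - ((φ (y1 + (2 : ℚ) • y2 + y3 + ((-3) : ℚ) • β)) * (ψ u2) - (φ u2) * (ψ (y1 + (2 : ℚ) • y2 + y3 + ((-3) : ℚ) • β))) • (y2 + ((-1) : ℚ) • β) + ((φ (y2 + ((-1) : ℚ) • β)) * (ψ u2) - (φ u2) * (ψ (y2 + ((-1) : ℚ) • β))) • (y1 + (2 : ℚ) • y2 + y3 + ((-3) : ℚ) • β)) +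
      (((φ (y2 + (2 : ℚ) • y3 + y4 + ((-3) : ℚ) • β)) * (ψ (y3 + ((-1) : ℚ) • β)) - (φ (y3 + ((-1) : ℚ) • β)) * (ψ (y2 + (2 : ℚ) • y3 + y4 + ((-3) : ℚ) • β))) • u3 - ((φ (y2 + (2 : ℚ) • y3 + y4 + ((-3) : ℚ) • β)) * (ψ u3) - (φ u3) * (ψ (y2 + (2 : ℚ) • y3 + y4 + ((-3) : ℚ) • β))) • (y3 + ((-1) : ℚ) • β) + ((φ (y3 + ((-1) : ℚ) • β)) * (ψ u3) - (φ u3) * (ψ (y3 + ((-1) : ℚ) • β))) • (y2 + (2 : ℚ) • y3 + y4 + ((-3) : ℚ) • β)) +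
      (((φ (((-1) : ℚ) • y0 + ((-1) : ℚ) • y1 + ((-1) : ℚ) • y2 + y4 + τ + β)) * (ψ (y4 + ((-1) : ℚ) • β)) - (φ (y4 + ((-1) : ℚ) • β)) * (ψ (((-1) : ℚ) • y0 + ((-1) : ℚ) • y1 + ((-1) : ℚ) • y2 + y4 + τ + β))) • u4 - ((φ (((-1) : ℚ) • y0 + ((-1) : ℚ) • y1 + ((-1) : ℚ) • y2 + y4 + τ + β)) * (ψ u4) - (φ u4) * (ψ (((-1) : ℚ) • y0 + ((-1) : ℚ) • y1 + ((-1) : ℚ) • y2 + y4 + τ + β))) • (y4 + ((-1) : ℚ) • β) + ((φ (y4 + ((-1) : ℚ) • β)) * (ψ u4) - (φ u4) * (ψ (y4 + ((-1) : ℚ) • β))) • (((-1) : ℚ) • y0 + ((-1) : ℚ) • y1 + ((-1) : ℚ) • y2 + y4 + τ + β)) +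
      (((φ (y0 + y1 + ((-1) : ℚ) • y3 + ((-1) : ℚ) • y4)) * (ψ (y0 + y1 + ((-1) : ℚ) • τ + ((-1) : ℚ) • β)) - (φ (y0 + y1 + ((-1) : ℚ) • τ + ((-1) : ℚ) • β)) * (ψ (y0 + y1 + ((-1) : ℚ) • y3 + ((-1) : ℚ) • y4))) • u5 - ((φ (y0 + y1 + ((-1) : ℚ) • y3 + ((-1) : ℚ) • y4)) * (ψ u5) - (φ u5) * (ψ (y0 + y1 + ((-1) : ℚ) • y3 + ((-1) : ℚ) • y4))) • (y0 + y1 + ((-1) : ℚ) • τ + ((-1) : ℚ) • β) + ((φ (y0 + y1 + ((-1) : ℚ) • τ + ((-1) : ℚ) • β)) * (ψ u5) - (φ u5) * (ψ (y0 + y1 + ((-1) : ℚ) • τ + ((-1) : ℚ) • β))) • (y0 + y1 + ((-1) : ℚ) • y3 + ((-1) : ℚ) • y4)) +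
      (((φ (y0 + (2 : ℚ) • y1 + (2 : ℚ) • y2 + y3 + ((-1) : ℚ) • τ + ((-4) : ℚ) • β)) * (ψ (y1 + y2 + ((-1) : ℚ) • τ + ((-1) : ℚ) • β)) - (φ (y1 + y2 + ((-1) : ℚ) • τ + ((-1) : ℚ) • β)) * (ψ (y0 + (2 : ℚ) • y1 + (2 : ℚ) • y2 + y3 + ((-1) : ℚ) • τ + ((-4) : ℚ) • β))) • u6 - ((φ (y0 + (2 : ℚ) • y1 + (2 : ℚ) • y2 + y3 + ((-1) : ℚ) • τ + ((-4) : ℚ) • β)) * (ψ u6) - (φ u6) * (ψ (y0 + (2 : ℚ) • y1 + (2 : ℚ) • y2 + y3 + ((-1) : ℚ) • τ + ((-4) : ℚ) • β))) • (y1 + y2 + ((-1) : ℚ) • τ + ((-1) : ℚ) • β) + ((φ (y1 + y2 + ((-1) : ℚ) • τ + ((-1) : ℚ) • β)) * (ψ u6) - (φ u6) * (ψ (y1 + y2 + ((-1) : ℚ) • τ + ((-1) : ℚ) • β))) • (y0 + (2 : ℚ) • y1 + (2 : ℚ) • y2 + y3 + ((-1) : ℚ) • τ + ((-4) : ℚ) • β)) +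
      (((φ (y1 + (2 : ℚ) • y2 + (2 : ℚ) • y3 + y4 + ((-1) : ℚ) • τ + ((-4) : ℚ) • β)) * (ψ (y2 + y3 + ((-1) : ℚ) • τ + ((-1) : ℚ) • β)) - (φ (y2 + y3 + ((-1) : ℚ) • τ + ((-1) : ℚ) • β)) * (ψ (y1 + (2 : ℚ) • y2 + (2 : ℚ) • y3 + y4 + ((-1) : ℚ) • τ + ((-4) : ℚ) • β))) • u7 - ((φ (y1 + (2 : ℚ) • y2 + (2 : ℚ) • y3 + y4 + ((-1) : ℚ) • τ + ((-4) : ℚ) • β)) * (ψ u7) - (φ u7) * (ψ (y1 + (2 : ℚ) • y2 + (2 : ℚ) • y3 + y4 + ((-1) : ℚ) • τ + ((-4) : ℚ) • β))) • (y2 + y3 + ((-1) : ℚ) • τ + ((-1) : ℚ) • β) + ((φ (y2 + y3 + ((-1) : ℚ) • τ + ((-1) : ℚ) • β)) * (ψ u7) - (φ u7) * (ψ (y2 + y3 + ((-1) : ℚ) • τ + ((-1) : ℚ) • β))) • (y1 + (2 : ℚ) • y2 + (2 : ℚ) • y3 + y4 + ((-1) : ℚ) • τ + ((-4) : ℚ) • β)) = 0 := by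
    intro φ ψ hw
    have h1 := congrArg (ct φ ψ) h
    rw [map_add (ct φ ψ), map_add (ct φ ψ), map_add (ct φ ψ), map_add (ct φ ψ), map_add (ct φ ψ), map_add (ct φ ψ), map_add (ct φ ψ), map_add (ct φ ψ), map_zero, hw, add_zero, ct_mul3, ct_mul3, ct_mul3, ct_mul3, ct_mul3, ct_mul3, ct_mul3, ct_mul3, ← map_add (ExteriorAlgebra.ι ℚ), ← map_add (ExteriorAlgebra.ι ℚ), ← map_add (ExteriorAlgebra.ι ℚ), ← map_add (ExteriorAlgebra.ι ℚ), ← map_add (ExteriorAlgebra.ι ℚ), ← map_add (ExteriorAlgebra.ι ℚ), ← map_add (ExteriorAlgebra.ι ℚ)] at h1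
    exact (ExteriorAlgebra.ι_eq_zero_iff _).mp h1
  have e01 : (1 : ℚ) • u1 + (1 : ℚ) • u6 + ((-1) * φ0 u1 + (-1) * φ0 u6) • y0 + ((-1) * φ1 u1 + (-1) * φ1 u6) • y1 + ((-1) * φ0 u1 + φ0 u2 + φ0 u7 + (-1) * φ1 u0 + (-1) * φ1 u6) • y2 + (φ0 u5 + (-1) * φ0 u6 + φ0 u7 + (-1) * φ1 u0 + (-1) * φ1 u5) • y3 + ((-1) * φ0 u4 + φ0 u5 + (-1) * φ1 u0 + φ1 u4 + (-1) * φ1 u5) • y4 + ((-1) * φ0 u5 + (-1) * φ0 u6 + (-1) * φ0 u7 + φ1 u0 + φ1 u5 + φ1 u6) • τ + (φ0 u1 + (-1) * φ0 u2 + φ0 u4 + (-1) * φ0 u5 + 2 * φ0 u6 + (-1) * φ0 u7 + 2 * φ1 u0 + φ1 u1 + (-1) * φ1 u4 + φ1 u5 + φ1 u6) • β = 0 := by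
    have h1 := key w01
    simp only [map_add, map_smul, smul_eq_mul, f00, f01, f02, f03, f04, g0τ, g0β, f10, f11, f12, f13, f14, g1τ, g1β, f20, f21, f22, f23, f24, g2τ, g2β, f30, f31, f32, f33, f34, g3τ, g3β, f40, f41, f42, f43, f44, g4τ, g4β] at h1
    linear_combination (norm := module) h1
  have e02 : (1 : ℚ) • u0 + (1 : ℚ) • u6 + ((-1) * φ0 u0 + (-1) * φ0 u6) • y0 + (φ0 u1 + (-1) * φ0 u2 + (-1) * φ0 u7 + (-1) * φ2 u1 + (-1) * φ2 u6) • y1 + ((-1) * φ2 u0 + (-1) * φ2 u6) • y2 + ((-1) * φ0 u2 + φ0 u3 + (-1) * φ0 u6 + (-1) * φ2 u0 + (-1) * φ2 u5) • y3 + ((-1) * φ0 u4 + (-1) * φ0 u7 + (-1) * φ2 u0 + φ2 u4 + (-1) * φ2 u5) • y4 + ((-1) * φ0 u6 + (-1) * φ0 u7 + φ2 u0 + φ2 u5 + φ2 u6) • τ + (φ0 u0 + (-1) * φ0 u1 + φ0 u2 + (-1) *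 φ0 u3 + φ0 u4 + 2 * φ0 u6 + 2 * φ0 u7 + 2 * φ2 u0 + φ2 u1 + (-1) * φ2 u4 + φ2 u5 + φ2 u6) • β = 0 := by
    have h1 := key w02
    simp only [map_add, map_smul, smul_eq_mul, f00, f01, f02, f03, f04, g0τ, g0β, f10, f11, f12, f13, f14, g1τ, g1β, f20, f21, f22, f23, f24, g2τ, g2β, f30, f31, f32, f33, f34, g3τ, g3β, f40, f41, f42, f43, f44, g4τ, g4β] at h1
    linear_combination (norm := module) h1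
  have e03 : (1 : ℚ) • u0 + (1 : ℚ) • u5 + ((-1) * φ0 u0 + (-1) * φ0 u5) • y0 + ((-1) * φ0 u5 + φ0 u6 + (-1) * φ0 u7 + (-1) * φ3 u1 + (-1) * φ3 u6) • y1 + (φ0 u2 + (-1) * φ0 u3 + φ0 u6 + (-1) * φ3 u0 + (-1) * φ3 u6) • y2 + ((-1) * φ3 u0 + (-1) * φ3 u5) • y3 + ((-1) * φ0 u3 + (-1) * φ0 u7 + (-1) * φ3 u0 + φ3 u4 + (-1) * φ3 u5) • y4 + (φ0 u5 + (-1) * φ0 u6 + (-1) * φ0 u7 + φ3 u0 + φ3 u5 + φ3 u6) • τ + (φ0 u0 + (-1) * φ0 u2 + φ0 u3 + φ0 u5 + (-1) * φ0 u6 + 2 * φ0 u7 + 2 * φ3 u0 + φ3 u1 + (-1) * φ3 u4 + φ3 u5 + φ3 u6) • β = 0 := by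
    have h1 := key w03
    simp only [map_add, map_smul, smul_eq_mul, f00, f01, f02, f03, f04, g0τ, g0β, f10, f11, f12, f13, f14, g1τ, g1β, f20, f21, f22, f23, f24, g2τ, g2β, f30, f31, f32, f33, f34, g3τ, g3β, f40, f41, f42, f43, f44, g4τ, g4β] at h1
    linear_combination (norm := module) h1
  have e04 : (1 : ℚ) • u0 + ((-1) : ℚ) • u4 + (1 : ℚ) • u5 + ((-1) * φ0 u0 + φ0 u4 + (-1) * φ0 u5) • y0 + (φ0 u4 + (-1) * φ0 u5 + (-1) * φ4 u1 + (-1) * φ4 u6) • y1 + (φ0 u4 + φ0 u7 + (-1) * φ4 u0 + (-1) * φ4 u6) • y2 + (φ0 u3 + φ0 u7 + (-1) * φ4 u0 + (-1) * φ4 u5) • y3 + ((-1) * φ4 u0 + φ4 u4 + (-1) * φ4 u5) • y4 + ((-1) * φ0 u4 + φ0 u5 + (-1) * φ0 u7 + φ4 u0 + φ4 u5 + φ4 u6) • τ + (φ0 u0 + (-1) * φ0 u3 + (-2) * φ0 u4 + φ0 u5 + (-1) * φ0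 u7 + 2 * φ4 u0 + φ4 u1 + (-1) * φ4 u4 + φ4 u5 + φ4 u6) • β = 0 := by
    have h1 := key w04
    simp only [map_add, map_smul, smul_eq_mul, f00, f01, f02, f03, f04, g0τ, g0β, f10, f11, f12, f13, f14, g1τ, g1β, f20, f21, f22, f23, f24, g2τ, g2β, f30, f31, f32, f33, f34, g3τ, g3β, f40, f41, f42, f43, f44, g4τ, g4β] at h1
    linear_combination (norm := module) h1
  have e12 : ((-1) : ℚ) • u1 + (1 : ℚ) • u2 + (1 : ℚ) • u7 + ((-1) * φ1 u0 + (-1) * φ1 u6 + φ2 u1 + φ2 u6) • y0 + (φ1 u1 + (-1) * φ1 u2 + (-1) * φ1 u7) • y1 + (φ2 u1 + (-1) * φ2 u2 + (-1) * φ2 u7) • y2 + ((-1) * φ1 u2 + φ1 u3 + (-1) * φ1 u6 + (-1) * φ2 u5 + φ2 u6 + (-1) * φ2 u7) • y3 + ((-1) * φ1 u4 + (-1) * φ1 u7 + φ2 u4 + (-1) * φ2 u5) • y4 + ((-1) * φ1 u6 + (-1) * φ1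 u7 + φ2 u5 + φ2 u6 + φ2 u7) • τ + (φ1 u0 + (-1) * φ1 u1 + φ1 u2 + (-1) * φ1 u3 + φ1 u4 + 2 * φ1 u6 + 2 * φ1 u7 + (-1) * φ2 u1 + φ2 u2 + (-1) * φ2 u4 + φ2 u5 + (-2) * φ2 u6 + φ2 u7) • β = 0 := by
    have h1 := key w12
    simp only [map_add, map_smul, smul_eq_mul, f00, f01, f02, f03, f04, g0τ, g0β, f10, f11, f12, f13, f14, g1τ, g1β, f20, f21, f22, f23, f24, g2τ, g2β, f30, f31, f32, f33, f34, g3τ, g3β, f40, f41, f42, f43, f44, g4τ, g4β] at h1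
    linear_combination (norm := module) h1
  have e13 : (1 : ℚ) • u5 + ((-1) : ℚ) • u6 + (1 : ℚ) • u7 + ((-1) * φ1 u0 + (-1) * φ1 u5 + φ3 u1 + φ3 u6) • y0 + ((-1) * φ1 u5 + φ1 u6 + (-1) * φ1 u7) • y1 + (φ1 u2 + (-1) * φ1 u3 + φ1 u6 + φ3 u1 + (-1) * φ3 u2 + (-1) * φ3 u7) • y2 + ((-1) * φ3 u5 + φ3 u6 + (-1) * φ3 u7) • y3 + ((-1) * φ1 u3 + (-1) * φ1 u7 + φ3 u4 + (-1) * φ3 u5) • y4 + (φ1 u5 + (-1) * φ1 u6 + (-1) * φ1 u7 + φ3 u5 + φ3 u6 + φ3 u7) • τ + (φ1 u0 + (-1) * φ1 u2 + φ1 u3 + φ1 u5 + (-1) * φ1 u6 + 2 * φ1 u7 + (-1) * φ3 u1 + φ3 u2 + (-1) * φ3 u4 + φ3 u5 + (-2) * φ3 u6 + φ3 u7) • β = 0 := by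
    have h1 := key w13
    simp only [map_add, map_smul, smul_eq_mul, f00, f01, f02, f03, f04, g0τ, g0β, f10, f11, f12, f13, f14, g1τ, g1β, f20, f21, f22, f23, f24, g2τ, g2β, f30, f31, f32, f33, f34, g3τ, g3β, f40, f41, f42, f43, f44, g4τ, g4β] at h1
    linear_combination (norm := module) h1
  have e14 : ((-1) : ℚ) • u4 + (1 : ℚ) • u5 + ((-1) * φ1 u0 + φ1 u4 + (-1) * φ1 u5 + φ4 u1 + φ4 u6) • y0 + (φ1 u4 + (-1) * φ1 u5) • y1 + (φ1 u4 + φ1 u7 + φ4 u1 + (-1) * φ4 u2 + (-1) * φ4 u7) • y2 + (φ1 u3 + φ1 u7 + (-1) * φ4 u5 + φ4 u6 + (-1) * φ4 u7) • y3 + (φ4 u4 + (-1) * φ4 u5) • y4 + ((-1) * φ1 u4 + φ1 u5 + (-1) * φ1 u7 + φ4 u5 + φ4 u6 + φ4 u7) • τ + (φ1 u0 + (-1) * φ1 u3 + (-2) * φ1 u4 + φ1 u5 + (-1) * φ1 u7 + (-1) * φ4 u1 + φ4 u2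 + (-1) * φ4 u4 + φ4 u5 + (-2) * φ4 u6 + φ4 u7) • β = 0 := by
    have h1 := key w14
    simp only [map_add, map_smul, smul_eq_mul, f00, f01, f02, f03, f04, g0τ, g0β, f10, f11, f12, f13, f14, g1τ, g1β, f20, f21, f22, f23, f24, g2τ, g2β, f30, f31, f32, f33, f34, g3τ, g3β, f40, f41, f42, f43, f44, g4τ, g4β] at h1
    linear_combination (norm := module) h1
  have e23 : ((-1) : ℚ) • u2 + (1 : ℚ) • u3 + ((-1) : ℚ) • u6 + ((-1) * φ2 u0 + (-1) * φ2 u5 + φ3 u0 + φ3 u6) • y0 + ((-1) * φ2 u5 + φ2 u6 + (-1) * φ2 u7 + (-1) * φ3 u1 + φ3 u2 + φ3 u7) • y1 + (φ2 u2 + (-1) * φ2 u3 + φ2 u6) • y2 + (φ3 u2 + (-1) * φ3 u3 + φ3 u6) • y3 + ((-1) * φ2 u3 + (-1) * φ2 u7 + φ3 u4 + φ3 u7) • y4 + (φ2 u5 + (-1) * φ2 u6 + (-1) * φ2 u7 + φ3 u6 + φ3 u7) • τ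 + (φ2 u0 + (-1) * φ2 u2 + φ2 u3 + φ2 u5 + (-1) * φ2 u6 + 2 * φ2 u7 + (-1) * φ3 u0 + φ3 u1 + (-1) * φ3 u2 + φ3 u3 + (-1) * φ3 u4 + (-2) * φ3 u6 + (-2) * φ3 u7) • β = 0 := by
    have h1 := key w23
    simp only [map_add, map_smul, smul_eq_mul, f00, f01, f02, f03, f04, g0τ, g0β, f10, f11, f12, f13, f14, g1τ, g1β, f20, f21, f22, f23, f24, g2τ, g2β, f30, f31, f32, f33, f34, g3τ, g3β, f40, f41, f42, f43, f44, g4τ, g4β] at h1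
    linear_combination (norm := module) h1
  have e24 : ((-1) : ℚ) • u4 + ((-1) : ℚ) • u7 + ((-1) * φ2 u0 + φ2 u4 + (-1) * φ2 u5 + φ4 u0 + φ4 u6) • y0 + (φ2 u4 + (-1) * φ2 u5 + (-1) * φ4 u1 + φ4 u2 + φ4 u7) • y1 + (φ2 u4 + φ2 u7) • y2 + (φ2 u3 + φ2 u7 + φ4 u2 + (-1) * φ4 u3 + φ4 u6) • y3 + (φ4 u4 + φ4 u7) • y4 + ((-1) * φ2 u4 + φ2 u5 + (-1) * φ2 u7 + φ4 u6 + φ4 u7) • τ + (φ2 u0 + (-1) * φ2 u3 + (-2) * φ2 u4 + φ2 u5 + (-1) * φ2 u7 + (-1) * φ4 u0 + φ4 u1 + (-1) * φ4 u2 + φ4 u3 + (-1) * φ4 u4 + (-2) * φ4 u6 + (-2) * φ4 u7) • β = 0 := by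
    have h1 := key w24
    simp only [map_add, map_smul, smul_eq_mul, f00, f01, f02, f03, f04, g0τ, g0β, f10, f11, f12, f13, f14, g1τ, g1β, f20, f21, f22, f23, f24, g2τ, g2β, f30, f31, f32, f33, f34, g3τ, g3β, f40, f41, f42, f43, f44, g4τ, g4β] at h1
    linear_combination (norm := module) h1
  have e34 : ((-1) : ℚ) • u3 + ((-1) : ℚ) • u7 + ((-1) * φ3 u0 + φ3 u4 + (-1) * φ3 u5 + φ4 u0 + φ4 u5) • y0 + (φ3 u4 + (-1) * φ3 u5 + φ4 u5 + (-1) * φ4 u6 + φ4 u7) • y1 + (φ3 u4 + φ3 u7 + (-1) * φ4 u2 + φ4 u3 + (-1) * φ4 u6) • y2 + (φ3 u3 + φ3 u7) • y3 + (φ4 u3 + φ4 u7) • y4 + ((-1) * φ3 u4 + φ3 u5 + (-1) * φ3 u7 + (-1) * φ4 u5 + φ4 u6 + φ4 u7) • τ + (φ3 u0 + (-1) * φ3 u3 + (-2) * φ3 u4 + φ3 u5 + (-1) * φ3 u7 + (-1) * φ4 u0 + φ4 u2 + (-1)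 * φ4 u3 + (-1) * φ4 u5 + φ4 u6 + (-2) * φ4 u7) • β = 0 := by
    have h1 := key w34
    simp only [map_add, map_smul, smul_eq_mul, f00, f01, f02, f03, f04, g0τ, g0β, f10, f11, f12, f13, f14, g1τ, g1β, f20, f21, f22, f23, f24, g2τ, g2β, f30, f31, f32, f33, f34, g3τ, g3β, f40, f41, f42, f43, f44, g4τ, g4β] at h1
    linear_combination (norm := module) h1
  clear key h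
  have s0 : (-1) * φ0 u1 + φ0 u2 + φ0 u7 + (-1) * φ1 u0 + (-1) * φ1 u6 + φ2 u1 + φ2 u6 = 0 := by
    have := congrArg φ2 e01
    simp only [map_add, map_sub, map_neg, map_smul, smul_eq_mul, map_zero, f00, f01, f02, f03, f04, g0τ, g0β, f10, f11, f12, f13, f14, g1τ, g1β, f20, f21, f22, f23, f24, g2τ, g2β, f30, f31, f32, f33, f34, g3τ, g3β, f40, f41, f42, f43, f44, g4τ, g4β] at this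
    linear_combination this
  have S0 : ∀ v : V, ((-1) * φ0 u1 + φ0 u2 + φ0 u7 + (-1) * φ1 u0 + (-1) * φ1 u6 + φ2 u1 + φ2 u6) • v = 0 := fun v => by rw [s0, zero_smul]
  have s1 : φ0 u5 + (-1) * φ0 u6 + φ0 u7 + (-1) * φ1 u0 + (-1) * φ1 u5 + φ3 u1 + φ3 u6 = 0 := by
    have := congrArg φ3 e01
    simp only [map_add, map_sub, map_neg, map_smul, smul_eq_mul, map_zero, f00, f01, f02, f03, f04, g0τ, g0β, f10, f11, f12, f13, f14, g1τ, g1β, f20, f21, f22, f23, f24, g2τ, g2β, f30, f31, f32, f33, f34, g3τ, g3β, f40, f41, f42, f43, f44, g4τ, g4β] at this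
    linear_combination this
  have S1 : ∀ v : V, (φ0 u5 + (-1) * φ0 u6 + φ0 u7 + (-1) * φ1 u0 + (-1) * φ1 u5 + φ3 u1 + φ3 u6) • v = 0 := fun v => by rw [s1, zero_smul]
  have s2 : (-1) * φ0 u4 + φ0 u5 + (-1) * φ1 u0 + φ1 u4 + (-1) * φ1 u5 + φ4 u1 + φ4 u6 = 0 := by
    have := congrArg φ4 e01
    simp only [map_add, map_sub, map_neg, map_smul, smul_eq_mul, map_zero, f00, f01, f02, f03, f04, g0τ, g0β, f10, f11, f12, f13, f14, g1τ, g1β, f20, f21, f22, f23, f24, g2τ, g2β, f30, f31, f32, f33, f34, g3τ, g3β, f40, f41, f42, f43, f44, g4τ, g4β] at this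
    linear_combination this
  have S2 : ∀ v : V, ((-1) * φ0 u4 + φ0 u5 + (-1) * φ1 u0 + φ1 u4 + (-1) * φ1 u5 + φ4 u1 + φ4 u6) • v = 0 := fun v => by rw [s2, zero_smul]
  have s3 : (-1) * φ0 u2 + φ0 u3 + (-1) * φ0 u6 + (-1) * φ2 u0 + (-1) * φ2 u5 + φ3 u0 + φ3 u6 = 0 := by
    have := congrArg φ3 e02
    simp only [map_add, map_sub, map_neg, map_smul, smul_eq_mul, map_zero, f00, f01, f02, f03, f04, g0τ, g0β, f10, f11, f12, f13, f14, g1τ, g1β, f20, f21, f22, f23, f24, g2τ, g2β, f30, f31, f32, f33, f34, g3τ, g3β, f40, f41, f42, f43, f44, g4τ, g4β] at this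
    linear_combination this
  have S3 : ∀ v : V, ((-1) * φ0 u2 + φ0 u3 + (-1) * φ0 u6 + (-1) * φ2 u0 + (-1) * φ2 u5 + φ3 u0 + φ3 u6) • v = 0 := fun v => by rw [s3, zero_smul]
  have s4 : (-1) * φ0 u4 + (-1) * φ0 u7 + (-1) * φ2 u0 + φ2 u4 + (-1) * φ2 u5 + φ4 u0 + φ4 u6 = 0 := by
    have := congrArg φ4 e02
    simp only [map_add, map_sub, map_neg, map_smul, smul_eq_mul, map_zero, f00, f01, f02, f03, f04, g0τ, g0β, f10, f11, f12, f13, f14, g1τ, g1β, f20, f21, f22, f23, f24, g2τ, g2β, f30, f31, f32, f33, f34, g3τ, g3β, f40, f41, f42, f43, f44, g4τ, g4β] at this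
    linear_combination this
  have S4 : ∀ v : V, ((-1) * φ0 u4 + (-1) * φ0 u7 + (-1) * φ2 u0 + φ2 u4 + (-1) * φ2 u5 + φ4 u0 + φ4 u6) • v = 0 := fun v => by rw [s4, zero_smul]
  have s5 : (-1) * φ0 u3 + (-1) * φ0 u7 + (-1) * φ3 u0 + φ3 u4 + (-1) * φ3 u5 + φ4 u0 + φ4 u5 = 0 := by
    have := congrArg φ4 e03
    simp only [map_add, map_sub, map_neg, map_smul, smul_eq_mul, map_zero, f00, f01, f02, f03, f04, g0τ, g0β, f10, f11, f12, f13, f14, g1τ, g1β, f20, f21, f22, f23, f24, g2τ, g2β, f30, f31, f32, f33, f34, g3τ, g3β, f40, f41, f42, f43, f44, g4τ, g4β] at this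
    linear_combination this
  have S5 : ∀ v : V, ((-1) * φ0 u3 + (-1) * φ0 u7 + (-1) * φ3 u0 + φ3 u4 + (-1) * φ3 u5 + φ4 u0 + φ4 u5) • v = 0 := fun v => by rw [s5, zero_smul]
  have s6 : (-1) * φ1 u2 + φ1 u3 + (-1) * φ1 u6 + (-1) * φ2 u5 + φ2 u6 + (-1) * φ2 u7 + (-1) * φ3 u1 + φ3 u2 + φ3 u7 = 0 := by
    have := congrArg φ3 e12
    simp only [map_add, map_sub, map_neg, map_smul, smul_eq_mul, map_zero, f00, f01, f02, f03, f04, g0τ, g0β, f10, f11, f12, f13, f14, g1τ, g1β, f20, f21, f22, f23, f24, g2τ, g2β, f30, f31, f32, f33, f34, g3τ, g3β, f40, f41, f42, f43, f44, g4τ, g4β] at this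
    linear_combination this
  have S6 : ∀ v : V, ((-1) * φ1 u2 + φ1 u3 + (-1) * φ1 u6 + (-1) * φ2 u5 + φ2 u6 + (-1) * φ2 u7 + (-1) * φ3 u1 + φ3 u2 + φ3 u7) • v = 0 := fun v => by rw [s6, zero_smul]
  have s7 : (-1) * φ1 u4 + (-1) * φ1 u7 + φ2 u4 + (-1) * φ2 u5 + (-1) * φ4 u1 + φ4 u2 + φ4 u7 = 0 := by
    have := congrArg φ4 e12
    simp only [map_add, map_sub, map_neg, map_smul, smul_eq_mul, map_zero, f00, f01, f02, f03, f04, g0τ, g0β, f10, f11, f12, f13, f14, g1τ, g1β, f20, f21, f22, f23, f24, g2τ, g2β, f30, f31, f32, f33, f34, g3τ, g3β, f40, f41, f42, f43, f44, g4τ, g4β] at this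
    linear_combination this
  have S7 : ∀ v : V, ((-1) * φ1 u4 + (-1) * φ1 u7 + φ2 u4 + (-1) * φ2 u5 + (-1) * φ4 u1 + φ4 u2 + φ4 u7) • v = 0 := fun v => by rw [s7, zero_smul]
  have s8 : (-1) * φ1 u3 + (-1) * φ1 u7 + φ3 u4 + (-1) * φ3 u5 + φ4 u5 + (-1) * φ4 u6 + φ4 u7 = 0 := by
    have := congrArg φ4 e13
    simp only [map_add, map_sub, map_neg, map_smul, smul_eq_mul, map_zero, f00, f01, f02, f03, f04, g0τ, g0β, f10, f11, f12, f13, f14, g1τ, g1β, f20, f21, f22, f23, f24, g2τ, g2β, f30, f31, f32, f33, f34, g3τ, g3β, f40, f41, f42, f43, f44, g4τ, g4β] at this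
    linear_combination this
  have S8 : ∀ v : V, ((-1) * φ1 u3 + (-1) * φ1 u7 + φ3 u4 + (-1) * φ3 u5 + φ4 u5 + (-1) * φ4 u6 + φ4 u7) • v = 0 := fun v => by rw [s8, zero_smul]
  have s9 : (-1) * φ2 u3 + (-1) * φ2 u7 + φ3 u4 + φ3 u7 + (-1) * φ4 u2 + φ4 u3 + (-1) * φ4 u6 = 0 := by
    have := congrArg φ4 e23
    simp only [map_add, map_sub, map_neg, map_smul, smul_eq_mul, map_zero, f00, f01, f02, f03, f04, g0τ, g0β, f10, f11, f12, f13, f14, g1τ, g1β, f20, f21, f22, f23, f24, g2τ, g2β, f30, f31, f32, f33, f34, g3τ, g3β, f40, f41, f42, f43, f44, g4τ, g4β] at this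
    linear_combination this
  have S9 : ∀ v : V, ((-1) * φ2 u3 + (-1) * φ2 u7 + φ3 u4 + φ3 u7 + (-1) * φ4 u2 + φ4 u3 + (-1) * φ4 u6) • v = 0 := fun v => by rw [s9, zero_smul]
  obtain ⟨t00, t01⟩ := hind (φ0 u4 + (-1) * φ0 u5 + (-1) * φ0 u6 + φ1 u5 + (-1) * φ1 u6 + (-1) * φ1 u7 + φ2 u0 + (-1) * φ2 u4 + 2 * φ2 u5 + φ2 u6 + (-1) * φ2 u7 + φ3 u5 + φ3 u6 + φ3 u7 + (-1) * φ4 u0 + (-1) * φ4 u5 + φ4 u7) ((-1) * φ0 u1 + φ0 u2 + 3 * φ0 u4 + (-1) * φ0 u5 + 2 * φ0 u6 + 3 * φ0 u7 + φ1 u0 + (-1) * φ1 u2 + φ1 u3 + φ1 u5 + (-1) * φ1 u6 + 2 * φ1 u7 + 3 * φ2 u0 + φ2 u1 + (-1) * φ2 u3 + (-3) * φ2 u4 + 2 * φ2 u5 + φ2 u6 + (-1) * φ2 u7 + (-1) * φ3 u1 + φ3 u2 + (-1) * φ3 u4 + φ3 u5 + (-2) * φ3 u6 + φ3 u7 + (-3) * φ4 u0 + (-1) * φ4 u2 + φ4 u3 + (-1)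 * φ4 u5 + (-3) * φ4 u6 + (-2) * φ4 u7) (by
    linear_combination (norm := module) (1 : ℚ) • e02 + ((-1) : ℚ) • e04 + (1 : ℚ) • e13 + (1 : ℚ) • e24 + ((-1) : ℚ) • S1 y0 + ((-1) : ℚ) • S4 y0 + (1 : ℚ) • S0 y1 + ((-1) : ℚ) • S2 y1 + ((-1) : ℚ) • S7 y1 + ((-1) : ℚ) • S4 y2 + (1 : ℚ) • S6 y2 + ((-1) : ℚ) • S3 y3 + ((-1) : ℚ) • S5 y3 + (1 : ℚ) • S9 y3 + ((-1) : ℚ) • S4 y4 + ((-1) : ℚ) • S8 y4)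
  obtain ⟨t10, t11⟩ := hind ((-1) * φ0 u5 + (-1) * φ0 u6 + (-1) * φ0 u7 + φ1 u0 + φ1 u5 + (-1) * φ1 u7 + 2 * φ2 u5 + (-1) * φ3 u4 + φ3 u5 + φ3 u6 + (-1) * φ4 u5 + φ4 u6 + φ4 u7) (φ0 u1 + (-1) * φ0 u2 + φ0 u4 + (-1) * φ0 u5 + 2 * φ0 u6 + (-1) * φ0 u7 + 3 * φ1 u0 + φ1 u2 + (-1) * φ1 u3 + φ1 u5 + 3 * φ1 u6 + 2 * φ1 u7 + φ2 u0 + (-1) * φ2 u1 + φ2 u3 + (-1) * φ2 u4 + 2 * φ2 u5 + (-3) * φ2 u6 + 3 * φ2 u7 + φ3 u1 + (-1) * φ3 u2 + (-3) * φ3 u4 + φ3 u5 + (-2) * φ3 u6 + (-3) * φ3 u7 + (-1) * φ4 u0 + φ4 u2 + (-1) * φ4 u3 + (-1) * φ4 u5 + φ4 u6 + (-2) * φ4 u7) (by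
    linear_combination (norm := module) (1 : ℚ) • e01 + (1 : ℚ) • e12 + (1 : ℚ) • e23 + (1 : ℚ) • e34 + ((-1) : ℚ) • S0 y0 + ((-1) : ℚ) • S3 y0 + ((-1) : ℚ) • S5 y0 + ((-1) : ℚ) • S6 y1 + ((-1) : ℚ) • S8 y1 + ((-1) : ℚ) • S0 y2 + ((-1) : ℚ) • S9 y2 + ((-1) : ℚ) • S1 y3 + ((-1) : ℚ) • S6 y3 + ((-1) : ℚ) • S2 y4 + ((-1) : ℚ) • S7 y4 + ((-1) : ℚ) • S9 y4)
  have S10 : ∀ v : V, (φ0 u4 + (-1) * φ0 u5 + (-1) * φ0 u6 + φ1 u5 + (-1) * φ1 u6 + (-1) * φ1 u7 + φ2 u0 + (-1) * φ2 u4 + 2 * φ2 u5 + φ2 u6 + (-1) * φ2 u7 + φ3 u5 + φ3 u6 + φ3 u7 + (-1) * φ4 u0 + (-1) * φ4 u5 + φ4 u7) • v = 0 := fun v => by rw [t00, zero_smul]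
  have S11 : ∀ v : V, ((-1) * φ0 u1 + φ0 u2 + 3 * φ0 u4 + (-1) * φ0 u5 + 2 * φ0 u6 + 3 * φ0 u7 + φ1 u0 + (-1) * φ1 u2 + φ1 u3 + φ1 u5 + (-1) * φ1 u6 + 2 * φ1 u7 + 3 * φ2 u0 + φ2 u1 + (-1) * φ2 u3 + (-3) * φ2 u4 + 2 * φ2 u5 + φ2 u6 + (-1) * φ2 u7 + (-1) * φ3 u1 + φ3 u2 + (-1) * φ3 u4 + φ3 u5 + (-2) * φ3 u6 + φ3 u7 + (-3) * φ4 u0 + (-1) * φ4 u2 + φ4 u3 + (-1) * φ4 u5 + (-3) * φ4 u6 + (-2) * φ4 u7) • v = 0 := fun v => by rw [t01, zero_smul]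
  have S12 : ∀ v : V, ((-1) * φ0 u5 + (-1) * φ0 u6 + (-1) * φ0 u7 + φ1 u0 + φ1 u5 + (-1) * φ1 u7 + 2 * φ2 u5 + (-1) * φ3 u4 + φ3 u5 + φ3 u6 + (-1) * φ4 u5 + φ4 u6 + φ4 u7) • v = 0 := fun v => by rw [t10, zero_smul]
  have h0 : u0 = (φ0 u0 + (-2) * φ0 u2 + φ0 u4 + φ2 u0 + (-1) * φ2 u4) • ((1 : ℚ) • (y0 + ((-1) : ℚ) • β)) +
      (2 * φ0 u2 + (-1) * φ0 u3 + (-1) * φ0 u4 + φ0 u5 + φ0 u7 + (-1) * φ1 u0 + φ1 u3 + (-1) * φ1 u5 + (-1) * φ2 u0 + φ2 u4) • ((1 : ℚ) • (y0 + ((-1) : ℚ) • y2 + ((-1) : ℚ) • y3 + ((-1) : ℚ) • y4 + τ + β)) +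
      (2 * φ0 u2 + 2 * φ0 u5 + 4 * φ0 u7 + (-2) * φ1 u0 + φ1 u3 + (-2) * φ1 u5 + (-1) * φ1 u7) • (((-1) : ℚ) • (((-1) : ℚ) • y0 + ((-1) : ℚ) • y1 + ((-1) : ℚ) • y2 + ((-1) : ℚ) • y3 + ((-1) : ℚ) • y4 + τ + (3 : ℚ) • β)) +
      ((-1) * φ0 u2 + (-1) * φ0 u5 + (-2) * φ0 u7 + φ1 u0 + φ1 u5 + φ1 u7) • (((-1) : ℚ) • (((-1) : ℚ) • y0 + ((-2) : ℚ) • y1 + ((-2) : ℚ) • y2 + ((-2) : ℚ) • y3 + ((-1) : ℚ) • y4 + (2 : ℚ) • τ + (5 : ℚ) • β)) +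
      (φ0 u2 + (-1) * φ0 u4 + φ0 u5 + (-1) * φ1 u0 + (-1) * φ1 u5 + φ2 u4) • ((1 : ℚ) • (y0 + ((-1) : ℚ) • τ)) +
      ((-2) * φ0 u2 + φ0 u3 + φ0 u4 + (-2) * φ0 u5 + (-2) * φ0 u7 + 2 * φ1 u0 + (-1) * φ1 u3 + 2 * φ1 u5 + (1/2) * φ1 u7 + (-1) * φ2 u4) • ((1 : ℚ) • (y0 + ((-1) : ℚ) • y2 + ((-2) : ℚ) • y3 + ((-1) : ℚ) • y4 + τ + (2 : ℚ) • β)) +
      ((-2) * φ0 u5 + (-2) * φ0 u7 + φ1 u0 + (-1) * φ1 u3 + 2 * φ1 u5) • (((-1) : ℚ) • (y1 + ((-1) : ℚ) • τ)) +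
      (φ0 u2 + (-1) * φ0 u4 + 2 * φ0 u5 + 2 * φ0 u7 + (-2) * φ1 u0 + φ1 u3 + φ1 u4 + (-2) * φ1 u5) • (((-1) : ℚ) • (y0 + (2 : ℚ) • y1 + y2 + ((-1) : ℚ) • y4 + ((-2) : ℚ) • β)) +
      ((-1) * φ0 u2 + (-3) * φ0 u5 + (-4) * φ0 u7 + 3 * φ1 u0 + (-2) * φ1 u3 + 3 * φ1 u5 + (-1) * φ2 u0 + φ4 u0) • ((1 : ℚ) • (y4 + ((-1) : ℚ) • τ)) +
      ((-1) * φ0 u2 + φ0 u4 + (-1) * φ0 u5 + (-1) * φ0 u7 + φ1 u0 + (-1) * φ1 u4 + φ1 u5 + (1/2) * φ1 u7) • ((1 : ℚ) • (((-1) : ℚ) • y0 + ((-2) : ℚ) • y1 + ((-1) : ℚ) • y2 + y4 + τ + (2 : ℚ) • β)) := by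
    linear_combination (norm := module) (1 : ℚ) • e04 + ((-1) : ℚ) • e14 + (1 : ℚ) • S2 y0 + (1 : ℚ) • S2 y1 + (1 : ℚ) • S4 y2 + ((-1) : ℚ) • S7 y2 + ((-5/3) : ℚ) • S0 y3 + (2 : ℚ) • S3 y3 + ((17/3) : ℚ) • S4 y3 + (2 : ℚ) • S5 y3 + ((-5/3) : ℚ) • S6 y3 + (1 : ℚ) • S8 y3 + ((-5/3) : ℚ) • S9 y3 + ((5/3) : ℚ) • S10 y3 + ((5/3) : ℚ) • S11 y3 + ((-1/3) : ℚ) • S12 y3 + ((2/3) : ℚ) • S0 τ + ((-1) : ℚ) • S3 τ + ((-5/3) : ℚ) • S4 τ + ((-1) : ℚ) • S5 τ + ((2/3) : ℚ) • S6 τ + ((2/3) : ℚ) • S9 τ + ((-2/3) : ℚ) • S10 τ + ((-2/3) : ℚ) • S11 τ + ((1/3) : ℚ) • S12 τ + (1 : ℚ) • S0 β + ((-1) : ℚ) • S2 β + ((-1) : ℚ) • S3 β + ((-5) : ℚ) • S4 β + ((-1) : ℚ) • S5 β + (1 : ℚ) • S6 β + (1 : ℚ) • S7 β + ((-1) : ℚ) • S8 β + (1 : ℚ) • S9 β + ((-1) :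 ℚ) • S10 β + ((-1) : ℚ) • S11 β
  have h1 : u1 = ((-2) * φ0 u1 + 2 * φ0 u2 + 2 * φ0 u5 + 4 * φ0 u7 + (-2) * φ1 u0 + φ1 u1 + φ1 u3 + (-2) * φ1 u5 + (-1) * φ1 u7) • ((1 : ℚ) • (y1 + ((-1) : ℚ) • β)) +
      (φ0 u1 + (-2) * φ0 u2 + φ0 u4 + (-2) * φ0 u5 + (-3) * φ0 u7 + 2 * φ1 u0 + (-1) * φ1 u3 + (-1) * φ1 u4 + 2 * φ1 u5 + φ1 u7) • ((1 : ℚ) • (y0 + (2 : ℚ) • y1 + y2 + ((-3) : ℚ) • β)) +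
      (2 * φ0 u2 + 2 * φ0 u5 + 4 * φ0 u7 + (-2) * φ1 u0 + φ1 u3 + (-2) * φ1 u5 + (-1) * φ1 u7) • (((-1) : ℚ) • (((-1) : ℚ) • y0 + ((-1) : ℚ) • y1 + ((-1) : ℚ) • y2 + ((-1) : ℚ) • y3 + ((-1) : ℚ) • y4 + τ + (3 : ℚ) • β)) +
      ((-1) * φ0 u2 + (-1) * φ0 u5 + (-2) * φ0 u7 + φ1 u0 + φ1 u5 + φ1 u7) • (((-1) : ℚ) • (((-1) : ℚ) • y0 + ((-2) : ℚ) • y1 + ((-2) : ℚ) • y2 + ((-2) : ℚ) • y3 + ((-1) : ℚ) • y4 + (2 : ℚ) • τ + (5 : ℚ) • β)) +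
      (φ0 u1 + (-1) * φ0 u2 + (-1) * φ0 u5 + (-2) * φ0 u7 + φ1 u0 + φ1 u5 + (-1) * φ2 u1) • (((-1) : ℚ) • (y2 + ((-1) : ℚ) • τ)) +
      ((1/2) * φ1 u7) • (((-1) : ℚ) • (y0 + (2 : ℚ) • y1 + (3 : ℚ) • y2 + (2 : ℚ) • y3 + y4 + ((-1) : ℚ) • τ + ((-6) : ℚ) • β)) +
      ((-1) * φ0 u2 + (-3) * φ0 u5 + (-4) * φ0 u7 + 3 * φ1 u0 + (-2) * φ1 u3 + 3 * φ1 u5 + (-1) * φ2 u0 + φ4 u0) • ((1 : ℚ) • (y4 + ((-1) : ℚ) • τ)) +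
      ((-1) * φ0 u2 + φ0 u4 + (-1) * φ0 u5 + (-1) * φ0 u7 + φ1 u0 + (-1) * φ1 u4 + φ1 u5 + (1/2) * φ1 u7) • ((1 : ℚ) • (((-1) : ℚ) • y0 + ((-2) : ℚ) • y1 + ((-1) : ℚ) • y2 + y4 + τ + (2 : ℚ) • β)) := by
    linear_combination (norm := module) (1 : ℚ) • e01 + ((-1) : ℚ) • e02 + (1 : ℚ) • e04 + ((-1) : ℚ) • e14 + (1 : ℚ) • S2 y0 + ((-1) : ℚ) • S0 y1 + (1 : ℚ) • S2 y1 + ((-1) : ℚ) • S0 y2 + (1 : ℚ) • S4 y2 + ((-1) : ℚ) • S7 y2 + ((-2/3) : ℚ) • S0 y3 + (1 : ℚ) • S3 y3 + ((8/3) : ℚ) • S4 y3 + (1 : ℚ) • S5 y3 + ((-2/3) : ℚ) • S6 y3 + ((-2/3) : ℚ) • S9 y3 + ((2/3) : ℚ) • S10 y3 + ((2/3) : ℚ) • S11 y3 + ((-1/3) : ℚ) • S12 y3 + (1 : ℚ) • S0 y4 + ((-1) : ℚ) • S3 y4 + ((-3) : ℚ) • S4 y4 + ((-1) : ℚ) • S5 y4 + (1 : ℚ) • S6 y4 + ((-1) :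 ℚ) • S8 y4 + (1 : ℚ) • S9 y4 + ((-1) : ℚ) • S10 y4 + ((-1) : ℚ) • S11 y4 + ((2/3) : ℚ) • S0 τ + ((4/3) : ℚ) • S4 τ + ((-1/3) : ℚ) • S6 τ + (1 : ℚ) • S8 τ + ((-1/3) : ℚ) • S9 τ + ((1/3) : ℚ) • S10 τ + ((1/3) : ℚ) • S11 τ + ((1/3) : ℚ) • S12 τ + (1 : ℚ) • S0 β + ((-1) : ℚ) • S2 β + ((-2) : ℚ) • S4 β + (1 : ℚ) • S7 β
  have h2 : u2 = ((-1) * φ0 u2 + φ0 u4 + 2 * φ1 u0 + (-2) * φ1 u2 + φ2 u2 + (-1) * φ2 u4) • ((1 : ℚ) • (y2 + ((-1) : ℚ) • β)) +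
      ((-1) * φ1 u0 + φ1 u2) • ((1 : ℚ) • (y1 + (2 : ℚ) • y2 + y3 + ((-3) : ℚ) • β)) +
      (2 * φ0 u2 + 2 * φ0 u5 + 4 * φ0 u7 + (-2) * φ1 u0 + φ1 u3 + (-2) * φ1 u5 + (-1) * φ1 u7) • (((-1) : ℚ) • (((-1) : ℚ) • y0 + ((-1) : ℚ) • y1 + ((-1) : ℚ) • y2 + ((-1) : ℚ) • y3 + ((-1) : ℚ) • y4 + τ + (3 : ℚ) • β)) +
      ((-1) * φ0 u2 + (-1) * φ0 u5 + (-2) * φ0 u7 + φ1 u0 + φ1 u5 + φ1 u7) • (((-1) : ℚ) • (((-1) : ℚ) • y0 + ((-2) : ℚ) • y1 + ((-2) : ℚ) • y2 + ((-2) : ℚ) • y3 + ((-1) : ℚ) • y4 + (2 : ℚ) • τ + (5 : ℚ) • β)) +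
      (φ0 u2 + (-1) * φ0 u4 + φ0 u5 + (-1) * φ1 u0 + (-1) * φ1 u5 + φ2 u4) • ((1 : ℚ) • (y0 + ((-1) : ℚ) • τ)) +
      ((-2) * φ0 u2 + φ0 u3 + φ0 u4 + (-2) * φ0 u5 + (-2) * φ0 u7 + 2 * φ1 u0 + (-1) * φ1 u3 + 2 * φ1 u5 + (1/2) * φ1 u7 + (-1) * φ2 u4) • ((1 : ℚ) • (y0 + ((-1) : ℚ) • y2 + ((-2) : ℚ) • y3 + ((-1) : ℚ) • y4 + τ + (2 : ℚ) • β)) +
      ((-2) * φ0 u5 + (-2) * φ0 u7 + φ1 u0 + (-1) * φ1 u3 + 2 * φ1 u5) • (((-1) : ℚ) • (y1 + ((-1) : ℚ) • τ)) +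
      (φ0 u2 + (-1) * φ0 u4 + 2 * φ0 u5 + 2 * φ0 u7 + (-2) * φ1 u0 + φ1 u3 + φ1 u4 + (-2) * φ1 u5) • (((-1) : ℚ) • (y0 + (2 : ℚ) • y1 + y2 + ((-1) : ℚ) • y4 + ((-2) : ℚ) • β)) +
      (2 * φ0 u2 + (-2) * φ0 u4 + 2 * φ0 u5 + 2 * φ0 u7 + (-3) * φ1 u0 + φ1 u2 + φ1 u3 + (-2) * φ1 u5 + 2 * φ2 u4 + (-1) * φ3 u2) • (((-1) : ℚ) • (y3 + ((-1) : ℚ) • τ)) +
      (φ0 u2 + (-1) * φ0 u3 + φ0 u5 + φ0 u7 + (-1) * φ1 u0 + φ1 u3 + (-1) * φ1 u5) • (((-1) : ℚ) • (((-1) : ℚ) • y0 + y2 + (2 : ℚ) • y3 + y4 + ((-2) : ℚ) • β)) +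
      ((-1) * φ0 u2 + (-3) * φ0 u5 + (-4) * φ0 u7 + 3 * φ1 u0 + (-2) * φ1 u3 + 3 * φ1 u5 + (-1) * φ2 u0 + φ4 u0) • ((1 : ℚ) • (y4 + ((-1) : ℚ) • τ)) +
      ((-1) * φ0 u2 + φ0 u4 + (-1) * φ0 u5 + (-1) * φ0 u7 + φ1 u0 + (-1) * φ1 u4 + φ1 u5 + (1/2) * φ1 u7) • ((1 : ℚ) • (((-1) : ℚ) • y0 + ((-2) : ℚ) • y1 + ((-1) : ℚ) • y2 + y4 + τ + (2 : ℚ) • β)) := by
    linear_combination (norm := module) (1 : ℚ) • e01 + ((-2) : ℚ) • e02 + (1 : ℚ) • e03 + (1 : ℚ) • e04 + (1 : ℚ) • e12 + ((-1) : ℚ) • e13 + ((-1) : ℚ) • e14 + ((-1) : ℚ) • S0 y0 + (1 : ℚ) • S1 y0 + (1 : ℚ) • S2 y0 + ((-2) : ℚ) • S0 y1 + (1 : ℚ) • S1 y1 + (1 : ℚ) • S2 y1 + ((-1) : ℚ) • S0 y2 + (1 : ℚ) • S3 y2 + (1 : ℚ) • S4 y2 + ((-1) : ℚ) • S6 y2 + ((-1) : ℚ) • S7 y2 + ((-1)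 : ℚ) • S1 y3 + (2 : ℚ) • S3 y3 + (1 : ℚ) • S5 y3 + ((-1) : ℚ) • S6 y3 + ((-1) : ℚ) • S8 y3 + ((-2/3) : ℚ) • S0 y4 + (1 : ℚ) • S3 y4 + ((8/3) : ℚ) • S4 y4 + ((-2/3) : ℚ) • S6 y4 + (1 : ℚ) • S8 y4 + ((-2/3) : ℚ) • S9 y4 + ((2/3) : ℚ) • S10 y4 + ((2/3) : ℚ) • S11 y4 + ((-1/3) : ℚ) • S12 y4 + ((-1/3) : ℚ) • S0 τ + (1 : ℚ) • S1 τ + ((-1) : ℚ) • S3 τ + ((4/3) : ℚ) • S4 τ + ((2/3) : ℚ) • S6 τ + (1 : ℚ) • S8 τ + ((-1/3) : ℚ) • S9 τ + ((1/3) : ℚ) • S10 τ + ((1/3) : ℚ) • S11 τ + ((1/3) : ℚ) • S12 τ + (4 : ℚ) • S0 β + ((-1) : ℚ) • S1 β + ((-1) : ℚ) • S2 β + ((-3) : ℚ) • S3 β + ((-5) : ℚ) • S4 β + ((-1) : ℚ) • S5 β + (2 : ℚ) • S6 β + (1 : ℚ) • S7 β + ((-1) : ℚ) • S8 β + (1 : ℚ) • S9 β + ((-1) : ℚ) • S10 β + ((-1) : ℚ) • S11 β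
  have h3 : u3 = ((-2) * φ0 u1 + 2 * φ0 u2 + 2 * φ0 u5 + 4 * φ0 u7 + (-2) * φ1 u0 + φ1 u3 + (-2) * φ1 u5 + (-1) * φ1 u7 + 2 * φ2 u1 + (-2) * φ2 u3 + φ3 u3) • ((1 : ℚ) • (y3 + ((-1) : ℚ) • β)) +
      (φ0 u1 + (-3) * φ0 u2 + φ0 u3 + φ0 u4 + (-3) * φ0 u5 + (-4) * φ0 u7 + 3 * φ1 u0 + (-2) * φ1 u3 + 3 * φ1 u5 + φ1 u7 + (-1) * φ2 u1 + φ2 u3 + (-1) * φ2 u4) • ((1 : ℚ) • (y2 + (2 : ℚ) • y3 + y4 + ((-3) : ℚ) • β)) +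
      (2 * φ0 u2 + 2 * φ0 u5 + 4 * φ0 u7 + (-2) * φ1 u0 + φ1 u3 + (-2) * φ1 u5 + (-1) * φ1 u7) • (((-1) : ℚ) • (((-1) : ℚ) • y0 + ((-1) : ℚ) • y1 + ((-1) : ℚ) • y2 + ((-1) : ℚ) • y3 + ((-1) : ℚ) • y4 + τ + (3 : ℚ) • β)) +
      ((-1) * φ0 u2 + (-1) * φ0 u5 + (-2) * φ0 u7 + φ1 u0 + φ1 u5 + φ1 u7) • (((-1) : ℚ) • (((-1) : ℚ) • y0 + ((-2) : ℚ) • y1 + ((-2) : ℚ) • y2 + ((-2) : ℚ) • y3 + ((-1) : ℚ) • y4 + (2 : ℚ) • τ + (5 : ℚ) • β)) +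
      (φ0 u2 + (-1) * φ0 u4 + φ0 u5 + (-1) * φ1 u0 + (-1) * φ1 u5 + φ2 u4) • ((1 : ℚ) • (y0 + ((-1) : ℚ) • τ)) +
      ((-2) * φ0 u2 + φ0 u3 + φ0 u4 + (-2) * φ0 u5 + (-2) * φ0 u7 + 2 * φ1 u0 + (-1) * φ1 u3 + 2 * φ1 u5 + (1/2) * φ1 u7 + (-1) * φ2 u4) • ((1 : ℚ) • (y0 + ((-1) : ℚ) • y2 + ((-2) : ℚ) • y3 + ((-1) : ℚ) • y4 + τ + (2 : ℚ) • β)) +
      (φ0 u1 + (-1) * φ0 u2 + (-1) * φ0 u5 + (-2) * φ0 u7 + φ1 u0 + φ1 u5 + (-1) * φ2 u1) • (((-1) : ℚ) • (y2 + ((-1) : ℚ) • τ)) +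
      ((1/2) * φ1 u7) • (((-1) : ℚ) • (y0 + (2 : ℚ) • y1 + (3 : ℚ) • y2 + (2 : ℚ) • y3 + y4 + ((-1) : ℚ) • τ + ((-6) : ℚ) • β)) := by
    linear_combination (norm := module) (1 : ℚ) • e01 + ((-1) : ℚ) • e02 + (1 : ℚ) • e03 + (1 : ℚ) • e12 + ((-1) : ℚ) • e13 + (1 : ℚ) • e23 + ((-1) : ℚ) • S0 y0 + (1 : ℚ) • S1 y0 + ((-1) : ℚ) • S3 y0 + ((-1) : ℚ) • S0 y1 + (1 : ℚ) • S1 y1 + ((-1) : ℚ) • S6 y1 + ((-1) : ℚ) • S0 y2 + (1 : ℚ) • S3 y2 + ((-1) : ℚ) • S6 y2 + ((-1) : ℚ) • S1 y3 + (1 : ℚ) • S3 y3 + ((-1) : ℚ) • S6 y3 + ((1/3) : ℚ) • S0 y4 + (1 : ℚ) • S3 y4 + ((5/3) : ℚ) • S4 y4 + ((-2/3) : ℚ) • S6 y4 + (1 : ℚ) • S8 y4 + ((-2/3) : ℚ) • S9 y4 + ((-1/3) : ℚ) • S10 y4 + ((2/3) : ℚ) • S11 y4 + ((2/3) : ℚ) • S12 y4 + (3 : ℚ) • S0 τ + ((-3)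 : ℚ) • S3 τ + ((-6) : ℚ) • S4 τ + ((-2) : ℚ) • S5 τ + (2 : ℚ) • S6 τ + ((-2) : ℚ) • S8 τ + (2 : ℚ) • S9 τ + ((-2) : ℚ) • S10 τ + ((-2) : ℚ) • S11 τ + ((2/3) : ℚ) • S0 β + ((-1) : ℚ) • S1 β + ((4/3) : ℚ) • S4 β + (1 : ℚ) • S5 β + ((5/3) : ℚ) • S6 β + ((-1/3) : ℚ) • S9 β + ((4/3) : ℚ) • S10 β + ((1/3) : ℚ) • S11 β + ((-2/3) : ℚ) • S12 β
  have h4 : u4 = ((-2) * φ0 u2 + 2 * φ0 u4 + φ2 u0 + (-1) * φ2 u4 + (-1) * φ4 u0 + φ4 u4) • ((1 : ℚ) • (y4 + ((-1) : ℚ) • β)) +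
      (2 * φ0 u2 + (-2) * φ0 u4 + 2 * φ0 u5 + 2 * φ0 u7 + (-2) * φ1 u0 + φ1 u3 + φ1 u4 + (-2) * φ1 u5) • ((1 : ℚ) • (((-1) : ℚ) • y0 + ((-1) : ℚ) • y1 + ((-1) : ℚ) • y2 + y4 + τ + β)) +
      (2 * φ0 u2 + 2 * φ0 u5 + 4 * φ0 u7 + (-2) * φ1 u0 + φ1 u3 + (-2) * φ1 u5 + (-1) * φ1 u7) • (((-1) : ℚ) • (((-1) : ℚ) • y0 + ((-1) : ℚ) • y1 + ((-1) : ℚ) • y2 + ((-1) : ℚ) • y3 + ((-1) : ℚ) • y4 + τ + (3 : ℚ) • β)) +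
      ((-1) * φ0 u2 + (-1) * φ0 u5 + (-2) * φ0 u7 + φ1 u0 + φ1 u5 + φ1 u7) • (((-1) : ℚ) • (((-1) : ℚ) • y0 + ((-2) : ℚ) • y1 + ((-2) : ℚ) • y2 + ((-2) : ℚ) • y3 + ((-1) : ℚ) • y4 + (2 : ℚ) • τ + (5 : ℚ) • β)) +
      (φ0 u2 + (-1) * φ0 u4 + φ0 u5 + (-1) * φ1 u0 + (-1) * φ1 u5 + φ2 u4) • ((1 : ℚ) • (y0 + ((-1) : ℚ) • τ)) +
      ((-2) * φ0 u2 + φ0 u3 + φ0 u4 + (-2) * φ0 u5 + (-2) * φ0 u7 + 2 * φ1 u0 + (-1) * φ1 u3 + 2 * φ1 u5 + (1/2) * φ1 u7 + (-1) * φ2 u4) • ((1 : ℚ) • (y0 + ((-1) : ℚ) • y2 + ((-2) : ℚ) • y3 + ((-1) : ℚ) • y4 + τ + (2 : ℚ) • β)) +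
      (2 * φ0 u2 + (-2) * φ0 u4 + 2 * φ0 u5 + 2 * φ0 u7 + (-3) * φ1 u0 + φ1 u2 + φ1 u3 + (-2) * φ1 u5 + 2 * φ2 u4 + (-1) * φ3 u2) • (((-1) : ℚ) • (y3 + ((-1) : ℚ) • τ)) +
      (φ0 u2 + (-1) * φ0 u3 + φ0 u5 + φ0 u7 + (-1) * φ1 u0 + φ1 u3 + (-1) * φ1 u5) • (((-1) : ℚ) • (((-1) : ℚ) • y0 + y2 + (2 : ℚ) • y3 + y4 + ((-2) : ℚ) • β)) +
      ((-1) * φ0 u2 + (-3) * φ0 u5 + (-4) * φ0 u7 + 3 * φ1 u0 + (-2) * φ1 u3 + 3 * φ1 u5 + (-1) * φ2 u0 + φ4 u0) • ((1 : ℚ) • (y4 + ((-1) : ℚ) • τ)) +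
      ((-1) * φ0 u2 + φ0 u4 + (-1) * φ0 u5 + (-1) * φ0 u7 + φ1 u0 + (-1) * φ1 u4 + φ1 u5 + (1/2) * φ1 u7) • ((1 : ℚ) • (((-1) : ℚ) • y0 + ((-2) : ℚ) • y1 + ((-1) : ℚ) • y2 + y4 + τ + (2 : ℚ) • β)) := by
    linear_combination (norm := module) (1 : ℚ) • e03 + ((-1) : ℚ) • e04 + (1 : ℚ) • S1 y1 + ((-1) : ℚ) • S2 y1 + (1 : ℚ) • S3 y2 + ((-1) : ℚ) • S4 y2 + ((2/3) : ℚ) • S0 y3 + ((-1) : ℚ) • S1 y3 + ((-5/3) : ℚ) • S4 y3 + ((-1) : ℚ) • S5 y3 + ((-1/3) : ℚ) • S6 y3 + ((-1) : ℚ) • S8 y3 + ((2/3) : ℚ) • S9 y3 + ((1/3) : ℚ) • S10 y3 + ((-2/3) : ℚ) • S11 y3 + ((-2/3) : ℚ) • S12 y3 + ((-1) : ℚ) • S5 y4 + ((-7/3) : ℚ) • S0 τ + (1 : ℚ) • S1 τ + (1 : ℚ) • S3 τ + ((25/3) : ℚ) • S4 τ + (2 : ℚ) • S5 τ + ((-4/3) : ℚ) • S6 τ + (3 : ℚ) • S8 τ +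 ((-7/3) : ℚ) • S9 τ + ((4/3) : ℚ) • S10 τ + ((7/3) : ℚ) • S11 τ + ((1/3) : ℚ) • S12 τ + ((5/3) : ℚ) • S0 β + ((-1) : ℚ) • S1 β + (1 : ℚ) • S2 β + ((-2) : ℚ) • S3 β + ((-17/3) : ℚ) • S4 β + ((5/3) : ℚ) • S6 β + ((-2) : ℚ) • S8 β + ((5/3) : ℚ) • S9 β + ((-5/3) : ℚ) • S10 β + ((-5/3) : ℚ) • S11 β + ((1/3) : ℚ) • S12 β
  have h5 : u5 = (φ0 u2 + (-1) * φ0 u4 + φ0 u5 + (-1) * φ1 u0 + (-1) * φ1 u5 + φ2 u4) • ((1 : ℚ) • (y0 + ((-1) : ℚ) • τ)) +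
      ((-2) * φ0 u2 + φ0 u3 + φ0 u4 + (-2) * φ0 u5 + (-2) * φ0 u7 + 2 * φ1 u0 + (-1) * φ1 u3 + 2 * φ1 u5 + (1/2) * φ1 u7 + (-1) * φ2 u4) • ((1 : ℚ) • (y0 + ((-1) : ℚ) • y2 + ((-2) : ℚ) • y3 + ((-1) : ℚ) • y4 + τ + (2 : ℚ) • β)) +
      ((-2) * φ0 u5 + (-2) * φ0 u7 + φ1 u0 + (-1) * φ1 u3 + 2 * φ1 u5) • ((1 : ℚ) • (y1 + ((-1) : ℚ) • τ)) +
      (φ0 u2 + (-1) * φ0 u4 + 2 * φ0 u5 + 2 * φ0 u7 + (-2) * φ1 u0 + φ1 u3 + φ1 u4 + (-2) * φ1 u5) • ((1 : ℚ) • (y0 + (2 : ℚ) • y1 + y2 + ((-1) : ℚ) • y4 + ((-2) : ℚ) • β)) +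
      (2 * φ0 u2 + (-2) * φ0 u4 + 2 * φ0 u5 + 2 * φ0 u7 + (-3) * φ1 u0 + φ1 u2 + φ1 u3 + (-2) * φ1 u5 + 2 * φ2 u4 + (-1) * φ3 u2) • (((-1) : ℚ) • (y3 + ((-1) : ℚ) • τ)) +
      (φ0 u2 + (-1) * φ0 u3 + φ0 u5 + φ0 u7 + (-1) * φ1 u0 + φ1 u3 + (-1) * φ1 u5) • (((-1) : ℚ) • (((-1) : ℚ) • y0 + y2 + (2 : ℚ) • y3 + y4 + ((-2) : ℚ) • β)) +
      ((-1) * φ0 u2 + (-3) * φ0 u5 + (-4) * φ0 u7 + 3 * φ1 u0 + (-2) * φ1 u3 + 3 * φ1 u5 + (-1) * φ2 u0 + φ4 u0) • (((-1) : ℚ) • (y4 + ((-1) : ℚ) • τ)) +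
      ((-1) * φ0 u2 + φ0 u4 + (-1) * φ0 u5 + (-1) * φ0 u7 + φ1 u0 + (-1) * φ1 u4 + φ1 u5 + (1/2) * φ1 u7) • (((-1) : ℚ) • (((-1) : ℚ) • y0 + ((-2) : ℚ) • y1 + ((-1) : ℚ) • y2 + y4 + τ + (2 : ℚ) • β)) +
      (φ1 u2 + φ1 u5 + (-1) * φ3 u2 + φ3 u5) • ((1 : ℚ) • (y0 + y1 + ((-1) : ℚ) • τ + ((-1) : ℚ) • β)) +
      (φ1 u0 + (-1) * φ1 u2 + (-1) * φ1 u3 + (-1) * φ1 u7 + φ3 u2 + (-1) * φ3 u5) • ((1 : ℚ) • (y0 + y1 + ((-1) : ℚ) • y3 + ((-1) : ℚ) • y4)) := by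
    linear_combination (norm := module) (1 : ℚ) • e03 + ((-1) : ℚ) • e04 + (1 : ℚ) • e14 + ((-1) : ℚ) • S2 y0 + (1 : ℚ) • S1 y1 + ((-1) : ℚ) • S2 y1 + ((-1) : ℚ) • S0 y2 + (2 : ℚ) • S3 y2 + (2 : ℚ) • S4 y2 + (1 : ℚ) • S5 y2 + ((-1) : ℚ) • S6 y2 + (1 : ℚ) • S7 y2 + (1 : ℚ) • S8 y2 + ((-1) : ℚ) • S9 y2 + (1 : ℚ) • S10 y2 + (1 : ℚ) • S11 y2 + ((-1) : ℚ) • S5 y3 + (1 : ℚ) • S8 y3 + ((-7/3) : ℚ) • S0 y4 + (1 : ℚ) • S1 y4 + (2 : ℚ) • S3 y4 + ((22/3) : ℚ) • S4 y4 + (1 : ℚ) • S5 y4 + ((-4/3) : ℚ) • S6 y4 + (3 : ℚ) • S8 y4 + ((-7/3) : ℚ) • S9 y4 + ((4/3) : ℚ) • S10 y4 + ((7/3) : ℚ) • S11 y4 + ((1/3) : ℚ) • S12 y4 + ((1/3) : ℚ) • S0 τ + ((-1) : ℚ) • S3 τ + ((-4/3) : ℚ) • S4 τ + ((1/3) : ℚ) • S6 τ + ((-1) : ℚ) • S8 τ + ((1/3) : ℚ) • S9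 τ + ((-1/3) : ℚ) • S10 τ + ((-1/3) : ℚ) • S11 τ + ((-1/3) : ℚ) • S12 τ + (3 : ℚ) • S0 β + ((-2) : ℚ) • S1 β + (1 : ℚ) • S2 β + ((-3) : ℚ) • S3 β + ((-8) : ℚ) • S4 β + ((-1) : ℚ) • S5 β + (2 : ℚ) • S6 β + ((-1) : ℚ) • S7 β + ((-4) : ℚ) • S8 β + (3 : ℚ) • S9 β + ((-2) : ℚ) • S10 β + ((-3) : ℚ) • S11 β
  have h6 : u6 = ((-2) * φ0 u5 + (-2) * φ0 u7 + φ1 u0 + (-1) * φ1 u3 + 2 * φ1 u5) • ((1 : ℚ) • (y1 + ((-1) : ℚ) • τ)) +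
      (φ0 u2 + (-1) * φ0 u4 + 2 * φ0 u5 + 2 * φ0 u7 + (-2) * φ1 u0 + φ1 u3 + φ1 u4 + (-2) * φ1 u5) • ((1 : ℚ) • (y0 + (2 : ℚ) • y1 + y2 + ((-1) : ℚ) • y4 + ((-2) : ℚ) • β)) +
      (φ0 u1 + (-1) * φ0 u2 + (-1) * φ0 u5 + (-2) * φ0 u7 + φ1 u0 + φ1 u5 + (-1) * φ2 u1) • ((1 : ℚ) • (y2 + ((-1) : ℚ) • τ)) +
      ((1/2) * φ1 u7) • ((1 : ℚ) • (y0 + (2 : ℚ) • y1 + (3 : ℚ) • y2 + (2 : ℚ) • y3 + y4 + ((-1) : ℚ) • τ + ((-6) : ℚ) • β)) +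
      ((-1) * φ0 u2 + (-3) * φ0 u5 + (-4) * φ0 u7 + 3 * φ1 u0 + (-2) * φ1 u3 + 3 * φ1 u5 + (-1) * φ2 u0 + φ4 u0) • (((-1) : ℚ) • (y4 + ((-1) : ℚ) • τ)) +
      ((-1) * φ0 u2 + φ0 u4 + (-1) * φ0 u5 + (-1) * φ0 u7 + φ1 u0 + (-1) * φ1 u4 + φ1 u5 + (1/2) * φ1 u7) • (((-1) : ℚ) • (((-1) : ℚ) • y0 + ((-2) : ℚ) • y1 + ((-1) : ℚ) • y2 + y4 + τ + (2 : ℚ) • β)) +
      (2 * φ0 u5 + (-2) * φ0 u6 + 2 * φ0 u7 + (-1) * φ1 u0 + φ1 u3 + (-2) * φ1 u5 + φ1 u6) • ((1 : ℚ) • (y1 + y2 + ((-1) : ℚ) • τ + ((-1) : ℚ) • β)) +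
      ((-1) * φ0 u5 + φ0 u6 + (-1) * φ0 u7 + φ1 u0 + (-1) * φ1 u3 + φ1 u5 + (-1) * φ1 u7) • ((1 : ℚ) • (y0 + (2 : ℚ) • y1 + (2 : ℚ) • y2 + y3 + ((-1) : ℚ) • τ + ((-4) : ℚ) • β)) := by
    linear_combination (norm := module) (1 : ℚ) • e02 + ((-1) : ℚ) • e04 + (1 : ℚ) • e14 + ((-1) : ℚ) • S2 y0 + (1 : ℚ) • S0 y1 + ((-1) : ℚ) • S2 y1 + (1 : ℚ) • S0 y2 + ((-1) : ℚ) • S4 y2 + (1 : ℚ) • S7 y2 + ((2/3) : ℚ) • S0 y3 + ((-1) : ℚ) • S3 y3 + ((-8/3) : ℚ) • S4 y3 + ((-1) : ℚ) • S5 y3 + ((2/3) : ℚ) • S6 y3 + ((2/3) : ℚ) • S9 y3 + ((-2/3) : ℚ) • S10 y3 + ((-2/3) : ℚ) • S11 y3 + ((1/3) : ℚ) • S12 y3 + ((-1) : ℚ) • S0 y4 + (1 : ℚ) • S3 y4 + (3 : ℚ) • S4 y4 + (1 : ℚ) • S5 y4 + ((-1) : ℚ) • S6 y4 + (1 : ℚ) • S8 y4 + ((-1) : ℚ) • S9 y4 + (1 :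 ℚ) • S10 y4 + (1 : ℚ) • S11 y4 + ((-2/3) : ℚ) • S0 τ + ((-4/3) : ℚ) • S4 τ + ((1/3) : ℚ) • S6 τ + ((-1) : ℚ) • S8 τ + ((1/3) : ℚ) • S9 τ + ((-1/3) : ℚ) • S10 τ + ((-1/3) : ℚ) • S11 τ + ((-1/3) : ℚ) • S12 τ + ((-1) : ℚ) • S0 β + (1 : ℚ) • S2 β + (2 : ℚ) • S4 β + ((-1) : ℚ) • S7 β
  have h7 : u7 = (φ0 u2 + (-1) * φ0 u4 + φ0 u5 + (-1) * φ1 u0 + (-1) * φ1 u5 + φ2 u4) • (((-1) : ℚ) • (y0 + ((-1) : ℚ) • τ)) +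
      ((-2) * φ0 u2 + φ0 u3 + φ0 u4 + (-2) * φ0 u5 + (-2) * φ0 u7 + 2 * φ1 u0 + (-1) * φ1 u3 + 2 * φ1 u5 + (1/2) * φ1 u7 + (-1) * φ2 u4) • (((-1) : ℚ) • (y0 + ((-1) : ℚ) • y2 + ((-2) : ℚ) • y3 + ((-1) : ℚ) • y4 + τ + (2 : ℚ) • β)) +
      (φ0 u1 + (-1) * φ0 u2 + (-1) * φ0 u5 + (-2) * φ0 u7 + φ1 u0 + φ1 u5 + (-1) * φ2 u1) • ((1 : ℚ) • (y2 + ((-1) : ℚ) • τ)) +
      ((1/2) * φ1 u7) • ((1 : ℚ) • (y0 + (2 : ℚ) • y1 + (3 : ℚ) • y2 + (2 : ℚ) • y3 + y4 + ((-1) : ℚ) • τ + ((-6) : ℚ) • β)) +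
      (2 * φ0 u2 + (-2) * φ0 u4 + 2 * φ0 u5 + 2 * φ0 u7 + (-3) * φ1 u0 + φ1 u2 + φ1 u3 + (-2) * φ1 u5 + 2 * φ2 u4 + (-1) * φ3 u2) • ((1 : ℚ) • (y3 + ((-1) : ℚ) • τ)) +
      (φ0 u2 + (-1) * φ0 u3 + φ0 u5 + φ0 u7 + (-1) * φ1 u0 + φ1 u3 + (-1) * φ1 u5) • ((1 : ℚ) • (((-1) : ℚ) • y0 + y2 + (2 : ℚ) • y3 + y4 + ((-2) : ℚ) • β)) +
      ((-1) * φ0 u1 + 2 * φ0 u2 + (-1) * φ0 u4 + 2 * φ0 u5 + 3 * φ0 u7 + (-2) * φ1 u0 + (-2) * φ1 u5 + (-2) * φ1 u7 + φ2 u1 + φ2 u4 + φ2 u7) • ((1 : ℚ) • (y2 + y3 + ((-1) : ℚ) • τ + ((-1) : ℚ) • β)) := by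
    linear_combination (norm := module) (1 : ℚ) • e02 + ((-1) : ℚ) • e03 + (1 : ℚ) • e13 + ((-1) : ℚ) • S1 y0 + (1 : ℚ) • S0 y1 + ((-1) : ℚ) • S1 y1 + ((-1) : ℚ) • S3 y2 + (1 : ℚ) • S6 y2 + ((-8/3) : ℚ) • S0 y3 + (1 : ℚ) • S1 y3 + ((17/3) : ℚ) • S4 y3 + (1 : ℚ) • S5 y3 + ((-2/3) : ℚ) • S6 y3 + (2 : ℚ) • S8 y3 + ((-5/3) : ℚ) • S9 y3 + ((5/3) : ℚ) • S10 y3 + ((5/3) : ℚ) • S11 y3 + ((-1/3) : ℚ) • S12 y3 + ((2/3) : ℚ) • S0 y4 + ((-1) : ℚ) • S3 y4 + ((-8/3) : ℚ) • S4 y4 + ((2/3) : ℚ) • S6 y4 + ((-1) : ℚ) • S8 y4 + ((2/3) : ℚ) • S9 y4 + ((-2/3) : ℚ) • S10 y4 + ((-2/3) : ℚ) • S11 y4 + ((1/3) : ℚ) • S12 y4 + (1 : ℚ) • S0 τ + ((-1) : ℚ) • S1 τ + ((-3) : ℚ) • S4 τ + ((-1) : ℚ) • S5 τ + ((-1) : ℚ) • S8 τ + (1 : ℚ) • S9 τ + ((-1) : ℚ) •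 S10 τ + ((-1) : ℚ) • S11 τ + (1 : ℚ) • S1 β + (2 : ℚ) • S3 β + ((-1) : ℚ) • S6 β
  exact ⟨_, _, _, _, _, _, _, _, _, _, _, _, _, _, _, _, _, _, _, _, _, _, _, _, _, _, _, h0, h1, h2, h3, h4, h5, h6, h7⟩

end Pool.Agent.N6
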