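import Pool.Agent.Lib_helper60.N6.KB
import Pool.Agent.Lib_helper60.N6.KA6

/-!
# Point of order six: units, functionals, decomposition
-/

set_option autoImplicit false
set_option linter.unusedSectionVars false
set_option linter.unusedVariables false

open scoped TensorProduct

namespace Pool.Agent.N6

open MK4 Pool.Agent.TN

variable {k : Type*} [Field k] {F : Type*} [Field F] [Algebra k F] {t : k} {x y : F}

/-- a monomial is constant only if the exponents vanish -/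
lemma M_const [CharZero k] (ht : t ≠ 0) (ht1 : t + 1 ≠ 0) (h : G6 t x y)
    {a₀ a₁ a₂ a₃ a₄ : ℤ} {d : k} (hM : M t x y a₀ a₁ a₂ a₃ a₄ = algebraMap k F d) :
    a₀ = 0 ∧ a₁ = 0 ∧ a₂ = 0 ∧ a₃ = 0 ∧ a₄ = 0 := by
  have h1 : mo t a₀ a₁ a₂ a₃ a₄ = cK d := by
    apply io_inj h
    rw [io_mo h, io_c, hM]
  have h2 := ld_mo (t := t) a₀ a₁ a₂ a₃ a₄
  rw [h1, ld_c, mul_zero] at h2
  rcases v_L ht ht1 (a₀ : k) a₁ a₂ a₃ a₄ with ⟨e0, e1, e2, e3, e4⟩ | ⟨i, -, -, hi⟩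
  · exact ⟨by exact_mod_cast e0, by exact_mod_cast e1, by exact_mod_cast e2,
      by exact_mod_cast e3, by exact_mod_cast e4⟩
  · exact absurd h2.symm (ne_of_v hi)

/-- dual functionals -/
theorem dual [CharZero k] (ht : t ≠ 0) (ht1 : t + 1 ≠ 0) (h : G6 t x y) :
    ∃ φ : Fin 5 → FT F →ₗ[ℚ] ℚ, (∀ i, ∀ w ∈ V0 k F, φ i w = 0) ∧
      ∀ i j : Fin 5, φ i (lg (X t x y (Fin.castSucc j))) = if i = j then 1 else 0 := by
  apply exists_dual
  apply indep_lg
  · intro i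
    exact X_ne ht ht1 h _
  · intro e c hc he
    have h1 : mon t x y ![e 0, e 1, e 2, e 3, e 4, 0] = algebraMap k F c := by
      rw [← he]
      unfold mon
      rw [Fin.prod_univ_six, Fin.prod_univ_five]
      show X t x y 0 ^ e 0 * X t x y 1 ^ e 1 * X t x y 2 ^ e 2 * X t x y 3 ^ e 3 *
        X t x y 4 ^ e 4 * X t x y 5 ^ (0 : ℤ) = _
      rw [zpow_zero, mul_one]
      rfl
    rw [mon_M ht ht1 h] at h1
    have hv := val_ne ht ht1 ![e 0, e 1, e 2, e 3, e 4, 0] 0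
    have hv' : algebraMap k F (val t ![e 0, e 1, e 2, e 3, e 4, 0] 0) ≠ 0 :=
      (_root_.map_ne_zero _).mpr hv
    have h2 := M_const (d := c / val t ![e 0, e 1, e 2, e 3, e 4, 0] 0) ht ht1 h (by
      rw [map_div₀, ← h1, eq_div_iff hv', mul_comm]
      rfl)
    obtain ⟨b0, b1, b2, b3, b4⟩ := h2
    have a0 : e 0 - 2 * e 1 + e 2 = 0 := b0
    have a1 : -e 2 + e 3 - e 4 + 0 = 0 := b1
    have a2 : -e 3 + e 4 = 0 := b2
    have a3 : e 1 - e 2 + e 4 - 0 = 0 := b3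
    have a4 : e 2 - e 4 = 0 := b4
    funext i
    fin_cases i
    · show e 0 = 0
      omega
    · show e 1 = 0
      omega
    · show e 2 = 0
      omega
    · show e 3 = 0
      omega
    · show e 4 = 0
      omega

/-- the independence of `t` and `b = t² + t` in `F^* ⊗ ℚ` -/
lemma ind_tb (ht : t ≠ 0) (ht1 : t + 1 ≠ 0)
    (hi : ∀ p q : ℤ, t ^ p * (t + 1) ^ q = 1 → p = 0 ∧ q = 0) (p q : ℚ)
    (h : p • lg (algebraMap k F t) + q • lg (algebraMap k F (t ^ 2 + t)) = 0) :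
    p = 0 ∧ q = 0 := by
  have hT : algebraMap k F t ≠ 0 := (_root_.map_ne_zero _).mpr ht
  have hb := b_ne ht ht1
  have hB : algebraMap k F (t ^ 2 + t) ≠ 0 := (_root_.map_ne_zero _).mpr hb
  have hp := Rat.mul_den_eq_num p
  have hq := Rat.mul_den_eq_num q
  have h1 : lg (algebraMap k F t ^ (p.num * q.den) *
      algebraMap k F (t ^ 2 + t) ^ (q.num * p.den)) = 0 := by
    rw [lgmul (zpow_ne_zero _ hT) (zpow_ne_zero _ hB), lgzpow hT, lgzpow hB]
    generalize lg (algebraMap k F t) = a at h ⊢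
    generalize lg (algebraMap k F (t ^ 2 + t)) = b at h ⊢
    push_cast
    rw [← hp, ← hq]
    have : (p * p.den * q.den : ℚ) • a + (q * q.den * p.den : ℚ) • b =
        ((p.den : ℚ) * q.den) • (p • a + q • b) := by module
    rw [this, h, smul_zero]
  obtain ⟨n, hn, h2⟩ := pow_eq_one_of_lg (mul_ne_zero (zpow_ne_zero _ hT) (zpow_ne_zero _ hB)) h1
  have h3 : (t ^ (p.num * q.den) * (t ^ 2 + t) ^ (q.num * p.den)) ^ n = 1 := by
    apply (algebraMap k F).injective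
    rw [map_pow, map_mul, map_zpow₀, map_zpow₀, h2, map_one]
  have h4 : ∀ a b : ℤ, (t ^ a * (t ^ 2 + t) ^ b) ^ n = t ^ ((a + b) * n) * (t + 1) ^ (b * n) := by
    intro a b
    rw [show t ^ 2 + t = t * (t + 1) by ring, mul_zpow, mul_pow, mul_pow, add_mul, zpow_add₀ ht,
      zpow_mul, zpow_mul, zpow_mul, zpow_natCast, zpow_natCast, zpow_natCast]
    ring
  rw [h4] at h3
  obtain ⟨h5, h6⟩ := hi _ _ h3
  have hn' : (n : ℤ) ≠ 0 := by exact_mod_cast hn.ne'
  have h7 : q.num * p.den = 0 := (mul_eq_zero.mp h6).resolve_right hn'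
  have h8 : p.num * q.den + q.num * p.den = 0 := (mul_eq_zero.mp h5).resolve_right hn'
  have d1 : (p.den : ℤ) ≠ 0 := by exact_mod_cast p.den_nz
  have d2 : (q.den : ℤ) ≠ 0 := by exact_mod_cast q.den_nz
  have h9 : q.num = 0 := (mul_eq_zero.mp h7).resolve_right d1
  have h10 : p.num = 0 := by
    rw [h9, zero_mul, add_zero] at h8
    exact (mul_eq_zero.mp h8).resolve_right d2
  exact ⟨Rat.zero_of_num_zero h10, Rat.zero_of_num_zero h9⟩

/-! ### the logarithms -/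

lemma lg5 (ht : t ≠ 0) (ht1 : t + 1 ≠ 0) (h : G6 t x y) :
    lg (X t x y 5) = (4 : ℚ) • lg (algebraMap k F (t ^ 2 + t)) + lg (algebraMap k F t) -
      lg (X t x y 0) - lg (X t x y 1) - lg (X t x y 2) - lg (X t x y 3) - lg (X t x y 4) := by
  have hT : algebraMap k F t ≠ 0 := (_root_.map_ne_zero _).mpr ht
  have hB : algebraMap k F (t ^ 2 + t) ≠ 0 := (_root_.map_ne_zero _).mpr (b_ne ht ht1)
  have n := X_ne ht ht1 h
  have := congrArg lg (prodX ht ht1 h)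
  rw [lgmul (mul_ne_zero (mul_ne_zero (mul_ne_zero (mul_ne_zero (n 0) (n 1)) (n 2)) (n 3)) (n 4))
    (n 5), lgmul (mul_ne_zero (mul_ne_zero (mul_ne_zero (n 0) (n 1)) (n 2)) (n 3)) (n 4),
    lgmul (mul_ne_zero (mul_ne_zero (n 0) (n 1)) (n 2)) (n 3), lgmul (mul_ne_zero (n 0) (n 1)) (n 2),
    lgmul (n 0) (n 1), lgneg, lgmul (pow_ne_zero 4 hB) hT, lgpow hB, Nat.cast_ofNat] at this
  linear_combination (norm := module) this

lemma lgA (ht : t ≠ 0) (ht1 : t + 1 ≠ 0) (h : G6 t x y) (i : Fin 6) :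
    lg (cA t x y i) = lg (X t x y i) - lg (algebraMap k F (t ^ 2 + t)) :=
  lgdiv (X_ne ht ht1 h i) ((_root_.map_ne_zero _).mpr (b_ne ht ht1))

lemma lgB (ht : t ≠ 0) (ht1 : t + 1 ≠ 0) (h : G6 t x y) (i : Fin 6) :
    lg (cB t x y i) = lg (X t x y i) - lg (algebraMap k F t) :=
  lgdiv (X_ne ht ht1 h i) ((_root_.map_ne_zero _).mpr ht)

lemma lgC (ht : t ≠ 0) (ht1 : t + 1 ≠ 0) (h : G6 t x y) (i : Fin 6) :
    lg (cC t x y i) = lg (X t x y i) + lg (X t x y (i + 1)) -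
      lg (algebraMap k F (t ^ 2 + t)) - lg (algebraMap k F t) := by
  have hT : algebraMap k F t ≠ 0 := (_root_.map_ne_zero _).mpr ht
  have hB : algebraMap k F (t ^ 2 + t) ≠ 0 := (_root_.map_ne_zero _).mpr (b_ne ht ht1)
  have n := X_ne ht ht1 h
  unfold cC
  rw [lgdiv (mul_ne_zero (n _) (n _)) (mul_ne_zero hB hT), lgmul (n _) (n _), lgmul hB hT]
  abel

lemma lgA' [CharZero k] (ht : t ≠ 0) (ht1 : t + 1 ≠ 0) (h : G6 t x y) (i : Fin 6) :
    lg (1 - cA t x y i) = lg (X t x y (i + 5)) + (2 : ℚ) • lg (X t x y i) +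
      lg (X t x y (i + 1)) - (3 : ℚ) • lg (algebraMap k F (t ^ 2 + t)) := by
  have hB : algebraMap k F (t ^ 2 + t) ≠ 0 := (_root_.map_ne_zero _).mpr (b_ne ht ht1)
  have n := X_ne ht ht1 h
  rw [(one ht ht1 h i).1, lgdiv (mul_ne_zero (mul_ne_zero (n _) (pow_ne_zero 2 (n _))) (n _))
    (pow_ne_zero 3 hB), lgmul (mul_ne_zero (n _) (pow_ne_zero 2 (n _))) (n _),
    lgmul (n _) (pow_ne_zero 2 (n _)), lgpow (n _), lgpow hB, Nat.cast_ofNat, Nat.cast_ofNat]

lemma lgB' [CharZero k] (ht : t ≠ 0) (ht1 : t + 1 ≠ 0) (h : G6 t x y) (i : Fin 6) :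
    lg (1 - cB t x y i) = lg (X t x y (i + 5)) + (2 : ℚ) • lg (X t x y i) +
      lg (X t x y (i + 1)) - (2 : ℚ) • lg (algebraMap k F (t ^ 2 + t)) -
      lg (X t x y (i + 3)) := by
  have hB : algebraMap k F (t ^ 2 + t) ≠ 0 := (_root_.map_ne_zero _).mpr (b_ne ht ht1)
  have n := X_ne ht ht1 h
  rw [(one ht ht1 h i).2.1, lgdiv (mul_ne_zero (mul_ne_zero (n _) (pow_ne_zero 2 (n _))) (n _))
    (mul_ne_zero (pow_ne_zero 2 hB) (n _)), lgmul (mul_ne_zero (n _) (pow_ne_zero 2 (n _))) (n _),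
    lgmul (n _) (pow_ne_zero 2 (n _)), lgmul (pow_ne_zero 2 hB) (n _), lgpow (n _), lgpow hB,
    Nat.cast_ofNat]
  abel

lemma lgC' [CharZero k] (ht : t ≠ 0) (ht1 : t + 1 ≠ 0) (h : G6 t x y) (i : Fin 6) :
    lg (1 - cC t x y i) = lg (X t x y i) + lg (X t x y (i + 1)) -
      lg (X t x y (i + 3)) - lg (X t x y (i + 4)) := by
  have n := X_ne ht ht1 h
  rw [(one ht ht1 h i).2.2, lgdiv (neg_ne_zero.mpr (mul_ne_zero (n _) (n _)))
    (mul_ne_zero (n _) (n _)), lgneg, lgmul (n _) (n _), lgmul (n _) (n _)]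
  abel

/-! ### decomposition -/

/-- functions supported on the multiples of `P` -/
def U (t : k) (x y f : F) : Prop :=
  ∃ (d : k) (a₀ a₁ a₂ a₃ a₄ : ℤ), d ≠ 0 ∧ f = algebraMap k F d * M t x y a₀ a₁ a₂ a₃ a₄

/-- the span of the `{f} ⊗ u`, `f` and `1 - f` supported on the multiples of `P` -/
noncomputable def Cu (t : k) (x y : F) : Submodule ℚ (MK4.HK F) :=
  Submodule.span ℚ {z | ∃ (f : F) (u : FT F), U t x y f ∧ U t x y (1 - f) ∧ z = hk (sy f) u}

lemma orb [CharZero k] (ht : t ≠ 0) (ht1 : t + 1 ≠ 0) (hkd : Kd 0 t) (h : G6 t x y) {f : F}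
    (h1 : U t x y f) (h2 : U t x y (1 - f)) : (∃ c : k, f = algebraMap k F c) ∨ Sol t x y f := by
  obtain ⟨d, a₀, a₁, a₂, a₃, a₄, hd, rfl⟩ := h1
  obtain ⟨d', b₀, b₁, b₂, b₃, b₄, hd', h2⟩ := h2
  exact unit_eq ht ht1 hkd h hd hd' (by rw [← h2]; ring)

/-- the basis of the symbols -/
noncomputable def TS (t : k) (x y : F) : Fin 8 → B2 F :=
  ![SA t x y 0, SA t x y 1, SA t x y 2, SA t x y 3, SA t x y 4, SC t x y 0, SC t x y 1,
    SC t x y 2]

/-- the span of the basis symbols and of the constants -/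
noncomputable def DS (t : k) (x y : F) : Submodule ℚ (MK4.HK F) :=
  Submodule.span ℚ {z | ∃ (j : Fin 8) (u : FT F), z = hk (TS t x y j) u} ⊔ KC k F

lemma DS_T (j : Fin 8) (u : FT F) : hk (TS t x y j) u ∈ DS t x y :=
  Submodule.mem_sup_left (Submodule.subset_span ⟨j, u, rfl⟩)

lemma DS_c (c : k) (u : FT F) : hk (sy (algebraMap k F c)) u ∈ DS t x y :=
  Submodule.mem_sup_right (Submodule.subset_span ⟨c, u, rfl⟩)

lemma DS_A [CharZero k] (ht : t ≠ 0) (ht1 : t + 1 ≠ 0) (h : G6 t x y) (i : Fin 6) (u : FT F) :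
    hk (SA t x y i) u ∈ DS t x y := by
  fin_cases i
  · exact DS_T 0 u
  · exact DS_T 1 u
  · exact DS_T 2 u
  · exact DS_T 3 u
  · exact DS_T 4 u
  · have s := sumA ht ht1 h
    have e : SA t x y 5 = sy (algebraMap k F (-t)) + (-1 : ℚ) • SA t x y 0 +
        (-1 : ℚ) • SA t x y 1 + (-1 : ℚ) • SA t x y 2 + (-1 : ℚ) • SA t x y 3 +
        (-1 : ℚ) • SA t x y 4 := by
      rw [map_neg]
      linear_combination (norm := module) s
    show hk (SA t x y 5) u ∈ DS t x y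
    rw [e, hk_add_left, hk_add_left, hk_add_left, hk_add_left, hk_add_left, hk_smul_left,
      hk_smul_left, hk_smul_left, hk_smul_left, hk_smul_left]
    exact Submodule.add_mem _ (Submodule.add_mem _ (Submodule.add_mem _ (Submodule.add_mem _
      (Submodule.add_mem _ (DS_c _ _) (Submodule.smul_mem _ _ (DS_T 0 u)))
      (Submodule.smul_mem _ _ (DS_T 1 u))) (Submodule.smul_mem _ _ (DS_T 2 u)))
      (Submodule.smul_mem _ _ (DS_T 3 u))) (Submodule.smul_mem _ _ (DS_T 4 u))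

lemma DS_C [CharZero k] (ht : t ≠ 0) (ht1 : t + 1 ≠ 0) (h : G6 t x y) (i : Fin 6) (u : FT F) :
    hk (SC t x y i) u ∈ DS t x y := by
  have key : ∀ j : Fin 6, hk (SC t x y j) u ∈ DS t x y → hk (SC t x y (j + 3)) u ∈ DS t x y := by
    intro j hj
    rw [SC_three ht ht1 h, hk_neg_left]
    exact Submodule.neg_mem _ hj
  fin_cases i
  · exact DS_T 5 u
  · exact DS_T 6 u
  · exact DS_T 7 u
  · exact key 0 (DS_T 5 u)
  · exact key 1 (DS_T 6 u)
  · exact key 2 (DS_T 7 u)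

lemma DS_B [CharZero k] (ht : t ≠ 0) (ht1 : t + 1 ≠ 0) (h : G6 t x y) (i : Fin 6) (u : FT F) :
    hk (SB t x y i) u ∈ DS t x y := by
  have key : ∀ j : Fin 6, hk (SB t x y (j + 1)) u ∈ DS t x y := by
    intro j
    have r := R2 ht ht1 h j
    have e : SB t x y (j + 1) = SC t x y j + SC t x y (j + 1) + (-1 : ℚ) • SA t x y j +
        (-1 : ℚ) • SA t x y (j + 2) := by
      linear_combination (norm := module) r
    rw [e, hk_add_left, hk_add_left, hk_add_left, hk_smul_left, hk_smul_left]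
    exact Submodule.add_mem _ (Submodule.add_mem _ (Submodule.add_mem _ (DS_C ht ht1 h _ _)
      (DS_C ht ht1 h _ _)) (Submodule.smul_mem _ _ (DS_A ht ht1 h _ _)))
      (Submodule.smul_mem _ _ (DS_A ht ht1 h _ _))
  have := key (i - 1)
  rwa [sub_add_cancel] at this

lemma DS_of_Sol [CharZero k] (ht : t ≠ 0) (ht1 : t + 1 ≠ 0) (h : G6 t x y) {f : F}
    (hf : Sol t x y f) (u : FT F) : hk (sy f) u ∈ DS t x y := by
  have : CharZero F := charZero_of_injective_algebraMap (algebraMap k F).injective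
  obtain ⟨i, hi⟩ := hf
  obtain ⟨a, b, c⟩ := c_ne1 ht ht1 h i
  rcases hi with hi | hi | hi
  · rcases sy_orb a hi with h1 | h1
    · rw [h1]; exact DS_A ht ht1 h i u
    · rw [h1, hk_neg_left]; exact Submodule.neg_mem _ (DS_A ht ht1 h i u)
  · rcases sy_orb b hi with h1 | h1
    · rw [h1]; exact DS_B ht ht1 h i u
    · rw [h1, hk_neg_left]; exact Submodule.neg_mem _ (DS_B ht ht1 h i u)
  · rcases sy_orb c hi with h1 | h1
    · rw [h1]; exact DS_C ht ht1 h i u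
    · rw [h1, hk_neg_left]; exact Submodule.neg_mem _ (DS_C ht ht1 h i u)

lemma Cu_le [CharZero k] (ht : t ≠ 0) (ht1 : t + 1 ≠ 0) (hkd : Kd 0 t) (h : G6 t x y) :
    Cu t x y ≤ DS t x y := by
  unfold Cu
  rw [Submodule.span_le]
  rintro z ⟨f, u, h1, h2, rfl⟩
  rcases orb ht ht1 hkd h h1 h2 with ⟨c, rfl⟩ | h3
  · exact DS_c c u
  · exact DS_of_Sol ht ht1 h h3 u

/-- elements of a span `∑ T_j ⊗ u_j` -/
lemma span_T {n : ℕ} (T : Fin n → B2 F) {z : MK4.HK F}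
    (hz : z ∈ Submodule.span ℚ {z | ∃ (j : Fin n) (u : FT F), z = hk (T j) u}) :
    ∃ u : Fin n → FT F, z = ∑ j, hk (T j) (u j) := by
  induction hz using Submodule.span_induction with
  | mem z hz =>
    obtain ⟨i, u, rfl⟩ := hz
    refine ⟨fun j => if j = i then u else 0, ?_⟩
    rw [Finset.sum_eq_single i]
    · show hk (T i) u = hk (T i) (if i = i then u else 0)
      rw [if_pos rfl]
    · intro j _ hj
      show hk (T j) (if j = i then u else 0) = 0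
      rw [if_neg hj, hk_zero_right]
    · intro h; exact absurd (Finset.mem_univ i) h
  | zero =>
    refine ⟨0, ?_⟩
    symm
    apply Finset.sum_eq_zero
    intro j _
    rw [Pi.zero_apply, hk_zero_right]
  | add a b _ _ ha hb =>
    obtain ⟨u, rfl⟩ := ha
    obtain ⟨v, rfl⟩ := hb
    refine ⟨u + v, ?_⟩
    simp only [Pi.add_apply, hk_add_right, Finset.sum_add_distrib]
  | smul q a _ ha =>
    obtain ⟨u, rfl⟩ := ha
    refine ⟨q • u, ?_⟩
    simp only [Pi.smul_apply, hk_smul_right, ← Finset.smul_sum]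

lemma decomp [CharZero k] (ht : t ≠ 0) (ht1 : t + 1 ≠ 0) (hkd : Kd 0 t) (h : G6 t x y)
    {z : MK4.HK F} (hz : z ∈ Cu t x y) : ∃ (u : Fin 8 → FT F) (κ : MK4.HK F), κ ∈ KC k F ∧
      z = ∑ j, MK4.hk (TS t x y j) (u j) + κ := by
  obtain ⟨a, ha, κ, hκ, rfl⟩ := Submodule.mem_sup.mp (Cu_le ht ht1 hkd h hz)
  obtain ⟨u, rfl⟩ := span_T _ ha
  exact ⟨u, κ, hκ, rfl⟩

end Pool.Agent.N6
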