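import Pool.Agent.Lib_helper60.N6.K2
import Pool.Agent.Lib_helper60.N6.KD
import Pool.Agent.Lib_helper72.KC.F

/-!
# The three special curves with a point of order six: closed elements from a certificate
-/

set_option autoImplicit false
set_option linter.unusedSectionVars false
set_option linter.unusedSimpArgs false
set_option linter.unusedVariables false

open scoped TensorProduct

namespace Pool.Agent.N6

open Pool.Agent.TN Pool.Agent.KC72 Pool.Agent.MK4

variable {k : Type*} [Field k] {F : Type*} [Field F] [Algebra k F] {t : k} {x y : F}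

/-- the generators -/
noncomputable def G6l (t : k) (x y : F) : Fin 6 → F :=
  ![x, x - algebraMap k F (t ^ 2 + t), x - algebraMap k F t, y, y - algebraMap k F t * x, 2]

lemma ofFn_G6l : List.ofFn (G6l t x y) = gl t x y := by
  simp only [List.ofFn_succ, List.ofFn_zero]
  rfl

lemma G6l_ne [CharZero k] (h : G6 t x y) (i : Fin 6) : G6l t x y i ≠ 0 := by
  apply gl_ne h
  rw [← ofFn_G6l, List.mem_ofFn]
  exact ⟨i, rfl⟩

lemma G6l_const (i : Fin 6) (hi : 5 ≤ i.val) : ∃ c : k, G6l t x y i = algebraMap k F c := by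
  refine ⟨2, ?_⟩
  rw [map_ofNat]
  have h5 : i = 5 := by
    apply Fin.ext
    have : i.val < 6 := i.isLt
    show i.val = 5
    omega
  rw [h5]
  rfl

lemma G6l_I [CharZero k] (ht : t ≠ 0) (ht1 : t + 1 ≠ 0) (h : G6 t x y) (q : Fin 6 → ℚ)
    (hq : ∑ i, q i • lg (G6l t x y i) ∈ V0 k F) (i : Fin 6) (hi : i.val < 5) : q i = 0 := by
  refine hI_of (k := k) (r := 5) (by norm_num) (G6l t x y) (G6l_ne h) (fun i hi => G6l_const i hi)
    ?_ q hq i hi
  intro e c hc he
  have h1 : M t x y (e 0) (e 1) (e 2) (e 3) (e 4) = algebraMap k F c := by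
    rw [← he, Fin.prod_univ_five]
    rfl
  obtain ⟨a0, a1, a2, a3, a4⟩ := M_const ht ht1 h h1
  funext i
  fin_cases i
  · exact a0
  · exact a1
  · exact a2
  · exact a3
  · exact a4

lemma two_zpow_one {K : Type*} [Field K] [CharZero K] {n : ℤ} (h : (2 : K) ^ n = 1) : n = 0 := by
  have h1 : ((2 : ℚ) ^ n) = 1 := by
    have : (((2 : ℚ) ^ n : ℚ) : K) = ((1 : ℚ) : K) := by
      push_cast
      exact h
    exact_mod_cast this
  exact (zpow_eq_one_iff_right₀ (by norm_num : (0 : ℚ) ≤ 2) (by norm_num : (2 : ℚ) ≠ 1)).mp h1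

lemma G6l_J [CharZero k] (ht : t ≠ 0) (ht1 : t + 1 ≠ 0) (h : G6 t x y) :
    LinearIndependent ℚ (fun i => lg (G6l t x y i)) := by
  have : CharZero F := charZero_of_injective_algebraMap (algebraMap k F).injective
  refine hJ_of (k := k) (r := 5) (by norm_num) (G6l t x y) (G6l_ne h)
    (fun q hq i hi => G6l_I ht ht1 h q hq i hi) ?_
  intro e he h1
  have e0 := he 0 (by decide)
  have e1 := he 1 (by decide)
  have e2 := he 2 (by decide)
  have e3 := he 3 (by decide)
  have e4 := he 4 (by decide)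
  rw [Fin.prod_univ_six, e0, e1, e2, e3, e4] at h1
  simp only [zpow_zero, one_mul] at h1
  have e5 : e 5 = 0 := two_zpow_one (K := F) h1
  funext i
  fin_cases i
  · exact e0
  · exact e1
  · exact e2
  · exact e3
  · exact e4
  · exact e5

lemma Tc_get {cls : List (Mo × Mo)} {f : F} (h : Tc cls t x y f) :
    ∃ i : Fin cls.length, Orb (ev (List.ofFn (G6l t x y)) (cls.get i).1) f := by
  obtain ⟨c, hc, h1⟩ := h
  obtain ⟨i, hi⟩ := List.mem_iff_get.mp hc
  exact ⟨i, by rw [hi, ofFn_G6l]; exact h1⟩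

lemma U_unit {cls : List (Mo × Mo)}
    (H : ∀ {c c' : k} (_ : c ≠ 0) (_ : c' ≠ 0) {a₀ a₁ a₂ a₃ a₄ b₀ b₁ b₂ b₃ b₄ : ℤ}
      (_ : algebraMap k F c * M t x y a₀ a₁ a₂ a₃ a₄ +
        algebraMap k F c' * M t x y b₀ b₁ b₂ b₃ b₄ = 1),
      (∃ s : k, algebraMap k F c * M t x y a₀ a₁ a₂ a₃ a₄ = algebraMap k F s) ∨
        Tc cls t x y (algebraMap k F c * M t x y a₀ a₁ a₂ a₃ a₄)) (f : F) (h1 : U t x y f)
    (h2 : U t x y (1 - f)) : (∃ c : k, f = algebraMap k F c) ∨
      ∃ i : Fin cls.length, Orb (ev (List.ofFn (G6l t x y)) (cls.get i).1) f := by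
  obtain ⟨d, a₀, a₁, a₂, a₃, a₄, hd, rfl⟩ := h1
  obtain ⟨d', b₀, b₁, b₂, b₃, b₄, hd', h2⟩ := h2
  rcases H hd hd' (by rw [← h2]; ring) with h3 | h3
  · exact Or.inl h3
  · exact Or.inr (Tc_get h3)

/-- the closed elements from a certificate with five units and the constant `2` -/
theorem closed_cert [CharZero k] (ht : t ≠ 0) (ht1 : t + 1 ≠ 0) (h : G6 t x y)
    {cls : List (Mo × Mo)} (hS : Sols (gl t x y) cls)
    (H : ∀ {c c' : k} (_ : c ≠ 0) (_ : c' ≠ 0) {a₀ a₁ a₂ a₃ a₄ b₀ b₁ b₂ b₃ b₄ : ℤ}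
      (_ : algebraMap k F c * M t x y a₀ a₁ a₂ a₃ a₄ +
        algebraMap k F c' * M t x y b₀ b₁ b₂ b₃ b₄ = 1),
      (∃ s : k, algebraMap k F c * M t x y a₀ a₁ a₂ a₃ a₄ = algebraMap k F s) ∨
        Tc cls t x y (algebraMap k F c * M t x y a₀ a₁ a₂ a₃ a₄)) (C : Cert) (hC : Ok C)
    (hn : C.n = 6) (hr : C.r = 5) (hcl : C.cls = cls) {z : HK F} (hz : z ∈ Cu t x y)
    (hc : Closed z) : ∃ β : ℚ, (KC k F).mkQ z = β • pl (EB C k (gl t x y)) C.xi := by
  have : CharZero F := charZero_of_injective_algebraMap (algebraMap k F).injective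
  obtain ⟨n, r, cls', rels, bas, rho, DG, G, D, Q, xi, beta, T, lam⟩ := C
  simp only at hn hr hcl
  subst hn hr hcl
  rw [← ofFn_G6l] at hS ⊢
  exact closed_of_cert ⟨6, 5, cls', rels, bas, rho, DG, G, D, Q, xi, beta, T, lam⟩ hC
    (G := G6l t x y) (G6l_ne h) (fun i hi => G6l_const i hi)
    (fun q hq i hi => G6l_I ht ht1 h q hq i hi) (G6l_J ht ht1 h) hS (U t x y)
    (U_unit H) hz hc

/-- the closed elements, `t = 1`, from a certificate -/
theorem closed1 [CharZero k] (hs : t = 1) (h : G6 t x y) (C : Cert) (hC : Ok C) (hn : C.n = 6)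
    (hr : C.r = 5) (hcl : C.cls = cls1) {z : HK F} (hz : z ∈ Cu t x y) (hc : Closed z) :
    ∃ β : ℚ, (KC k F).mkQ z = β • pl (EB C k (gl t x y)) C.xi := by
  have ht : t ≠ 0 := by rw [hs]; exact one_ne_zero
  have ht1 : t + 1 ≠ 0 := by rw [hs]; norm_num
  exact closed_cert ht ht1 h (sols1 hs h) (unit_eq1 hs h) C hC hn hr hcl hz hc

/-- the closed elements, `t = -2`, from a certificate -/
theorem closed2 [CharZero k] (hs : t = -2) (h : G6 t x y) (C : Cert) (hC : Ok C) (hn : C.n = 6)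
    (hr : C.r = 5) (hcl : C.cls = cls2) {z : HK F} (hz : z ∈ Cu t x y) (hc : Closed z) :
    ∃ β : ℚ, (KC k F).mkQ z = β • pl (EB C k (gl t x y)) C.xi := by
  have ht : t ≠ 0 := by rw [hs]; norm_num
  have ht1 : t + 1 ≠ 0 := by rw [hs]; norm_num
  exact closed_cert ht ht1 h (sols2 hs h) (unit_eq2 hs h) C hC hn hr hcl hz hc

/-- the closed elements, `t = -1/2`, from a certificate -/
theorem closed3 [CharZero k] (hs : 2 * t = -1) (h : G6 t x y) (C : Cert) (hC : Ok C)
    (hn : C.n = 6) (hr : C.r = 5) (hcl : C.cls = cls3) {z : HK F} (hz : z ∈ Cu t x y)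
    (hc : Closed z) : ∃ β : ℚ, (KC k F).mkQ z = β • pl (EB C k (gl t x y)) C.xi := by
  have ht : t ≠ 0 := by
    rintro rfl
    norm_num at hs
  have ht1 : t + 1 ≠ 0 := by
    intro h0
    have h1 : t = -1 := by linear_combination h0
    rw [h1] at hs
    norm_num at hs
  exact closed_cert ht ht1 h (sols3 hs h) (unit_eq3 hs h) C hC hn hr hcl hz hc

end Pool.Agent.N6
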