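import Pool.Agent.Lib_helper60.N6.J

/-!
# The unit equation for a point of order six, XI: the base identities
-/

set_option autoImplicit false
set_option linter.unusedSectionVars false
set_option linter.unusedSimpArgs false
set_option linter.unusedVariables false

namespace Pool.Agent.N6

open Pool.Agent.TN Pool.Agent.KC72

variable {k : Type*} [Field k] {F : Type*} [Field F] [Algebra k F] {t : k} {x y : F}

lemma BI_A (ht : t ≠ 0) (ht1 : t + 1 ≠ 0) (h : G6 t x y) :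
    BI t (1, 0, 0, 0, 1) (0, 1, 0, 1, 0) 2 1 x y := by
  have hT : algebraMap k F t ≠ 0 := (_root_.map_ne_zero _).mpr ht
  have hB : algebraMap k F (t ^ 2 + t) ≠ 0 := (_root_.map_ne_zero _).mpr (b_ne ht ht1)
  have h1 := h.x_ne
  have h2 := h.xc_ne (t ^ 2 + t)
  have h3 := h.xc_ne t
  have h4 := h.y_ne
  have h5 := w_ne h
  have he := h.eq
  have hBT : algebraMap k F (t ^ 2 + t) = algebraMap k F t ^ 2 + algebraMap k F t := by
    rw [map_add, map_pow]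
  unfold BI
  rw [spec' ht ht1 h (inv_mul_cancel₀ (val_ne ht ht1 _ _)) (-1) 0 0 1 0 0 0 0 (by decide),
    spec' ht ht1 h (inv_mul_cancel₀ (val_ne ht ht1 _ _)) (-1) 0 (-1) 0 1 0 0 0 (by decide)]
  unfold M
  generalize algebraMap k F (t ^ 2 + t) = B at *
  generalize algebraMap k F t = T at *
  simp only [zpow_zero, zpow_one, zpow_neg, zpow_ofNat, pow_one, one_mul, mul_one, even_two, Even.neg_pow, one_pow]
  field_simp
  ring

lemma BI_B (ht : t ≠ 0) (ht1 : t + 1 ≠ 0) (h : G6 t x y) :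
    BI t (1, 0, 0, 0, 1) (0, 0, 2, 0, 0) 3 1 x y := by
  have hT : algebraMap k F t ≠ 0 := (_root_.map_ne_zero _).mpr ht
  have hB : algebraMap k F (t ^ 2 + t) ≠ 0 := (_root_.map_ne_zero _).mpr (b_ne ht ht1)
  have h1 := h.x_ne
  have h2 := h.xc_ne (t ^ 2 + t)
  have h3 := h.xc_ne t
  have h4 := h.y_ne
  have h5 := w_ne h
  have he := h.eq
  have hBT : algebraMap k F (t ^ 2 + t) = algebraMap k F t ^ 2 + algebraMap k F t := by
    rw [map_add, map_pow]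
  unfold BI
  rw [spec' ht ht1 h (inv_mul_cancel₀ (val_ne ht ht1 _ _)) 0 (-1) 0 1 0 0 0 0 (by decide),
    spec' ht ht1 h (inv_mul_cancel₀ (val_ne ht ht1 _ _)) 0 (-1) (-1) 0 0 1 0 0 (by decide)]
  unfold M
  generalize algebraMap k F (t ^ 2 + t) = B at *
  generalize algebraMap k F t = T at *
  simp only [zpow_zero, zpow_one, zpow_neg, zpow_ofNat, pow_one, one_mul, mul_one, even_two, Even.neg_pow, one_pow]
  field_simp
  ring

lemma BI_C (ht : t ≠ 0) (ht1 : t + 1 ≠ 0) (h : G6 t x y) :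
    BI t (-1, 1, 0, 0, 1) (-1, 0, 1, 1, 0) 3 2 x y := by
  have hT : algebraMap k F t ≠ 0 := (_root_.map_ne_zero _).mpr ht
  have hB : algebraMap k F (t ^ 2 + t) ≠ 0 := (_root_.map_ne_zero _).mpr (b_ne ht ht1)
  have h1 := h.x_ne
  have h2 := h.xc_ne (t ^ 2 + t)
  have h3 := h.xc_ne t
  have h4 := h.y_ne
  have h5 := w_ne h
  have he := h.eq
  have hBT : algebraMap k F (t ^ 2 + t) = algebraMap k F t ^ 2 + algebraMap k F t := by
    rw [map_add, map_pow]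
  unfold BI
  rw [spec' ht ht1 h (inv_mul_cancel₀ (val_ne ht ht1 _ _)) 0 (-1) 0 (-1) 0 0 1 0 (by decide),
    spec' ht ht1 h (inv_mul_cancel₀ (val_ne ht ht1 _ _)) 0 (-1) (-1) (-1) 0 0 0 1 (by decide)]
  unfold M
  generalize algebraMap k F (t ^ 2 + t) = B at *
  generalize algebraMap k F t = T at *
  simp only [zpow_zero, zpow_one, zpow_neg, zpow_ofNat, pow_one, one_mul, mul_one, even_two, Even.neg_pow, one_pow]
  generalize hw : y - T * x = w at *
  field_simp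
  subst hw
  ring

lemma BI_D1 [CharZero k] (ht : t ≠ 0) (ht1 : t + 1 ≠ 0) (hs : t = 1) (h : G6 t x y) :
    BI t (0, 0, 4, 0, 0) (1, 1, 0, 1, 1) 1 3 x y := by
  have hT : algebraMap k F t ≠ 0 := (_root_.map_ne_zero _).mpr ht
  have hB : algebraMap k F (t ^ 2 + t) ≠ 0 := (_root_.map_ne_zero _).mpr (b_ne ht ht1)
  have h1 := h.x_ne
  have h2 := h.xc_ne (t ^ 2 + t)
  have h3 := h.xc_ne t
  have h4 := h.y_ne
  have h5 := w_ne h
  have he := h.eq
  have : CharZero F := charZero_of_injective_algebraMap (algebraMap k F).injective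
  have hBT : algebraMap k F (t ^ 2 + t) = algebraMap k F t ^ 2 + algebraMap k F t := by
    rw [map_add, map_pow]
  unfold BI
  rw [spec' ht ht1 h (inv_mul_cancel₀ (val_ne ht ht1 _ _)) 0 (-2) (-2) 0 0 2 0 0 (by decide),
    spec' ht ht1 h (inv_mul_cancel₀ (val_ne ht ht1 _ _)) 0 (-3) 1 1 1 0 0 0 (by decide)]
  unfold M
  have e1 : algebraMap k F t = 1 := by rw [hs, map_one]
  have e2 : algebraMap k F (t ^ 2 + t) = 2 := by rw [hBT, e1]; norm_num
  rw [e1] at h3 h5 he ⊢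
  rw [e2] at h2 he ⊢
  clear hBT e1 e2 hT hB
  simp only [zpow_zero, zpow_one, zpow_neg, zpow_ofNat, pow_one, one_mul, mul_one, even_two, Even.neg_pow, one_pow]
  obtain ⟨p, hp⟩ : ∃ p, p = x - 2 := ⟨_, rfl⟩
  obtain ⟨q, hq⟩ : ∃ q, q = x - 1 := ⟨_, rfl⟩
  obtain ⟨w, hw⟩ : ∃ w, w = y - 1 * x := ⟨_, rfl⟩
  rw [← hp] at h2
  rw [← hq] at h3
  rw [← hw] at h5
  try rw [← hp]
  try rw [← hq]
  try rw [← hw]
  field_simp
  subst hp hq hw
  ring

lemma BI_E1 [CharZero k] (ht : t ≠ 0) (ht1 : t + 1 ≠ 0) (hs : t = 1) (h : G6 t x y) :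
    BI t (0, 1, 0, 0, 2) (2, 0, 0, 1, 0) 1 2 x y := by
  have hT : algebraMap k F t ≠ 0 := (_root_.map_ne_zero _).mpr ht
  have hB : algebraMap k F (t ^ 2 + t) ≠ 0 := (_root_.map_ne_zero _).mpr (b_ne ht ht1)
  have h1 := h.x_ne
  have h2 := h.xc_ne (t ^ 2 + t)
  have h3 := h.xc_ne t
  have h4 := h.y_ne
  have h5 := w_ne h
  have he := h.eq
  have : CharZero F := charZero_of_injective_algebraMap (algebraMap k F).injective
  have hBT : algebraMap k F (t ^ 2 + t) = algebraMap k F t ^ 2 + algebraMap k F t := by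
    rw [map_add, map_pow]
  unfold BI
  rw [spec' ht ht1 h (inv_mul_cancel₀ (val_ne ht ht1 _ _)) (-1) 0 (-2) 0 0 0 1 0 (by decide),
    spec' ht ht1 h (inv_mul_cancel₀ (val_ne ht ht1 _ _)) (-1) (-1) 1 2 1 0 (-1) 0 (by decide)]
  unfold M
  have e1 : algebraMap k F t = 1 := by rw [hs, map_one]
  have e2 : algebraMap k F (t ^ 2 + t) = 2 := by rw [hBT, e1]; norm_num
  rw [e1] at h3 h5 he ⊢
  rw [e2] at h2 he ⊢
  clear hBT e1 e2 hT hB
  simp only [zpow_zero, zpow_one, zpow_neg, zpow_ofNat, pow_one, one_mul, mul_one, even_two, Even.neg_pow, one_pow]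
  obtain ⟨p, hp⟩ : ∃ p, p = x - 2 := ⟨_, rfl⟩
  obtain ⟨q, hq⟩ : ∃ q, q = x - 1 := ⟨_, rfl⟩
  obtain ⟨w, hw⟩ : ∃ w, w = y - 1 * x := ⟨_, rfl⟩
  rw [← hp] at h2
  rw [← hq] at h3
  rw [← hw] at h5
  try rw [← hp]
  try rw [← hq]
  try rw [← hw]
  field_simp
  subst hp hq hw
  linear_combination he

lemma BI_F1 [CharZero k] (ht : t ≠ 0) (ht1 : t + 1 ≠ 0) (hs : t = 1) (h : G6 t x y) :
    BI t (2, 0, -2, 0, 2) (0, 2, -2, 2, 0) 2 1 x y := by
  have hT : algebraMap k F t ≠ 0 := (_root_.map_ne_zero _).mpr ht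
  have hB : algebraMap k F (t ^ 2 + t) ≠ 0 := (_root_.map_ne_zero _).mpr (b_ne ht ht1)
  have h1 := h.x_ne
  have h2 := h.xc_ne (t ^ 2 + t)
  have h3 := h.xc_ne t
  have h4 := h.y_ne
  have h5 := w_ne h
  have he := h.eq
  have : CharZero F := charZero_of_injective_algebraMap (algebraMap k F).injective
  have hBT : algebraMap k F (t ^ 2 + t) = algebraMap k F t ^ 2 + algebraMap k F t := by
    rw [map_add, map_pow]
  unfold BI
  rw [spec' ht ht1 h (inv_mul_cancel₀ (val_ne ht ht1 _ _)) (-2) 2 0 2 0 (-1) 0 0 (by decide),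
    spec' ht ht1 h (inv_mul_cancel₀ (val_ne ht ht1 _ _)) (-2) 1 (-1) 0 2 (-1) 0 0 (by decide)]
  unfold M
  have e1 : algebraMap k F t = 1 := by rw [hs, map_one]
  have e2 : algebraMap k F (t ^ 2 + t) = 2 := by rw [hBT, e1]; norm_num
  rw [e1] at h3 h5 he ⊢
  rw [e2] at h2 he ⊢
  clear hBT e1 e2 hT hB
  simp only [zpow_zero, zpow_one, zpow_neg, zpow_ofNat, pow_one, one_mul, mul_one, even_two, Even.neg_pow, one_pow]
  obtain ⟨p, hp⟩ : ∃ p, p = x - 2 := ⟨_, rfl⟩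
  obtain ⟨q, hq⟩ : ∃ q, q = x - 1 := ⟨_, rfl⟩
  obtain ⟨w, hw⟩ : ∃ w, w = y - 1 * x := ⟨_, rfl⟩
  rw [← hp] at h2
  rw [← hq] at h3
  rw [← hw] at h5
  try rw [← hp]
  try rw [← hq]
  try rw [← hw]
  field_simp
  subst hp hq hw
  ring

lemma BI_D2 [CharZero k] (ht : t ≠ 0) (ht1 : t + 1 ≠ 0) (hs : t = -2) (h : G6 t x y) :
    BI t (2, 0, 0, 0, 2) (0, 1, 2, 1, 0) 2 1 x y := by
  have hT : algebraMap k F t ≠ 0 := (_root_.map_ne_zero _).mpr ht
  have hB : algebraMap k F (t ^ 2 + t) ≠ 0 := (_root_.map_ne_zero _).mpr (b_ne ht ht1)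
  have h1 := h.x_ne
  have h2 := h.xc_ne (t ^ 2 + t)
  have h3 := h.xc_ne t
  have h4 := h.y_ne
  have h5 := w_ne h
  have he := h.eq
  have : CharZero F := charZero_of_injective_algebraMap (algebraMap k F).injective
  have hBT : algebraMap k F (t ^ 2 + t) = algebraMap k F t ^ 2 + algebraMap k F t := by
    rw [map_add, map_pow]
  unfold BI
  rw [spec' ht ht1 h (inv_mul_cancel₀ (val_ne ht ht1 _ _)) (-2) 0 0 2 0 0 0 0 (by decide),
    spec' ht ht1 h (inv_mul_cancel₀ (val_ne ht ht1 _ _)) (-1) (-1) (-2) 0 1 1 0 0 (by decide)]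
  unfold M
  have e1 : algebraMap k F t = -2 := by rw [hs, map_neg, map_ofNat]
  have e2 : algebraMap k F (t ^ 2 + t) = 2 := by rw [hBT, e1]; norm_num
  rw [e1] at h3 h5 he ⊢
  rw [e2] at h2 he ⊢
  clear hBT e1 e2 hT hB
  simp only [zpow_zero, zpow_one, zpow_neg, zpow_ofNat, pow_one, one_mul, mul_one, even_two, Even.neg_pow, one_pow]
  obtain ⟨p, hp⟩ : ∃ p, p = x - 2 := ⟨_, rfl⟩
  obtain ⟨q, hq⟩ : ∃ q, q = x - -2 := ⟨_, rfl⟩
  obtain ⟨w, hw⟩ : ∃ w, w = y - -2 * x := ⟨_, rfl⟩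
  rw [← hp] at h2
  rw [← hq] at h3
  rw [← hw] at h5
  try rw [← hp]
  try rw [← hq]
  try rw [← hw]
  field_simp
  subst hp hq hw
  ring

lemma BI_D3 [CharZero k] (ht : t ≠ 0) (ht1 : t + 1 ≠ 0) (hs : 2 * t = -1) (h : G6 t x y) :
    BI t (0, 0, 1, 1, 1) (0, 3, 0, 0, 0) 2 3 x y := by
  have hT : algebraMap k F t ≠ 0 := (_root_.map_ne_zero _).mpr ht
  have hB : algebraMap k F (t ^ 2 + t) ≠ 0 := (_root_.map_ne_zero _).mpr (b_ne ht ht1)
  have h1 := h.x_ne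
  have h2 := h.xc_ne (t ^ 2 + t)
  have h3 := h.xc_ne t
  have h4 := h.y_ne
  have h5 := w_ne h
  have he := h.eq
  have : CharZero F := charZero_of_injective_algebraMap (algebraMap k F).injective
  have hBT : algebraMap k F (t ^ 2 + t) = algebraMap k F t ^ 2 + algebraMap k F t := by
    rw [map_add, map_pow]
  unfold BI
  rw [spec' ht ht1 h (inv_mul_cancel₀ (val_ne ht ht1 _ _)) (-1) (-1) (-1) 0 0 0 0 1 (by decide),
    spec' ht ht1 h (inv_mul_cancel₀ (val_ne ht ht1 _ _)) 0 (-3) 3 0 2 1 1 (-2) (by decide)]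
  unfold M
  have e1 : algebraMap k F t = -(1 / 2) := by
    have : (2 : F) * algebraMap k F t = -1 := by
      rw [← map_ofNat (algebraMap k F) 2, ← map_mul, hs, map_neg, map_one]
    linear_combination this / 2
  have e2 : algebraMap k F (t ^ 2 + t) = -(1 / 4) := by rw [hBT, e1]; norm_num
  rw [e1] at h3 h5 he ⊢
  rw [e2] at h2 he ⊢
  clear hBT e1 e2 hT hB
  simp only [zpow_zero, zpow_one, zpow_neg, zpow_ofNat, pow_one, one_mul, mul_one, even_two, Even.neg_pow, one_pow]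
  obtain ⟨p, hp⟩ : ∃ p, p = x - -(1 / 4) := ⟨_, rfl⟩
  obtain ⟨q, hq⟩ : ∃ q, q = x - -(1 / 2) := ⟨_, rfl⟩
  obtain ⟨w, hw⟩ : ∃ w, w = y - -(1 / 2) * x := ⟨_, rfl⟩
  rw [← hp] at h2
  rw [← hq] at h3
  rw [← hw] at h5
  try rw [← hp]
  try rw [← hq]
  try rw [← hw]
  field_simp
  subst hp hq hw
  linear_combination (1 - 8 * y) * he

lemma BI_E3 [CharZero k] (ht : t ≠ 0) (ht1 : t + 1 ≠ 0) (hs : 2 * t = -1) (h : G6 t x y) :
    BI t (0, 2, 0, 2, 0) (1, 0, 2, 0, 1) 1 2 x y := by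
  have hT : algebraMap k F t ≠ 0 := (_root_.map_ne_zero _).mpr ht
  have hB : algebraMap k F (t ^ 2 + t) ≠ 0 := (_root_.map_ne_zero _).mpr (b_ne ht ht1)
  have h1 := h.x_ne
  have h2 := h.xc_ne (t ^ 2 + t)
  have h3 := h.xc_ne t
  have h4 := h.y_ne
  have h5 := w_ne h
  have he := h.eq
  have : CharZero F := charZero_of_injective_algebraMap (algebraMap k F).injective
  have hBT : algebraMap k F (t ^ 2 + t) = algebraMap k F t ^ 2 + algebraMap k F t := by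
    rw [map_add, map_pow]
  unfold BI
  rw [spec' ht ht1 h (inv_mul_cancel₀ (val_ne ht ht1 _ _)) (-2) 0 (-2) 0 2 0 0 0 (by decide),
    spec' ht ht1 h (inv_mul_cancel₀ (val_ne ht ht1 _ _)) (-1) (-2) 0 1 0 1 0 0 (by decide)]
  unfold M
  have e1 : algebraMap k F t = -(1 / 2) := by
    have : (2 : F) * algebraMap k F t = -1 := by
      rw [← map_ofNat (algebraMap k F) 2, ← map_mul, hs, map_neg, map_one]
    linear_combination this / 2
  have e2 : algebraMap k F (t ^ 2 + t) = -(1 / 4) := by rw [hBT, e1]; norm_num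
  rw [e1] at h3 h5 he ⊢
  rw [e2] at h2 he ⊢
  clear hBT e1 e2 hT hB
  simp only [zpow_zero, zpow_one, zpow_neg, zpow_ofNat, pow_one, one_mul, mul_one, even_two, Even.neg_pow, one_pow]
  obtain ⟨p, hp⟩ : ∃ p, p = x - -(1 / 4) := ⟨_, rfl⟩
  obtain ⟨q, hq⟩ : ∃ q, q = x - -(1 / 2) := ⟨_, rfl⟩
  obtain ⟨w, hw⟩ : ∃ w, w = y - -(1 / 2) * x := ⟨_, rfl⟩
  rw [← hp] at h2
  rw [← hq] at h3
  rw [← hw] at h5
  try rw [← hp]
  try rw [← hq]
  try rw [← hw]
  field_simp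
  subst hp hq hw
  ring

lemma BI_F3 [CharZero k] (ht : t ≠ 0) (ht1 : t + 1 ≠ 0) (hs : 2 * t = -1) (h : G6 t x y) :
    BI t (-2, 1, 2, 0, 0) (-2, 0, 0, 1, 2) 4 2 x y := by
  have hT : algebraMap k F t ≠ 0 := (_root_.map_ne_zero _).mpr ht
  have hB : algebraMap k F (t ^ 2 + t) ≠ 0 := (_root_.map_ne_zero _).mpr (b_ne ht ht1)
  have h1 := h.x_ne
  have h2 := h.xc_ne (t ^ 2 + t)
  have h3 := h.xc_ne t
  have h4 := h.y_ne
  have h5 := w_ne h
  have he := h.eq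
  have : CharZero F := charZero_of_injective_algebraMap (algebraMap k F).injective
  have hBT : algebraMap k F (t ^ 2 + t) = algebraMap k F t ^ 2 + algebraMap k F t := by
    rw [map_add, map_pow]
  unfold BI
  rw [spec' ht ht1 h (inv_mul_cancel₀ (val_ne ht ht1 _ _)) 1 (-3) 2 (-2) 0 1 1 0 (by decide),
    spec' ht ht1 h (inv_mul_cancel₀ (val_ne ht ht1 _ _)) (-1) 1 (-3) (-2) (-1) (-1) 1 2 (by decide)]
  unfold M
  have e1 : algebraMap k F t = -(1 / 2) := by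
    have : (2 : F) * algebraMap k F t = -1 := by
      rw [← map_ofNat (algebraMap k F) 2, ← map_mul, hs, map_neg, map_one]
    linear_combination this / 2
  have e2 : algebraMap k F (t ^ 2 + t) = -(1 / 4) := by rw [hBT, e1]; norm_num
  rw [e1] at h3 h5 he ⊢
  rw [e2] at h2 he ⊢
  clear hBT e1 e2 hT hB
  simp only [zpow_zero, zpow_one, zpow_neg, zpow_ofNat, pow_one, one_mul, mul_one, even_two, Even.neg_pow, one_pow]
  obtain ⟨p, hp⟩ : ∃ p, p = x - -(1 / 4) := ⟨_, rfl⟩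
  obtain ⟨q, hq⟩ : ∃ q, q = x - -(1 / 2) := ⟨_, rfl⟩
  obtain ⟨w, hw⟩ : ∃ w, w = y - -(1 / 2) * x := ⟨_, rfl⟩
  rw [← hp] at h2
  rw [← hq] at h3
  rw [← hw] at h5
  try rw [← hp]
  try rw [← hq]
  try rw [← hw]
  field_simp
  subst hp hq hw
  linear_combination 8 * (x + 1 / 2 - 2 * y) * he

lemma BI_G3 [CharZero k] (ht : t ≠ 0) (ht1 : t + 1 ≠ 0) (hs : 2 * t = -1) (h : G6 t x y) :
    BI t (-1, 2, 1, 0, 0) (-1, 0, 0, 2, 1) 4 2 x y := by
  have hT : algebraMap k F t ≠ 0 := (_root_.map_ne_zero _).mpr ht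
  have hB : algebraMap k F (t ^ 2 + t) ≠ 0 := (_root_.map_ne_zero _).mpr (b_ne ht ht1)
  have h1 := h.x_ne
  have h2 := h.xc_ne (t ^ 2 + t)
  have h3 := h.xc_ne t
  have h4 := h.y_ne
  have h5 := w_ne h
  have he := h.eq
  have : CharZero F := charZero_of_injective_algebraMap (algebraMap k F).injective
  have hBT : algebraMap k F (t ^ 2 + t) = algebraMap k F t ^ 2 + algebraMap k F t := by
    rw [map_add, map_pow]
  unfold BI
  rw [spec' ht ht1 h (inv_mul_cancel₀ (val_ne ht ht1 _ _)) 0 (-2) 2 (-1) 1 1 1 (-1) (by decide),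
    spec' ht ht1 h (inv_mul_cancel₀ (val_ne ht ht1 _ _)) (-1) 0 (-2) (-1) 0 (-1) 0 2 (by decide)]
  unfold M
  have e1 : algebraMap k F t = -(1 / 2) := by
    have : (2 : F) * algebraMap k F t = -1 := by
      rw [← map_ofNat (algebraMap k F) 2, ← map_mul, hs, map_neg, map_one]
    linear_combination this / 2
  have e2 : algebraMap k F (t ^ 2 + t) = -(1 / 4) := by rw [hBT, e1]; norm_num
  rw [e1] at h3 h5 he ⊢
  rw [e2] at h2 he ⊢
  clear hBT e1 e2 hT hB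
  simp only [zpow_zero, zpow_one, zpow_neg, zpow_ofNat, pow_one, one_mul, mul_one, even_two, Even.neg_pow, one_pow]
  obtain ⟨p, hp⟩ : ∃ p, p = x - -(1 / 4) := ⟨_, rfl⟩
  obtain ⟨q, hq⟩ : ∃ q, q = x - -(1 / 2) := ⟨_, rfl⟩
  obtain ⟨w, hw⟩ : ∃ w, w = y - -(1 / 2) * x := ⟨_, rfl⟩
  rw [← hp] at h2
  rw [← hq] at h3
  rw [← hw] at h5
  try rw [← hp]
  try rw [← hq]
  try rw [← hw]
  field_simp
  subst hp hq hw
  linear_combination (1 - 4 * y) * he

end Pool.Agent.N6
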