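import Pool.Agent.Lib_helper60.N6.I
import Pool.Agent.Lib_helper72.KC.C

/-!
# The unit equation for a point of order six, X: the three special curves, the framework
-/

set_option autoImplicit false
set_option linter.unusedSectionVars false
set_option linter.unusedSimpArgs false
set_option linter.unusedVariables false

namespace Pool.Agent.N6

open Pool.Agent.TN Pool.Agent.KC72

variable {k : Type*} [Field k] {F : Type*} [Field F] [Algebra k F] {t : k} {x y : F}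

/-- the generators -/
noncomputable def gl (t : k) (x y : F) : List F :=
  [x, x - algebraMap k F (t ^ 2 + t), x - algebraMap k F t, y, y - algebraMap k F t * x, 2]

lemma gl_ne [CharZero k] (h : G6 t x y) : ∀ z ∈ gl t x y, z ≠ 0 := by
  intro z hz
  haveI : CharZero F := charZero_of_injective_algebraMap (algebraMap k F).injective
  simp only [gl, List.mem_cons, List.not_mem_nil, or_false] at hz
  rcases hz with rfl | rfl | rfl | rfl | rfl | rfl
  · exact h.x_ne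
  · exact h.xc_ne (t ^ 2 + t)
  · exact h.xc_ne t
  · exact h.y_ne
  · exact w_ne h
  · exact two_ne_zero

/-- `b = (-1)^bs 2^bp` -/
def bp : Fin 4 → ℤ := ![0, 1, 1, -2]
/-- `t = (-1)^ts 2^tp` -/
def tp : Fin 4 → ℤ := ![0, 0, 1, -1]
/-- the sign of `b` -/
def bs : Fin 4 → ℤ := ![0, 0, 0, 1]
/-- the sign of `t` -/
def ts : Fin 4 → ℤ := ![0, 0, 1, 1]

lemma Kd_bt [CharZero k] {κ : Fin 4} (hκ : κ ≠ 0) (hk : Kd κ t) :
    t ^ 2 + t = (-1) ^ bs κ * 2 ^ bp κ ∧ t = (-1) ^ ts κ * 2 ^ tp κ := by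
  have h2 : (2 : k) ≠ 0 := two_ne_zero
  obtain ⟨-, k1, k2, k3⟩ := hk
  fin_cases κ
  · exact absurd rfl hκ
  · have := k1 rfl
    subst this
    constructor
    · show (1 : k) ^ 2 + 1 = (-1) ^ (0 : ℤ) * 2 ^ (1 : ℤ)
      norm_num
    · show (1 : k) = (-1) ^ (0 : ℤ) * 2 ^ (0 : ℤ)
      norm_num
  · have := k2 rfl
    subst this
    constructor
    · show (-2 : k) ^ 2 + -2 = (-1) ^ (0 : ℤ) * 2 ^ (1 : ℤ)
      norm_num
    · show (-2 : k) = (-1) ^ (1 : ℤ) * 2 ^ (1 : ℤ)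
      norm_num
  · have h := k3 rfl
    have ht : t = -(1 / 2) := by linear_combination h / 2
    subst ht
    constructor
    · show (-(1 / 2) : k) ^ 2 + -(1 / 2) = (-1) ^ (1 : ℤ) * 2 ^ (-2 : ℤ)
      norm_num
    · show (-(1 / 2) : k) = (-1) ^ (1 : ℤ) * 2 ^ (-1 : ℤ)
      norm_num

/-- a monomial in the `x(z + iP)` with value one at the `j`-th point -/
def FE (κ : Fin 4) (w : Fin 6 → ℤ) (j : Fin 6) : Mo :=
  (decide ((bs κ * (S w 0 - S w j) + ts κ * (w 3 - w (j + 3)) + (w 5 - w (j + 5))) % 2 = 1),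
    [w 0 - 2 * w 1 + w 2, -w 2 + w 3 - w 4 + w 5, -w 3 + w 4, w 1 - w 2 + w 4 - w 5, w 2 - w 4,
      bp κ * (S w 0 - S w j) + tp κ * (w 3 - w (j + 3))])

lemma sgn_zpow (n : ℤ) : (bif decide (n % 2 = 1) then (-1 : F) else 1) = (-1) ^ n := by
  rcases Int.emod_two_eq_zero_or_one n with h | h
  · obtain ⟨m, rfl⟩ : ∃ m, n = 2 * m := ⟨n / 2, by omega⟩
    rw [zpow_mul]
    simp [h]
  · obtain ⟨m, rfl⟩ : ∃ m, n = 2 * m + 1 := ⟨n / 2, by omega⟩
    rw [zpow_add₀ (neg_ne_zero.mpr one_ne_zero), zpow_mul]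
    simp [h]

lemma ev_FE [CharZero k] {κ : Fin 4} (hκ : κ ≠ 0) (hk : Kd κ t) (ht : t ≠ 0) (ht1 : t + 1 ≠ 0)
    (h : G6 t x y) {c : k} {w : Fin 6 → ℤ} {j : Fin 6} (hv : c * val t w j = 1) :
    algebraMap k F c * mon t x y w = ev (gl t x y) (FE κ w j) := by
  haveI : CharZero F := charZero_of_injective_algebraMap (algebraMap k F).injective
  have hm : (-1 : F) ≠ 0 := neg_ne_zero.mpr one_ne_zero
  have h2 : (2 : F) ≠ 0 := two_ne_zero
  obtain ⟨hb, ht'⟩ := Kd_bt hκ hk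
  have hB : algebraMap k F (t ^ 2 + t) = (-1) ^ bs κ * 2 ^ bp κ := by
    rw [hb, map_mul, map_zpow₀, map_zpow₀, map_neg, map_one, map_ofNat]
  have hT : algebraMap k F t = (-1) ^ ts κ * 2 ^ tp κ := by
    conv_lhs => rw [ht']
    rw [map_mul, map_zpow₀, map_zpow₀, map_neg, map_one, map_ofNat]
  rw [spec ht ht1 h hv]
  unfold FE ev
  rw [sgn_zpow]
  simp only [gl, evl_cons, evl_nil_left, mul_one]
  unfold M
  generalize S w 0 - S w j = n₁
  generalize w 3 - w (j + 3) = n₂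
  generalize w 5 - w (j + 5) = n₃
  generalize x ^ (w 0 - 2 * w 1 + w 2) = X0
  generalize (x - algebraMap k F (t ^ 2 + t)) ^ (-w 2 + w 3 - w 4 + w 5) = X1
  generalize (x - algebraMap k F t) ^ (-w 3 + w 4) = X2
  generalize y ^ (w 1 - w 2 + w 4 - w 5) = X3
  generalize (y - algebraMap k F t * x) ^ (w 2 - w 4) = X4
  rw [hB, hT, mul_zpow, mul_zpow, ← zpow_mul, ← zpow_mul, ← zpow_mul, ← zpow_mul,
    zpow_add₀ hm, zpow_add₀ hm, zpow_add₀ h2]
  ring

/-- the translation of the exponents -/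
def rw' (i : Fin 6) (w : Fin 6 → ℤ) : Fin 6 → ℤ := fun l => w (l - i)

lemma mon_rw {x' y' : F} {i : Fin 6} (hX : ∀ j, X t x' y' j = X t x y (j + i))
    (w : Fin 6 → ℤ) : mon t x' y' w = mon t x y (rw' i w) := by
  unfold mon rw'
  rw [← Equiv.prod_comp (Equiv.addRight i) (fun l => X t x y l ^ w (l - i))]
  refine Finset.prod_congr rfl fun l _ => ?_
  show X t x' y' l ^ w l = X t x y (l + i) ^ w (l + i - i)
  rw [hX, add_sub_cancel_right]

lemma val_rw (i j : Fin 6) (w : Fin 6 → ℤ) : val t (rw' i w) (j + i) = val t w j := by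
  have h1 : ∀ i j : Fin 6, j + i + 1 - i = j + 1 ∧ j + i + 2 - i = j + 2 ∧ j + i + 3 - i = j + 3 ∧
      j + i + 4 - i = j + 4 ∧ j + i + 5 - i = j + 5 := by decide
  obtain ⟨a, b, c, d, e⟩ := h1 i j
  unfold val rw'
  rw [a, b, c, d, e]

/-- the six functions of a class -/
lemma orb6_Orb {g : List F} (hg : ∀ x ∈ g, x ≠ 0) {f h : Mo} (H : ev g f + ev g h = 1) (σ : ℕ) :
    Orb (ev g f) (ev g (orb6 f h σ)) := by
  have hf := ev_ne hg f
  have hh := ev_ne hg h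
  have H' : ev g h = 1 - ev g f := by linear_combination H
  have h1 : 1 - ev g f ≠ 0 := by rw [← H']; exact hh
  have h2 : ev g f - 1 ≠ 0 := fun e => h1 (by linear_combination -e)
  unfold Orb
  rcases σ with _ | _ | _ | _ | _ | σ
  · left; rfl
  · right; left; exact H'
  · right; right; left
    show ev g f.inv = _
    rw [ev_inv, one_div]
  · right; right; right; left
    show ev g (h.div f).neg = _
    rw [ev_neg, ev_div hg, H']
    field_simp
    ring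
  · right; right; right; right; left
    show ev g h.inv = _
    rw [ev_inv, H', one_div]
  · right; right; right; right; right
    show ev g (f.div h).neg = _
    rw [ev_neg, ev_div hg, H', ← div_neg, neg_sub]

/-- the classes of solutions -/
def Tc (cls : List (Mo × Mo)) (t : k) (x y f : F) : Prop :=
  ∃ c ∈ cls, Orb (ev (gl t x y) c.1) f

/-- the check -/
def Chk (κ : Fin 4) (cls : List (Mo × Mo)) : Prop :=
  ∀ i : Fin 6, ∀ p ∈ solsI κ ++ solsII κ, ∃ j : Fin 6, 0 < mm (eo p.2) j ∧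
    ∃ c ∈ cls, ∃ σ : Fin 6, eqM (orb6 c.1 c.2 σ) (FE κ (rw' i (eo p.1)) (j + i)) = true

instance (κ : Fin 4) (cls : List (Mo × Mo)) : Decidable (Chk κ cls) := by
  unfold Chk; infer_instance

theorem TTc [CharZero k] {κ : Fin 4} (hκ : κ ≠ 0) (hk : Kd κ t) (ht : t ≠ 0) (ht1 : t + 1 ≠ 0)
    (h : G6 t x y) {cls : List (Mo × Mo)} (H : Sols (gl t x y) cls) (hc : Chk κ cls) :
    TT κ t x y (Tc cls t x y) where
  inv f _ _ hf := by
    obtain ⟨c, h1, h2⟩ := hf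
    have hg := gl_ne h
    refine ⟨c, h1, Orb.inv (ev_ne hg _) ?_ h2⟩
    intro h3
    have := H c h1
    apply ev_ne hg c.2
    linear_combination this - h3
  sub f _ _ hf := by
    obtain ⟨c, h1, h2⟩ := hf
    have hg := gl_ne h
    refine ⟨c, h1, Orb.sub (ev_ne hg _) ?_ h2⟩
    intro h3
    have := H c h1
    apply ev_ne hg c.2
    linear_combination this - h3
  sol i x' y' h' hX c c' u v huv hA hu := by
    obtain ⟨j, h1, d, hd, σ, hσ⟩ := hc i (u, v) (List.mem_append.mpr huv)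
    have hg := gl_ne h
    have h2 : c * val t (eo u) j = 1 := (hA.one j).vl h1
    rw [mon_rw hX, ev_FE hκ hk ht ht1 h (c := c) (j := j + i) (by rw [val_rw]; exact h2),
      ← ev_eqM hg hσ]
    exact ⟨d, hd, orb6_Orb hg (H d hd) σ⟩

/-- a base identity -/
def BI (t : k) (u v : ℤ × ℤ × ℤ × ℤ × ℤ) (j j' : Fin 6) (x y : F) : Prop :=
  algebraMap k F (val t (eo u) j)⁻¹ * mon t x y (eo u) +
    algebraMap k F (val t (eo v) j')⁻¹ * mon t x y (eo v) = 1

/-- the class of a base identity translated by `i` -/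
def BC (κ : Fin 4) (u v : ℤ × ℤ × ℤ × ℤ × ℤ) (j j' i : Fin 6) : Mo × Mo :=
  (FE κ (rw' i (eo u)) (j + i), FE κ (rw' i (eo v)) (j' + i))

lemma BC_sol [CharZero k] {κ : Fin 4} (hκ : κ ≠ 0) (hk : Kd κ t) (ht : t ≠ 0) (ht1 : t + 1 ≠ 0)
    (h : G6 t x y) {u v : ℤ × ℤ × ℤ × ℤ × ℤ} {j j' : Fin 6}
    (hB : ∀ x y : F, G6 t x y → BI t u v j j' x y) (i : Fin 6) :
    ev (gl t x y) (BC κ u v j j' i).1 + ev (gl t x y) (BC κ u v j j' i).2 = 1 := by
  obtain ⟨x', y', -, hR⟩ := rot ht ht1 h i.val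
  obtain ⟨h', hX⟩ := hR inferInstance
  have hi : Fin.ofNat 6 i.val = i := by
    apply Fin.ext
    simp only [Fin.ofNat]
    exact Nat.mod_eq_of_lt i.isLt
  rw [hi] at hX
  have h1 := hB x' y' h'
  unfold BI at h1
  rw [mon_rw hX, mon_rw hX, ev_FE hκ hk ht ht1 h (j := j + i) (by
      rw [val_rw]; exact inv_mul_cancel₀ (val_ne ht ht1 _ _)),
    ev_FE hκ hk ht ht1 h (j := j' + i) (by
      rw [val_rw]; exact inv_mul_cancel₀ (val_ne ht ht1 _ _))] at h1
  exact h1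

/-- **the unit equation on the special curves**, from the classes -/
theorem unit_eqc [CharZero k] {κ : Fin 4} (hκ : κ ≠ 0) (hk : Kd κ t) (ht : t ≠ 0)
    (ht1 : t + 1 ≠ 0) (h : G6 t x y) {cls : List (Mo × Mo)} (H : Sols (gl t x y) cls)
    (hcl : Chk κ cls) {c c' : k} (hc : c ≠ 0) (hc' : c' ≠ 0)
    {a₀ a₁ a₂ a₃ a₄ b₀ b₁ b₂ b₃ b₄ : ℤ}
    (hu : algebraMap k F c * M t x y a₀ a₁ a₂ a₃ a₄ +
      algebraMap k F c' * M t x y b₀ b₁ b₂ b₃ b₄ = 1) :
    (∃ s : k, algebraMap k F c * M t x y a₀ a₁ a₂ a₃ a₄ = algebraMap k F s) ∨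
      Tc cls t x y (algebraMap k F c * M t x y a₀ a₁ a₂ a₃ a₄) := by
  obtain ⟨e, d, hd, h1⟩ := M_mon ht ht1 h a₀ a₁ a₂ a₃ a₄
  obtain ⟨e', d', hd', h2⟩ := M_mon ht ht1 h b₀ b₁ b₂ b₃ b₄
  rw [h1, h2, ← mul_assoc, ← mul_assoc, ← map_mul, ← map_mul] at hu
  rw [h1, ← mul_assoc, ← map_mul]
  exact master ht ht1 hk h (TTc hκ hk ht ht1 h H hcl) (mul_ne_zero hc hd) (mul_ne_zero hc' hd') hu

end Pool.Agent.N6
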