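import Pool.Agent.Lib_helper24.TN.N4U

/-!
# The unit equation for a point of order six, I: the origin
-/

set_option autoImplicit false
set_option linter.unusedSectionVars false

namespace Pool.Agent.N6

open Polynomial WeierstrassCurve.Affine WithZero
open Pool.Agent.TN

variable {k : Type*} [Field k] {t : k}

/-- the curve with a point of order six -/
abbrev W6 (t : k) : WeierstrassCurve.Affine k := Wt (t ^ 2 + t) t

/-- monomials in `x`, `x - b`, `x - t`, `y`, `y - t x` -/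
noncomputable def mo (t : k) (a₀ a₁ a₂ a₃ a₄ : ℤ) : K (W6 t) :=
  xK ^ a₀ * (xK - cK (t ^ 2 + t)) ^ a₁ * (xK - cK t) ^ a₂ * yK ^ a₃ * (yK - cK t * xK) ^ a₄

/-- `x (x - b) (x - t) f'/f` for a monomial `f` -/
noncomputable def L (t : k) (a₀ a₁ a₂ a₃ a₄ : k) : K (W6 t) :=
  N7 (-((t ^ 2 + t) ^ 2 * t) * (a₀ + 2 * a₃ + a₄))
    (((t ^ 2 + t) * (t ^ 2 + t + t) + (1 - t) * (t ^ 2 + t) * t) * a₀ + (t ^ 2 + t) * t * a₁ +
      (t ^ 2 + t) ^ 2 * a₂ + (2 * (t ^ 2 + t) ^ 2 + t * (t ^ 2 + t) * (4 - t)) * a₃ +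
      (t ^ 2 + t) * (t ^ 2 + 4 * t) * a₄)
    ((t ^ 2 + t) * t * (2 * a₀ + 2 * a₃ + a₄))
    ((-(t ^ 2 + t) - (1 - t) * (t ^ 2 + t + t)) * a₀ + (-(t ^ 2 + t) - t * (1 - t)) * a₁ +
      (-(t ^ 2 + t) - (t ^ 2 + t) * (1 - t)) * a₂ +
      (-((t ^ 2 + t) * (4 - t)) - 2 * t * (1 - t)) * a₃ +
      (-t ^ 2 - 3 * t + (t - 2) * (t ^ 2 + t)) * a₄)
    (-2 * (t ^ 2 + t + t) * a₀ - 2 * t * a₁ - 2 * (t ^ 2 + t) * a₂ +
      (-2 * (t ^ 2 + t) - 3 * t) * a₃ + (-4 * t - 2 * t ^ 2) * a₄)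
    ((1 - t) * (a₀ + a₁ + a₂) + 2 * (1 - t) * a₃ + (2 - t) * a₄)
    (2 * a₀ + 2 * a₁ + 2 * a₂ + 3 * a₃ + 3 * a₄)

lemma v_L [CharZero k] (ht : t ≠ 0) (ht1 : t + 1 ≠ 0) (a₀ a₁ a₂ a₃ a₄ : k) :
    (a₀ = 0 ∧ a₁ = 0 ∧ a₂ = 0 ∧ a₃ = 0 ∧ a₄ = 0) ∨
    ∃ i : ℤ, 2 ≤ i ∧ i ≤ 7 ∧ v (L t a₀ a₁ a₂ a₃ a₄) = exp i := by
  unfold L
  by_cases h7 : 2 * a₀ + 2 * a₁ + 2 * a₂ + 3 * a₃ + 3 * a₄ = 0
  swap
  · exact Or.inr ⟨7, by norm_num, by norm_num, v7 h7⟩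
  rw [h7]
  by_cases h6 : (1 - t) * (a₀ + a₁ + a₂) + 2 * (1 - t) * a₃ + (2 - t) * a₄ = 0
  swap
  · exact Or.inr ⟨6, by norm_num, by norm_num, v6 h6⟩
  rw [h6]
  by_cases h5 : -2 * (t ^ 2 + t + t) * a₀ - 2 * t * a₁ - 2 * (t ^ 2 + t) * a₂ +
      (-2 * (t ^ 2 + t) - 3 * t) * a₃ + (-4 * t - 2 * t ^ 2) * a₄ = 0
  swap
  · exact Or.inr ⟨5, by norm_num, by norm_num, v5 h5⟩
  rw [h5]
  by_cases h4 : (-(t ^ 2 + t) - (1 - t) * (t ^ 2 + t + t)) * a₀ +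
      (-(t ^ 2 + t) - t * (1 - t)) * a₁ + (-(t ^ 2 + t) - (t ^ 2 + t) * (1 - t)) * a₂ +
      (-((t ^ 2 + t) * (4 - t)) - 2 * t * (1 - t)) * a₃ +
      (-t ^ 2 - 3 * t + (t - 2) * (t ^ 2 + t)) * a₄ = 0
  swap
  · exact Or.inr ⟨4, by norm_num, by norm_num, v4 h4⟩
  rw [h4]
  by_cases h3 : (t ^ 2 + t) * t * (2 * a₀ + 2 * a₃ + a₄) = 0
  swap
  · exact Or.inr ⟨3, by norm_num, by norm_num, v3 h3⟩
  rw [h3]
  by_cases h2 : ((t ^ 2 + t) * (t ^ 2 + t + t) + (1 - t) * (t ^ 2 + t) * t) * a₀ +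
      (t ^ 2 + t) * t * a₁ + (t ^ 2 + t) ^ 2 * a₂ +
      (2 * (t ^ 2 + t) ^ 2 + t * (t ^ 2 + t) * (4 - t)) * a₃ +
      (t ^ 2 + t) * (t ^ 2 + 4 * t) * a₄ = 0
  swap
  · exact Or.inr ⟨2, by norm_num, by norm_num, v2 h2⟩
  left
  have hb : (t ^ 2 + t) ≠ 0 := by
    rw [show t ^ 2 + t = t * (t + 1) by ring]; exact mul_ne_zero ht ht1
  have e3 : 2 * a₀ + 2 * a₃ + a₄ = 0 := by
    rcases mul_eq_zero.mp h3 with h | h
    · exact absurd h (mul_ne_zero hb ht)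
    · exact h
  have e1 : a₀ + 2 * a₃ + a₄ = 0 := by
    have : (t ^ 2 + t) ^ 2 * t * (a₀ + 2 * a₃ + a₄) = 0 := by
      linear_combination t * h2 + t ^ 2 * h3 + t ^ 2 * h4 + t ^ 3 * h5 + t ^ 3 * h6 + t ^ 4 * h7
    rcases mul_eq_zero.mp this with h | h
    · exact absurd h (mul_ne_zero (pow_ne_zero 2 hb) ht)
    · exact h
  have e0 : a₀ = 0 := by linear_combination e3 - e1
  have e4 : a₄ = -2 * a₃ := by linear_combination e1 - e0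
  subst e0
  subst e4
  have s : 2 * (a₁ + a₂) = 3 * a₃ := by linear_combination h7
  have q1 : a₃ * (1 + 3 * t) = 0 := by linear_combination -2 * h6 + (1 - t) * s
  have q2 : a₂ = a₃ := by
    have : t ^ 2 * (a₂ - a₃) = 0 := by
      linear_combination (-1 / 2 : k) * h5 - (t / 2) * s
    rcases mul_eq_zero.mp this with h | h
    · exact absurd h (pow_ne_zero 2 ht)
    · linear_combination h
  subst q2
  have q3 : a₁ = a₂ / 2 := by linear_combination (1 / 2 : k) * s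
  subst q3
  have q4 : a₂ * (t * (2 * t + 1)) = 0 := by linear_combination h4
  have q5 : a₂ = 0 := by
    have : t * a₂ = 0 := by linear_combination 3 * q4 - 2 * t * q1
    exact (mul_eq_zero.mp this).resolve_left ht
  subst q5
  refine ⟨rfl, ?_, rfl, rfl, ?_⟩ <;> simp

lemma v_mo (a₀ a₁ a₂ a₃ a₄ : ℤ) : v (mo t a₀ a₁ a₂ a₃ a₄) =
    exp (2 * a₀ + 2 * a₁ + 2 * a₂ + 3 * a₃ + 3 * a₄) := by
  have h5 : v (yK - cK t * xK : K (W6 t)) = exp 3 := by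
    have := v_yab (W := W6 t) (-t) 0
    rw [map_zero, add_zero, map_neg] at this
    rw [← this]; congr 1; ring
  unfold mo
  rw [map_mul, map_mul, map_mul, map_mul, map_zpow₀, map_zpow₀, map_zpow₀, map_zpow₀, map_zpow₀,
    v_x, v_xc, v_xc, v_y, h5,
    ← exp_zsmul, ← exp_zsmul, ← exp_zsmul, ← exp_zsmul, ← exp_zsmul, ← exp_add, ← exp_add,
    ← exp_add, ← exp_add]
  congr 1
  simp only [smul_eq_mul]
  ring

lemma mo_ne (a₀ a₁ a₂ a₃ a₄ : ℤ) : mo t a₀ a₁ a₂ a₃ a₄ ≠ 0 := ne_of_v (v_mo _ _ _ _ _)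

lemma yt_ne : (yK - cK t * xK : K (W6 t)) ≠ 0 := by
  have := v_yab (W := W6 t) (-t) 0
  rw [map_zero, add_zero, map_neg] at this
  have h := ne_of_v this
  intro h0
  apply h
  linear_combination h0

lemma aux_div {F : Type*} [Field F] {A h C d : F} (hh : h ≠ 0) : A * h * C * (d / h) = A * C * d := by
  field_simp

lemma ld_mo (a₀ a₁ a₂ a₃ a₄ : ℤ) :
    xK * (xK - cK (t ^ 2 + t)) * (xK - cK t) * ld (mo t a₀ a₁ a₂ a₃ a₄) = L t a₀ a₁ a₂ a₃ a₄ := by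
  have hx : (xK : K (W6 t)) ≠ 0 := ne_of_v v_x
  have hx1 : (xK - cK (t ^ 2 + t) : K (W6 t)) ≠ 0 := ne_of_v (v_xc _)
  have hx2 : (xK - cK t : K (W6 t)) ≠ 0 := ne_of_v (v_xc t)
  have hy : (yK : K (W6 t)) ≠ 0 := ne_of_v v_y
  have hyt := yt_ne (t := t)
  have he := eqW (b := t ^ 2 + t) (c := t)
  have e : ld (mo t a₀ a₁ a₂ a₃ a₄) = (a₀ : K (W6 t)) * (dx / xK) +
      (a₁ : K (W6 t)) * (dx / (xK - cK (t ^ 2 + t))) + (a₂ : K (W6 t)) * (dx / (xK - cK t)) +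
      (a₃ : K (W6 t)) * (dy / yK) + (a₄ : K (W6 t)) * ((dy - cK t * dx) / (yK - cK t * xK)) := by
    unfold mo
    have d5 : dv (yK - cK t * xK : K (W6 t)) = dy - cK t * dx := by
      have h1 := dv_add (yK - cK t * xK : K (W6 t)) (cK t * xK)
      rw [sub_add_cancel, dv_mul, dv_c, mul_zero, add_zero, dv_x, dv_y] at h1
      linear_combination -h1
    rw [ld_mul (mul_ne_zero (mul_ne_zero (mul_ne_zero (zpow_ne_zero _ hx) (zpow_ne_zero _ hx1))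
      (zpow_ne_zero _ hx2)) (zpow_ne_zero _ hy)) (zpow_ne_zero _ hyt),
      ld_mul (mul_ne_zero (mul_ne_zero (zpow_ne_zero _ hx) (zpow_ne_zero _ hx1))
      (zpow_ne_zero _ hx2)) (zpow_ne_zero _ hy),
      ld_mul (mul_ne_zero (zpow_ne_zero _ hx) (zpow_ne_zero _ hx1)) (zpow_ne_zero _ hx2),
      ld_mul (zpow_ne_zero _ hx) (zpow_ne_zero _ hx1), ld_zpow hx, ld_zpow hx1, ld_zpow hx2,
      ld_zpow hy, ld_zpow hyt]
    unfold ld
    rw [dv_sub_c, dv_sub_c, dv_x, dv_y, d5]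
  have hdx : (dx : K (W6 t)) = 2 * yK + (1 - cK t) * xK - (cK t ^ 2 + cK t) := by
    show 2 * yK + cK (1 - t) * xK + cK (-(t ^ 2 + t)) = _
    rw [map_sub, map_one, map_neg, map_add, map_pow]; ring
  have hdy : (dy : K (W6 t)) = 3 * xK ^ 2 - 2 * (cK t ^ 2 + cK t) * xK - (1 - cK t) * yK := by
    show 3 * xK ^ 2 + 2 * cK (-(t ^ 2 + t)) * xK + cK 0 - cK (1 - t) * yK = _
    rw [map_sub, map_one, map_neg, map_zero, map_add, map_pow]; ring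
  have hB : (cK (t ^ 2 + t) : K (W6 t)) = cK t ^ 2 + cK t := by rw [map_add, map_pow]
  rw [hB] at he hx1 e ⊢
  have e0 : xK * (xK - (cK t ^ 2 + cK t)) * (xK - cK t) * (dx / xK) =
      (xK - (cK t ^ 2 + cK t)) * (xK - cK t) * (dx : K (W6 t)) := by
    field_simp
  have e1 : xK * (xK - (cK t ^ 2 + cK t)) * (xK - cK t) * (dx / (xK - (cK t ^ 2 + cK t))) =
      xK * (xK - cK t) * (dx : K (W6 t)) := aux_div hx1
  have e2 : xK * (xK - (cK t ^ 2 + cK t)) * (xK - cK t) * (dx / (xK - cK t)) =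
      xK * (xK - (cK t ^ 2 + cK t)) * (dx : K (W6 t)) := by
    field_simp
  have e3 : xK * (xK - (cK t ^ 2 + cK t)) * (xK - cK t) * (dy / yK) =
      (xK - cK t) * (2 * (1 - cK t) * xK ^ 2 - (cK t ^ 2 + cK t) * (4 - cK t) * xK +
        2 * (cK t ^ 2 + cK t) ^ 2 + 3 * xK * yK - 2 * (cK t ^ 2 + cK t) * yK : K (W6 t)) := by
    rw [← mul_div_assoc, div_eq_iff hy, hdy]
    linear_combination (-(xK - cK t) * (3 * xK - 2 * (cK t ^ 2 + cK t))) * he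
  have e4 : xK * (xK - (cK t ^ 2 + cK t)) * (xK - cK t) *
      ((dy - cK t * dx) / (yK - cK t * xK)) =
      (xK + yK - (cK t ^ 2 + cK t)) * (3 * xK ^ 2 - (cK t ^ 2 + 3 * cK t) * xK -
        (1 + cK t) * yK + cK t * (cK t ^ 2 + cK t) : K (W6 t)) := by
    rw [← mul_div_assoc, div_eq_iff hyt, hdy, hdx]
    linear_combination (-(3 * xK ^ 2 - (cK t ^ 2 + 3 * cK t) * xK -
        (1 + cK t) * yK + cK t * (cK t ^ 2 + cK t))) * he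
  have hc : ∀ n : ℤ, (cK ((n : k)) : K (W6 t)) = (n : K (W6 t)) := fun n => map_intCast _ n
  rw [e]
  unfold L N7
  simp only [map_sub, map_add, map_mul, map_neg, map_pow, map_zero, map_one, hc, map_ofNat]
  rw [hdx] at e0 e1 e2
  rw [hdx] at e4 ⊢
  linear_combination (a₀ : K (W6 t)) * e0 + (a₁ : K (W6 t)) * e1 + (a₂ : K (W6 t)) * e2 +
    (a₃ : K (W6 t)) * e3 + (a₄ : K (W6 t)) * e4 + (a₄ : K (W6 t)) * (-(1 + cK t)) * he

end Pool.Agent.N6
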