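import Pool.Agent.Lib_helper60.N6.A

/-!
# The unit equation for a point of order six, II: bound, value and derivative at the origin
-/

set_option autoImplicit false
set_option linter.unusedSectionVars false

namespace Pool.Agent.N6

open Polynomial WeierstrassCurve.Affine WithZero
open Pool.Agent.TN

/-! ### principal units -/

section PU

variable {L : Type*} [Field L] {Γ : Type*} [LinearOrderedCommGroupWithZero Γ] (v : Valuation L Γ)

/-- the principal units -/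
def PU (z : L) : Prop := v (z - 1) < 1

variable {v}

lemma PU.v_eq {z : L} (h : PU v z) : v z = 1 := by
  have e : z = 1 + (z - 1) := by ring
  rw [e]
  exact Valuation.map_one_add_of_lt v h

lemma PU.one : PU v (1 : L) := by
  unfold PU; rw [sub_self, map_zero]; exact zero_lt_one

lemma PU.mul {z w : L} (hz : PU v z) (hw : PU v w) : PU v (z * w) := by
  unfold PU
  have e : z * w - 1 = (z - 1) * w + (w - 1) := by ring
  rw [e]
  refine lt_of_le_of_lt (v.map_add _ _) (max_lt ?_ hw)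
  rw [map_mul, hw.v_eq, mul_one]
  exact hz

lemma PU.inv {z : L} (hz : PU v z) : PU v z⁻¹ := by
  have h0 : z ≠ 0 := by
    rintro rfl
    have := hz.v_eq
    rw [map_zero] at this
    exact zero_ne_one this
  unfold PU
  have e : z⁻¹ - 1 = -(z - 1) * z⁻¹ := by field_simp; ring
  rw [e, map_mul, map_inv₀, hz.v_eq, inv_one, mul_one, Valuation.map_neg]
  exact hz

lemma PU.pow {z : L} (hz : PU v z) (n : ℕ) : PU v (z ^ n) := by
  induction n with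
  | zero => rw [pow_zero]; exact PU.one
  | succ n ih => rw [pow_succ]; exact ih.mul hz

lemma PU.zpow {z : L} (hz : PU v z) (n : ℤ) : PU v (z ^ n) := by
  obtain ⟨m, rfl | rfl⟩ := Int.eq_nat_or_neg n
  · rw [zpow_natCast]; exact hz.pow m
  · rw [zpow_neg, zpow_natCast]; exact (hz.pow m).inv

lemma PU.of_div {a b : L} (hb : b ≠ 0) (h : v (a - b) < v b) : PU v (a / b) := by
  unfold PU
  have e : a / b - 1 = (a - b) / b := by field_simp
  rw [e, map_div₀]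
  exact (div_lt_one₀ (zero_lt_iff.mpr ((Valuation.ne_zero_iff v).mpr hb))).mpr h

end PU

variable {k : Type*} [Field k] {t : k}

lemma v_yt : v (yK - cK t * xK : K (W6 t)) = exp 3 := by
  have := v_yab (W := W6 t) (-t) 0
  rw [map_zero, add_zero, map_neg] at this
  rw [← this]; congr 1; ring

lemma v_c_le (c : k) : v (cK c : K (W6 t)) ≤ exp 0 := by
  by_cases h : c = 0
  · rw [h, map_zero, map_zero]; exact zero_le
  · exact (v_c h).le

/-- monomials of order zero are principal units -/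
lemma pu_mo {a₀ a₁ a₂ a₃ a₄ : ℤ} (h : 2 * a₀ + 2 * a₁ + 2 * a₂ + 3 * a₃ + 3 * a₄ = 0) :
    PU (v (W := W6 t)) (mo t a₀ a₁ a₂ a₃ a₄) := by
  have hx : (xK : K (W6 t)) ≠ 0 := ne_of_v v_x
  have hx1 : (xK - cK (t ^ 2 + t) : K (W6 t)) ≠ 0 := ne_of_v (v_xc _)
  have hx2 : (xK - cK t : K (W6 t)) ≠ 0 := ne_of_v (v_xc t)
  have hy : (yK : K (W6 t)) ≠ 0 := ne_of_v v_y
  have hyt := yt_ne (t := t)
  have u1 : ∀ c : k, PU (v (W := W6 t)) ((xK - cK c) / xK) := by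
    intro c
    apply PU.of_div hx
    rw [show xK - cK c - xK = - (cK c : K (W6 t)) by ring, Valuation.map_neg, v_x]
    exact (v_c_le c).trans_lt (exp_lt_exp.mpr (by norm_num))
  have u2 : PU (v (W := W6 t)) ((yK - cK t * xK) / yK) := by
    apply PU.of_div hy
    rw [show yK - cK t * xK - yK = - (cK t * xK : K (W6 t)) by ring, Valuation.map_neg, map_mul,
      v_x, v_y]
    calc v (cK t : K (W6 t)) * exp 2 ≤ exp 0 * exp 2 := mul_le_mul_left (v_c_le t) _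
      _ = exp 2 := by rw [← exp_add]; rfl
      _ < exp 3 := exp_lt_exp.mpr (by norm_num)
  have u3 : PU (v (W := W6 t)) (yK ^ 2 / xK ^ 3) := by
    apply PU.of_div (pow_ne_zero 3 hx)
    have he := eqW (b := t ^ 2 + t) (c := t)
    rw [show yK ^ 2 - xK ^ 3 = (N7 0 0 (t ^ 2 + t) (-(t ^ 2 + t)) (-(1 - t)) 0 0 : K (W6 t)) by
      unfold N7; rw [map_zero, map_neg, map_neg, map_sub, map_one]; linear_combination he,
      map_pow, v_x]
    have h6 : (exp 2 : WithZero (Multiplicative ℤ)) ^ 3 = exp 6 := by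
      rw [← exp_nsmul]; rfl
    rw [h6]
    have hle : v (N7 0 0 (t ^ 2 + t) (-(t ^ 2 + t)) (-(1 - t)) 0 0 : K (W6 t)) ≤ exp 5 := by
      unfold N7
      have b1 : ∀ (c : k) (z : K (W6 t)) (i : ℤ), v z = exp i → i ≤ 5 → v (cK c * z) ≤ exp 5 := by
        intro c z i hz hi
        rw [map_mul, hz]
        calc v (cK c : K (W6 t)) * exp i ≤ exp 0 * exp i := mul_le_mul_left (v_c_le c) _
          _ = exp i := by rw [← exp_add, zero_add]
          _ ≤ exp 5 := exp_le_exp.mpr hi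
      simp only [map_zero, zero_mul, add_zero, zero_add]
      refine (Valuation.map_add _ _ _).trans (max_le ((Valuation.map_add _ _ _).trans
        (max_le ?_ ?_)) ?_)
      · exact b1 _ _ 3 v_y (by norm_num)
      · exact b1 _ _ 4 (by rw [map_pow, v_x, ← exp_nsmul]; rfl) (by norm_num)
      · exact b1 _ _ 5 (by rw [map_mul, v_x, v_y, ← exp_add]; rfl) (by norm_num)
    exact hle.trans_lt (exp_lt_exp.mpr (by norm_num))
  obtain ⟨m, hm⟩ : ∃ m : ℤ, a₃ + a₄ = 2 * m := ⟨(a₃ + a₄) / 2, by omega⟩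
  have hs : a₀ + a₁ + a₂ = -(3 * m) := by omega
  have e : mo t a₀ a₁ a₂ a₃ a₄ = ((xK - cK (t ^ 2 + t)) / xK) ^ a₁ * ((xK - cK t) / xK) ^ a₂ *
      ((yK - cK t * xK) / yK) ^ a₄ * (yK ^ 2 / xK ^ 3) ^ m := by
    unfold mo
    rw [show a₀ = -(3 * m) - a₁ - a₂ by omega, show a₃ = 2 * m - a₄ by omega]
    have e2 : (yK ^ 2 : K (W6 t)) ^ m = yK ^ (2 * m) := by
      rw [zpow_mul]; norm_cast
    have e3 : (xK ^ 3 : K (W6 t)) ^ m = xK ^ (3 * m) := by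
      rw [zpow_mul]; norm_cast
    simp only [div_zpow]
    rw [e2, e3, zpow_sub₀ hx, zpow_sub₀ hx, zpow_sub₀ hy, zpow_neg]
    field_simp
  rw [e]
  exact (((u1 _).zpow _).mul ((u1 _).zpow _)).mul (u2.zpow _) |>.mul (u3.zpow _)

/-- the local conditions at the origin -/
theorem loc_K [CharZero k] (ht : t ≠ 0) (ht1 : t + 1 ≠ 0) {c₀ c₁ : k} (h0 : c₀ ≠ 0) (h1 : c₁ ≠ 0)
    {a₀ a₁ a₂ a₃ a₄ b₀ b₁ b₂ b₃ b₄ : ℤ}
    (h : cK c₀ * mo t a₀ a₁ a₂ a₃ a₄ + cK c₁ * mo t b₀ b₁ b₂ b₃ b₄ = 1) {n n' : ℤ}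
    (hn : n = 2 * a₀ + 2 * a₁ + 2 * a₂ + 3 * a₃ + 3 * a₄)
    (hn' : n' = 2 * b₀ + 2 * b₁ + 2 * b₂ + 3 * b₃ + 3 * b₄) :
    ((a₀ = 0 ∧ a₁ = 0 ∧ a₂ = 0 ∧ a₃ = 0 ∧ a₄ = 0) ∨ (n = n' ∧ 1 ≤ n ∧ n ≤ 5) ∨
      (n = 0 ∧ n' = 0) ∨ (-5 ≤ n ∧ n ≤ -1 ∧ n' = 0) ∨ (n = 0 ∧ -5 ≤ n' ∧ n' ≤ -1)) ∧
    (n' ≤ -1 → n = 0 → c₀ = 1) ∧
    (n' ≤ -2 → (1 - t) * ((a₀ : k) + a₁ + a₂) + 2 * (1 - t) * a₃ + (2 - t) * a₄ = 0) ∧
    (n' ≤ -3 → -2 * (t ^ 2 + t + t) * (a₀ : k) - 2 * t * a₁ - 2 * (t ^ 2 + t) * a₂ +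
      (-2 * (t ^ 2 + t) - 3 * t) * a₃ + (-4 * t - 2 * t ^ 2) * a₄ = 0) := by
  have hc0 : (cK c₀ : K (W6 t)) ≠ 0 := ne_of_v (v_c h0)
  have hc1 : (cK c₁ : K (W6 t)) ≠ 0 := ne_of_v (v_c h1)
  have vf : v (cK c₀ * mo t a₀ a₁ a₂ a₃ a₄) = exp n := by
    rw [map_mul, v_c h0, v_mo, ← exp_add, zero_add, hn]
  have vg : v (cK c₁ * mo t b₀ b₁ b₂ b₃ b₄) = exp n' := by
    rw [map_mul, v_c h1, v_mo, ← exp_add, zero_add, hn']
  have lf : L t a₀ a₁ a₂ a₃ a₄ = xK * (xK - cK (t ^ 2 + t)) * (xK - cK t) *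
      ld (cK c₀ * mo t a₀ a₁ a₂ a₃ a₄) := by
    rw [ld_mul hc0 (mo_ne _ _ _ _ _), ld_c, zero_add, ld_mo]
  have lg : L t b₀ b₁ b₂ b₃ b₄ = xK * (xK - cK (t ^ 2 + t)) * (xK - cK t) *
      ld (cK c₁ * mo t b₀ b₁ b₂ b₃ b₄) := by
    rw [ld_mul hc1 (mo_ne _ _ _ _ _), ld_c, zero_add, ld_mo]
  have Lsub : L t (a₀ : k) a₁ a₂ a₃ a₄ - L t b₀ b₁ b₂ b₃ b₄ =
      L t ((a₀ : k) - b₀) (a₁ - b₁) (a₂ - b₂) (a₃ - b₃) (a₄ - b₄) := by
    unfold L
    rw [N7_sub]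
    congr 1 <;> ring
  have Lz : L t (0 : k) 0 0 0 0 = 0 := by unfold L N7; simp
  have key : ∀ a b c d e : k, L t a b c d e = 0 ∨ ∃ i : ℤ, 2 ≤ i ∧ i ≤ 7 ∧
      v (L t a b c d e) = exp i := by
    intro a b c d e
    rcases v_L ht ht1 a b c d e with ⟨rfl, rfl, rfl, rfl, rfl⟩ | h'
    · exact Or.inl Lz
    · exact Or.inr h'
  refine ⟨?_, ?_, ?_⟩
  · rcases wr h lf lg vf vg (key _ _ _ _ _) (key _ _ _ _ _) (by rw [Lsub]; exact key _ _ _ _ _)
      with ⟨h2, -⟩ | h2 | h2 | h2 | h2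
    · left
      rcases v_L ht ht1 (a₀ : k) a₁ a₂ a₃ a₄ with ⟨e0, e1, e2, e3, e4⟩ | ⟨i, -, -, hi⟩
      · exact ⟨by exact_mod_cast e0, by exact_mod_cast e1, by exact_mod_cast e2,
          by exact_mod_cast e3, by exact_mod_cast e4⟩
      · exact absurd h2 (ne_of_v hi)
    · right; left; omega
    · right; right; left; exact h2
    · right; right; right; left; omega
    · right; right; right; right; omega
  · intro g1 g0
    by_contra hne
    have p := pu_mo (t := t) (a₀ := a₀) (a₁ := a₁) (a₂ := a₂) (a₃ := a₃) (a₄ := a₄)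
      (by rw [← hn]; exact g0)
    have e : cK (c₀ - 1) = - (cK c₀ * (mo t a₀ a₁ a₂ a₃ a₄ - 1)) -
        cK c₁ * mo t b₀ b₁ b₂ b₃ b₄ := by
      rw [map_sub, map_one]; linear_combination h
    have h2 : v (cK (c₀ - 1) : K (W6 t)) = exp 0 := v_c (sub_ne_zero.mpr hne)
    have h3 : v (cK (c₀ - 1) : K (W6 t)) < exp 0 := by
      rw [e]
      refine lt_of_le_of_lt (Valuation.map_sub _ _ _) (max_lt ?_ ?_)
      · rw [Valuation.map_neg, map_mul, v_c h0, exp_zero, one_mul]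
        exact p
      · rw [vg]; exact exp_lt_exp.mpr (by omega)
    exact absurd h2 h3.ne
  · -- the pole order of `q f'/f` is at most `7 + n'`
    have hd : cK c₀ * mo t a₀ a₁ a₂ a₃ a₄ * L t a₀ a₁ a₂ a₃ a₄ +
        cK c₁ * mo t b₀ b₁ b₂ b₃ b₄ * L t b₀ b₁ b₂ b₃ b₄ = 0 := by
      have hf0 : cK c₀ * mo t a₀ a₁ a₂ a₃ a₄ ≠ 0 := ne_of_v vf
      have hg0 : cK c₁ * mo t b₀ b₁ b₂ b₃ b₄ ≠ 0 := ne_of_v vg
      have h2 := congrArg dv h
      rw [dv_add, dv_one] at h2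
      rw [lf, lg]
      unfold ld
      have e1 : ∀ q f d : K (W6 t), f ≠ 0 → f * (q * (d / f)) = q * d := by
        intro q f d hf; field_simp
      rw [e1 _ _ _ hf0, e1 _ _ _ hg0, ← mul_add, h2, mul_zero]
    have e2 : cK c₁ * mo t b₀ b₁ b₂ b₃ b₄ * (L t (a₀ : k) a₁ a₂ a₃ a₄ - L t b₀ b₁ b₂ b₃ b₄) =
        L t (a₀ : k) a₁ a₂ a₃ a₄ := by
      linear_combination (L t (a₀ : k) a₁ a₂ a₃ a₄) * h - hd
    have hle : v (L t (a₀ : k) a₁ a₂ a₃ a₄) ≤ exp (7 + n') := by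
      rw [← e2, map_mul, vg, Lsub]
      have : v (L t ((a₀ : k) - b₀) (a₁ - b₁) (a₂ - b₂) (a₃ - b₃) (a₄ - b₄)) ≤ exp 7 := by
        rcases key ((a₀ : k) - b₀) (a₁ - b₁) (a₂ - b₂) (a₃ - b₃) (a₄ - b₄) with h' | ⟨i, _, h7, hi⟩
        · rw [h', map_zero]; exact zero_le
        · rw [hi]; exact exp_le_exp.mpr h7
      calc exp n' * v (L t ((a₀ : k) - b₀) (a₁ - b₁) (a₂ - b₂) (a₃ - b₃) (a₄ - b₄)) ≤
            exp n' * exp 7 := mul_le_mul_right this _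
        _ = exp (7 + n') := by rw [← exp_add, add_comm]
    have g7 : n' ≤ -1 → 2 * (a₀ : k) + 2 * a₁ + 2 * a₂ + 3 * a₃ + 3 * a₄ = 0 := by
      intro hm
      by_contra hne
      unfold L at hle
      rw [v7 hne, exp_le_exp] at hle
      omega
    have g6 : n' ≤ -2 → (1 - t) * ((a₀ : k) + a₁ + a₂) + 2 * (1 - t) * a₃ + (2 - t) * a₄ = 0 := by
      intro hm
      by_contra hne
      have g7' := g7 (by omega)
      unfold L at hle
      rw [g7', v6 hne, exp_le_exp] at hle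
      omega
    refine ⟨g6, ?_⟩
    intro hm
    by_contra hne
    have g7' := g7 (by omega)
    have g6' := g6 (by omega)
    unfold L at hle
    rw [g7', g6', v5 hne, exp_le_exp] at hle
    omega

end Pool.Agent.N6
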