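import Pool.Agent.Lib_helper60.N6.B

/-!
# The unit equation for a point of order six, III: the six points
-/

set_option autoImplicit false
set_option linter.unusedSectionVars false

namespace Pool.Agent.N6

open Polynomial WeierstrassCurve.Affine WithZero
open Pool.Agent.TN

variable {k : Type*} [Field k] {F : Type*} [Field F] [Algebra k F] {t : k} {x y : F}

/-- a generic point of the curve with a point of order six -/
abbrev G6 (t : k) (x y : F) : Prop := Gen (t ^ 2 + t) t x y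

section pts

lemma b_ne (ht : t ≠ 0) (ht1 : t + 1 ≠ 0) : t ^ 2 + t ≠ 0 := by
  rw [show t ^ 2 + t = t * (t + 1) by ring]; exact mul_ne_zero ht ht1

lemma w_ne (h : G6 t x y) : y - algebraMap k F t * x ≠ 0 := by
  have := h.yab_ne (-t) 0
  rw [map_zero, add_zero, map_neg] at this
  intro h0
  apply this
  linear_combination h0

lemma Gen.e1 (h : G6 t x y) : x ^ 2 - y =
    y * (y - algebraMap k F t * x) / (x - algebraMap k F (t ^ 2 + t)) := by
  rw [eq_div_iff (h.xc_ne _)]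
  have := h.eq
  linear_combination -this

lemma Gen.e2 (h : G6 t x y) : (algebraMap k F t + 1) * y - x ^ 2 =
    -(y - algebraMap k F t * x) ^ 2 / (x - algebraMap k F t) := by
  rw [eq_div_iff (h.xc_ne _)]
  have := h.eq
  rw [map_add, map_pow] at this
  linear_combination this

/-- the six units in terms of `b, t, x, y, w = y - t x` -/
def Xf (B T x y w : F) : Fin 6 → F :=
  ![x, B * y / x ^ 2, B * x * w / (y * (x - B)), T * (x - B) / (x - T),
    B * y * (x - T) / ((x - B) * w), -(B * (x - B)) / y]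

lemma Xf_next {B T x y w : F} (hB : B ≠ 0) (hT : T ≠ 0) (h1 : x ≠ 0) (h2 : x - B ≠ 0)
    (h3 : x - T ≠ 0) (h4 : y ≠ 0) (h5 : w ≠ 0) (hw : w = y - T * x) (hBT : B = T ^ 2 + T)
    (e1 : x ^ 2 - y = y * w / (x - B)) (e2 : (T + 1) * y - x ^ 2 = -w ^ 2 / (x - T))
    (i : Fin 6) :
    Xf B T (B * y / x ^ 2) (B ^ 2 * (x ^ 2 - y) / x ^ 3)
      (B ^ 2 * (x ^ 2 - y) / x ^ 3 - T * (B * y / x ^ 2)) i = Xf B T x y w (i + 1) := by
  have g1 : B * y / x ^ 2 - B = -(B * (x ^ 2 - y)) / x ^ 2 := by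
    field_simp; ring
  have g2 : B * y / x ^ 2 - T = T * ((T + 1) * y - x ^ 2) / x ^ 2 := by
    rw [hBT]; field_simp
  have e3 : (x ^ 2 - y) * (x - B) = y * w := by rw [e1, div_mul_cancel₀ _ h2]
  have e4 : ((T + 1) * y - x ^ 2) * (x - T) = -w ^ 2 := by rw [e2, div_mul_cancel₀ _ h3]
  have g3' : B ^ 2 * (x ^ 2 - y) - T * B * x * y = -(B * T * y * w ^ 2) / ((x - B) * (x - T)) := by
    rw [eq_div_iff (mul_ne_zero h2 h3)]
    linear_combination (B ^ 2 * (x - T)) * e3 + (B * T * y) * e4 + B ^ 2 * (x - T) * y * hw +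
      B * y ^ 2 * (x - T) * hBT
  have g3 : B ^ 2 * (x ^ 2 - y) / x ^ 3 - T * (B * y / x ^ 2) =
      -(B * T * y * w ^ 2) / ((x - B) * (x - T)) / x ^ 3 := by
    rw [← g3']; field_simp
  clear hw hBT e3 e4 g3'
  fin_cases i
  · rfl
  · show B * (B ^ 2 * (x ^ 2 - y) / x ^ 3) / (B * y / x ^ 2) ^ 2 = B * x * w / (y * (x - B))
    rw [e1]
    field_simp
  · show B * (B * y / x ^ 2) * (B ^ 2 * (x ^ 2 - y) / x ^ 3 - T * (B * y / x ^ 2)) /
      (B ^ 2 * (x ^ 2 - y) / x ^ 3 * (B * y / x ^ 2 - B)) = T * (x - B) / (x - T)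
    rw [g3, g1, e1]
    field_simp
  · show T * (B * y / x ^ 2 - B) / (B * y / x ^ 2 - T) = B * y * (x - T) / ((x - B) * w)
    rw [g1, g2, e1, e2]
    field_simp
  · show B * (B ^ 2 * (x ^ 2 - y) / x ^ 3) * (B * y / x ^ 2 - T) / ((B * y / x ^ 2 - B) *
      (B ^ 2 * (x ^ 2 - y) / x ^ 3 - T * (B * y / x ^ 2))) = -(B * (x - B)) / y
    rw [g3, g1, g2, e1, e2]
    field_simp
  · show -(B * (B * y / x ^ 2 - B)) / (B ^ 2 * (x ^ 2 - y) / x ^ 3) = x
    rw [g1, e1]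
    field_simp

/-- the six units `x(z + iP)` -/
noncomputable def X (t : k) (x y : F) : Fin 6 → F :=
  Xf (algebraMap k F (t ^ 2 + t)) (algebraMap k F t) x y (y - algebraMap k F t * x)

/-- the monomials -/
noncomputable def mon (t : k) (x y : F) (e : Fin 6 → ℤ) : F := ∏ i, X t x y i ^ e i

/-- the order at the `i`-th point -/
def mm (e : Fin 6 → ℤ) (i : Fin 6) : ℤ := e (i + 1) + e (i - 1) - 2 * e i

lemma X_ne (ht : t ≠ 0) (ht1 : t + 1 ≠ 0) (h : G6 t x y) (i : Fin 6) : X t x y i ≠ 0 := by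
  have hT : algebraMap k F t ≠ 0 := (_root_.map_ne_zero _).mpr ht
  have hB : algebraMap k F (t ^ 2 + t) ≠ 0 := (_root_.map_ne_zero _).mpr (b_ne ht ht1)
  have h1 := h.x_ne
  have h2 := h.xc_ne (t ^ 2 + t)
  have h3 := h.xc_ne t
  have h4 := h.y_ne
  have h5 := w_ne h
  fin_cases i
  · exact h1
  · exact div_ne_zero (mul_ne_zero hB h4) (pow_ne_zero 2 h1)
  · exact div_ne_zero (mul_ne_zero (mul_ne_zero hB h1) h5) (mul_ne_zero h4 h2)
  · exact div_ne_zero (mul_ne_zero hT h2) h3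
  · exact div_ne_zero (mul_ne_zero (mul_ne_zero hB h4) h3) (mul_ne_zero h2 h5)
  · exact div_ne_zero (neg_ne_zero.mpr (mul_ne_zero hB h2)) h4

lemma mon_ne (ht : t ≠ 0) (ht1 : t + 1 ≠ 0) (h : G6 t x y) (e : Fin 6 → ℤ) :
    mon t x y e ≠ 0 :=
  Finset.prod_ne_zero_iff.mpr fun i _ => zpow_ne_zero _ (X_ne ht ht1 h i)

/-- translation to the next point -/
lemma X_next (ht : t ≠ 0) (ht1 : t + 1 ≠ 0) (h : G6 t x y) (i : Fin 6) :
    X t (algebraMap k F (t ^ 2 + t) * y / x ^ 2)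
      (algebraMap k F (t ^ 2 + t) ^ 2 * (x ^ 2 - y) / x ^ 3) i = X t x y (i + 1) :=
  Xf_next ((_root_.map_ne_zero _).mpr (b_ne ht ht1)) ((_root_.map_ne_zero _).mpr ht) h.x_ne
    (h.xc_ne _) (h.xc_ne _) h.y_ne (w_ne h) rfl (by rw [map_add, map_pow]) (Gen.e1 h) (Gen.e2 h) i

lemma mon_next (ht : t ≠ 0) (ht1 : t + 1 ≠ 0) (h : G6 t x y) (e : Fin 6 → ℤ) :
    mon t (algebraMap k F (t ^ 2 + t) * y / x ^ 2)
      (algebraMap k F (t ^ 2 + t) ^ 2 * (x ^ 2 - y) / x ^ 3) (fun i => e (i + 1)) =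
      mon t x y e := by
  unfold mon
  rw [← Equiv.prod_comp (Equiv.addRight (1 : Fin 6)) (fun i => X t x y i ^ e i)]
  refine Finset.prod_congr rfl fun i _ => ?_
  rw [X_next ht ht1 h]
  rfl

lemma mon_eq (t : k) (x y : F) (e : Fin 6 → ℤ) : mon t x y e = x ^ e 0 *
    (algebraMap k F (t ^ 2 + t) * y / x ^ 2) ^ e 1 *
    (algebraMap k F (t ^ 2 + t) * x * (y - algebraMap k F t * x) /
      (y * (x - algebraMap k F (t ^ 2 + t)))) ^ e 2 *
    (algebraMap k F t * (x - algebraMap k F (t ^ 2 + t)) / (x - algebraMap k F t)) ^ e 3 *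
    (algebraMap k F (t ^ 2 + t) * y * (x - algebraMap k F t) /
      ((x - algebraMap k F (t ^ 2 + t)) * (y - algebraMap k F t * x))) ^ e 4 *
    (-(algebraMap k F (t ^ 2 + t) * (x - algebraMap k F (t ^ 2 + t))) / y) ^ e 5 := by
  unfold mon
  rw [Fin.prod_univ_six]
  rfl

/-- the product of the six units -/
lemma X_prod (ht : t ≠ 0) (ht1 : t + 1 ≠ 0) (h : G6 t x y) :
    ∏ i, X t x y i = algebraMap k F (-((t ^ 2 + t) ^ 4 * t)) := by
  have hT : algebraMap k F t ≠ 0 := (_root_.map_ne_zero _).mpr ht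
  have hB : algebraMap k F (t ^ 2 + t) ≠ 0 := (_root_.map_ne_zero _).mpr (b_ne ht ht1)
  have h1 := h.x_ne
  have h2 := h.xc_ne (t ^ 2 + t)
  have h3 := h.xc_ne t
  have h4 := h.y_ne
  have h5 := w_ne h
  rw [Fin.prod_univ_six, map_neg, map_mul, map_pow]
  show x * (algebraMap k F (t ^ 2 + t) * y / x ^ 2) *
    (algebraMap k F (t ^ 2 + t) * x * (y - algebraMap k F t * x) /
      (y * (x - algebraMap k F (t ^ 2 + t)))) *
    (algebraMap k F t * (x - algebraMap k F (t ^ 2 + t)) / (x - algebraMap k F t)) *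
    (algebraMap k F (t ^ 2 + t) * y * (x - algebraMap k F t) /
      ((x - algebraMap k F (t ^ 2 + t)) * (y - algebraMap k F t * x))) *
    (-(algebraMap k F (t ^ 2 + t) * (x - algebraMap k F (t ^ 2 + t))) / y) = _
  generalize algebraMap k F (t ^ 2 + t) = B at *
  generalize algebraMap k F t = T at *
  generalize y - T * x = w at *
  field_simp

/-- the monomials in `x, x - b, x - t, y, y - t x` -/
noncomputable def M (t : k) (x y : F) (a₀ a₁ a₂ a₃ a₄ : ℤ) : F :=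
  x ^ a₀ * (x - algebraMap k F (t ^ 2 + t)) ^ a₁ * (x - algebraMap k F t) ^ a₂ * y ^ a₃ *
    (y - algebraMap k F t * x) ^ a₄

lemma io_mo (h : G6 t x y) (a₀ a₁ a₂ a₃ a₄ : ℤ) :
    io h (mo t a₀ a₁ a₂ a₃ a₄) = M t x y a₀ a₁ a₂ a₃ a₄ := by
  unfold mo M
  rw [map_mul, map_mul, map_mul, map_mul, map_zpow₀, map_zpow₀, map_zpow₀, map_zpow₀, map_zpow₀,
    map_sub, map_sub, map_sub, map_mul, io_x, io_y, io_c, io_c]

lemma mon_M (ht : t ≠ 0) (ht1 : t + 1 ≠ 0) (h : G6 t x y) (e : Fin 6 → ℤ) :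
    mon t x y e = algebraMap k F ((t ^ 2 + t) ^ (e 1 + e 2 + e 4 + e 5) * t ^ e 3 *
      (-1) ^ e 5) * M t x y (e 0 - 2 * e 1 + e 2) (-e 2 + e 3 - e 4 + e 5) (-e 3 + e 4)
        (e 1 - e 2 + e 4 - e 5) (e 2 - e 4) := by
  have hT : algebraMap k F t ≠ 0 := (_root_.map_ne_zero _).mpr ht
  have hB : algebraMap k F (t ^ 2 + t) ≠ 0 := (_root_.map_ne_zero _).mpr (b_ne ht ht1)
  have h1 := h.x_ne
  have h2 := h.xc_ne (t ^ 2 + t)
  have h3 := h.xc_ne t
  have h4 := h.y_ne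
  have h5 := w_ne h
  rw [mon_eq, show algebraMap k F (t ^ 2 + t) * y / x ^ 2 =
      algebraMap k F (t ^ 2 + t) * y / (x * x) by rw [pow_two x],
    show -(algebraMap k F (t ^ 2 + t) * (x - algebraMap k F (t ^ 2 + t))) / y =
      (-1) * algebraMap k F (t ^ 2 + t) * (x - algebraMap k F (t ^ 2 + t)) / y by ring]
  unfold M
  rw [map_mul, map_mul, map_zpow₀, map_zpow₀, map_zpow₀, map_neg, map_one]
  simp only [mul_zpow, div_zpow]
  rw [show e 0 - 2 * e 1 + e 2 = e 0 + e 2 - e 1 - e 1 by ring,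
    show -e 2 + e 3 - e 4 + e 5 = e 3 + e 5 - e 2 - e 4 by ring,
    show -e 3 + e 4 = e 4 - e 3 by ring, show e 1 - e 2 + e 4 - e 5 = e 1 + e 4 - e 2 - e 5 by ring]
  generalize algebraMap k F (t ^ 2 + t) = B at *
  generalize algebraMap k F t = T at *
  generalize y - T * x = w at *
  rw [zpow_sub₀ h1, zpow_sub₀ h1, zpow_add₀ h1, zpow_sub₀ h2, zpow_sub₀ h2, zpow_add₀ h2,
    zpow_sub₀ h3, zpow_sub₀ h4, zpow_sub₀ h4, zpow_add₀ h4, zpow_sub₀ h5, zpow_add₀ hB,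
    zpow_add₀ hB, zpow_add₀ hB]
  field_simp

end pts

end Pool.Agent.N6
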