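import Pool.Agent.Lib_helper60.N6.C

/-!
# The unit equation for a point of order six, IV: the local conditions at the six points
-/

set_option autoImplicit false
set_option linter.unusedSectionVars false

namespace Pool.Agent.N6

open Polynomial WeierstrassCurve.Affine WithZero
open Pool.Agent.TN

variable {k : Type*} [Field k] {F : Type*} [Field F] [Algebra k F] {t : k} {x y : F}

/-- the alternatives at one point -/
def Alt (m m' : ℤ) : Prop := (m = 0 ∧ m' = 0) ∨ (1 ≤ m ∧ m ≤ 5 ∧ m' = 0) ∨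
  (m = 0 ∧ 1 ≤ m' ∧ m' ≤ 5) ∨ (m = m' ∧ -5 ≤ m ∧ m ≤ -1)

/-- the value of a monomial at the `i`-th point, if the order is zero -/
noncomputable def val (t : k) (e : Fin 6 → ℤ) (i : Fin 6) : k :=
  (t ^ 2 + t) ^ (e (i + 1) + e (i + 2) + e (i + 4) + e (i + 5)) * t ^ e (i + 3) *
    (-1) ^ e (i + 5)

/-- the first derivative -/
def fo (t : k) (e : Fin 6 → ℤ) (i : Fin 6) : k :=
  (1 - t) * ((e (i + 1) : k) - e (i + 5)) + 2 * t * (e (i + 2) - e (i + 4))

/-- the second derivative -/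
def so (t : k) (e : Fin 6 → ℤ) (i : Fin 6) : k :=
  2 * (t ^ 2 + 2 * t) * ((e i : k) - 2 * e (i + 1) + e (i + 2)) +
    2 * t * (-(e (i + 2) : k) + e (i + 3) - e (i + 4) + e (i + 5)) +
    2 * (t ^ 2 + t) * (-(e (i + 3) : k) + e (i + 4)) +
    (2 * (t ^ 2 + t) + 3 * t) * ((e (i + 1) : k) - e (i + 2) + e (i + 4) - e (i + 5)) +
    (4 * t + 2 * t ^ 2) * ((e (i + 2) : k) - e (i + 4))

/-- the local conditions at the `i`-th point -/
structure LC (t c₀ : k) (e e' : Fin 6 → ℤ) (i : Fin 6) : Prop where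
  alt : Alt (mm e i) (mm e' i)
  vl : 0 < mm e' i → c₀ * val t e i = 1
  fo : 1 < mm e' i → fo t e i = 0
  so : 2 < mm e' i → so t e i = 0

lemma val_ne (ht : t ≠ 0) (ht1 : t + 1 ≠ 0) (e : Fin 6 → ℤ) (i : Fin 6) : val t e i ≠ 0 :=
  mul_ne_zero (mul_ne_zero (zpow_ne_zero _ (b_ne ht ht1)) (zpow_ne_zero _ ht))
    (zpow_ne_zero _ (neg_ne_zero.mpr one_ne_zero))

/-- the local conditions at the first point -/
theorem loc0 [CharZero k] (ht : t ≠ 0) (ht1 : t + 1 ≠ 0) (h : G6 t x y) {c₀ c₁ : k}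
    (h0 : c₀ ≠ 0) (h1 : c₁ ≠ 0) {e e' : Fin 6 → ℤ}
    (hu : algebraMap k F c₀ * mon t x y e + algebraMap k F c₁ * mon t x y e' = 1) :
    (∀ i j, e i = e j) ∨ LC t c₀ e e' 0 := by
  have v0 : val t e 0 = (t ^ 2 + t) ^ (e 1 + e 2 + e 4 + e 5) * t ^ e 3 * (-1) ^ e 5 := rfl
  have v0' : val t e' 0 = (t ^ 2 + t) ^ (e' 1 + e' 2 + e' 4 + e' 5) * t ^ e' 3 * (-1) ^ e' 5 :=
    rfl
  have m0 : mm e 0 = e 1 + e 5 - 2 * e 0 := rfl
  have m0' : mm e' 0 = e' 1 + e' 5 - 2 * e' 0 := rfl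
  obtain ⟨k0, k1, k2, k3⟩ := loc_K (t := t) ht ht1 (mul_ne_zero h0 (val_ne ht ht1 e 0))
    (mul_ne_zero h1 (val_ne ht ht1 e' 0))
    (a₀ := e 0 - 2 * e 1 + e 2) (a₁ := -e 2 + e 3 - e 4 + e 5) (a₂ := -e 3 + e 4)
    (a₃ := e 1 - e 2 + e 4 - e 5) (a₄ := e 2 - e 4)
    (b₀ := e' 0 - 2 * e' 1 + e' 2) (b₁ := -e' 2 + e' 3 - e' 4 + e' 5) (b₂ := -e' 3 + e' 4)
    (b₃ := e' 1 - e' 2 + e' 4 - e' 5) (b₄ := e' 2 - e' 4) (n := - mm e 0) (n' := - mm e' 0) (by
      apply io_inj h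
      rw [map_one, ← hu, mon_M ht ht1 h, mon_M ht ht1 h, ← v0, ← v0']
      simp only [map_add, map_mul, io_c, io_mo]
      ring) (by rw [m0]; ring) (by rw [m0']; ring)
  rcases k0 with ⟨a0, a1, a2, a3, a4⟩ | k0
  · left
    have b1 : e 1 = e 0 := by omega
    have b2 : e 2 = e 0 := by omega
    have b3 : e 3 = e 0 := by omega
    have b4 : e 4 = e 0 := by omega
    have b5 : e 5 = e 0 := by omega
    intro i j
    fin_cases i <;> fin_cases j <;> simp <;> omega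
  · right
    have halt : Alt (mm e 0) (mm e' 0) := by unfold Alt; omega
    refine ⟨halt, ?_, ?_, ?_⟩
    · intro hp
      exact k1 (by omega) (by unfold Alt at halt; omega)
    · intro hp
      have hz : e 1 + e 5 - 2 * e 0 = 0 := by unfold Alt at halt; omega
      have hz' : (e 1 : k) + e 5 - 2 * e 0 = 0 := by exact_mod_cast congrArg (Int.cast (R := k)) hz
      have := k2 (by omega)
      push_cast at this
      show (1 - t) * ((e 1 : k) - e 5) + 2 * t * (e 2 - e 4) = 0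
      linear_combination 2 * this + (1 - t) * hz'
    · intro hp
      have := k3 (by omega)
      push_cast at this
      show 2 * (t ^ 2 + 2 * t) * ((e 0 : k) - 2 * e 1 + e 2) +
        2 * t * (-(e 2 : k) + e 3 - e 4 + e 5) + 2 * (t ^ 2 + t) * (-(e 3 : k) + e 4) +
        (2 * (t ^ 2 + t) + 3 * t) * ((e 1 : k) - e 2 + e 4 - e 5) +
        (4 * t + 2 * t ^ 2) * ((e 2 : k) - e 4) = 0
      linear_combination -this

/-- the points one after the other -/
def sh : ℕ → Fin 6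
  | 0 => 0
  | n + 1 => sh n + 1

lemma f1 : ∀ i : Fin 6, i - 1 + 1 = i + 1 - 1 := by decide
lemma f2 : ∀ i : Fin 6, i + 2 + 1 = i + 1 + 2 := by decide
lemma f3 : ∀ i : Fin 6, i + 3 + 1 = i + 1 + 3 := by decide
lemma f4 : ∀ i : Fin 6, i + 4 + 1 = i + 1 + 4 := by decide
lemma f5 : ∀ i : Fin 6, i + 5 + 1 = i + 1 + 5 := by decide

lemma mm_shift (e : Fin 6 → ℤ) (i : Fin 6) : mm (fun i => e (i + 1)) i = mm e (i + 1) := by
  unfold mm
  simp only [f1]

lemma val_shift (t : k) (e : Fin 6 → ℤ) (i : Fin 6) :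
    val t (fun i => e (i + 1)) i = val t e (i + 1) := by
  unfold val
  simp only [f2, f3, f4, f5]

lemma fo_shift (t : k) (e : Fin 6 → ℤ) (i : Fin 6) :
    fo t (fun i => e (i + 1)) i = fo t e (i + 1) := by
  unfold fo
  simp only [f2, f3, f4, f5]

lemma so_shift (t : k) (e : Fin 6 → ℤ) (i : Fin 6) :
    so t (fun i => e (i + 1)) i = so t e (i + 1) := by
  unfold so
  simp only [f2, f3, f4, f5]

lemma LC_shift {t c₀ : k} {e e' : Fin 6 → ℤ} {i : Fin 6}
    (h : LC t c₀ (fun i => e (i + 1)) (fun i => e' (i + 1)) i) : LC t c₀ e e' (i + 1) := by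
  obtain ⟨a, b, c, d⟩ := h
  rw [mm_shift, mm_shift] at a
  rw [mm_shift, val_shift] at b
  rw [mm_shift, fo_shift] at c
  rw [mm_shift, so_shift] at d
  exact ⟨a, b, c, d⟩

theorem loc_nat [CharZero k] (ht : t ≠ 0) (ht1 : t + 1 ≠ 0) : ∀ (n : ℕ) {x y : F}
    (_ : G6 t x y) {c₀ c₁ : k} (_ : c₀ ≠ 0) (_ : c₁ ≠ 0) {e e' : Fin 6 → ℤ}
    (_ : algebraMap k F c₀ * mon t x y e + algebraMap k F c₁ * mon t x y e' = 1),
    (∀ i j, e i = e j) ∨ LC t c₀ e e' (sh n) := by
  intro n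
  induction n with
  | zero => intro x y h c₀ c₁ h0 h1 e e' hu; exact loc0 ht ht1 h h0 h1 hu
  | succ n ih =>
    intro x y h c₀ c₁ h0 h1 e e' hu
    rw [← mon_next ht ht1 h e, ← mon_next ht ht1 h e'] at hu
    rcases ih (h.next (b_ne ht ht1)) h0 h1 hu with h2 | h2
    · left
      intro i j
      have := h2 (i - 1) (j - 1)
      simpa using this
    · right
      exact LC_shift h2

/-- **the local conditions at all six points** -/
theorem loc [CharZero k] (ht : t ≠ 0) (ht1 : t + 1 ≠ 0) (h : G6 t x y) {c₀ c₁ : k}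
    (h0 : c₀ ≠ 0) (h1 : c₁ ≠ 0) {e e' : Fin 6 → ℤ}
    (hu : algebraMap k F c₀ * mon t x y e + algebraMap k F c₁ * mon t x y e' = 1) :
    (∀ i j, e i = e j) ∨ ∀ i, LC t c₀ e e' i := by
  by_cases hc : ∀ i j, e i = e j
  · exact Or.inl hc
  · right
    intro i
    have key := fun n => (loc_nat ht ht1 n h h0 h1 hu).resolve_left hc
    fin_cases i
    · exact key 0
    · exact key 1
    · exact key 2
    · exact key 3
    · exact key 4
    · exact key 5

lemma mon_neg (x y : F) (e : Fin 6 → ℤ) : mon t x y (fun i => -e i) = (mon t x y e)⁻¹ := by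
  unfold mon
  rw [← Finset.prod_inv_distrib]
  exact Finset.prod_congr rfl fun i _ => zpow_neg _ _

lemma mon_sub (ht : t ≠ 0) (ht1 : t + 1 ≠ 0) (h : G6 t x y) (e e' : Fin 6 → ℤ) :
    mon t x y (fun i => e' i - e i) = mon t x y e' / mon t x y e := by
  unfold mon
  rw [← Finset.prod_div_distrib]
  exact Finset.prod_congr rfl fun i _ => zpow_sub₀ (X_ne ht ht1 h i) _ _

/-- all local conditions of a solution of the unit equation -/
structure AC (t c₀ c₁ : k) (e e' : Fin 6 → ℤ) : Prop where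
  one : ∀ i, LC t c₀ e e' i
  zero : ∀ i, LC t c₁ e' e i
  inf : ∀ i, LC t (-(c₀ / c₁)) (fun i => e i - e' i) (fun i => -e' i) i

theorem all_cond [CharZero k] (ht : t ≠ 0) (ht1 : t + 1 ≠ 0) (h : G6 t x y) {c₀ c₁ : k}
    (h0 : c₀ ≠ 0) (h1 : c₁ ≠ 0) {e e' : Fin 6 → ℤ}
    (hu : algebraMap k F c₀ * mon t x y e + algebraMap k F c₁ * mon t x y e' = 1)
    (hnc : ¬ ∀ i j, e i = e j) (hnc' : ¬ ∀ i j, e' i = e' j) : AC t c₀ c₁ e e' := by
  have a1 := (loc ht ht1 h h0 h1 hu).resolve_left hnc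
  have a2 := (loc ht ht1 h h1 h0 ((add_comm _ _).trans hu)).resolve_left hnc'
  have a3 : (∀ i j, e i - e' i = e j - e' j) ∨
      ∀ i, LC t (-(c₀ / c₁)) (fun i => e i - e' i) (fun i => -e' i) i := by
    refine loc (x := x) (y := y) (c₁ := c₁⁻¹) ht ht1 h (neg_ne_zero.mpr (div_ne_zero h0 h1))
      (inv_ne_zero h1) ?_
    rw [mon_neg, mon_sub ht ht1 h, map_inv₀, map_neg, map_div₀]
    have m := mon_ne ht ht1 h e'
    have cF : algebraMap k F c₁ ≠ 0 := (_root_.map_ne_zero _).mpr h1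
    field_simp
    linear_combination -hu
  refine ⟨a1, a2, a3.resolve_left ?_⟩
  intro hall
  apply hnc
  -- then all orders are equal at every point, so all of them vanish or are poles
  have hm : ∀ i, mm e i = mm e' i := by
    intro i
    have b1 := hall (i + 1) i
    have b2 := hall (i - 1) i
    show e (i + 1) + e (i - 1) - 2 * e i = e' (i + 1) + e' (i - 1) - 2 * e' i
    omega
  have hle : ∀ i, mm e i ≤ 0 := by
    intro i
    have := (a1 i).alt
    have := hm i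
    unfold Alt at *
    omega
  have o0 : mm e 0 = e 1 + e 5 - 2 * e 0 := rfl
  have o1 : mm e 1 = e 2 + e 0 - 2 * e 1 := rfl
  have o2 : mm e 2 = e 3 + e 1 - 2 * e 2 := rfl
  have o3 : mm e 3 = e 4 + e 2 - 2 * e 3 := rfl
  have o4 : mm e 4 = e 5 + e 3 - 2 * e 4 := rfl
  have o5 : mm e 5 = e 0 + e 4 - 2 * e 5 := rfl
  have := hle 0
  have := hle 1
  have := hle 2
  have := hle 3
  have := hle 4
  have := hle 5
  have b1 : e 1 = e 0 := by omega
  have b2 : e 2 = e 0 := by omega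
  have b3 : e 3 = e 0 := by omega
  have b4 : e 4 = e 0 := by omega
  have b5 : e 5 = e 0 := by omega
  intro i j
  fin_cases i <;> fin_cases j <;> simp <;> omega

end Pool.Agent.N6
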