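import Pool.Agent.Lib_helper60.N6.D

/-!
# The unit equation for a point of order six, V: the enumeration
-/

set_option autoImplicit false
set_option linter.unusedSectionVars false

namespace Pool.Agent.N6

/-- the exponents of `x(z + iP)`, from the orders -/
def eo (n : ℤ × ℤ × ℤ × ℤ × ℤ) : Fin 6 → ℤ :=
  let a := -(5 * n.1 + 4 * n.2.1 + 3 * n.2.2.1 + 2 * n.2.2.2.1 + n.2.2.2.2) / 6
  ![0, a, 2 * a + n.1, 3 * a + 2 * n.1 + n.2.1, 4 * a + 3 * n.1 + 2 * n.2.1 + n.2.2.1,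
    5 * a + 4 * n.1 + 3 * n.2.1 + 2 * n.2.2.1 + n.2.2.2.1]

lemma eo_spec {e : Fin 6 → ℤ} (h : e 0 = 0) {n : ℤ × ℤ × ℤ × ℤ × ℤ} (h1 : mm e 1 = n.1)
    (h2 : mm e 2 = n.2.1) (h3 : mm e 3 = n.2.2.1) (h4 : mm e 4 = n.2.2.2.1)
    (h5 : mm e 5 = n.2.2.2.2) : e = eo n := by
  have o1 : mm e 1 = e 2 + e 0 - 2 * e 1 := rfl
  have o2 : mm e 2 = e 3 + e 1 - 2 * e 2 := rfl
  have o3 : mm e 3 = e 4 + e 2 - 2 * e 3 := rfl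
  have o4 : mm e 4 = e 5 + e 3 - 2 * e 4 := rfl
  have o5 : mm e 5 = e 0 + e 4 - 2 * e 5 := rfl
  have a0 : -(5 * n.1 + 4 * n.2.1 + 3 * n.2.2.1 + 2 * n.2.2.2.1 + n.2.2.2.2) / 6 = e 1 := by
    omega
  funext i
  fin_cases i
  · exact h
  · show e 1 = -(5 * n.1 + 4 * n.2.1 + 3 * n.2.2.1 + 2 * n.2.2.2.1 + n.2.2.2.2) / 6
    exact a0.symm
  · show e 2 = 2 * (-(5 * n.1 + 4 * n.2.1 + 3 * n.2.2.1 + 2 * n.2.2.2.1 + n.2.2.2.2) / 6) + n.1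
    rw [a0]; omega
  · show e 3 = 3 * (-(5 * n.1 + 4 * n.2.1 + 3 * n.2.2.1 + 2 * n.2.2.2.1 + n.2.2.2.2) / 6) +
      2 * n.1 + n.2.1
    rw [a0]; omega
  · show e 4 = 4 * (-(5 * n.1 + 4 * n.2.1 + 3 * n.2.2.1 + 2 * n.2.2.2.1 + n.2.2.2.2) / 6) +
      3 * n.1 + 2 * n.2.1 + n.2.2.1
    rw [a0]; omega
  · show e 5 = 5 * (-(5 * n.1 + 4 * n.2.1 + 3 * n.2.2.1 + 2 * n.2.2.2.1 + n.2.2.2.2) / 6) +
      4 * n.1 + 3 * n.2.1 + 2 * n.2.2.1 + n.2.2.2.1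
    rw [a0]; omega

/-- an exponent of the value -/
def S (w : Fin 6 → ℤ) (i : Fin 6) : ℤ := w (i + 1) + w (i + 2) + w (i + 4) + w (i + 5)

/-- equality of the values at two points; `κ = 0`: `t, t + 1` independent, `κ = 1`: `t = 1`,
`κ = 2`: `t = -2`, `κ = 3`: `t = -1/2` -/
def VE (κ : Fin 4) (w : Fin 6 → ℤ) (i j : Fin 6) : Prop :=
  (κ = 0 → S w i = S w j ∧ w (i + 3) = w (j + 3) ∧ (w (i + 5) - w (j + 5)) % 2 = 0) ∧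
  (κ = 1 → S w i = S w j ∧ (w (i + 5) - w (j + 5)) % 2 = 0) ∧
  (κ = 2 → S w i + w (i + 3) = S w j + w (j + 3) ∧
    (S w i - S w j + w (i + 5) - w (j + 5)) % 2 = 0) ∧
  (κ = 3 → 2 * S w i + w (i + 3) = 2 * S w j + w (j + 3) ∧
    (S w i + w (i + 3) + w (i + 5) - (S w j + w (j + 3) + w (j + 5))) % 2 = 0)

instance (κ : Fin 4) (w : Fin 6 → ℤ) (i j : Fin 6) : Decidable (VE κ w i j) := by
  unfold VE; infer_instance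

/-- vanishing of the first derivative -/
def FOc (κ : Fin 4) (p q : ℤ) : Prop :=
  (κ = 0 → (p = 0 ∧ q = 0) ∨
    (p ≠ 0 ∧ p ≠ q ∧ p ≠ 2 * q ∧ q ≠ 2 * p ∧ p ≠ -q ∧ q ≠ 3 * p)) ∧
  (κ = 1 → q = 0) ∧ (κ = 2 → 3 * p = 4 * q) ∧ (κ = 3 → 3 * p = 2 * q)

instance (κ : Fin 4) (p q : ℤ) : Decidable (FOc κ p q) := by unfold FOc; infer_instance

/-- vanishing of the second derivative -/
def SOc (κ : Fin 4) (a₀ a₁ a₂ a₃ a₄ : ℤ) : Prop :=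
  (κ = 1 → 6 * a₀ + 2 * a₁ + 4 * a₂ + 7 * a₃ + 6 * a₄ = 0) ∧
  (κ = 2 → -2 * a₁ + 2 * a₂ - a₃ = 0) ∧
  (κ = 3 → 3 * a₀ + 2 * a₁ + a₂ + 4 * a₃ + 3 * a₄ = 0)

instance (κ : Fin 4) (a₀ a₁ a₂ a₃ a₄ : ℤ) : Decidable (SOc κ a₀ a₁ a₂ a₃ a₄) := by
  unfold SOc; infer_instance

/-- the conditions at the points where `w` takes the value one, with multiplicities `m` -/
def Grp (κ : Fin 4) (w m : Fin 6 → ℤ) : Prop :=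
  (∀ i j, 0 < m i → 0 < m j → VE κ w i j) ∧
  (∀ i, 1 < m i → FOc κ (w (i + 1) - w (i + 5)) (w (i + 2) - w (i + 4))) ∧
  (∀ i, 2 < m i → SOc κ (w i - 2 * w (i + 1) + w (i + 2))
    (-w (i + 2) + w (i + 3) - w (i + 4) + w (i + 5)) (-w (i + 3) + w (i + 4))
    (w (i + 1) - w (i + 2) + w (i + 4) - w (i + 5)) (w (i + 2) - w (i + 4)))

instance (κ : Fin 4) (w m : Fin 6 → ℤ) : Decidable (Grp κ w m) := by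
  unfold Grp; infer_instance

/-- the orders at the five other points of the functions with poles of order at most five at the origin -/
def L41 : List (ℕ × ℕ × ℕ × ℕ × ℕ) :=
  [(0, 0, 0, 1, 4), (0, 0, 0, 2, 2), (0, 0, 0, 3, 0), (0, 0, 1, 0, 3), (0, 0, 1, 1, 1),
    (0, 0, 2, 0, 0), (0, 0, 2, 3, 0), (0, 0, 3, 1, 1), (0, 0, 4, 0, 0), (0, 1, 0, 0, 2),
    (0, 1, 0, 1, 0), (0, 1, 0, 4, 0), (0, 1, 1, 2, 1), (0, 1, 2, 0, 2), (0, 1, 2, 1, 0),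
    (0, 2, 0, 1, 2), (0, 2, 0, 2, 0), (0, 2, 1, 0, 1), (0, 3, 0, 0, 0), (0, 3, 2, 0, 0),
    (0, 4, 0, 1, 0), (1, 0, 0, 0, 1), (1, 0, 0, 3, 1), (1, 0, 1, 1, 2), (1, 0, 1, 2, 0),
    (1, 0, 2, 0, 1), (1, 1, 0, 0, 3), (1, 1, 0, 1, 1), (1, 1, 1, 0, 0), (1, 1, 3, 0, 0),
    (1, 2, 1, 1, 0), (1, 3, 0, 0, 1), (2, 0, 0, 0, 2), (2, 0, 0, 1, 0), (2, 0, 2, 1, 0),
    (2, 1, 0, 2, 0), (2, 1, 1, 0, 1), (2, 2, 0, 0, 0), (3, 0, 0, 1, 1), (3, 0, 1, 0, 0),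
    (4, 1, 0, 0, 0)]

/-- the partitions of the six points in three pairs -/
def P30 : List (Fin 6 × Fin 6 × Fin 6 × Fin 6 × Fin 6) :=
  [(1, 2, 3, 4, 5), (1, 2, 4, 3, 5), (1, 2, 5, 3, 4), (1, 3, 4, 2, 5), (1, 3, 5, 2, 4),
    (1, 4, 5, 2, 3), (2, 1, 3, 4, 5), (2, 1, 4, 3, 5), (2, 1, 5, 3, 4), (2, 3, 4, 1, 5),
    (2, 3, 5, 1, 4), (2, 4, 5, 1, 3), (3, 1, 2, 4, 5), (3, 1, 4, 2, 5), (3, 1, 5, 2, 4),
    (3, 2, 4, 1, 5), (3, 2, 5, 1, 4), (3, 4, 5, 1, 2), (4, 1, 2, 3, 5), (4, 1, 3, 2, 5),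
    (4, 1, 5, 2, 3), (4, 2, 3, 1, 5), (4, 2, 5, 1, 3), (4, 3, 5, 1, 2), (5, 1, 2, 3, 4),
    (5, 1, 3, 2, 4), (5, 1, 4, 2, 3), (5, 2, 3, 1, 4), (5, 2, 4, 1, 3), (5, 3, 4, 1, 2)]

/-- the solutions -/
def solsI (κ : Fin 4) : List ((ℤ × ℤ × ℤ × ℤ × ℤ) × (ℤ × ℤ × ℤ × ℤ × ℤ)) :=
  if κ = 0 then [((0, 0, 2, 0, 0), (0, 1, 0, 1, 0)), ((0, 0, 2, 0, 0), (1, 0, 0, 0, 1)),
    ((0, 1, 0, 1, 0), (0, 0, 2, 0, 0)), ((0, 1, 0, 1, 0), (1, 0, 0, 0, 1)), ((1, 0, 0, 0, 1),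
    (0, 0, 2, 0, 0)), ((1, 0, 0, 0, 1), (0, 1, 0, 1, 0))] else
  if κ = 1 then [((0, 0, 2, 0, 0), (0, 1, 0, 1, 0)), ((0, 0, 2, 0, 0), (1, 0, 0, 0, 1)),
    ((0, 0, 4, 0, 0), (1, 1, 0, 1, 1)), ((0, 1, 0, 0, 2), (2, 0, 0, 1, 0)), ((0, 1, 0, 1, 0),
    (0, 0, 2, 0, 0)), ((0, 1, 0, 1, 0), (1, 0, 0, 0, 1)), ((1, 0, 0, 0, 1), (0, 0, 2, 0, 0)),
    ((1, 0, 0, 0, 1), (0, 1, 0, 1, 0)), ((1, 1, 0, 1, 1), (0, 0, 4, 0, 0)), ((2, 0, 0, 1, 0),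
    (0, 1, 0, 0, 2))] else
  if κ = 2 then [((0, 0, 2, 0, 0), (0, 1, 0, 1, 0)), ((0, 0, 2, 0, 0), (1, 0, 0, 0, 1)),
    ((0, 1, 0, 1, 0), (0, 0, 2, 0, 0)), ((0, 1, 0, 1, 0), (1, 0, 0, 0, 1)), ((0, 1, 2, 1, 0),
    (2, 0, 0, 0, 2)), ((1, 0, 0, 0, 1), (0, 0, 2, 0, 0)), ((1, 0, 0, 0, 1), (0, 1, 0, 1, 0)),
    ((2, 0, 0, 0, 2), (0, 1, 2, 1, 0))] else
  [((0, 0, 0, 3, 0), (1, 1, 1, 0, 0)), ((0, 0, 1, 1, 1), (0, 3, 0, 0, 0)), ((0, 0, 2, 0, 0),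
    (0, 1, 0, 1, 0)), ((0, 0, 2, 0, 0), (1, 0, 0, 0, 1)), ((0, 1, 0, 1, 0), (0, 0, 2, 0, 0)),
    ((0, 1, 0, 1, 0), (1, 0, 0, 0, 1)), ((0, 2, 0, 2, 0), (1, 0, 2, 0, 1)), ((0, 3, 0, 0, 0),
    (0, 0, 1, 1, 1)), ((1, 0, 0, 0, 1), (0, 0, 2, 0, 0)), ((1, 0, 0, 0, 1), (0, 1, 0, 1, 0)),
    ((1, 0, 2, 0, 1), (0, 2, 0, 2, 0)), ((1, 1, 1, 0, 0), (0, 0, 0, 3, 0))]


/-- the solutions -/
def solsII (κ : Fin 4) : List ((ℤ × ℤ × ℤ × ℤ × ℤ) × (ℤ × ℤ × ℤ × ℤ × ℤ)) :=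
  if κ = 0 then [((-1, 1, 0, 0, 1), (-1, 0, 1, 1, 0)), ((-1, 0, 1, 1, 0), (-1, 1, 0, 0, 1)),
    ((1, 1, -1, 0, 0), (0, 0, -1, 1, 1)), ((0, 0, -1, 1, 1), (1, 1, -1, 0, 0)),
    ((1, 0, 0, 1, -1), (0, 1, 1, 0, -1)), ((0, 1, 1, 0, -1), (1, 0, 0, 1, -1))] else
  if κ = 1 then [((-1, 1, 0, 0, 1), (-1, 0, 1, 1, 0)), ((-1, 0, 1, 1, 0), (-1, 1, 0, 0, 1)),
    ((2, -2, 0, 2, 0), (0, -2, 2, 0, 2)), ((0, -2, 2, 0, 2), (2, -2, 0, 2, 0)),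
    ((1, 1, -1, 0, 0), (0, 0, -1, 1, 1)), ((2, 0, -2, 0, 2), (0, 2, -2, 2, 0)),
    ((0, 2, -2, 2, 0), (2, 0, -2, 0, 2)), ((0, 0, -1, 1, 1), (1, 1, -1, 0, 0)),
    ((2, 0, 2, -2, 0), (0, 2, 0, -2, 2)), ((0, 2, 0, -2, 2), (2, 0, 2, -2, 0)),
    ((1, 0, 0, 1, -1), (0, 1, 1, 0, -1)), ((0, 1, 1, 0, -1), (1, 0, 0, 1, -1))] else
  if κ = 2 then [((-1, 1, 0, 0, 1), (-1, 0, 1, 1, 0)), ((-1, 0, 1, 1, 0), (-1, 1, 0, 0, 1)),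
    ((1, 1, -1, 0, 0), (0, 0, -1, 1, 1)), ((0, 0, -1, 1, 1), (1, 1, -1, 0, 0)),
    ((1, 0, 0, 1, -1), (0, 1, 1, 0, -1)), ((0, 1, 1, 0, -1), (1, 0, 0, 1, -1))] else
  [((-2, 1, 2, 0, 0), (-2, 0, 0, 1, 2)), ((-1, 2, 1, 0, 0), (-1, 0, 0, 2, 1)),
    ((-1, 1, 0, 0, 1), (-1, 0, 1, 1, 0)), ((-1, 0, 1, 1, 0), (-1, 1, 0, 0, 1)),
    ((-2, 0, 0, 1, 2), (-2, 1, 2, 0, 0)), ((-1, 0, 0, 2, 1), (-1, 2, 1, 0, 0)),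
    ((1, 1, -1, 0, 0), (0, 0, -1, 1, 1)), ((0, 0, -1, 1, 1), (1, 1, -1, 0, 0)),
    ((2, 1, 0, 0, -2), (0, 0, 2, 1, -2)), ((1, 2, 0, 0, -1), (0, 0, 1, 2, -1)),
    ((1, 0, 0, 1, -1), (0, 1, 1, 0, -1)), ((0, 1, 1, 0, -1), (1, 0, 0, 1, -1)),
    ((0, 0, 2, 1, -2), (2, 1, 0, 0, -2)), ((0, 0, 1, 2, -1), (1, 2, 0, 0, -1))]

/-- the order vector in `ℤ` -/
def zc (n : ℕ × ℕ × ℕ × ℕ × ℕ) : ℤ × ℤ × ℤ × ℤ × ℤ := (n.1, n.2.1, n.2.2.1, n.2.2.2.1, n.2.2.2.2)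

/-- the statement of the next lemma for one value -/
def M41 (n₁ : Fin 6) : Prop := ∀ n₂ n₃ n₄ n₅ : Fin 6, (n₁ : ℕ) + n₂ + n₃ + n₄ + n₅ ≤ 5 →
    0 < (n₁ : ℕ) + n₂ + n₃ + n₄ + n₅ →
    ((n₁ : ℕ) + 2 * n₂ + 3 * n₃ + 4 * n₄ + 5 * n₅) % 6 = 0 →
    ((n₁ : ℕ), (n₂ : ℕ), (n₃ : ℕ), (n₄ : ℕ), (n₅ : ℕ)) ∈ L41

instance (n₁ : Fin 6) : Decidable (M41 n₁) := by unfold M41; infer_instance

set_option maxRecDepth 100000 in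
lemma mem41_0 : M41 0 := by decide +kernel

set_option maxRecDepth 100000 in
lemma mem41_1 : M41 1 := by decide +kernel

set_option maxRecDepth 100000 in
lemma mem41_2 : M41 2 := by decide +kernel

set_option maxRecDepth 100000 in
lemma mem41_3 : M41 3 := by decide +kernel

set_option maxRecDepth 100000 in
lemma mem41_4 : M41 4 := by decide +kernel

set_option maxRecDepth 100000 in
lemma mem41_5 : M41 5 := by decide +kernel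

lemma mem41 : ∀ n₁ n₂ n₃ n₄ n₅ : Fin 6, (n₁ : ℕ) + n₂ + n₃ + n₄ + n₅ ≤ 5 →
    0 < (n₁ : ℕ) + n₂ + n₃ + n₄ + n₅ →
    ((n₁ : ℕ) + 2 * n₂ + 3 * n₃ + 4 * n₄ + 5 * n₅) % 6 = 0 →
    ((n₁ : ℕ), (n₂ : ℕ), (n₃ : ℕ), (n₄ : ℕ), (n₅ : ℕ)) ∈ L41 := by
  intro n₁
  fin_cases n₁
  · exact mem41_0
  · exact mem41_1
  · exact mem41_2
  · exact mem41_3
  · exact mem41_4
  · exact mem41_5

/-- disjoint supports and equal degrees -/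
def Dis (u v : ℕ × ℕ × ℕ × ℕ × ℕ) : Prop :=
  u.1 + u.2.1 + u.2.2.1 + u.2.2.2.1 + u.2.2.2.2 = v.1 + v.2.1 + v.2.2.1 + v.2.2.2.1 + v.2.2.2.2 ∧
  (u.1 = 0 ∨ v.1 = 0) ∧ (u.2.1 = 0 ∨ v.2.1 = 0) ∧ (u.2.2.1 = 0 ∨ v.2.2.1 = 0) ∧
  (u.2.2.2.1 = 0 ∨ v.2.2.2.1 = 0) ∧ (u.2.2.2.2 = 0 ∨ v.2.2.2.2 = 0)

instance (u v : ℕ × ℕ × ℕ × ℕ × ℕ) : Decidable (Dis u v) := by unfold Dis; infer_instance

/-- the three groups of conditions -/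
def Gr3 (κ : Fin 4) (e e' : Fin 6 → ℤ) : Prop :=
  Grp κ e (mm e') ∧ Grp κ e' (mm e) ∧ Grp κ (fun i => e i - e' i) (fun i => -mm e i)

instance (κ : Fin 4) (e e' : Fin 6 → ℤ) : Decidable (Gr3 κ e e') := by
  unfold Gr3; infer_instance

/-- the statement of the next lemma for one value -/
def EnI (u : ℕ × ℕ × ℕ × ℕ × ℕ) : Prop := ∀ v ∈ L41, Dis u v → ∀ κ : Fin 4,
  Gr3 κ (eo (zc u)) (eo (zc v)) → (zc u, zc v) ∈ solsI κ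

instance (u : ℕ × ℕ × ℕ × ℕ × ℕ) : Decidable (EnI u) := by
  unfold EnI; infer_instance

/-- `L41`, in parts -/
def L41p (i : ℕ) : List (ℕ × ℕ × ℕ × ℕ × ℕ) := (L41.drop (9 * i)).take 9

lemma L41_eq : L41 = L41p 0 ++ (L41p 1 ++ (L41p 2 ++ (L41p 3 ++ L41p 4))) := rfl

set_option maxRecDepth 100000 in
lemma enI0 : ∀ u ∈ L41p 0, EnI u := by decide +kernel

set_option maxRecDepth 100000 in
lemma enI1 : ∀ u ∈ L41p 1, EnI u := by decide +kernel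

set_option maxRecDepth 100000 in
lemma enI2 : ∀ u ∈ L41p 2, EnI u := by decide +kernel

set_option maxRecDepth 100000 in
lemma enI3 : ∀ u ∈ L41p 3, EnI u := by decide +kernel

set_option maxRecDepth 100000 in
lemma enI4 : ∀ u ∈ L41p 4, EnI u := by decide +kernel

lemma enumI : ∀ κ : Fin 4, ∀ u ∈ L41, ∀ v ∈ L41, Dis u v → Gr3 κ (eo (zc u)) (eo (zc v)) →
    (zc u, zc v) ∈ solsI κ := by
  intro κ u hu v hv hd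
  rw [L41_eq, List.mem_append, List.mem_append, List.mem_append, List.mem_append] at hu
  rcases hu with hu | hu | hu | hu | hu
  exacts [enI0 u hu v hv hd κ, enI1 u hu v hv hd κ, enI2 u hu v hv hd κ, enI3 u hu v hv hd κ, enI4 u hu v hv hd κ]

/-- the order vectors of a solution with all three groups of size two -/
def nv (i j : Fin 6) (a b : ℕ) (l m : Fin 6) (c d : ℕ) (r : Fin 6) : ℤ :=
  if r = i then -a else if r = j then -b else if r = l then c else if r = m then d else 0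

/-- the order vector -/
def nt (j : Fin 6) (a b : ℕ) (l m : Fin 6) (c d : ℕ) : ℤ × ℤ × ℤ × ℤ × ℤ :=
  (nv 0 j a b l m c d 1, nv 0 j a b l m c d 2, nv 0 j a b l m c d 3, nv 0 j a b l m c d 4,
    nv 0 j a b l m c d 5)

/-- principal -/
def Pr (n : ℤ × ℤ × ℤ × ℤ × ℤ) : Prop :=
  (n.1 + 2 * n.2.1 + 3 * n.2.2.1 + 4 * n.2.2.2.1 + 5 * n.2.2.2.2) % 6 = 0

instance (n : ℤ × ℤ × ℤ × ℤ × ℤ) : Decidable (Pr n) := by unfold Pr; infer_instance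

/-- the statement of the next lemma for one value -/
def EnII (q : Fin 6 × Fin 6 × Fin 6 × Fin 6 × Fin 6) : Prop := ∀ a b c : Fin 5,
    (c : ℕ) ≤ a + b → (a : ℕ) + b ≤ c + 4 →
    Pr (nt q.1 (a + 1) (b + 1) q.2.1 q.2.2.1 (c + 1) (a + b - c + 1)) →
    ∀ d : Fin 5, (d : ℕ) ≤ a + b → (a : ℕ) + b ≤ d + 4 →
    Pr (nt q.1 (a + 1) (b + 1) q.2.2.2.1 q.2.2.2.2 (d + 1) (a + b - d + 1)) →
    ∀ κ : Fin 4,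
    Gr3 κ (eo (nt q.1 (a + 1) (b + 1) q.2.1 q.2.2.1 (c + 1) (a + b - c + 1)))
      (eo (nt q.1 (a + 1) (b + 1) q.2.2.2.1 q.2.2.2.2 (d + 1) (a + b - d + 1))) →
    (nt q.1 (a + 1) (b + 1) q.2.1 q.2.2.1 (c + 1) (a + b - c + 1),
      nt q.1 (a + 1) (b + 1) q.2.2.2.1 q.2.2.2.2 (d + 1) (a + b - d + 1)) ∈ solsII κ

instance (q : Fin 6 × Fin 6 × Fin 6 × Fin 6 × Fin 6) : Decidable (EnII q) := by
  unfold EnII; infer_instance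

/-- `P30`, in parts -/
def P30p (i : ℕ) : List (Fin 6 × Fin 6 × Fin 6 × Fin 6 × Fin 6) := (P30.drop (3 * i)).take 3

lemma P30_eq : P30 = P30p 0 ++ (P30p 1 ++ (P30p 2 ++ (P30p 3 ++ (P30p 4 ++ (P30p 5 ++
    (P30p 6 ++ (P30p 7 ++ (P30p 8 ++ P30p 9)))))))) := rfl

set_option maxRecDepth 100000 in
lemma enII0 : ∀ q ∈ P30p 0, EnII q := by decide +kernel

set_option maxRecDepth 100000 in
lemma enII1 : ∀ q ∈ P30p 1, EnII q := by decide +kernel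

set_option maxRecDepth 100000 in
lemma enII2 : ∀ q ∈ P30p 2, EnII q := by decide +kernel

set_option maxRecDepth 100000 in
lemma enII3 : ∀ q ∈ P30p 3, EnII q := by decide +kernel

set_option maxRecDepth 100000 in
lemma enII4 : ∀ q ∈ P30p 4, EnII q := by decide +kernel

set_option maxRecDepth 100000 in
lemma enII5 : ∀ q ∈ P30p 5, EnII q := by decide +kernel

set_option maxRecDepth 100000 in
lemma enII6 : ∀ q ∈ P30p 6, EnII q := by decide +kernel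

set_option maxRecDepth 100000 in
lemma enII7 : ∀ q ∈ P30p 7, EnII q := by decide +kernel

set_option maxRecDepth 100000 in
lemma enII8 : ∀ q ∈ P30p 8, EnII q := by decide +kernel

set_option maxRecDepth 100000 in
lemma enII9 : ∀ q ∈ P30p 9, EnII q := by decide +kernel

lemma enumII : ∀ κ : Fin 4, ∀ q ∈ P30, ∀ a b c d : Fin 5,
    (c : ℕ) ≤ a + b → (a : ℕ) + b ≤ c + 4 → (d : ℕ) ≤ a + b → (a : ℕ) + b ≤ d + 4 →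
    Pr (nt q.1 (a + 1) (b + 1) q.2.1 q.2.2.1 (c + 1) (a + b - c + 1)) →
    Pr (nt q.1 (a + 1) (b + 1) q.2.2.2.1 q.2.2.2.2 (d + 1) (a + b - d + 1)) →
    Gr3 κ (eo (nt q.1 (a + 1) (b + 1) q.2.1 q.2.2.1 (c + 1) (a + b - c + 1)))
      (eo (nt q.1 (a + 1) (b + 1) q.2.2.2.1 q.2.2.2.2 (d + 1) (a + b - d + 1))) →
    (nt q.1 (a + 1) (b + 1) q.2.1 q.2.2.1 (c + 1) (a + b - c + 1),
      nt q.1 (a + 1) (b + 1) q.2.2.2.1 q.2.2.2.2 (d + 1) (a + b - d + 1)) ∈ solsII κ := by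
  intro κ q hq a b c d h1 h2 h3 h4 h5 h6
  rw [P30_eq] at hq
  simp only [List.mem_append] at hq
  rcases hq with hq | hq | hq | hq | hq | hq | hq | hq | hq | hq
  exacts [enII0 q hq a b c h1 h2 h5 d h3 h4 h6 κ,
    enII1 q hq a b c h1 h2 h5 d h3 h4 h6 κ,
    enII2 q hq a b c h1 h2 h5 d h3 h4 h6 κ,
    enII3 q hq a b c h1 h2 h5 d h3 h4 h6 κ,
    enII4 q hq a b c h1 h2 h5 d h3 h4 h6 κ,
    enII5 q hq a b c h1 h2 h5 d h3 h4 h6 κ,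
    enII6 q hq a b c h1 h2 h5 d h3 h4 h6 κ,
    enII7 q hq a b c h1 h2 h5 d h3 h4 h6 κ,
    enII8 q hq a b c h1 h2 h5 d h3 h4 h6 κ,
    enII9 q hq a b c h1 h2 h5 d h3 h4 h6 κ]

end Pool.Agent.N6
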