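import Pool.Agent.Lib_helper60.N6.E

/-!
# The unit equation for a point of order six, VI: from the local conditions to the enumeration
-/

set_option autoImplicit false
set_option linter.unusedSectionVars false

namespace Pool.Agent.N6

variable {k : Type*} [Field k] {t : k}

/-- the four kinds of `t` -/
def Kd (κ : Fin 4) (t : k) : Prop :=
  (κ = 0 → (∀ p q : ℤ, t ^ p * (t + 1) ^ q = 1 → p = 0 ∧ q = 0) ∧ 1 - 3 * t ≠ 0 ∧
    1 + 3 * t ≠ 0 ∧ 1 + 5 * t ≠ 0) ∧
  (κ = 1 → t = 1) ∧ (κ = 2 → t = -2) ∧ (κ = 3 → 2 * t = -1)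

lemma par [CharZero k] {a b : ℤ} (h : (-1 : k) ^ a = (-1) ^ b) : (a - b) % 2 = 0 := by
  have h1 : (-1 : k) ^ (a - b) = 1 := by
    rw [zpow_sub₀ (neg_ne_zero.mpr one_ne_zero), h, div_self]
    exact zpow_ne_zero _ (neg_ne_zero.mpr one_ne_zero)
  rcases Int.even_or_odd (a - b) with h2 | h2
  · exact Int.even_iff.mp h2
  · rw [Odd.neg_one_zpow h2] at h1
    exfalso
    have : (2 : k) = 0 := by linear_combination -h1
    exact two_ne_zero this

lemma sq_one (a : ℤ) : ((-1 : k) ^ a) ^ 2 = 1 := by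
  rw [← zpow_natCast, ← zpow_mul, mul_comm, zpow_mul]
  norm_num

lemma two_zpow [CharZero k] {n : ℤ} (h : (2 : k) ^ n = 1) : n = 0 := by
  obtain ⟨m, rfl | rfl⟩ := Int.eq_nat_or_neg n
  · rw [zpow_natCast] at h
    have h1 : ((2 ^ m : ℕ) : k) = ((1 : ℕ) : k) := by push_cast; exact h
    have h2 := Nat.cast_injective h1
    rcases Nat.eq_zero_or_pos m with h3 | h3
    · rw [h3]; rfl
    · exfalso
      have := Nat.one_lt_two_pow (Nat.pos_iff_ne_zero.mp h3)
      omega
  · rw [zpow_neg, zpow_natCast, inv_eq_one] at h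
    have h1 : ((2 ^ m : ℕ) : k) = ((1 : ℕ) : k) := by push_cast; exact h
    have h2 := Nat.cast_injective h1
    rcases Nat.eq_zero_or_pos m with h3 | h3
    · rw [h3]; rfl
    · exfalso
      have := Nat.one_lt_two_pow (Nat.pos_iff_ne_zero.mp h3)
      omega

/-- `2^a (-1)^c` determines `a` and `c` modulo two -/
lemma two_par [CharZero k] {a b c d : ℤ} (h : (2 : k) ^ a * (-1) ^ c = 2 ^ b * (-1) ^ d) :
    a = b ∧ (c - d) % 2 = 0 := by
  have h2 : (2 : k) ≠ 0 := two_ne_zero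
  have h1 : a = b := by
    have h3 : ((2 : k) ^ a) ^ 2 = (2 ^ b) ^ 2 := by
      have := congrArg (fun z => z ^ 2) h
      simp only [mul_pow, sq_one, mul_one] at this
      exact this
    have h4 : (2 : k) ^ (2 * (a - b)) = 1 := by
      rw [mul_comm, zpow_mul, zpow_sub₀ h2, show (2 : ℤ) = ((2 : ℕ) : ℤ) from rfl, zpow_natCast,
        div_pow, h3, div_self (pow_ne_zero 2 (zpow_ne_zero _ h2))]
    have := two_zpow h4
    omega
  refine ⟨h1, par (k := k) ?_⟩
  rw [h1] at h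
  exact mul_left_cancel₀ (zpow_ne_zero _ h2) h

lemma val_VE [CharZero k] {κ : Fin 4} (ht : t ≠ 0) (ht1 : t + 1 ≠ 0) (hk : Kd κ t)
    {w : Fin 6 → ℤ} {i j : Fin 6} (h : val t w i = val t w j) : VE κ w i j := by
  have h2 : (2 : k) ≠ 0 := two_ne_zero
  have hm : (-1 : k) ≠ 0 := neg_ne_zero.mpr one_ne_zero
  refine ⟨?_, ?_, ?_, ?_⟩
  · rintro rfl
    obtain ⟨hi, -⟩ := hk.1 rfl
    have e : ∀ i, val t w i = t ^ (S w i + w (i + 3)) * (t + 1) ^ S w i * (-1) ^ w (i + 5) := by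
      intro i
      unfold val
      rw [show w (i + 1) + w (i + 2) + w (i + 4) + w (i + 5) = S w i from rfl,
        show t ^ 2 + t = t * (t + 1) by ring, mul_zpow, zpow_add₀ ht]
      ring
    rw [e, e] at h
    have h3 : (t ^ (S w i + w (i + 3))) ^ 2 * ((t + 1) ^ S w i) ^ 2 =
        (t ^ (S w j + w (j + 3))) ^ 2 * ((t + 1) ^ S w j) ^ 2 := by
      have := congrArg (fun z => z ^ 2) h
      simp only [mul_pow, sq_one, mul_one] at this
      exact this
    have h4 : t ^ (2 * (S w i + w (i + 3) - (S w j + w (j + 3)))) *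
        (t + 1) ^ (2 * (S w i - S w j)) = 1 := by
      rw [mul_comm 2 (S w i + w (i + 3) - (S w j + w (j + 3))), mul_comm 2 (S w i - S w j),
        zpow_mul, zpow_mul, zpow_sub₀ ht, zpow_sub₀ ht1, show (2 : ℤ) = ((2 : ℕ) : ℤ) from rfl,
        zpow_natCast, zpow_natCast, div_pow, div_pow, div_mul_div_comm, h3, div_self]
      exact mul_ne_zero (pow_ne_zero 2 (zpow_ne_zero _ ht)) (pow_ne_zero 2 (zpow_ne_zero _ ht1))
    obtain ⟨h5, h6⟩ := hi _ _ h4
    have h7 : S w i = S w j := by omega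
    have h8 : w (i + 3) = w (j + 3) := by omega
    refine ⟨h7, h8, par (k := k) ?_⟩
    rw [h7, h8] at h
    exact mul_left_cancel₀ (mul_ne_zero (zpow_ne_zero _ ht) (zpow_ne_zero _ ht1)) h
  · rintro rfl
    have hi := hk.2.1 rfl
    have e : ∀ i, val t w i = 2 ^ S w i * (-1) ^ w (i + 5) := by
      intro i
      unfold val
      rw [show w (i + 1) + w (i + 2) + w (i + 4) + w (i + 5) = S w i from rfl, hi, one_zpow,
        mul_one]
      norm_num
    rw [e, e] at h
    exact two_par h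
  · rintro rfl
    have hi := hk.2.2.1 rfl
    have e : ∀ i, val t w i = 2 ^ (S w i + w (i + 3)) * (-1) ^ (w (i + 3) + w (i + 5)) := by
      intro i
      unfold val
      rw [show w (i + 1) + w (i + 2) + w (i + 4) + w (i + 5) = S w i from rfl, hi,
        show ((-2 : k) ^ 2 + -2) = 2 by norm_num, show (-2 : k) = 2 * (-1) by norm_num,
        mul_zpow, zpow_add₀ h2 _ (w (i + 3)), zpow_add₀ hm]
      ring
    rw [e, e] at h
    obtain ⟨h3, h4⟩ := two_par h
    exact ⟨h3, by omega⟩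
  · rintro rfl
    have hi := hk.2.2.2 rfl
    have e : ∀ i, val t w i = 2 ^ (-(2 * S w i + w (i + 3))) *
        (-1) ^ (S w i + w (i + 3) + w (i + 5)) := by
      intro i
      have hi' : t = 2⁻¹ * (-1) := by
        have : t = (-1) / 2 := by rw [eq_div_iff h2]; linear_combination hi
        rw [this]; ring
      unfold val
      rw [show t ^ 2 + t = (2⁻¹) ^ 2 * (-1) by rw [hi']; ring, show w (i + 1) + w (i + 2) +
        w (i + 4) + w (i + 5) = S w i from rfl, hi', mul_zpow, mul_zpow, ← zpow_natCast,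
        ← zpow_mul, inv_zpow', inv_zpow', zpow_add₀ hm (S w i + w (i + 3)), zpow_add₀ hm,
        show -(2 * S w i + w (i + 3)) = -(((2 : ℕ) : ℤ) * S w i) + -w (i + 3) by push_cast; ring,
        zpow_add₀ h2]
      ring
    rw [e, e] at h
    obtain ⟨h3, h4⟩ := two_par h
    exact ⟨by omega, by omega⟩

lemma fo_FO [CharZero k] {κ : Fin 4} (ht : t ≠ 0) (ht1 : t + 1 ≠ 0) (hk : Kd κ t)
    {w : Fin 6 → ℤ} {i : Fin 6} (h : fo t w i = 0) :
    FOc κ (w (i + 1) - w (i + 5)) (w (i + 2) - w (i + 4)) := by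
  have h2 : (2 : k) ≠ 0 := two_ne_zero
  obtain ⟨p, hp⟩ : ∃ p : ℤ, p = w (i + 1) - w (i + 5) := ⟨_, rfl⟩
  obtain ⟨q, hq⟩ : ∃ q : ℤ, q = w (i + 2) - w (i + 4) := ⟨_, rfl⟩
  have h' : (1 - t) * (p : k) + 2 * t * q = 0 := by
    rw [hp, hq]; push_cast; exact h
  rw [← hp, ← hq]
  refine ⟨?_, ?_, ?_, ?_⟩
  · rintro rfl
    obtain ⟨-, a1, a2, a3⟩ := hk.1 rfl
    by_cases hz : p = 0 ∧ q = 0
    · exact Or.inl hz
    right
    refine ⟨?_, ?_, ?_, ?_, ?_, ?_⟩
    · intro hh
      subst hh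
      apply hz
      refine ⟨rfl, ?_⟩
      have : 2 * t * (q : k) = 0 := by push_cast at h'; linear_combination h'
      exact_mod_cast (mul_eq_zero.mp this).resolve_left (mul_ne_zero h2 ht)
    · intro hh
      subst hh
      have : (t + 1) * (p : k) = 0 := by linear_combination h'
      have := (mul_eq_zero.mp this).resolve_left ht1
      have : p = 0 := by exact_mod_cast this
      exact hz ⟨this, this⟩
    · intro hh
      subst hh
      have : 2 * (q : k) = 0 := by push_cast at h'; linear_combination h'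
      have := (mul_eq_zero.mp this).resolve_left h2
      have : q = 0 := by exact_mod_cast this
      exact hz ⟨by omega, this⟩
    · intro hh
      subst hh
      have : (1 + 3 * t) * (p : k) = 0 := by push_cast at h'; linear_combination h'
      have := (mul_eq_zero.mp this).resolve_left a2
      have : p = 0 := by exact_mod_cast this
      exact hz ⟨this, by omega⟩
    · intro hh
      have hh' : (p : k) = -q := by rw [hh]; push_cast; ring
      have : (1 - 3 * t) * (p : k) = 0 := by linear_combination h' - 2 * t * hh'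
      have := (mul_eq_zero.mp this).resolve_left a1
      have : p = 0 := by exact_mod_cast this
      exact hz ⟨this, by omega⟩
    · intro hh
      subst hh
      have : (1 + 5 * t) * (p : k) = 0 := by push_cast at h'; linear_combination h'
      have := (mul_eq_zero.mp this).resolve_left a3
      have : p = 0 := by exact_mod_cast this
      exact hz ⟨this, by omega⟩
  · rintro rfl
    have hi := hk.2.1 rfl
    rw [hi] at h'
    have : 2 * (q : k) = 0 := by linear_combination h'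
    exact_mod_cast (mul_eq_zero.mp this).resolve_left h2
  · rintro rfl
    have hi := hk.2.2.1 rfl
    rw [hi] at h'
    have : (((3 * p : ℤ)) : k) = ((4 * q : ℤ) : k) := by push_cast; linear_combination h'
    exact_mod_cast this
  · rintro rfl
    have hi := hk.2.2.2 rfl
    have : (((3 * p : ℤ)) : k) = ((2 * q : ℤ) : k) := by
      push_cast; linear_combination 2 * h' + (p - 2 * q : k) * hi
    exact_mod_cast this

lemma so_SO [CharZero k] {κ : Fin 4} (hk : Kd κ t)
    {w : Fin 6 → ℤ} {i : Fin 6} (h : so t w i = 0) :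
    SOc κ (w i - 2 * w (i + 1) + w (i + 2))
      (-w (i + 2) + w (i + 3) - w (i + 4) + w (i + 5)) (-w (i + 3) + w (i + 4))
      (w (i + 1) - w (i + 2) + w (i + 4) - w (i + 5)) (w (i + 2) - w (i + 4)) := by
  have h2 : (2 : k) ≠ 0 := two_ne_zero
  obtain ⟨a₀, g0⟩ : ∃ p : ℤ, p = w i - 2 * w (i + 1) + w (i + 2) := ⟨_, rfl⟩
  obtain ⟨a₁, g1⟩ : ∃ p : ℤ, p = -w (i + 2) + w (i + 3) - w (i + 4) + w (i + 5) := ⟨_, rfl⟩
  obtain ⟨a₂, g2⟩ : ∃ p : ℤ, p = -w (i + 3) + w (i + 4) := ⟨_, rfl⟩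
  obtain ⟨a₃, g3⟩ : ∃ p : ℤ, p = w (i + 1) - w (i + 2) + w (i + 4) - w (i + 5) := ⟨_, rfl⟩
  obtain ⟨a₄, g4⟩ : ∃ p : ℤ, p = w (i + 2) - w (i + 4) := ⟨_, rfl⟩
  have h' : 2 * (t ^ 2 + 2 * t) * (a₀ : k) + 2 * t * a₁ + 2 * (t ^ 2 + t) * a₂ +
      (2 * (t ^ 2 + t) + 3 * t) * a₃ + (4 * t + 2 * t ^ 2) * a₄ = 0 := by
    rw [g0, g1, g2, g3, g4]; push_cast; exact h
  rw [← g0, ← g1, ← g2, ← g3, ← g4]
  refine ⟨?_, ?_, ?_⟩
  · rintro rfl
    have hi := hk.2.1 rfl
    rw [hi] at h'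
    have : ((6 * a₀ + 2 * a₁ + 4 * a₂ + 7 * a₃ + 6 * a₄ : ℤ) : k) = ((0 : ℤ) : k) := by
      push_cast; linear_combination h'
    exact_mod_cast this
  · rintro rfl
    have hi := hk.2.2.1 rfl
    rw [hi] at h'
    have : ((-2 * a₁ + 2 * a₂ - a₃ : ℤ) : k) = ((0 : ℤ) : k) := by
      push_cast; linear_combination (1 / 2 : k) * h'
    exact_mod_cast this
  · rintro rfl
    have hi := hk.2.2.2 rfl
    have hi' : t = -1 / 2 := by rw [eq_div_iff h2]; linear_combination hi
    rw [hi'] at h'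
    have : ((3 * a₀ + 2 * a₁ + a₂ + 4 * a₃ + 3 * a₄ : ℤ) : k) = ((0 : ℤ) : k) := by
      push_cast; linear_combination (-2 : k) * h'
    exact_mod_cast this

lemma LC_Grp [CharZero k] {κ : Fin 4} (ht : t ≠ 0) (ht1 : t + 1 ≠ 0) (hk : Kd κ t) {c : k}
    {w w' : Fin 6 → ℤ} (h : ∀ i, LC t c w w' i) : Grp κ w (mm w') := by
  refine ⟨?_, ?_, ?_⟩
  · intro i j hi hj
    have h1 := (h i).vl hi
    have h2 := (h j).vl hj
    have hc : c ≠ 0 := by
      rintro rfl
      rw [zero_mul] at h1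
      exact zero_ne_one h1
    exact val_VE ht ht1 hk (mul_left_cancel₀ hc (h1.trans h2.symm))
  · intro i hi
    exact fo_FO ht ht1 hk ((h i).fo hi)
  · intro i hi
    exact so_SO hk ((h i).so hi)

lemma Grp_congr {κ : Fin 4} {w m m' : Fin 6 → ℤ} (h : Grp κ w m) (hm : ∀ i, 0 < m' i → m i = m' i) :
    Grp κ w m' := by
  obtain ⟨h1, h2, h3⟩ := h
  refine ⟨?_, ?_, ?_⟩
  · intro i j hi hj
    exact h1 i j (by rw [hm i hi]; exact hi) (by rw [hm j hj]; exact hj)
  · intro i hi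
    exact h2 i (by rw [hm i (by omega)]; exact hi)
  · intro i hi
    exact h3 i (by rw [hm i (by omega)]; exact hi)

lemma AC_Gr3 [CharZero k] {κ : Fin 4} (ht : t ≠ 0) (ht1 : t + 1 ≠ 0) (hk : Kd κ t) {c₀ c₁ : k}
    {e e' : Fin 6 → ℤ} (h : AC t c₀ c₁ e e') : Gr3 κ e e' := by
  refine ⟨LC_Grp ht ht1 hk h.one, LC_Grp ht ht1 hk h.zero, ?_⟩
  refine Grp_congr (LC_Grp ht ht1 hk h.inf) ?_
  intro i hi
  have h1 := (h.one i).alt
  have h2 : mm (fun i => -e' i) i = - mm e' i := by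
    show -e' (i + 1) + -e' (i - 1) - 2 * -e' i = -(e' (i + 1) + e' (i - 1) - 2 * e' i)
    ring
  show mm (fun i => -e' i) i = -mm e i
  rw [h2]
  have hi' : 0 < -mm e i := hi
  unfold Alt at h1
  omega

end Pool.Agent.N6
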