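import Pool.Agent.Lib_helper60.N6.FF

/-!
# The unit equation for a point of order six, VII: reduction to the finite lists
-/

set_option autoImplicit false
set_option linter.unusedSectionVars false

namespace Pool.Agent.N6

open Pool.Agent.TN

attribute [local irreducible] eo zc solsI solsII L41 Grp

lemma ef {m : ℕ} {z : ℤ} (h0 : 0 ≤ z) (h1 : z < m) : ∃ n : Fin m, z = ((n : ℕ) : ℤ) := by
  refine ⟨⟨z.toNat, by omega⟩, ?_⟩
  show z = ((z.toNat : ℕ) : ℤ)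
  omega

lemma sumz (e : Fin 6 → ℤ) : mm e 0 + mm e 1 + mm e 2 + mm e 3 + mm e 4 + mm e 5 = 0 := by
  have o0 : mm e 0 = e 1 + e 5 - 2 * e 0 := rfl
  have o1 : mm e 1 = e 2 + e 0 - 2 * e 1 := rfl
  have o2 : mm e 2 = e 3 + e 1 - 2 * e 2 := rfl
  have o3 : mm e 3 = e 4 + e 2 - 2 * e 3 := rfl
  have o4 : mm e 4 = e 5 + e 3 - 2 * e 4 := rfl
  have o5 : mm e 5 = e 0 + e 4 - 2 * e 5 := rfl
  omega

lemma cgr (e : Fin 6 → ℤ) (h : e 0 = 0) :
    mm e 1 + 2 * mm e 2 + 3 * mm e 3 + 4 * mm e 4 + 5 * mm e 5 = -6 * e 5 := by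
  have o1 : mm e 1 = e 2 + e 0 - 2 * e 1 := rfl
  have o2 : mm e 2 = e 3 + e 1 - 2 * e 2 := rfl
  have o3 : mm e 3 = e 4 + e 2 - 2 * e 3 := rfl
  have o4 : mm e 4 = e 5 + e 3 - 2 * e 4 := rfl
  have o5 : mm e 5 = e 0 + e 4 - 2 * e 5 := rfl
  omega

lemma alt_pos {m m' : ℤ} (h : Alt m m') (hm : 0 ≤ m) :
    0 ≤ m' ∧ m ≤ 5 ∧ m' ≤ 5 ∧ (m = 0 ∨ m' = 0) := by
  unfold Alt at h; omega

lemma alt_neg {m m' : ℤ} (h : Alt m m') (hm : m < 0) : m' = m ∧ -5 ≤ m := by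
  unfold Alt at h; omega

lemma alt_pos' {m m' : ℤ} (h : Alt m m') (hm : 0 < m) : m' = 0 ∧ m ≤ 5 := by
  unfold Alt at h; omega

lemma alt_pos'' {m m' : ℤ} (h : Alt m m') (hm : 0 < m') : m = 0 ∧ m' ≤ 5 := by
  unfold Alt at h; omega

lemma core1 {κ : Fin 4} {e e' : Fin 6 → ℤ} (h0 : e 0 = 0) (h0' : e' 0 = 0)
    (hA : ∀ i, Alt (mm e i) (mm e' i)) (hG : Gr3 κ e e') (hm : mm e 0 < 0)
    (hp : ∀ j, j ≠ 0 → 0 ≤ mm e j) : ∃ u v, (u, v) ∈ solsI κ ∧ e = eo u ∧ e' = eo v := by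
  have p1 := hp 1 (by decide)
  have p2 := hp 2 (by decide)
  have p3 := hp 3 (by decide)
  have p4 := hp 4 (by decide)
  have p5 := hp 5 (by decide)
  obtain ⟨A0, B0⟩ := alt_neg (hA 0) hm
  obtain ⟨A1, B1, C1, D1⟩ := alt_pos (hA 1) p1
  obtain ⟨A2, B2, C2, D2⟩ := alt_pos (hA 2) p2
  obtain ⟨A3, B3, C3, D3⟩ := alt_pos (hA 3) p3
  obtain ⟨A4, B4, C4, D4⟩ := alt_pos (hA 4) p4
  obtain ⟨A5, B5, C5, D5⟩ := alt_pos (hA 5) p5
  have s := sumz e
  have s' := sumz e'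
  have r := cgr e h0
  have r' := cgr e' h0'
  obtain ⟨n1, g1⟩ := ef (m := 6) p1 (by clear D1 D2 D3 D4 D5; omega)
  obtain ⟨n2, g2⟩ := ef (m := 6) p2 (by clear D1 D2 D3 D4 D5; omega)
  obtain ⟨n3, g3⟩ := ef (m := 6) p3 (by clear D1 D2 D3 D4 D5; omega)
  obtain ⟨n4, g4⟩ := ef (m := 6) p4 (by clear D1 D2 D3 D4 D5; omega)
  obtain ⟨n5, g5⟩ := ef (m := 6) p5 (by clear D1 D2 D3 D4 D5; omega)
  obtain ⟨m1, k1⟩ := ef (m := 6) A1 (by clear D1 D2 D3 D4 D5; omega)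
  obtain ⟨m2, k2⟩ := ef (m := 6) A2 (by clear D1 D2 D3 D4 D5; omega)
  obtain ⟨m3, k3⟩ := ef (m := 6) A3 (by clear D1 D2 D3 D4 D5; omega)
  obtain ⟨m4, k4⟩ := ef (m := 6) A4 (by clear D1 D2 D3 D4 D5; omega)
  obtain ⟨m5, k5⟩ := ef (m := 6) A5 (by clear D1 D2 D3 D4 D5; omega)
  have E1 : e = eo (zc ((n1 : ℕ), (n2 : ℕ), (n3 : ℕ), (n4 : ℕ), (n5 : ℕ))) := by
    apply eo_spec h0 <;> unfold zc <;> assumption
  have E2 : e' = eo (zc ((m1 : ℕ), (m2 : ℕ), (m3 : ℕ), (m4 : ℕ), (m5 : ℕ))) := by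
    apply eo_spec h0' <;> unfold zc <;> assumption
  rw [g1, g2, g3, g4, g5] at s r
  rw [k1, k2, k3, k4, k5, A0] at s'
  rw [k1, k2, k3, k4, k5] at r'
  rw [g1, k1] at D1
  rw [g2, k2] at D2
  rw [g3, k3] at D3
  rw [g4, k4] at D4
  rw [g5, k5] at D5
  clear g1 g2 g3 g4 g5 k1 k2 k3 k4 k5 p1 p2 p3 p4 p5 A1 A2 A3 A4 A5 B1 B2 B3 B4 B5 C1 C2 C3 C4 C5
  have hu : ((n1 : ℕ), (n2 : ℕ), (n3 : ℕ), (n4 : ℕ), (n5 : ℕ)) ∈ L41 := by
    clear D1 D2 D3 D4 D5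
    exact mem41 n1 n2 n3 n4 n5 (by omega) (by omega) (by omega)
  have hv : ((m1 : ℕ), (m2 : ℕ), (m3 : ℕ), (m4 : ℕ), (m5 : ℕ)) ∈ L41 := by
    clear D1 D2 D3 D4 D5
    exact mem41 m1 m2 m3 m4 m5 (by omega) (by omega) (by omega)
  refine ⟨_, _, enumI κ _ hu _ hv ⟨?_, ?_, ?_, ?_, ?_, ?_⟩ ?_, E1, E2⟩
  · show (n1 : ℕ) + n2 + n3 + n4 + n5 = m1 + m2 + m3 + m4 + m5
    clear D1 D2 D3 D4 D5
    omega
  · show (n1 : ℕ) = 0 ∨ (m1 : ℕ) = 0
    clear s s' r r'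
    omega
  · show (n2 : ℕ) = 0 ∨ (m2 : ℕ) = 0
    clear s s' r r'
    omega
  · show (n3 : ℕ) = 0 ∨ (m3 : ℕ) = 0
    clear s s' r r'
    omega
  · show (n4 : ℕ) = 0 ∨ (m4 : ℕ) = 0
    clear s s' r r'
    omega
  · show (n5 : ℕ) = 0 ∨ (m5 : ℕ) = 0
    clear s s' r r'
    omega
  · rw [← E1, ← E2]; exact hG

lemma sumq : ∀ q ∈ P30, ∀ f : Fin 6 → ℤ, f 0 + f 1 + f 2 + f 3 + f 4 + f 5 =
    f 0 + f q.1 + f q.2.1 + f q.2.2.1 + f q.2.2.2.1 + f q.2.2.2.2 := by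
  intro q hq f
  unfold P30 at hq
  fin_cases hq <;> simp only <;> ring

lemma cover : ∀ q ∈ P30, ∀ r : Fin 6, r = 0 ∨ r = q.1 ∨ r = q.2.1 ∨ r = q.2.2.1 ∨
    r = q.2.2.2.1 ∨ r = q.2.2.2.2 := by
  intro q hq
  unfold P30 at hq
  fin_cases hq <;> decide

lemma nv_spec {f : Fin 6 → ℤ} {j l m : Fin 6} {a b c d : ℕ} (h0 : f 0 = -a)
    (hj : f j = -b) (hl : f l = c) (hm : f m = d) (hr : ∀ r, r ≠ 0 → r ≠ j → r ≠ l → r ≠ m →
    f r = 0) (r : Fin 6) : f r = nv 0 j a b l m c d r := by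
  unfold nv
  split_ifs with h1 h2 h3 h4
  · rw [h1]; exact h0
  · rw [h2]; exact hj
  · rw [h3]; exact hl
  · rw [h4]; exact hm
  · exact hr r h1 h2 h3 h4

lemma core2 {κ : Fin 4} {e e' : Fin 6 → ℤ} (h0 : e 0 = 0) (h0' : e' 0 = 0)
    (hA : ∀ i, Alt (mm e i) (mm e' i)) (hG : Gr3 κ e e') (hm : mm e 0 < 0)
    {q : Fin 6 × Fin 6 × Fin 6 × Fin 6 × Fin 6} (hq : q ∈ P30) (q1 : mm e q.1 < 0)
    (q2 : 0 < mm e q.2.1) (q3 : 0 < mm e q.2.2.1) (q4 : 0 < mm e' q.2.2.2.1)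
    (q5 : 0 < mm e' q.2.2.2.2) : ∃ u v, (u, v) ∈ solsII κ ∧ e = eo u ∧ e' = eo v := by
  obtain ⟨A0, B0⟩ := alt_neg (hA 0) hm
  obtain ⟨A1, B1⟩ := alt_neg (hA q.1) q1
  obtain ⟨A2, B2⟩ := alt_pos' (hA q.2.1) q2
  obtain ⟨A3, B3⟩ := alt_pos' (hA q.2.2.1) q3
  obtain ⟨A4, B4⟩ := alt_pos'' (hA q.2.2.2.1) q4
  obtain ⟨A5, B5⟩ := alt_pos'' (hA q.2.2.2.2) q5
  have s := sumz e
  have s' := sumz e'
  rw [sumq q hq] at s s'
  have r := cgr e h0
  have r' := cgr e' h0'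
  have cv := cover q hq
  obtain ⟨a, ga⟩ := ef (m := 5) (z := -mm e 0 - 1) (by omega) (by omega)
  obtain ⟨b, gb⟩ := ef (m := 5) (z := -mm e q.1 - 1) (by omega) (by omega)
  obtain ⟨c, gc⟩ := ef (m := 5) (z := mm e q.2.1 - 1) (by omega) (by omega)
  obtain ⟨d, gd⟩ := ef (m := 5) (z := mm e' q.2.2.2.1 - 1) (by omega) (by omega)
  have e1 : ∀ r, mm e r = nv 0 q.1 (a + 1) (b + 1) q.2.1 q.2.2.1 (c + 1) (a + b - c + 1) r := by
    refine nv_spec (by push_cast; omega) (by push_cast; omega) (by push_cast; omega)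
      (by omega) ?_
    intro r h1 h2 h3 h4
    rcases cv r with h | h | h | h | h | h
    · exact absurd h h1
    · exact absurd h h2
    · exact absurd h h3
    · exact absurd h h4
    · rw [h]; omega
    · rw [h]; omega
  have e2 : ∀ r, mm e' r =
      nv 0 q.1 (a + 1) (b + 1) q.2.2.2.1 q.2.2.2.2 (d + 1) (a + b - d + 1) r := by
    refine nv_spec (by push_cast; omega) (by push_cast; omega) (by push_cast; omega)
      (by omega) ?_
    intro r h1 h2 h3 h4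
    rcases cv r with h | h | h | h | h | h
    · exact absurd h h1
    · exact absurd h h2
    · rw [h]; omega
    · rw [h]; omega
    · exact absurd h h3
    · exact absurd h h4
  have f1 : e = eo (nt q.1 (a + 1) (b + 1) q.2.1 q.2.2.1 (c + 1) (a + b - c + 1)) :=
    eo_spec h0 (e1 1) (e1 2) (e1 3) (e1 4) (e1 5)
  have f2 : e' = eo (nt q.1 (a + 1) (b + 1) q.2.2.2.1 q.2.2.2.2 (d + 1) (a + b - d + 1)) :=
    eo_spec h0' (e2 1) (e2 2) (e2 3) (e2 4) (e2 5)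
  refine ⟨_, _, enumII κ q hq a b c d (by omega) (by omega) (by omega) (by omega) ?_ ?_ ?_,
    f1, f2⟩
  · unfold Pr nt
    simp only
    rw [← e1 1, ← e1 2, ← e1 3, ← e1 4, ← e1 5]
    omega
  · unfold Pr nt
    simp only
    rw [← e2 1, ← e2 2, ← e2 3, ← e2 4, ← e2 5]
    omega
  · rw [← f1, ← f2]; exact hG

/-- the state vector -/
def sv (a b c d f : Fin 4) : Fin 6 → Fin 4 := ![3, a, b, c, d, f]

/-- no state is attained just once -/
def NoS (s : Fin 6 → Fin 4) : Prop := (∃ i, s i = 1) ∧ (∃ i, s i = 2) ∧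
  (∀ i, s i ≠ 0 → ∃ j, j ≠ i ∧ s j = s i)

instance (s : Fin 6 → Fin 4) : Decidable (NoS s) := by unfold NoS; infer_instance

/-- the statement of the next lemma for two values -/
def Pig6 (a b : Fin 4) : Prop := ∀ c d f : Fin 4, NoS (sv a b c d f) → ∃ q ∈ P30, sv a b c d f q.1 = 3 ∧
    sv a b c d f q.2.1 = 1 ∧ sv a b c d f q.2.2.1 = 1 ∧ sv a b c d f q.2.2.2.1 = 2 ∧
    sv a b c d f q.2.2.2.2 = 2

instance (a b : Fin 4) : Decidable (Pig6 a b) := by unfold Pig6; infer_instance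

set_option maxRecDepth 100000 in
lemma pig00 : Pig6 0 0 := by decide +kernel

set_option maxRecDepth 100000 in
lemma pig01 : Pig6 0 1 := by decide +kernel

set_option maxRecDepth 100000 in
lemma pig02 : Pig6 0 2 := by decide +kernel

set_option maxRecDepth 100000 in
lemma pig03 : Pig6 0 3 := by decide +kernel

set_option maxRecDepth 100000 in
lemma pig10 : Pig6 1 0 := by decide +kernel

set_option maxRecDepth 100000 in
lemma pig11 : Pig6 1 1 := by decide +kernel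

set_option maxRecDepth 100000 in
lemma pig12 : Pig6 1 2 := by decide +kernel

set_option maxRecDepth 100000 in
lemma pig13 : Pig6 1 3 := by decide +kernel

set_option maxRecDepth 100000 in
lemma pig20 : Pig6 2 0 := by decide +kernel

set_option maxRecDepth 100000 in
lemma pig21 : Pig6 2 1 := by decide +kernel

set_option maxRecDepth 100000 in
lemma pig22 : Pig6 2 2 := by decide +kernel

set_option maxRecDepth 100000 in
lemma pig23 : Pig6 2 3 := by decide +kernel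

set_option maxRecDepth 100000 in
lemma pig30 : Pig6 3 0 := by decide +kernel

set_option maxRecDepth 100000 in
lemma pig31 : Pig6 3 1 := by decide +kernel

set_option maxRecDepth 100000 in
lemma pig32 : Pig6 3 2 := by decide +kernel

set_option maxRecDepth 100000 in
lemma pig33 : Pig6 3 3 := by decide +kernel

lemma pig6 : ∀ a b c d f : Fin 4, NoS (sv a b c d f) → ∃ q ∈ P30, sv a b c d f q.1 = 3 ∧
    sv a b c d f q.2.1 = 1 ∧ sv a b c d f q.2.2.1 = 1 ∧ sv a b c d f q.2.2.2.1 = 2 ∧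
    sv a b c d f q.2.2.2.2 = 2 := by
  intro a b
  fin_cases a <;> fin_cases b
  · exact pig00
  · exact pig01
  · exact pig02
  · exact pig03
  · exact pig10
  · exact pig11
  · exact pig12
  · exact pig13
  · exact pig20
  · exact pig21
  · exact pig22
  · exact pig23
  · exact pig30
  · exact pig31
  · exact pig32
  · exact pig33

/-- none of the three groups has just one element -/
def NS (e e' : Fin 6 → ℤ) : Prop :=
  (∀ i, mm e i < 0 → ∃ j, j ≠ i ∧ mm e j < 0) ∧ (∀ i, 0 < mm e i → ∃ j, j ≠ i ∧ 0 < mm e j) ∧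
  (∀ i, 0 < mm e' i → ∃ j, j ≠ i ∧ 0 < mm e' j)

lemma NS_q {e e' : Fin 6 → ℤ} (hA : ∀ i, Alt (mm e i) (mm e' i)) (hm : mm e 0 < 0)
    (hN : NS e e') : ∃ q ∈ P30, mm e q.1 < 0 ∧ 0 < mm e q.2.1 ∧ 0 < mm e q.2.2.1 ∧
      0 < mm e' q.2.2.2.1 ∧ 0 < mm e' q.2.2.2.2 := by
  let s : Fin 6 → Fin 4 := fun i =>
    if mm e i < 0 then 3 else if 0 < mm e i then 1 else if 0 < mm e' i then 2 else 0
  have s3 : ∀ i, s i = 3 ↔ mm e i < 0 := by
    intro i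
    by_cases u : mm e i < 0
    · simp [s, u]
    · by_cases u1 : 0 < mm e i
      · simp [s, u, u1]
      · by_cases u2 : 0 < mm e' i <;> simp [s, u, u1, u2]
  have s1 : ∀ i, s i = 1 ↔ 0 < mm e i := by
    intro i
    by_cases u : mm e i < 0
    · have : ¬ 0 < mm e i := by omega
      simp [s, u, this]
    · by_cases u1 : 0 < mm e i
      · simp [s, u, u1]
      · by_cases u2 : 0 < mm e' i <;> simp [s, u, u1, u2]
  have s2 : ∀ i, s i = 2 ↔ 0 < mm e' i := by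
    intro i
    have hi := hA i
    unfold Alt at hi
    by_cases u : mm e i < 0
    · have : ¬ 0 < mm e' i := by omega
      simp [s, u, this]
    · by_cases u1 : 0 < mm e i
      · have : ¬ 0 < mm e' i := by omega
        simp [s, u, u1, this]
      · by_cases u2 : 0 < mm e' i <;> simp [s, u, u1, u2]
  have se : s = sv (s 1) (s 2) (s 3) (s 4) (s 5) := by
    funext i
    fin_cases i
    · exact (s3 0).mpr hm
    · rfl
    · rfl
    · rfl
    · rfl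
    · rfl
  have sz := sumz e
  have sz' := sumz e'
  have hm' : mm e' 0 < 0 := by
    have := hA 0
    unfold Alt at this
    omega
  have x1 : ∃ i, s i = 1 := by
    by_contra hne
    push Not at hne
    have h1 := mt (s1 1).mpr (hne 1)
    have h2 := mt (s1 2).mpr (hne 2)
    have h3 := mt (s1 3).mpr (hne 3)
    have h4 := mt (s1 4).mpr (hne 4)
    have h5 := mt (s1 5).mpr (hne 5)
    omega
  have x2 : ∃ i, s i = 2 := by
    by_contra hne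
    push Not at hne
    have h1 := mt (s2 1).mpr (hne 1)
    have h2 := mt (s2 2).mpr (hne 2)
    have h3 := mt (s2 3).mpr (hne 3)
    have h4 := mt (s2 4).mpr (hne 4)
    have h5 := mt (s2 5).mpr (hne 5)
    omega
  have key := pig6 (s 1) (s 2) (s 3) (s 4) (s 5)
  rw [← se] at key
  have h4 : ∀ v : Fin 4, v ≠ 0 → v = 1 ∨ v = 2 ∨ v = 3 := by decide
  obtain ⟨q, hq, a1, a2, a3, a4, a5⟩ := key ⟨x1, x2, by
    intro i hv
    obtain ⟨N1, N2, N3⟩ := hN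
    rcases h4 _ hv with hi | hi | hi
    · obtain ⟨j, j1, j2⟩ := N2 i ((s1 i).mp hi)
      exact ⟨j, j1, ((s1 j).mpr j2).trans hi.symm⟩
    · obtain ⟨j, j1, j2⟩ := N3 i ((s2 i).mp hi)
      exact ⟨j, j1, ((s2 j).mpr j2).trans hi.symm⟩
    · obtain ⟨j, j1, j2⟩ := N1 i ((s3 i).mp hi)
      exact ⟨j, j1, ((s3 j).mpr j2).trans hi.symm⟩⟩
  exact ⟨q, hq, (s3 _).mp a1, (s1 _).mp a2, (s1 _).mp a3, (s2 _).mp a4, (s2 _).mp a5⟩

end Pool.Agent.N6
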