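import Pool.Agent.Lib_helper60.N6.G

/-!
# The unit equation for a point of order six, VIII: the reduction theorem
-/

set_option autoImplicit false
set_option linter.unusedSectionVars false

namespace Pool.Agent.N6

open Pool.Agent.TN

attribute [local irreducible] eo solsI solsII

variable {k : Type*} [Field k] {F : Type*} [Field F] [Algebra k F] {t : k} {x y : F}

lemma rot (ht : t ≠ 0) (ht1 : t + 1 ≠ 0) (h : G6 t x y) (n : ℕ) :
    ∃ x' y' : F, (∃ _ : CharZero k → True, True) ∧ (CharZero k → G6 t x' y' ∧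
      ∀ j : Fin 6, X t x' y' j = X t x y (j + (Fin.ofNat 6 n))) := by
  induction n with
  | zero =>
    refine ⟨x, y, ⟨fun _ => trivial, trivial⟩, fun _ => ⟨h, fun j => ?_⟩⟩
    congr 1
    revert j
    decide
  | succ n ih =>
    obtain ⟨x', y', -, hX⟩ := ih
    refine ⟨algebraMap k F (t ^ 2 + t) * y' / x' ^ 2,
      algebraMap k F (t ^ 2 + t) ^ 2 * (x' ^ 2 - y') / x' ^ 3, ⟨fun _ => trivial, trivial⟩,
      fun hc => ?_⟩
    obtain ⟨h', hX⟩ := hX hc
    refine ⟨h'.next (b_ne ht ht1), fun j => ?_⟩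
    rw [X_next ht ht1 h', hX]
    congr 1
    apply Fin.ext
    simp only [Fin.val_add, Fin.ofNat, Fin.val_one]
    omega

lemma mm_rot (e : Fin 6 → ℤ) (c : ℤ) (i j : Fin 6) : mm (fun l => e (l + i) - c) j = mm e (j + i) := by
  have h1 : ∀ i j : Fin 6, j + 1 + i = j + i + 1 := by decide
  have h2 : ∀ i j : Fin 6, j - 1 + i = j + i - 1 := by decide
  show (e (j + 1 + i) - c) + (e (j - 1 + i) - c) - 2 * (e (j + i) - c) = _
  rw [h1, h2]
  unfold mm
  ring

lemma mon_rot (ht : t ≠ 0) (ht1 : t + 1 ≠ 0) {x y x' y' : F} (h' : G6 t x' y') (i : Fin 6)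
    (h : ∀ j, X t x' y' j = X t x y (j + i)) (e : Fin 6 → ℤ) (c : ℤ) :
    mon t x y e = algebraMap k F ((-((t ^ 2 + t) ^ 4 * t)) ^ c) *
      mon t x' y' (fun l => e (l + i) - c) := by
  rw [map_zpow₀, ← X_prod ht ht1 h', ← Finset.prod_zpow]
  unfold mon
  rw [← Finset.prod_mul_distrib, ← Equiv.prod_comp (Equiv.addRight i) (fun l => X t x y l ^ e l)]
  refine Finset.prod_congr rfl fun l _ => ?_
  show X t x y (l + i) ^ e (l + i) = _
  rw [← h, ← zpow_add₀ (X_ne ht ht1 h' l)]
  congr 1
  ring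

/-- the properties of the set of solutions -/
structure TT (κ : Fin 4) (t : k) (x y : F) (T : F → Prop) : Prop where
  inv : ∀ f : F, f ≠ 0 → f ≠ 1 → T f⁻¹ → T f
  sub : ∀ f : F, f ≠ 0 → f ≠ 1 → T (1 - f) → T f
  sol : ∀ (i : Fin 6) (x' y' : F), G6 t x' y' → (∀ j, X t x' y' j = X t x y (j + i)) →
    ∀ (c c' : k) (u v : ℤ × ℤ × ℤ × ℤ × ℤ), ((u, v) ∈ solsI κ ∨ (u, v) ∈ solsII κ) →
    AC t c c' (eo u) (eo v) → algebraMap k F c * mon t x' y' (eo u) +
      algebraMap k F c' * mon t x' y' (eo v) = 1 → T (algebraMap k F c * mon t x' y' (eo u))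

/-- one pole, or no group of size one -/
lemma step [CharZero k] {κ : Fin 4} (ht : t ≠ 0) (ht1 : t + 1 ≠ 0) (hk : Kd κ t)
    (h : G6 t x y) {T : F → Prop} (hT : TT κ t x y T) {c c' : k} (hc : c ≠ 0) (hc' : c' ≠ 0)
    {e e' : Fin 6 → ℤ}
    (hu : algebraMap k F c * mon t x y e + algebraMap k F c' * mon t x y e' = 1)
    (hnc : ¬ ∀ i j, e i = e j) (hnc' : ¬ ∀ i j, e' i = e' j) (i : Fin 6) (hm : mm e i < 0)
    (hp : (∀ j, j ≠ i → 0 ≤ mm e j) ∨ NS e e') : T (algebraMap k F c * mon t x y e) := by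
  obtain ⟨x', y', -, hR⟩ := rot ht ht1 h i.val
  obtain ⟨h', hX⟩ := hR inferInstance
  have hi : Fin.ofNat 6 i.val = i := by
    apply Fin.ext
    simp only [Fin.ofNat]
    exact Nat.mod_eq_of_lt i.isLt
  rw [hi] at hX
  obtain ⟨K, hK⟩ : ∃ K : k, K = -((t ^ 2 + t) ^ 4 * t) := ⟨_, rfl⟩
  have hK0 : K ≠ 0 := by
    rw [hK]; exact neg_ne_zero.mpr (mul_ne_zero (pow_ne_zero 4 (b_ne ht ht1)) ht)
  have m1 := mon_rot ht ht1 h' i hX e (e i)
  have m2 := mon_rot ht ht1 h' i hX e' (e' i)
  rw [← hK] at m1 m2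
  obtain ⟨w, hw⟩ : ∃ w : Fin 6 → ℤ, w = fun l => e (l + i) - e i := ⟨_, rfl⟩
  obtain ⟨w', hw'⟩ : ∃ w : Fin 6 → ℤ, w = fun l => e' (l + i) - e' i := ⟨_, rfl⟩
  have e1 : ∀ j, mm w j = mm e (j + i) := fun j => by rw [hw]; exact mm_rot e (e i) i j
  have e2 : ∀ j, mm w' j = mm e' (j + i) := fun j => by rw [hw']; exact mm_rot e' (e' i) i j
  have w0 : w 0 = 0 := by rw [hw]; simp only [zero_add, sub_self]
  have w0' : w' 0 = 0 := by rw [hw']; simp only [zero_add, sub_self]
  rw [← hw] at m1
  rw [← hw'] at m2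
  have f1 : algebraMap k F c * mon t x y e = algebraMap k F (c * K ^ e i) * mon t x' y' w := by
    rw [m1, map_mul, mul_assoc]
  have f2 : algebraMap k F c' * mon t x y e' = algebraMap k F (c' * K ^ e' i) * mon t x' y' w' := by
    rw [m2, map_mul, mul_assoc]
  rw [f1, f2] at hu
  rw [f1]
  have n1 : ¬ ∀ a b, w a = w b := by
    intro hall
    apply hnc
    intro a b
    have := hall (a - i) (b - i)
    rw [hw] at this
    simp only [sub_add_cancel] at this
    omega
  have n2 : ¬ ∀ a b, w' a = w' b := by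
    intro hall
    apply hnc'
    intro a b
    have := hall (a - i) (b - i)
    rw [hw'] at this
    simp only [sub_add_cancel] at this
    omega
  have hA := all_cond ht ht1 h' (mul_ne_zero hc (zpow_ne_zero _ hK0))
    (mul_ne_zero hc' (zpow_ne_zero _ hK0)) hu n1 n2
  have hG := AC_Gr3 ht ht1 hk hA
  have hm0 : mm w 0 < 0 := by rw [e1, zero_add]; exact hm
  have key : ∃ u v, ((u, v) ∈ solsI κ ∨ (u, v) ∈ solsII κ) ∧ w = eo u ∧ w' = eo v := by
    rcases hp with hp | hp
    · obtain ⟨u, v, h1, h2, h3⟩ := core1 w0 w0' (fun j => (hA.one j).alt) hG hm0 (by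
        intro j hj
        rw [e1]
        apply hp
        intro h0
        apply hj
        have : ∀ i j : Fin 6, j + i = i → j = 0 := by decide
        exact this i j h0)
      exact ⟨u, v, Or.inl h1, h2, h3⟩
    · have hN : NS w w' := by
        obtain ⟨N1, N2, N3⟩ := hp
        refine ⟨?_, ?_, ?_⟩
        · intro j hj
          rw [e1] at hj
          obtain ⟨l, l1, l2⟩ := N1 _ hj
          refine ⟨l - i, ?_, by rw [e1, sub_add_cancel]; exact l2⟩
          rintro rfl
          exact l1 (sub_add_cancel l i).symm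
        · intro j hj
          rw [e1] at hj
          obtain ⟨l, l1, l2⟩ := N2 _ hj
          refine ⟨l - i, ?_, by rw [e1, sub_add_cancel]; exact l2⟩
          rintro rfl
          exact l1 (sub_add_cancel l i).symm
        · intro j hj
          rw [e2] at hj
          obtain ⟨l, l1, l2⟩ := N3 _ hj
          refine ⟨l - i, ?_, by rw [e2, sub_add_cancel]; exact l2⟩
          rintro rfl
          exact l1 (sub_add_cancel l i).symm
      obtain ⟨q, hq, q1, q2, q3, q4, q5⟩ := NS_q (fun j => (hA.one j).alt) hm0 hN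
      obtain ⟨u, v, h1, h2, h3⟩ := core2 w0 w0' (fun j => (hA.one j).alt) hG hm0 hq q1 q2 q3 q4 q5
      exact ⟨u, v, Or.inr h1, h2, h3⟩
  obtain ⟨u, v, h1, h2, h3⟩ := key
  rw [h2] at hA hu ⊢
  rw [h3] at hA hu
  exact hT.sol i x' y' h' hX _ _ u v h1 hA hu

/-- **reduction of the unit equation to the finite lists** -/
theorem master [CharZero k] {κ : Fin 4} (ht : t ≠ 0) (ht1 : t + 1 ≠ 0) (hk : Kd κ t)
    (h : G6 t x y) {T : F → Prop} (hT : TT κ t x y T) {c c' : k} (hc : c ≠ 0) (hc' : c' ≠ 0)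
    {e e' : Fin 6 → ℤ}
    (hu : algebraMap k F c * mon t x y e + algebraMap k F c' * mon t x y e' = 1) :
    (∃ s : k, algebraMap k F c * mon t x y e = algebraMap k F s) ∨
      T (algebraMap k F c * mon t x y e) := by
  by_cases hnc : ∀ i j, e i = e j
  · left
    have he : mon t x y e = (∏ i, X t x y i) ^ (e 0) := by
      unfold mon
      rw [← Finset.prod_zpow]
      exact Finset.prod_congr rfl fun i _ => by rw [hnc i 0]
    refine ⟨c * (-((t ^ 2 + t) ^ 4 * t)) ^ e 0, ?_⟩
    rw [he, X_prod ht ht1 h, map_mul, map_zpow₀]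
  by_cases hnc' : ∀ i j, e' i = e' j
  · left
    have he : mon t x y e' = (∏ i, X t x y i) ^ (e' 0) := by
      unfold mon
      rw [← Finset.prod_zpow]
      exact Finset.prod_congr rfl fun i _ => by rw [hnc' i 0]
    refine ⟨1 - c' * (-((t ^ 2 + t) ^ 4 * t)) ^ e' 0, ?_⟩
    rw [map_sub, map_one, map_mul, map_zpow₀, ← X_prod ht ht1 h, ← he]
    linear_combination hu
  right
  have hA := all_cond ht ht1 h hc hc' hu hnc hnc'
  have f0 : algebraMap k F c * mon t x y e ≠ 0 :=
    mul_ne_zero ((_root_.map_ne_zero _).mpr hc) (mon_ne ht ht1 h e)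
  have g0 : algebraMap k F c' * mon t x y e' ≠ 0 :=
    mul_ne_zero ((_root_.map_ne_zero _).mpr hc') (mon_ne ht ht1 h e')
  have f1 : algebraMap k F c * mon t x y e ≠ 1 := by
    intro h'; apply g0; linear_combination hu - h'
  have g1 : algebraMap k F c' * mon t x y e' ≠ 1 := by
    intro h'; apply f0; linear_combination hu - h'
  have hall := fun i => (hA.one i).alt
  -- the existence of a pole
  have ex3 : ∃ i, mm e i < 0 := by
    by_contra hne
    push Not at hne
    apply hnc
    have s := sumz e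
    have a0 := hne 0
    have a1 := hne 1
    have a2 := hne 2
    have a3 := hne 3
    have a4 := hne 4
    have a5 := hne 5
    have o0 : mm e 0 = e 1 + e 5 - 2 * e 0 := rfl
    have o1 : mm e 1 = e 2 + e 0 - 2 * e 1 := rfl
    have o2 : mm e 2 = e 3 + e 1 - 2 * e 2 := rfl
    have o3 : mm e 3 = e 4 + e 2 - 2 * e 3 := rfl
    have o4 : mm e 4 = e 5 + e 3 - 2 * e 4 := rfl
    have o5 : mm e 5 = e 0 + e 4 - 2 * e 5 := rfl
    have b1 : e 1 = e 0 := by omega
    have b2 : e 2 = e 0 := by omega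
    have b3 : e 3 = e 0 := by omega
    have b4 : e 4 = e 0 := by omega
    have b5 : e 5 = e 0 := by omega
    intro i j
    fin_cases i <;> fin_cases j <;> simp <;> omega
  by_cases hN : NS e e'
  · obtain ⟨i, hi⟩ := ex3
    exact step ht ht1 hk h hT hc hc' hu hnc hnc' i hi (Or.inr hN)
  unfold NS at hN
  by_cases h1 : ∀ i, mm e i < 0 → ∃ j, j ≠ i ∧ mm e j < 0
  swap
  · push Not at h1
    obtain ⟨i, hi, hj⟩ := h1
    exact step ht ht1 hk h hT hc hc' hu hnc hnc' i hi (Or.inl hj)
  by_cases h2 : ∀ i, 0 < mm e i → ∃ j, j ≠ i ∧ 0 < mm e j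
  swap
  · -- one zero of `f`
    push Not at h2
    obtain ⟨i, hi, hj⟩ := h2
    have hh : algebraMap k F c⁻¹ * mon t x y (fun l => -e l) +
        algebraMap k F (-(c' / c)) * mon t x y (fun l => e' l - e l) = 1 := by
      rw [mon_neg, mon_sub ht ht1 h, map_inv₀, map_neg, map_div₀]
      have := mon_ne ht ht1 h e
      have cF : algebraMap k F c ≠ 0 := (_root_.map_ne_zero _).mpr hc
      field_simp
      linear_combination -hu
    have r := step ht ht1 hk h hT (inv_ne_zero hc) (neg_ne_zero.mpr (div_ne_zero hc' hc)) hh (by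
        intro hall'
        apply hnc
        intro a b
        have := hall' a b
        omega) (by
        intro hall'
        have a2 : ¬ ∀ i j, e i - e' i = e j - e' j := by
          intro h3
          have h4 := (hA.inf i).alt
          have h5 := (hA.one i).alt
          have b1 := h3 (i + 1) i
          have b2 := h3 (i - 1) i
          have o : mm e i = e (i + 1) + e (i - 1) - 2 * e i := rfl
          have o' : mm e' i = e' (i + 1) + e' (i - 1) - 2 * e' i := rfl
          unfold Alt at h5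
          omega
        apply a2
        intro a b
        have := hall' a b
        omega) i (by
        show -e (i + 1) + -e (i - 1) - 2 * -e i < 0
        have o : mm e i = e (i + 1) + e (i - 1) - 2 * e i := rfl
        omega) (Or.inl (by
        intro j hji
        have := hj j hji
        show 0 ≤ -e (j + 1) + -e (j - 1) - 2 * -e j
        have o : mm e j = e (j + 1) + e (j - 1) - 2 * e j := rfl
        omega))
    have fe : algebraMap k F c⁻¹ * mon t x y (fun l => -e l) =
        (algebraMap k F c * mon t x y e)⁻¹ := by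
      rw [mon_neg, map_inv₀, mul_inv]
    rw [fe] at r
    exact hT.inv _ f0 f1 r
  -- one zero of `g`
  have h3 : ¬ ∀ i, 0 < mm e' i → ∃ j, j ≠ i ∧ 0 < mm e' j := fun h3 => hN ⟨h1, h2, h3⟩
  push Not at h3
  obtain ⟨i, hi, hj⟩ := h3
  have hh : algebraMap k F c'⁻¹ * mon t x y (fun l => -e' l) +
      algebraMap k F (-(c / c')) * mon t x y (fun l => e l - e' l) = 1 := by
    rw [mon_neg, mon_sub ht ht1 h, map_inv₀, map_neg, map_div₀]
    have := mon_ne ht ht1 h e'
    have cF : algebraMap k F c' ≠ 0 := (_root_.map_ne_zero _).mpr hc'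
    field_simp
    linear_combination -hu
  have r := step ht ht1 hk h hT (inv_ne_zero hc') (neg_ne_zero.mpr (div_ne_zero hc hc')) hh (by
      intro hall'
      apply hnc'
      intro a b
      have := hall' a b
      omega) (by
      intro h3
      have h5 := (hA.one i).alt
      have b1 := h3 (i + 1) i
      have b2 := h3 (i - 1) i
      have o : mm e i = e (i + 1) + e (i - 1) - 2 * e i := rfl
      have o' : mm e' i = e' (i + 1) + e' (i - 1) - 2 * e' i := rfl
      unfold Alt at h5
      omega) i (by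
      show -e' (i + 1) + -e' (i - 1) - 2 * -e' i < 0
      have o : mm e' i = e' (i + 1) + e' (i - 1) - 2 * e' i := rfl
      omega) (Or.inl (by
      intro j hji
      have := hj j hji
      show 0 ≤ -e' (j + 1) + -e' (j - 1) - 2 * -e' j
      have o : mm e' j = e' (j + 1) + e' (j - 1) - 2 * e' j := rfl
      omega))
  have fe : algebraMap k F c'⁻¹ * mon t x y (fun l => -e' l) =
      (algebraMap k F c' * mon t x y e')⁻¹ := by
    rw [mon_neg, map_inv₀, mul_inv]
  rw [fe] at r
  have r2 := hT.inv _ g0 g1 r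
  apply hT.sub _ f0 f1
  rw [show 1 - algebraMap k F c * mon t x y e = algebraMap k F c' * mon t x y e' by
    linear_combination -hu]
  exact r2

end Pool.Agent.N6
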