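import Pool.Agent.Lib_helper60.N6.H

/-!
# The unit equation for a point of order six, IX: all solutions, `t` and `t + 1` independent
-/

set_option autoImplicit false
set_option linter.unusedSectionVars false
set_option linter.unusedSimpArgs false
set_option linter.unusedVariables false

namespace Pool.Agent.N6

open Pool.Agent.TN

variable {k : Type*} [Field k] {F : Type*} [Field F] [Algebra k F] {t : k} {x y : F}

lemma Orb.inv {u f : F} (_ : u ≠ 0) (hu1 : u ≠ 1) (h : Orb u f⁻¹) : Orb u f := by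
  have h1 : 1 - u ≠ 0 := sub_ne_zero.mpr (Ne.symm hu1)
  have h2 : u - 1 ≠ 0 := sub_ne_zero.mpr hu1
  unfold Orb at *
  rcases h with h | h | h | h | h | h <;> rw [inv_eq_iff_eq_inv] at h <;> rw [h]
  · right; right; left; rw [one_div]
  · right; right; right; right; left; rw [one_div]
  · left; rw [one_div, inv_inv]
  · right; right; right; right; right
    field_simp
  · right; left; rw [one_div, inv_inv]
  · right; right; right; left
    field_simp

lemma Orb.sub {u f : F} (hu0 : u ≠ 0) (hu1 : u ≠ 1) (h : Orb u (1 - f)) : Orb u f := by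
  have h1 : 1 - u ≠ 0 := sub_ne_zero.mpr (Ne.symm hu1)
  have h2 : u - 1 ≠ 0 := sub_ne_zero.mpr hu1
  unfold Orb at *
  have e : f = 1 - (1 - f) := by ring
  rcases h with h | h | h | h | h | h <;> rw [e, h]
  · right; left; rfl
  · left; ring
  · right; right; right; left; rfl
  · right; right; left; ring
  · right; right; right; right; right
    field_simp
    ring
  · right; right; right; right; left
    field_simp
    ring

/-- the three families of solutions -/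
noncomputable def cA (t : k) (x y : F) (i : Fin 6) : F := X t x y i / algebraMap k F (t ^ 2 + t)

/-- the three families of solutions -/
noncomputable def cB (t : k) (x y : F) (i : Fin 6) : F := X t x y i / algebraMap k F t

/-- the three families of solutions -/
noncomputable def cC (t : k) (x y : F) (i : Fin 6) : F :=
  X t x y i * X t x y (i + 1) / (algebraMap k F (t ^ 2 + t) * algebraMap k F t)

/-- the solutions of the unit equation which exist for all `t` -/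
def Sol (t : k) (x y f : F) : Prop :=
  ∃ i, Orb (cA t x y i) f ∨ Orb (cB t x y i) f ∨ Orb (cC t x y i) f

lemma cABC_rot {x' y' : F} {i : Fin 6} (hX : ∀ j, X t x' y' j = X t x y (j + i)) (j : Fin 6) :
    cA t x' y' j = cA t x y (j + i) ∧ cB t x' y' j = cB t x y (j + i) ∧
      cC t x' y' j = cC t x y (j + i) := by
  have h1 : ∀ i j : Fin 6, j + 1 + i = j + i + 1 := by decide
  unfold cA cB cC
  rw [hX, hX, h1]
  exact ⟨rfl, rfl, rfl⟩

lemma Sol_rot {x' y' : F} {i : Fin 6} (hX : ∀ j, X t x' y' j = X t x y (j + i)) {f : F}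
    (h : Sol t x' y' f) : Sol t x y f := by
  obtain ⟨j, h⟩ := h
  obtain ⟨a, b, c⟩ := cABC_rot hX j
  rw [a, b, c] at h
  exact ⟨j + i, h⟩

/-- a monomial with value one at a point -/
lemma spec (ht : t ≠ 0) (ht1 : t + 1 ≠ 0) (h : G6 t x y) {c : k} {w : Fin 6 → ℤ} {j : Fin 6}
    (hv : c * val t w j = 1) : algebraMap k F c * mon t x y w =
      algebraMap k F (t ^ 2 + t) ^ (S w 0 - S w j) * algebraMap k F t ^ (w 3 - w (j + 3)) *
        (-1) ^ (w 5 - w (j + 5)) *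
      M t x y (w 0 - 2 * w 1 + w 2) (-w 2 + w 3 - w 4 + w 5) (-w 3 + w 4)
        (w 1 - w 2 + w 4 - w 5) (w 2 - w 4) := by
  have hb := b_ne ht ht1
  have hm : (-1 : k) ≠ 0 := neg_ne_zero.mpr one_ne_zero
  have hc : c = (val t w j)⁻¹ := eq_inv_of_mul_eq_one_left hv
  rw [mon_M ht ht1 h, ← mul_assoc, ← map_mul]
  have e : c * ((t ^ 2 + t) ^ (w 1 + w 2 + w 4 + w 5) * t ^ w 3 * (-1) ^ w 5) =
      (t ^ 2 + t) ^ (S w 0 - S w j) * t ^ (w 3 - w (j + 3)) * (-1) ^ (w 5 - w (j + 5)) := by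
    rw [hc, zpow_sub₀ hb, zpow_sub₀ ht, zpow_sub₀ hm]
    have e1 : S w 0 = w 1 + w 2 + w 4 + w 5 := rfl
    have e2 : val t w j = (t ^ 2 + t) ^ S w j * t ^ w (j + 3) * (-1) ^ w (j + 5) := rfl
    rw [e1, e2]
    have h1 := zpow_ne_zero (S w j) hb
    have h2 := zpow_ne_zero (w (j + 3)) ht
    have h3 := zpow_ne_zero (w (j + 5)) hm
    field_simp
  rw [e, map_mul, map_mul, map_zpow₀, map_zpow₀, map_zpow₀, map_neg, map_one]

lemma spec' (ht : t ≠ 0) (ht1 : t + 1 ≠ 0) (h : G6 t x y) {c : k} {w : Fin 6 → ℤ} {j : Fin 6}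
    (hv : c * val t w j = 1) (n₁ n₂ n₃ a₀ a₁ a₂ a₃ a₄ : ℤ)
    (hn : S w 0 - S w j = n₁ ∧ w 3 - w (j + 3) = n₂ ∧ w 5 - w (j + 5) = n₃ ∧
      w 0 - 2 * w 1 + w 2 = a₀ ∧ -w 2 + w 3 - w 4 + w 5 = a₁ ∧ -w 3 + w 4 = a₂ ∧
      w 1 - w 2 + w 4 - w 5 = a₃ ∧ w 2 - w 4 = a₄) : algebraMap k F c * mon t x y w =
      algebraMap k F (t ^ 2 + t) ^ n₁ * algebraMap k F t ^ n₂ * (-1) ^ n₃ *
        M t x y a₀ a₁ a₂ a₃ a₄ := by
  obtain ⟨rfl, rfl, rfl, rfl, rfl, rfl, rfl, rfl⟩ := hn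
  exact spec ht ht1 h hv

/-- the finitely many solutions at one point -/
lemma sol0 [CharZero k] (ht : t ≠ 0) (ht1 : t + 1 ≠ 0) (h : G6 t x y) {c c' : k}
    {u v : ℤ × ℤ × ℤ × ℤ × ℤ} (huv : (u, v) ∈ solsI 0 ∨ (u, v) ∈ solsII 0)
    (hA : AC t c c' (eo u) (eo v)) : Sol t x y (algebraMap k F c * mon t x y (eo u)) := by
  have hT : algebraMap k F t ≠ 0 := (_root_.map_ne_zero _).mpr ht
  have hB : algebraMap k F (t ^ 2 + t) ≠ 0 := (_root_.map_ne_zero _).mpr (b_ne ht ht1)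
  have h1 := h.x_ne
  have h2 := h.xc_ne (t ^ 2 + t)
  have h3 := h.xc_ne t
  have h4 := h.y_ne
  have h5 := w_ne h
  have he := h.eq
  have hBT : algebraMap k F (t ^ 2 + t) = algebraMap k F t ^ 2 + algebraMap k F t := by
    rw [map_add, map_pow]
  have huv' : (u, v) ∈ [((0, 0, 2, 0, 0), (0, 1, 0, 1, 0)),
      ((0, 0, 2, 0, 0), (1, 0, 0, 0, 1)),
      ((0, 1, 0, 1, 0), (0, 0, 2, 0, 0)),
      ((0, 1, 0, 1, 0), (1, 0, 0, 0, 1)),
      ((1, 0, 0, 0, 1), (0, 0, 2, 0, 0)),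
      ((1, 0, 0, 0, 1), (0, 1, 0, 1, 0)),
      ((-1, 1, 0, 0, 1), (-1, 0, 1, 1, 0)),
      ((-1, 0, 1, 1, 0), (-1, 1, 0, 0, 1)),
      ((1, 1, -1, 0, 0), (0, 0, -1, 1, 1)),
      ((0, 0, -1, 1, 1), (1, 1, -1, 0, 0)),
      ((1, 0, 0, 1, -1), (0, 1, 1, 0, -1)),
      ((0, 1, 1, 0, -1), (1, 0, 0, 1, -1))] := by
    rcases huv with huv | huv
    · exact List.mem_append_left _ huv
    · exact List.mem_append_right [_, _, _, _, _, _] huv
  simp only [List.mem_cons, Prod.mk.injEq, List.not_mem_nil, or_false] at huv'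
  rcases huv' with ⟨rfl, rfl⟩ | ⟨rfl, rfl⟩ | ⟨rfl, rfl⟩ | ⟨rfl, rfl⟩ | ⟨rfl, rfl⟩ | ⟨rfl, rfl⟩ | ⟨rfl, rfl⟩ | ⟨rfl, rfl⟩ | ⟨rfl, rfl⟩ | ⟨rfl, rfl⟩ | ⟨rfl, rfl⟩ | ⟨rfl, rfl⟩
  · rw [spec' ht ht1 h ((hA.one 2).vl (by decide)) 0 (-2) 0 0 0 1 0 0 (by decide)]
    refine ⟨3, Or.inr (Or.inl ?_)⟩
    show Orb ((algebraMap k F t * (x - algebraMap k F (t ^ 2 + t)) / (x - algebraMap k F t)) / algebraMap k F t) _
    unfold Orb M
    simp only [zpow_zero, zpow_one, zpow_neg, zpow_ofNat, pow_one, one_mul, mul_one]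
    generalize algebraMap k F (t ^ 2 + t) = B at *
    generalize algebraMap k F t = T at *
    right; right; right; right; left
    have e : (1 : F) - T * (x - B) / (x - T) / T = T ^ 2 / (x - T) := by
      field_simp; rw [hBT]; ring
    rw [e]; field_simp
  · rw [spec' ht ht1 h ((hA.one 1).vl (by decide)) 0 (-1) (-1) 0 0 1 0 0 (by decide)]
    refine ⟨0, Or.inr (Or.inl ?_)⟩
    show Orb (x / algebraMap k F t) _
    unfold Orb M
    simp only [zpow_zero, zpow_one, zpow_neg, zpow_ofNat, pow_one, one_mul, mul_one]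
    generalize algebraMap k F (t ^ 2 + t) = B at *
    generalize algebraMap k F t = T at *
    right; left
    field_simp; ring
  · rw [spec' ht ht1 h ((hA.one 3).vl (by decide)) 0 (-2) 1 0 1 0 0 0 (by decide)]
    refine ⟨3, Or.inr (Or.inl ?_)⟩
    show Orb ((algebraMap k F t * (x - algebraMap k F (t ^ 2 + t)) / (x - algebraMap k F t)) / algebraMap k F t) _
    unfold Orb M
    simp only [zpow_zero, zpow_one, zpow_neg, zpow_ofNat, pow_one, one_mul, mul_one]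
    generalize algebraMap k F (t ^ 2 + t) = B at *
    generalize algebraMap k F t = T at *
    right; right; right; right; right
    have e : T * (x - B) / (x - T) / T - 1 = -(T ^ 2 / (x - T)) := by
      field_simp; rw [hBT]; ring
    rw [e]; field_simp
  · rw [spec' ht ht1 h ((hA.one 1).vl (by decide)) (-1) 0 (-1) 0 1 0 0 0 (by decide)]
    refine ⟨0, Or.inl ?_⟩
    show Orb (x / algebraMap k F (t ^ 2 + t)) _
    unfold Orb M
    simp only [zpow_zero, zpow_one, zpow_neg, zpow_ofNat, pow_one, one_mul, mul_one]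
    generalize algebraMap k F (t ^ 2 + t) = B at *
    generalize algebraMap k F t = T at *
    right; left
    field_simp; ring
  · rw [spec' ht ht1 h ((hA.one 3).vl (by decide)) 0 (-1) 0 1 0 0 0 0 (by decide)]
    refine ⟨0, Or.inr (Or.inl ?_)⟩
    show Orb (x / algebraMap k F t) _
    unfold Orb M
    simp only [zpow_zero, zpow_one, zpow_neg, zpow_ofNat, pow_one, one_mul, mul_one]
    generalize algebraMap k F (t ^ 2 + t) = B at *
    generalize algebraMap k F t = T at *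
    left
    field_simp
  · rw [spec' ht ht1 h ((hA.one 2).vl (by decide)) (-1) 0 0 1 0 0 0 0 (by decide)]
    refine ⟨0, Or.inl ?_⟩
    show Orb (x / algebraMap k F (t ^ 2 + t)) _
    unfold Orb M
    simp only [zpow_zero, zpow_one, zpow_neg, zpow_ofNat, pow_one, one_mul, mul_one]
    generalize algebraMap k F (t ^ 2 + t) = B at *
    generalize algebraMap k F t = T at *
    left
    field_simp
  · rw [spec' ht ht1 h ((hA.one 3).vl (by decide)) 0 (-1) 0 (-1) 0 0 1 0 (by decide)]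
    refine ⟨0, Or.inr (Or.inr ?_)⟩
    show Orb (x * (algebraMap k F (t ^ 2 + t) * y / x ^ 2) / (algebraMap k F (t ^ 2 + t) * algebraMap k F t)) _
    unfold Orb M
    simp only [zpow_zero, zpow_one, zpow_neg, zpow_ofNat, pow_one, one_mul, mul_one]
    generalize algebraMap k F (t ^ 2 + t) = B at *
    generalize algebraMap k F t = T at *
    left
    field_simp
  · rw [spec' ht ht1 h ((hA.one 2).vl (by decide)) 0 (-1) (-1) (-1) 0 0 0 1 (by decide)]
    refine ⟨0, Or.inr (Or.inr ?_)⟩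
    show Orb (x * (algebraMap k F (t ^ 2 + t) * y / x ^ 2) / (algebraMap k F (t ^ 2 + t) * algebraMap k F t)) _
    unfold Orb M
    simp only [zpow_zero, zpow_one, zpow_neg, zpow_ofNat, pow_one, one_mul, mul_one]
    generalize algebraMap k F (t ^ 2 + t) = B at *
    generalize algebraMap k F t = T at *
    right; left
    field_simp; ring
  · rw [spec' ht ht1 h ((hA.one 4).vl (by decide)) (-1) 1 0 1 1 0 0 (-1) (by decide)]
    refine ⟨1, Or.inr (Or.inr ?_)⟩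
    show Orb ((algebraMap k F (t ^ 2 + t) * y / x ^ 2) * (algebraMap k F (t ^ 2 + t) * x * (y - algebraMap k F t * x) / (y * (x - algebraMap k F (t ^ 2 + t)))) / (algebraMap k F (t ^ 2 + t) * algebraMap k F t)) _
    unfold Orb M
    simp only [zpow_zero, zpow_one, zpow_neg, zpow_ofNat, pow_one, one_mul, mul_one]
    generalize algebraMap k F (t ^ 2 + t) = B at *
    generalize algebraMap k F t = T at *
    right; right; left
    generalize y - T * x = w at *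
    field_simp
  · rw [spec' ht ht1 h ((hA.one 1).vl (by decide)) (-1) 1 (-1) 0 0 (-1) 0 1 (by decide)]
    refine ⟨1, Or.inr (Or.inr ?_)⟩
    show Orb ((algebraMap k F (t ^ 2 + t) * y / x ^ 2) * (algebraMap k F (t ^ 2 + t) * x * (y - algebraMap k F t * x) / (y * (x - algebraMap k F (t ^ 2 + t)))) / (algebraMap k F (t ^ 2 + t) * algebraMap k F t)) _
    unfold Orb M
    simp only [zpow_zero, zpow_one, zpow_neg, zpow_ofNat, pow_one, one_mul, mul_one]
    generalize algebraMap k F (t ^ 2 + t) = B at *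
    generalize algebraMap k F t = T at *
    right; right; right; left
    generalize hw : y - T * x = w at *
    field_simp
    subst hw
    subst hBT
    linear_combination (-T) * he
  · rw [spec' ht ht1 h ((hA.one 2).vl (by decide)) 0 (-1) 1 1 1 0 (-1) 0 (by decide)]
    refine ⟨5, Or.inr (Or.inr ?_)⟩
    show Orb ((-(algebraMap k F (t ^ 2 + t) * (x - algebraMap k F (t ^ 2 + t))) / y) * x / (algebraMap k F (t ^ 2 + t) * algebraMap k F t)) _
    unfold Orb M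
    simp only [zpow_zero, zpow_one, zpow_neg, zpow_ofNat, pow_one, one_mul, mul_one]
    generalize algebraMap k F (t ^ 2 + t) = B at *
    generalize algebraMap k F t = T at *
    left
    field_simp
  · rw [spec' ht ht1 h ((hA.one 1).vl (by decide)) 0 (-1) 0 0 1 1 0 (-1) (by decide)]
    refine ⟨5, Or.inr (Or.inr ?_)⟩
    show Orb ((-(algebraMap k F (t ^ 2 + t) * (x - algebraMap k F (t ^ 2 + t))) / y) * x / (algebraMap k F (t ^ 2 + t) * algebraMap k F t)) _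
    unfold Orb M
    simp only [zpow_zero, zpow_one, zpow_neg, zpow_ofNat, pow_one, one_mul, mul_one]
    generalize algebraMap k F (t ^ 2 + t) = B at *
    generalize algebraMap k F t = T at *
    right; left
    generalize hw : y - T * x = w at *
    field_simp
    subst hw
    linear_combination (-T) * he


lemma cA_ne (ht : t ≠ 0) (ht1 : t + 1 ≠ 0) (h : G6 t x y) (i : Fin 6) : cA t x y i ≠ 0 :=
  div_ne_zero (X_ne ht ht1 h i) ((_root_.map_ne_zero _).mpr (b_ne ht ht1))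

lemma cB_ne (ht : t ≠ 0) (ht1 : t + 1 ≠ 0) (h : G6 t x y) (i : Fin 6) : cB t x y i ≠ 0 :=
  div_ne_zero (X_ne ht ht1 h i) ((_root_.map_ne_zero _).mpr ht)

lemma cC_ne (ht : t ≠ 0) (ht1 : t + 1 ≠ 0) (h : G6 t x y) (i : Fin 6) : cC t x y i ≠ 0 :=
  div_ne_zero (mul_ne_zero (X_ne ht ht1 h i) (X_ne ht ht1 h (i + 1)))
    (mul_ne_zero ((_root_.map_ne_zero _).mpr (b_ne ht ht1)) ((_root_.map_ne_zero _).mpr ht))

lemma c0_ne1 (ht : t ≠ 0) (ht1 : t + 1 ≠ 0) (h : G6 t x y) : cA t x y 0 ≠ 1 ∧ cB t x y 0 ≠ 1 ∧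
    cC t x y 0 ≠ 1 := by
  have hT : algebraMap k F t ≠ 0 := (_root_.map_ne_zero _).mpr ht
  have hB : algebraMap k F (t ^ 2 + t) ≠ 0 := (_root_.map_ne_zero _).mpr (b_ne ht ht1)
  have h1 := h.x_ne
  have h2 := h.xc_ne (t ^ 2 + t)
  have h3 := h.xc_ne t
  have h4 := h.y_ne
  have h5 := w_ne h
  refine ⟨?_, ?_, ?_⟩
  · show x / algebraMap k F (t ^ 2 + t) ≠ 1
    rw [Ne, div_eq_one_iff_eq hB]
    intro h0; apply h2; rw [h0, sub_self]
  · show x / algebraMap k F t ≠ 1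
    rw [Ne, div_eq_one_iff_eq hT]
    intro h0; apply h3; rw [h0, sub_self]
  · show x * (algebraMap k F (t ^ 2 + t) * y / x ^ 2) /
      (algebraMap k F (t ^ 2 + t) * algebraMap k F t) ≠ 1
    generalize algebraMap k F (t ^ 2 + t) = B at *
    generalize algebraMap k F t = T at *
    intro h0
    apply h5
    field_simp at h0
    linear_combination h0

lemma c_ne1 [CharZero k] (ht : t ≠ 0) (ht1 : t + 1 ≠ 0) (h : G6 t x y) (i : Fin 6) :
    cA t x y i ≠ 1 ∧ cB t x y i ≠ 1 ∧ cC t x y i ≠ 1 := by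
  obtain ⟨x', y', -, hR⟩ := rot ht ht1 h i.val
  obtain ⟨h', hX⟩ := hR inferInstance
  have hi : Fin.ofNat 6 i.val = i := by
    apply Fin.ext
    simp only [Fin.ofNat]
    exact Nat.mod_eq_of_lt i.isLt
  rw [hi] at hX
  obtain ⟨a, b, c⟩ := cABC_rot hX 0
  rw [zero_add] at a b c
  rw [← a, ← b, ← c]
  exact c0_ne1 ht ht1 h'

/-- the properties of the set of solutions -/
lemma TT0 [CharZero k] (ht : t ≠ 0) (ht1 : t + 1 ≠ 0) (h : G6 t x y) : TT 0 t x y (Sol t x y) where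
  inv f _ _ hf := by
    obtain ⟨i, hi⟩ := hf
    obtain ⟨a, b, c⟩ := c_ne1 ht ht1 h i
    rcases hi with hi | hi | hi
    · exact ⟨i, Or.inl (Orb.inv (cA_ne ht ht1 h i) a hi)⟩
    · exact ⟨i, Or.inr (Or.inl (Orb.inv (cB_ne ht ht1 h i) b hi))⟩
    · exact ⟨i, Or.inr (Or.inr (Orb.inv (cC_ne ht ht1 h i) c hi))⟩
  sub f _ _ hf := by
    obtain ⟨i, hi⟩ := hf
    obtain ⟨a, b, c⟩ := c_ne1 ht ht1 h i
    rcases hi with hi | hi | hi
    · exact ⟨i, Or.inl (Orb.sub (cA_ne ht ht1 h i) a hi)⟩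
    · exact ⟨i, Or.inr (Or.inl (Orb.sub (cB_ne ht ht1 h i) b hi))⟩
    · exact ⟨i, Or.inr (Or.inr (Orb.sub (cC_ne ht ht1 h i) c hi))⟩
  sol i x' y' h' hX c c' u v huv hA _ := Sol_rot hX (sol0 ht ht1 h' huv hA)

/-- a monomial in `x, x - b, x - t, y, y - t x` in terms of the `x(z + iP)` -/
lemma M_mon (ht : t ≠ 0) (ht1 : t + 1 ≠ 0) (h : G6 t x y) (a₀ a₁ a₂ a₃ a₄ : ℤ) :
    ∃ (e : Fin 6 → ℤ) (c : k), c ≠ 0 ∧
      M t x y a₀ a₁ a₂ a₃ a₄ = algebraMap k F c * mon t x y e := by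
  let e4 := -a₀ - 2 * a₁ - 2 * a₂ - 2 * a₃ - 3 * a₄
  refine ⟨![0, a₃ + 2 * a₄ + a₁ + a₂ + e4, e4 + a₄, e4 - a₂, e4, a₁ + a₄ + a₂ + e4],
    (val t ![0, a₃ + 2 * a₄ + a₁ + a₂ + e4, e4 + a₄, e4 - a₂, e4, a₁ + a₄ + a₂ + e4] 0)⁻¹,
    inv_ne_zero (val_ne ht ht1 _ _), ?_⟩
  rw [mon_M ht ht1 h, ← mul_assoc, ← map_mul]
  have e1 : ∀ w : Fin 6 → ℤ, (val t w 0)⁻¹ * ((t ^ 2 + t) ^ (w 1 + w 2 + w 4 + w 5) * t ^ w 3 *
      (-1) ^ w 5) = 1 := fun w => inv_mul_cancel₀ (val_ne ht ht1 w 0)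
  rw [e1, map_one, one_mul]
  congr 1
  · show a₀ = 0 - 2 * (a₃ + 2 * a₄ + a₁ + a₂ + e4) + (e4 + a₄)
    simp only [e4]; ring
  · show a₁ = -(e4 + a₄) + (e4 - a₂) - e4 + (a₁ + a₄ + a₂ + e4)
    ring
  · show a₂ = -(e4 - a₂) + e4
    ring
  · show a₃ = (a₃ + 2 * a₄ + a₁ + a₂ + e4) - (e4 + a₄) + e4 - (a₁ + a₄ + a₂ + e4)
    ring
  · show a₄ = (e4 + a₄) - e4
    ring

/-- **the unit equation for a point of order six**: `t` and `t + 1` multiplicatively independent,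
`t ≠ 1/3, -1/3, -1/5` -/
theorem unit_eq [CharZero k] (ht : t ≠ 0) (ht1 : t + 1 ≠ 0) (hk : Kd 0 t) (h : G6 t x y)
    {c c' : k} (hc : c ≠ 0) (hc' : c' ≠ 0) {a₀ a₁ a₂ a₃ a₄ b₀ b₁ b₂ b₃ b₄ : ℤ}
    (hu : algebraMap k F c * M t x y a₀ a₁ a₂ a₃ a₄ +
      algebraMap k F c' * M t x y b₀ b₁ b₂ b₃ b₄ = 1) :
    (∃ s : k, algebraMap k F c * M t x y a₀ a₁ a₂ a₃ a₄ = algebraMap k F s) ∨
      Sol t x y (algebraMap k F c * M t x y a₀ a₁ a₂ a₃ a₄) := by
  obtain ⟨e, d, hd, h1⟩ := M_mon ht ht1 h a₀ a₁ a₂ a₃ a₄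
  obtain ⟨e', d', hd', h2⟩ := M_mon ht ht1 h b₀ b₁ b₂ b₃ b₄
  rw [h1, h2, ← mul_assoc, ← mul_assoc, ← map_mul, ← map_mul] at hu
  rw [h1, ← mul_assoc, ← map_mul]
  exact master ht ht1 hk h (TT0 ht ht1 h) (mul_ne_zero hc hd) (mul_ne_zero hc' hd') hu

end Pool.Agent.N6
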