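import Pool.Agent.Lib_helper60.N6.K1

/-!
# The unit equation for a point of order six, XII: the three special curves
-/

set_option autoImplicit false
set_option linter.unusedSectionVars false
set_option linter.unusedSimpArgs false
set_option linter.unusedVariables false

namespace Pool.Agent.N6

open Pool.Agent.TN Pool.Agent.KC72

variable {k : Type*} [Field k] {F : Type*} [Field F] [Algebra k F] {t : k} {x y : F}

/-- the classes for `t = 1`: sign and exponents of `x`, `x - b`, `x - t`, `y`, `y - t x`, `2` in `f` and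
in `1 - f` -/
def cls1 : List (Mo × Mo) :=
  [((false, [1, 0, 0, 0, 0, -1]), (true, [0, 1, 0, 0, 0, -1])),
    ((false, [-2, 0, 0, 1, 0, 0]), (false, [-2, -1, 0, 1, 1, 0])),
    ((false, [1, -1, 0, -1, 1, 0]), (false, [0, -1, -1, -1, 2, 0])),
    ((false, [0, 1, -1, 0, 0, -1]), (false, [1, 0, -1, 0, 0, -1])),
    ((false, [0, -1, 1, 1, -1, 0]), (true, [0, 0, 1, 1, -2, 0])),
    ((true, [0, 1, 0, -1, 0, 0]), (false, [1, 1, 1, -1, -1, 0])),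
    ((false, [1, 0, 0, 0, 0, 0]), (true, [0, 0, 1, 0, 0, 0])),
    ((false, [-2, 0, 0, 1, 0, 1]), (false, [-2, 0, -1, 0, 2, 0])),
    ((false, [1, -1, 0, -1, 1, 1]), (true, [0, -2, -1, 0, 2, 0])),
    ((false, [0, 1, -1, 0, 0, 0]), (false, [0, 0, -1, 0, 0, 0])),
    ((false, [0, -1, 1, 1, -1, 1]), (true, [2, 0, 1, 0, -2, 0])),
    ((true, [0, 1, 0, -1, 0, 1]), (false, [0, 2, 1, 0, -2, 0])),
    ((false, [-1, 0, 0, 1, 0, 0]), (true, [-1, 0, 0, 0, 1, 0])),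
    ((false, [-1, -1, 0, 0, 1, 1]), (false, [-1, -1, -1, 0, 2, 0])),
    ((false, [1, 0, -1, -1, 1, 0]), (false, [0, -1, -1, 0, 1, 0])),
    ((false, [0, 0, 2, 0, 0, 0]), (true, [1, 1, 0, 0, 0, 0])),
    ((false, [-4, 0, -2, 0, 4, 0]), (false, [-4, -1, 0, 2, 1, 2])),
    ((false, [0, -4, -2, 0, 4, 0]), (false, [1, -2, -1, -2, 3, 2])),
    ((false, [0, 0, 0, 1, 0, -1]), (true, [2, 1, 0, -1, 0, -1])),
    ((false, [-3, -1, 0, 1, 1, 1]), (false, [-3, 0, 0, 2, 0, 0])),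
    ((false, [2, -1, -1, -2, 2, 0]), (false, [0, -2, 0, -1, 2, 1])),
    ((false, [0, 1, -1, 1, -1, -1]), (false, [1, 1, -2, -1, 1, -1])),
    ((true, [0, -1, 2, 1, -2, 1]), (false, [0, -1, 1, 2, -2, 0])),
    ((false, [1, 2, 0, -2, 0, 0]), (false, [0, 1, 1, -1, -1, 1])),
    ((false, [2, 0, -1, 0, 0, -2]), (true, [0, 2, -1, 0, 0, -2])),
    ((true, [-2, 0, 1, 2, -2, 0]), (false, [-2, -2, 1, 2, 0, 0])),
    ((false, [2, 0, 1, -2, 0, 0]), (true, [0, 0, -1, -2, 2, 0]))]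

set_option maxRecDepth 100000 in
lemma chk1 : Chk 1 cls1 := by
  decide +kernel

set_option maxRecDepth 100000 in
lemma cls1_eq : cls1 = ([0, 1, 2, 3, 4, 5] : List (Fin 6)).map (BC 1 (1, 0, 0, 0, 1) (0, 1, 0, 1, 0) 2 1) ++
    ([0, 1, 2, 3, 4, 5] : List (Fin 6)).map (BC 1 (1, 0, 0, 0, 1) (0, 0, 2, 0, 0) 3 1) ++
    ([0, 1, 2] : List (Fin 6)).map (BC 1 (-1, 1, 0, 0, 1) (-1, 0, 1, 1, 0) 3 2) ++
    ([0, 1, 2] : List (Fin 6)).map (BC 1 (0, 0, 4, 0, 0) (1, 1, 0, 1, 1) 1 3) ++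
    ([0, 1, 2, 3, 4, 5] : List (Fin 6)).map (BC 1 (0, 1, 0, 0, 2) (2, 0, 0, 1, 0) 1 2) ++
    ([0, 1, 2] : List (Fin 6)).map (BC 1 (2, 0, -2, 0, 2) (0, 2, -2, 2, 0) 2 1) := by
  decide +kernel

theorem sols1 [CharZero k] (hs : t = 1) (h : G6 t x y) : Sols (gl t x y) cls1 := by
  have ht : t ≠ 0 := by
    rintro rfl
    norm_num at hs
  have ht1 : t + 1 ≠ 0 := by
    intro h0
    have h1 : t = -1 := by linear_combination h0
    rw [h1] at hs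
    norm_num at hs
  have hk : Kd 1 t := ⟨fun h => absurd h (by decide), fun h => hs, fun h => absurd h (by decide), fun h => absurd h (by decide)⟩
  intro p hp
  rw [cls1_eq] at hp
  simp only [List.mem_append, List.mem_map] at hp
  rcases hp with ((((⟨i, -, rfl⟩ | ⟨i, -, rfl⟩) | ⟨i, -, rfl⟩) | ⟨i, -, rfl⟩) | ⟨i, -, rfl⟩) | ⟨i, -, rfl⟩
  · exact BC_sol (by decide) hk ht ht1 h (fun _ _ h => BI_A ht ht1 h) i
  · exact BC_sol (by decide) hk ht ht1 h (fun _ _ h => BI_B ht ht1 h) i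
  · exact BC_sol (by decide) hk ht ht1 h (fun _ _ h => BI_C ht ht1 h) i
  · exact BC_sol (by decide) hk ht ht1 h (fun _ _ h => BI_D1 ht ht1 hs h) i
  · exact BC_sol (by decide) hk ht ht1 h (fun _ _ h => BI_E1 ht ht1 hs h) i
  · exact BC_sol (by decide) hk ht ht1 h (fun _ _ h => BI_F1 ht ht1 hs h) i

/-- **the unit equation for `t = 1`** -/
theorem unit_eq1 [CharZero k] (hs : t = 1) (h : G6 t x y) {c c' : k} (hc : c ≠ 0) (hc' : c' ≠ 0)
    {a₀ a₁ a₂ a₃ a₄ b₀ b₁ b₂ b₃ b₄ : ℤ}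
    (hu : algebraMap k F c * M t x y a₀ a₁ a₂ a₃ a₄ +
      algebraMap k F c' * M t x y b₀ b₁ b₂ b₃ b₄ = 1) :
    (∃ s : k, algebraMap k F c * M t x y a₀ a₁ a₂ a₃ a₄ = algebraMap k F s) ∨
      Tc cls1 t x y (algebraMap k F c * M t x y a₀ a₁ a₂ a₃ a₄) := by
  have ht : t ≠ 0 := by
    rintro rfl
    norm_num at hs
  have ht1 : t + 1 ≠ 0 := by
    intro h0
    have h1 : t = -1 := by linear_combination h0
    rw [h1] at hs
    norm_num at hs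
  have hk : Kd 1 t := ⟨fun h => absurd h (by decide), fun h => hs, fun h => absurd h (by decide), fun h => absurd h (by decide)⟩
  exact unit_eqc (by decide) hk ht ht1 h (sols1 hs h) chk1 hc hc' hu

/-- the classes for `t = -2`: sign and exponents of `x`, `x - b`, `x - t`, `y`, `y - t x`, `2` in `f` and
in `1 - f` -/
def cls2 : List (Mo × Mo) :=
  [((false, [1, 0, 0, 0, 0, -1]), (true, [0, 1, 0, 0, 0, -1])),
    ((false, [-2, 0, 0, 1, 0, 0]), (false, [-2, -1, 0, 1, 1, 0])),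
    ((false, [1, -1, 0, -1, 1, 0]), (true, [0, -1, -1, -1, 2, 1])),
    ((true, [0, 1, -1, 0, 0, 0]), (false, [1, 0, -1, 0, 0, 1])),
    ((false, [0, -1, 1, 1, -1, 0]), (false, [0, 0, 1, 1, -2, 1])),
    ((true, [0, 1, 0, -1, 0, 0]), (false, [1, 1, 1, -1, -1, 0])),
    ((true, [1, 0, 0, 0, 0, -1]), (false, [0, 0, 1, 0, 0, -1])),
    ((true, [-2, 0, 0, 1, 0, 0]), (false, [-2, 0, -1, 0, 2, 0])),
    ((true, [1, -1, 0, -1, 1, 0]), (false, [0, -2, -1, 0, 2, 1])),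
    ((false, [0, 1, -1, 0, 0, 0]), (false, [0, 0, -1, 0, 0, 2])),
    ((true, [0, -1, 1, 1, -1, 0]), (false, [2, 0, 1, 0, -2, 1])),
    ((false, [0, 1, 0, -1, 0, 0]), (false, [0, 2, 1, 0, -2, 0])),
    ((true, [-1, 0, 0, 1, 0, -1]), (false, [-1, 0, 0, 0, 1, -1])),
    ((true, [-1, -1, 0, 0, 1, 0]), (false, [-1, -1, -1, 0, 2, 0])),
    ((false, [1, 0, -1, -1, 1, 0]), (true, [0, -1, -1, 0, 1, 1])),
    ((false, [2, 0, 0, 0, 0, -2]), (true, [0, 1, 1, 0, 0, -2])),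
    ((false, [-4, 0, 0, 2, 0, 0]), (false, [-4, -1, -1, 1, 3, 0])),
    ((false, [2, -2, 0, -2, 2, 0]), (true, [0, -3, -2, -1, 4, 2])),
    ((false, [0, 2, -2, 0, 0, 0]), (false, [1, 0, -2, 0, 0, 3])),
    ((false, [0, -2, 2, 2, -2, 0]), (false, [2, 0, 2, 1, -4, 2])),
    ((false, [0, 2, 0, -2, 0, 0]), (false, [1, 3, 2, -1, -3, 0]))]

set_option maxRecDepth 100000 in
lemma chk2 : Chk 2 cls2 := by
  decide +kernel

set_option maxRecDepth 100000 in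
lemma cls2_eq : cls2 = ([0, 1, 2, 3, 4, 5] : List (Fin 6)).map (BC 2 (1, 0, 0, 0, 1) (0, 1, 0, 1, 0) 2 1) ++
    ([0, 1, 2, 3, 4, 5] : List (Fin 6)).map (BC 2 (1, 0, 0, 0, 1) (0, 0, 2, 0, 0) 3 1) ++
    ([0, 1, 2] : List (Fin 6)).map (BC 2 (-1, 1, 0, 0, 1) (-1, 0, 1, 1, 0) 3 2) ++
    ([0, 1, 2, 3, 4, 5] : List (Fin 6)).map (BC 2 (2, 0, 0, 0, 2) (0, 1, 2, 1, 0) 2 1) := by
  decide +kernel

theorem sols2 [CharZero k] (hs : t = -2) (h : G6 t x y) : Sols (gl t x y) cls2 := by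
  have ht : t ≠ 0 := by
    rintro rfl
    norm_num at hs
  have ht1 : t + 1 ≠ 0 := by
    intro h0
    have h1 : t = -1 := by linear_combination h0
    rw [h1] at hs
    norm_num at hs
  have hk : Kd 2 t := ⟨fun h => absurd h (by decide), fun h => absurd h (by decide), fun h => hs, fun h => absurd h (by decide)⟩
  intro p hp
  rw [cls2_eq] at hp
  simp only [List.mem_append, List.mem_map] at hp
  rcases hp with ((⟨i, -, rfl⟩ | ⟨i, -, rfl⟩) | ⟨i, -, rfl⟩) | ⟨i, -, rfl⟩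
  · exact BC_sol (by decide) hk ht ht1 h (fun _ _ h => BI_A ht ht1 h) i
  · exact BC_sol (by decide) hk ht ht1 h (fun _ _ h => BI_B ht ht1 h) i
  · exact BC_sol (by decide) hk ht ht1 h (fun _ _ h => BI_C ht ht1 h) i
  · exact BC_sol (by decide) hk ht ht1 h (fun _ _ h => BI_D2 ht ht1 hs h) i

/-- **the unit equation for `t = -2`** -/
theorem unit_eq2 [CharZero k] (hs : t = -2) (h : G6 t x y) {c c' : k} (hc : c ≠ 0) (hc' : c' ≠ 0)
    {a₀ a₁ a₂ a₃ a₄ b₀ b₁ b₂ b₃ b₄ : ℤ}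
    (hu : algebraMap k F c * M t x y a₀ a₁ a₂ a₃ a₄ +
      algebraMap k F c' * M t x y b₀ b₁ b₂ b₃ b₄ = 1) :
    (∃ s : k, algebraMap k F c * M t x y a₀ a₁ a₂ a₃ a₄ = algebraMap k F s) ∨
      Tc cls2 t x y (algebraMap k F c * M t x y a₀ a₁ a₂ a₃ a₄) := by
  have ht : t ≠ 0 := by
    rintro rfl
    norm_num at hs
  have ht1 : t + 1 ≠ 0 := by
    intro h0
    have h1 : t = -1 := by linear_combination h0
    rw [h1] at hs
    norm_num at hs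
  have hk : Kd 2 t := ⟨fun h => absurd h (by decide), fun h => absurd h (by decide), fun h => hs, fun h => absurd h (by decide)⟩
  exact unit_eqc (by decide) hk ht ht1 h (sols2 hs h) chk2 hc hc' hu

/-- the classes for `t = -1/2`: sign and exponents of `x`, `x - b`, `x - t`, `y`, `y - t x`, `2` in `f` and
in `1 - f` -/
def cls3 : List (Mo × Mo) :=
  [((true, [1, 0, 0, 0, 0, 2]), (false, [0, 1, 0, 0, 0, 2])),
    ((false, [-2, 0, 0, 1, 0, 0]), (false, [-2, -1, 0, 1, 1, 0])),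
    ((false, [1, -1, 0, -1, 1, 0]), (true, [0, -1, -1, -1, 2, -1])),
    ((false, [0, 1, -1, 0, 0, 1]), (true, [1, 0, -1, 0, 0, 0])),
    ((false, [0, -1, 1, 1, -1, 0]), (false, [0, 0, 1, 1, -2, -1])),
    ((true, [0, 1, 0, -1, 0, 0]), (false, [1, 1, 1, -1, -1, 0])),
    ((true, [1, 0, 0, 0, 0, 1]), (false, [0, 0, 1, 0, 0, 1])),
    ((false, [-2, 0, 0, 1, 0, -1]), (false, [-2, 0, -1, 0, 2, 0])),
    ((false, [1, -1, 0, -1, 1, -1]), (false, [0, -2, -1, 0, 2, -1])),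
    ((false, [0, 1, -1, 0, 0, 0]), (false, [0, 0, -1, 0, 0, -2])),
    ((false, [0, -1, 1, 1, -1, -1]), (false, [2, 0, 1, 0, -2, -1])),
    ((true, [0, 1, 0, -1, 0, -1]), (false, [0, 2, 1, 0, -2, 0])),
    ((true, [-1, 0, 0, 1, 0, 1]), (false, [-1, 0, 0, 0, 1, 1])),
    ((false, [-1, -1, 0, 0, 1, -1]), (false, [-1, -1, -1, 0, 2, 0])),
    ((false, [1, 0, -1, -1, 1, 0]), (true, [0, -1, -1, 0, 1, -1])),
    ((true, [0, 0, 0, 0, 1, 3]), (false, [0, 2, 1, 1, -2, 3])),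
    ((false, [-3, -1, -1, 1, 2, 0]), (false, [-3, -1, 1, 1, 1, 0])),
    ((true, [1, -2, -1, -1, 2, -1]), (false, [0, -1, -2, -2, 4, 0])),
    ((false, [1, 1, -1, 0, -1, 0]), (false, [0, -1, -2, 1, 1, 0])),
    ((false, [1, 0, 2, 1, -3, 0]), (true, [0, -1, 1, 1, -2, -3])),
    ((false, [0, 2, 1, -1, -1, 1]), (true, [3, 2, 1, -2, -2, 0])),
    ((false, [0, 2, 0, 0, 0, 4]), (true, [1, 0, 1, 0, 0, 4])),
    ((false, [-4, -2, 0, 2, 2, 0]), (false, [-4, 0, -1, 1, 2, 1])),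
    ((false, [0, -2, -2, -2, 4, -2]), (false, [1, -3, -1, -1, 3, 0])),
    ((false, [2, 0, -2, 0, 0, 0]), (false, [0, 1, -2, 0, 0, 0])),
    ((false, [0, 0, 2, 2, -4, -2]), (false, [2, -1, 2, 1, -3, 0])),
    ((false, [2, 2, 2, -2, -2, 0]), (true, [0, 3, 1, -1, -2, 1])),
    ((false, [-2, 0, 1, 1, 0, 1]), (true, [-2, -1, -1, 1, 2, 1])),
    ((false, [-1, -1, -1, -1, 3, 0]), (true, [-1, -2, -1, 0, 2, -2])),
    ((false, [-1, 1, 1, 1, -1, 2]), (true, [-1, 0, -1, 0, 2, 2])),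
    ((false, [-2, -1, 0, 0, 2, 0]), (false, [-2, -2, -1, 1, 2, -1]))]

set_option maxRecDepth 100000 in
lemma chk3 : Chk 3 cls3 := by
  decide +kernel

set_option maxRecDepth 100000 in
lemma cls3_eq : cls3 = ([0, 1, 2, 3, 4, 5] : List (Fin 6)).map (BC 3 (1, 0, 0, 0, 1) (0, 1, 0, 1, 0) 2 1) ++
    ([0, 1, 2, 3, 4, 5] : List (Fin 6)).map (BC 3 (1, 0, 0, 0, 1) (0, 0, 2, 0, 0) 3 1) ++
    ([0, 1, 2] : List (Fin 6)).map (BC 3 (-1, 1, 0, 0, 1) (-1, 0, 1, 1, 0) 3 2) ++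
    ([0, 1, 2, 3, 4, 5] : List (Fin 6)).map (BC 3 (0, 0, 1, 1, 1) (0, 3, 0, 0, 0) 2 3) ++
    ([0, 1, 2, 3, 4, 5] : List (Fin 6)).map (BC 3 (0, 2, 0, 2, 0) (1, 0, 2, 0, 1) 1 2) ++
    ([0, 1] : List (Fin 6)).map (BC 3 (-2, 1, 2, 0, 0) (-2, 0, 0, 1, 2) 4 2) ++
    ([0, 1] : List (Fin 6)).map (BC 3 (-1, 2, 1, 0, 0) (-1, 0, 0, 2, 1) 4 2) := by
  decide +kernel

theorem sols3 [CharZero k] (hs : 2 * t = -1) (h : G6 t x y) : Sols (gl t x y) cls3 := by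
  have ht : t ≠ 0 := by
    rintro rfl
    norm_num at hs
  have ht1 : t + 1 ≠ 0 := by
    intro h0
    have h1 : t = -1 := by linear_combination h0
    rw [h1] at hs
    norm_num at hs
  have hk : Kd 3 t := ⟨fun h => absurd h (by decide), fun h => absurd h (by decide), fun h => absurd h (by decide), fun h => hs⟩
  intro p hp
  rw [cls3_eq] at hp
  simp only [List.mem_append, List.mem_map] at hp
  rcases hp with (((((⟨i, -, rfl⟩ | ⟨i, -, rfl⟩) | ⟨i, -, rfl⟩) | ⟨i, -, rfl⟩) | ⟨i, -, rfl⟩) | ⟨i, -, rfl⟩) | ⟨i, -, rfl⟩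
  · exact BC_sol (by decide) hk ht ht1 h (fun _ _ h => BI_A ht ht1 h) i
  · exact BC_sol (by decide) hk ht ht1 h (fun _ _ h => BI_B ht ht1 h) i
  · exact BC_sol (by decide) hk ht ht1 h (fun _ _ h => BI_C ht ht1 h) i
  · exact BC_sol (by decide) hk ht ht1 h (fun _ _ h => BI_D3 ht ht1 hs h) i
  · exact BC_sol (by decide) hk ht ht1 h (fun _ _ h => BI_E3 ht ht1 hs h) i
  · exact BC_sol (by decide) hk ht ht1 h (fun _ _ h => BI_F3 ht ht1 hs h) i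
  · exact BC_sol (by decide) hk ht ht1 h (fun _ _ h => BI_G3 ht ht1 hs h) i

/-- **the unit equation for `t = -1/2`** -/
theorem unit_eq3 [CharZero k] (hs : 2 * t = -1) (h : G6 t x y) {c c' : k} (hc : c ≠ 0) (hc' : c' ≠ 0)
    {a₀ a₁ a₂ a₃ a₄ b₀ b₁ b₂ b₃ b₄ : ℤ}
    (hu : algebraMap k F c * M t x y a₀ a₁ a₂ a₃ a₄ +
      algebraMap k F c' * M t x y b₀ b₁ b₂ b₃ b₄ = 1) :
    (∃ s : k, algebraMap k F c * M t x y a₀ a₁ a₂ a₃ a₄ = algebraMap k F s) ∨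
      Tc cls3 t x y (algebraMap k F c * M t x y a₀ a₁ a₂ a₃ a₄) := by
  have ht : t ≠ 0 := by
    rintro rfl
    norm_num at hs
  have ht1 : t + 1 ≠ 0 := by
    intro h0
    have h1 : t = -1 := by linear_combination h0
    rw [h1] at hs
    norm_num at hs
  have hk : Kd 3 t := ⟨fun h => absurd h (by decide), fun h => absurd h (by decide), fun h => absurd h (by decide), fun h => hs⟩
  exact unit_eqc (by decide) hk ht ht1 h (sols3 hs h) chk3 hc hc' hu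

end Pool.Agent.N6
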