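import Pool.Agent.Lib_helper60.N6.I
import Pool.Agent.Lib_helper24.TN.N4K

/-!
# Point of order six: the symbols of the solutions of the unit equation
-/

set_option autoImplicit false
set_option linter.unusedSectionVars false
set_option linter.unusedVariables false

open scoped TensorProduct

namespace Pool.Agent.N6

open MK4 Pool.Agent.TN

/-! ### five-term relations -/

section Five

variable {F : Type*} [Field F]

lemma five_term [CharZero F] {x y : F} (hx0 : x ≠ 0) (hx1 : x ≠ 1) (hy0 : y ≠ 0) (hy1 : y ≠ 1)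
    (hxy : x ≠ y) : sy x - sy y + sy (y / x) - sy ((1 - x⁻¹) / (1 - y⁻¹)) +
      sy ((1 - x) / (1 - y)) = 0 := by
  have := Submodule.subset_span (R := ℚ) (s := rel2 F)
    (Or.inr (Or.inr ⟨x, y, hx0, hx1, hy0, hy1, hxy, rfl⟩))
  exact (Submodule.Quotient.mk_eq_zero _).mpr this

lemma sy_u [CharZero F] {u : F} (hu : u ≠ 1) : sy (u / (u - 1)) = - sy u := by
  have hu1 : u - 1 ≠ 0 := sub_ne_zero.mpr hu
  have hu2 : 1 - u ≠ 0 := sub_ne_zero.mpr (Ne.symm hu)
  have e : u / (u - 1) = 1 - (1 - u)⁻¹ := by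
    field_simp
    ring
  rw [e, sycompl, syinv, sycompl, neg_neg]

lemma sy_v [CharZero F] (u : F) : sy (1 - u)⁻¹ = sy u := by
  rw [syinv, sycompl, neg_neg]

lemma aux2 {u : F} (hu : u ≠ 1) : 1 - u / (u - 1) = 1 / (1 - u) := by
  have hu1 : u - 1 ≠ 0 := sub_ne_zero.mpr hu
  have hu2 : 1 - u ≠ 0 := sub_ne_zero.mpr (Ne.symm hu)
  field_simp
  ring

lemma five_R2 [CharZero F] {B T a b c d e f : F} (hB : B ≠ 0) (hT : T ≠ 0) (ha : a ≠ 0)
    (hb : b ≠ 0) (hc : c ≠ 0) (hd : d ≠ 0) (he : e ≠ 0) (hf : f ≠ 0)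
    (hp : a * b * c * d * e * f = -(B ^ 4 * T)) (h1 : 1 - a / B = f * a ^ 2 * b / B ^ 3)
    (h2 : 1 - b / T = a * b ^ 2 * c / (B ^ 2 * e)) (h3 : 1 - b * c / (B * T) = -(b * c) / (e * f))
    (h4 : 1 - c / B = b * c ^ 2 * d / B ^ 3) :
    sy (a / B) + sy (c / B) + sy (b / T) = sy (a * b / (B * T)) + sy (b * c / (B * T)) := by
  have n1 : 1 - a / B ≠ 0 := by
    rw [h1]; exact div_ne_zero (mul_ne_zero (mul_ne_zero hf (pow_ne_zero 2 ha)) hb)
      (pow_ne_zero 3 hB)
  have n2 : 1 - b / T ≠ 0 := by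
    rw [h2]; exact div_ne_zero (mul_ne_zero (mul_ne_zero ha (pow_ne_zero 2 hb)) hc)
      (mul_ne_zero (pow_ne_zero 2 hB) he)
  have n1' : a / B ≠ 1 := fun h => n1 (by rw [h, sub_self])
  have n1'' : a / B - 1 ≠ 0 := sub_ne_zero.mpr n1'
  have n2' : b / T ≠ 1 := fun h => n2 (by rw [h, sub_self])
  have aB : a / B ≠ 0 := div_ne_zero ha hB
  have bT : b / T ≠ 0 := div_ne_zero hb hT
  have e1 : a / B / (a / B - 1) / (1 - b / T)⁻¹ = 1 - b * c / (B * T) := by
    rw [show a / B - 1 = -(1 - a / B) by ring, h1, h2, h3]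
    field_simp
  have e2 : (1 - ((1 - b / T)⁻¹)⁻¹) / (1 - (a / B / (a / B - 1))⁻¹) = a * b / (B * T) := by
    rw [inv_inv, inv_div]
    have : 1 - (a / B - 1) / (a / B) = (a / B)⁻¹ := by field_simp; ring
    rw [this]
    field_simp
    ring
  have e3 : (1 - (1 - b / T)⁻¹) / (1 - a / B / (a / B - 1)) = (1 - c / B)⁻¹ := by
    have s1 : 1 - (1 - b / T)⁻¹ = -(b / T) / (1 - b / T) := by
      rw [eq_div_iff n2, sub_mul, inv_mul_cancel₀ n2]; ring
    rw [s1, aux2 n1', h1, h2, h4]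
    field_simp
    linear_combination (-1) * hp
  have key := five_term (x := (1 - b / T)⁻¹) (y := a / B / (a / B - 1)) (inv_ne_zero n2) (by
      intro h
      have h' : 1 - b / T = 1 := by rw [← inv_inv (1 - b / T), h, inv_one]
      exact bT (by linear_combination -h')) (div_ne_zero aB n1'') (by
      intro h
      rw [div_eq_one_iff_eq n1''] at h
      exact one_ne_zero (by linear_combination h)) (by
      intro h
      have h' : a / B / (a / B - 1) / (1 - b / T)⁻¹ = 1 := by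
        rw [← h]; exact div_self (inv_ne_zero n2)
      rw [e1] at h'
      have : b * c / (B * T) = 0 := by linear_combination -h'
      exact (div_ne_zero (mul_ne_zero hb hc) (mul_ne_zero hB hT)) this)
  rw [e1, e2, e3, sy_v, sy_v, sy_u n1', sycompl] at key
  linear_combination (norm := module) key

lemma five_R1 [CharZero F] {B T a b c d e f : F} (hB : B ≠ 0) (hT : T ≠ 0) (hT1 : T + 1 ≠ 0)
    (ha : a ≠ 0) (hb : b ≠ 0) (hc : c ≠ 0) (hd : d ≠ 0) (he : e ≠ 0) (hf : f ≠ 0)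
    (hp : a * b * c * d * e * f = -(B ^ 4 * T)) (h1 : 1 - a / T = f * a ^ 2 * b / (B ^ 2 * d))
    (h2 : 1 - d / T = c * d ^ 2 * e / (B ^ 2 * a)) (h3 : 1 - a / B = f * a ^ 2 * b / B ^ 3)
    (h4 : 1 - d / B = c * d ^ 2 * e / B ^ 3) :
    sy (a / T) + sy (d / T) + sy (-T) = sy (a / B) + sy (d / B) := by
  have n1 : 1 - a / T ≠ 0 := by
    rw [h1]; exact div_ne_zero (mul_ne_zero (mul_ne_zero hf (pow_ne_zero 2 ha)) hb)
      (mul_ne_zero (pow_ne_zero 2 hB) hd)
  have n2 : 1 - d / T ≠ 0 := by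
    rw [h2]; exact div_ne_zero (mul_ne_zero (mul_ne_zero hc (pow_ne_zero 2 hd)) he)
      (mul_ne_zero (pow_ne_zero 2 hB) ha)
  have n3 : 1 - a / B ≠ 0 := by
    rw [h3]; exact div_ne_zero (mul_ne_zero (mul_ne_zero hf (pow_ne_zero 2 ha)) hb)
      (pow_ne_zero 3 hB)
  have n4 : 1 - d / B ≠ 0 := by
    rw [h4]; exact div_ne_zero (mul_ne_zero (mul_ne_zero hc (pow_ne_zero 2 hd)) he)
      (pow_ne_zero 3 hB)
  have aB : a / B ≠ 0 := div_ne_zero ha hB
  have dB : d / B ≠ 0 := div_ne_zero hd hB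
  have aT : a / T ≠ 0 := div_ne_zero ha hT
  have dT : d / T ≠ 0 := div_ne_zero hd hT
  have n3' : a / B ≠ 1 := fun h => n3 (by rw [h, sub_self])
  have n4' : d / B ≠ 1 := fun h => n4 (by rw [h, sub_self])
  have e1 : (1 - a / T) / (1 - d / T)⁻¹ = -T := by
    rw [h1, h2]
    field_simp
    linear_combination hp
  have e2 : (1 - ((1 - d / T)⁻¹)⁻¹) / (1 - (1 - a / T)⁻¹) = 1 - (a / B)⁻¹ := by
    have s1 : 1 - (1 - a / T)⁻¹ = -(a / T) / (1 - a / T) := by
      rw [eq_div_iff n1, sub_mul, inv_mul_cancel₀ n1]; ring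
    have s2 : 1 - (a / B)⁻¹ = -(1 - a / B) / (a / B) := by
      field_simp
      ring
    rw [inv_inv, s1, s2, h1, h3, sub_sub_cancel]
    field_simp
  have e3 : (1 - (1 - d / T)⁻¹) / (1 - (1 - a / T)) = d / B / (d / B - 1) := by
    have s1 : 1 - (1 - d / T)⁻¹ = -(d / T) / (1 - d / T) := by
      rw [eq_div_iff n2, sub_mul, inv_mul_cancel₀ n2]; ring
    rw [s1, sub_sub_cancel, show d / B - 1 = -(1 - d / B) by ring, h2, h4]
    field_simp
  have key := five_term (x := (1 - d / T)⁻¹) (y := 1 - a / T) (inv_ne_zero n2) (by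
      intro h
      have h' : 1 - d / T = 1 := by rw [← inv_inv (1 - d / T), h, inv_one]
      exact dT (by linear_combination -h')) n1 (by
      intro h
      exact aT (by linear_combination -h)) (by
      intro h
      have h' : (1 - a / T) / (1 - d / T)⁻¹ = 1 := by
        rw [← h]; exact div_self (inv_ne_zero n2)
      rw [e1] at h'
      exact hT1 (by linear_combination -h'))
  rw [e1, e2, e3, sy_v, sycompl, sy_u n4', sycompl, syinv] at key
  linear_combination (norm := module) key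

end Five

/-! ### the relations between the solutions -/

section Rel

variable {k : Type*} [Field k] {F : Type*} [Field F] [Algebra k F] {t : k} {x y : F}

lemma rotP [CharZero k] (ht : t ≠ 0) (ht1 : t + 1 ≠ 0) (h : G6 t x y) (i : Fin 6) :
    ∃ x' y' : F, G6 t x' y' ∧ ∀ j, X t x' y' j = X t x y (j + i) := by
  obtain ⟨x', y', -, hR⟩ := rot ht ht1 h i.val
  obtain ⟨h', hX⟩ := hR inferInstance
  have hi : Fin.ofNat 6 i.val = i := by
    apply Fin.ext
    simp only [Fin.ofNat]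
    exact Nat.mod_eq_of_lt i.isLt
  rw [hi] at hX
  exact ⟨x', y', h', hX⟩

/-- the product of the six units -/
lemma prodX (ht : t ≠ 0) (ht1 : t + 1 ≠ 0) (h : G6 t x y) :
    X t x y 0 * X t x y 1 * X t x y 2 * X t x y 3 * X t x y 4 * X t x y 5 =
      -(algebraMap k F (t ^ 2 + t) ^ 4 * algebraMap k F t) := by
  have := X_prod ht ht1 h
  rw [Fin.prod_univ_six, map_neg, map_mul, map_pow] at this
  exact this

lemma one0 (ht : t ≠ 0) (ht1 : t + 1 ≠ 0) (h : G6 t x y) :
    (1 - cA t x y 0 = X t x y 5 * X t x y 0 ^ 2 * X t x y 1 / algebraMap k F (t ^ 2 + t) ^ 3) ∧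
    (1 - cB t x y 0 = X t x y 5 * X t x y 0 ^ 2 * X t x y 1 /
      (algebraMap k F (t ^ 2 + t) ^ 2 * X t x y 3)) ∧
    (1 - cC t x y 0 = -(X t x y 0 * X t x y 1) / (X t x y 3 * X t x y 4)) := by
  have hT : algebraMap k F t ≠ 0 := (_root_.map_ne_zero _).mpr ht
  have hB : algebraMap k F (t ^ 2 + t) ≠ 0 := (_root_.map_ne_zero _).mpr (b_ne ht ht1)
  have h1 := h.x_ne
  have h2 := h.xc_ne (t ^ 2 + t)
  have h3 := h.xc_ne t
  have h4 := h.y_ne
  have h5 := w_ne h
  refine ⟨?_, ?_, ?_⟩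
  · show 1 - x / algebraMap k F (t ^ 2 + t) = -(algebraMap k F (t ^ 2 + t) *
      (x - algebraMap k F (t ^ 2 + t))) / y * x ^ 2 * (algebraMap k F (t ^ 2 + t) * y / x ^ 2) /
        algebraMap k F (t ^ 2 + t) ^ 3
    generalize algebraMap k F (t ^ 2 + t) = B at *
    field_simp
    ring
  · show 1 - x / algebraMap k F t = -(algebraMap k F (t ^ 2 + t) *
      (x - algebraMap k F (t ^ 2 + t))) / y * x ^ 2 * (algebraMap k F (t ^ 2 + t) * y / x ^ 2) /
        (algebraMap k F (t ^ 2 + t) ^ 2 * (algebraMap k F t * (x - algebraMap k F (t ^ 2 + t)) /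
          (x - algebraMap k F t)))
    generalize algebraMap k F (t ^ 2 + t) = B at *
    generalize algebraMap k F t = T at *
    field_simp
    ring
  · show 1 - x * (algebraMap k F (t ^ 2 + t) * y / x ^ 2) /
      (algebraMap k F (t ^ 2 + t) * algebraMap k F t) =
      -(x * (algebraMap k F (t ^ 2 + t) * y / x ^ 2)) /
      ((algebraMap k F t * (x - algebraMap k F (t ^ 2 + t)) / (x - algebraMap k F t)) *
      (algebraMap k F (t ^ 2 + t) * y * (x - algebraMap k F t) /
        ((x - algebraMap k F (t ^ 2 + t)) * (y - algebraMap k F t * x))))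
    generalize algebraMap k F (t ^ 2 + t) = B at *
    generalize algebraMap k F t = T at *
    generalize hw : y - T * x = w at *
    field_simp
    linear_combination -hw

/-- the complements -/
lemma one [CharZero k] (ht : t ≠ 0) (ht1 : t + 1 ≠ 0) (h : G6 t x y) (i : Fin 6) :
    (1 - cA t x y i = X t x y (i + 5) * X t x y i ^ 2 * X t x y (i + 1) /
      algebraMap k F (t ^ 2 + t) ^ 3) ∧
    (1 - cB t x y i = X t x y (i + 5) * X t x y i ^ 2 * X t x y (i + 1) /
      (algebraMap k F (t ^ 2 + t) ^ 2 * X t x y (i + 3))) ∧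
    (1 - cC t x y i = -(X t x y i * X t x y (i + 1)) / (X t x y (i + 3) * X t x y (i + 4))) := by
  obtain ⟨x', y', h', hX⟩ := rotP ht ht1 h i
  obtain ⟨a, b, c⟩ := cABC_rot hX 0
  have key := one0 ht ht1 h'
  rw [a, b, c, hX 0, hX 1, hX 3, hX 4, hX 5, zero_add, add_comm 1 i, add_comm 3 i, add_comm 4 i,
    add_comm 5 i] at key
  exact key

/-- the classes of the solutions in `B₂` -/
noncomputable def SA (t : k) (x y : F) (i : Fin 6) : B2 F := sy (cA t x y i)

/-- the classes of the solutions in `B₂` -/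
noncomputable def SB (t : k) (x y : F) (i : Fin 6) : B2 F := sy (cB t x y i)

/-- the classes of the solutions in `B₂` -/
noncomputable def SC (t : k) (x y : F) (i : Fin 6) : B2 F := sy (cC t x y i)

lemma SC_three [CharZero k] (ht : t ≠ 0) (ht1 : t + 1 ≠ 0) (h : G6 t x y) (i : Fin 6) :
    SC t x y (i + 3) = - SC t x y i := by
  have : CharZero F := charZero_of_injective_algebraMap (algebraMap k F).injective
  have hT : algebraMap k F t ≠ 0 := (_root_.map_ne_zero _).mpr ht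
  have hB : algebraMap k F (t ^ 2 + t) ≠ 0 := (_root_.map_ne_zero _).mpr (b_ne ht ht1)
  have n := X_ne ht ht1 h
  have n1 := (c_ne1 ht ht1 h i).2.2
  have n2 := cC_ne ht ht1 h i
  unfold SC
  rw [← sy_u n1]
  congr 1
  have o := (one ht ht1 h i).2.2
  rw [show cC t x y i - 1 = -(1 - cC t x y i) by ring, o]
  unfold cC
  have e1 : ∀ i : Fin 6, i + 3 + 1 = i + 4 := by decide
  rw [e1]
  have a0 := n i
  have a1 := n (i + 1)
  have a3 := n (i + 3)
  have a4 := n (i + 4)
  field_simp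

/-- the six five-term relations -/
lemma R2 [CharZero k] (ht : t ≠ 0) (ht1 : t + 1 ≠ 0) (h : G6 t x y) (i : Fin 6) :
    SA t x y i + SA t x y (i + 2) + SB t x y (i + 1) = SC t x y i + SC t x y (i + 1) := by
  have : CharZero F := charZero_of_injective_algebraMap (algebraMap k F).injective
  obtain ⟨x', y', h', hX⟩ := rotP ht ht1 h i
  have hT : algebraMap k F t ≠ 0 := (_root_.map_ne_zero _).mpr ht
  have hB : algebraMap k F (t ^ 2 + t) ≠ 0 := (_root_.map_ne_zero _).mpr (b_ne ht ht1)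
  have n := X_ne ht ht1 h'
  have o := fun j => one ht ht1 h' j
  have key := five_R2 hB hT (n 0) (n 1) (n 2) (n 3) (n 4) (n 5) (prodX ht ht1 h') (o 0).1
    (o 1).2.1 (o 1).2.2 (o 2).1
  have f : SA t x' y' 0 + SA t x' y' 2 + SB t x' y' 1 = SC t x' y' 0 + SC t x' y' 1 := key
  unfold SA SB SC at f ⊢
  rw [(cABC_rot hX 0).1, (cABC_rot hX 2).1, (cABC_rot hX 1).2.1, (cABC_rot hX 0).2.2,
    (cABC_rot hX 1).2.2, zero_add, add_comm 1 i, add_comm 2 i] at f
  exact f

/-- the relation of a pencil -/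
lemma R1 [CharZero k] (ht : t ≠ 0) (ht1 : t + 1 ≠ 0) (h : G6 t x y) :
    SB t x y 0 + SB t x y 3 + sy (-(algebraMap k F t)) = SA t x y 0 + SA t x y 3 := by
  have : CharZero F := charZero_of_injective_algebraMap (algebraMap k F).injective
  have hT : algebraMap k F t ≠ 0 := (_root_.map_ne_zero _).mpr ht
  have hT1 : algebraMap k F t + 1 ≠ 0 := by
    rw [← map_one (algebraMap k F), ← map_add]; exact (_root_.map_ne_zero _).mpr ht1
  have hB : algebraMap k F (t ^ 2 + t) ≠ 0 := (_root_.map_ne_zero _).mpr (b_ne ht ht1)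
  have n := X_ne ht ht1 h
  have o := fun j => one ht ht1 h j
  exact five_R1 hB hT hT1 (n 0) (n 1) (n 2) (n 3) (n 4) (n 5) (prodX ht ht1 h) (o 0).2.1
    (o 3).2.1 (o 0).1 (o 3).1

/-- the sum of the classes `A` -/
lemma sumA [CharZero k] (ht : t ≠ 0) (ht1 : t + 1 ≠ 0) (h : G6 t x y) :
    SA t x y 0 + SA t x y 1 + SA t x y 2 + SA t x y 3 + SA t x y 4 + SA t x y 5 =
      sy (-(algebraMap k F t)) := by
  have r1 := R1 ht ht1 h
  have r2 : SA t x y 5 + SA t x y 1 + SB t x y 0 = SC t x y 5 + SC t x y 0 := R2 ht ht1 h 5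
  have r3 : SA t x y 2 + SA t x y 4 + SB t x y 3 = SC t x y 2 + SC t x y 3 := R2 ht ht1 h 2
  have c0 : SC t x y 3 = - SC t x y 0 := SC_three ht ht1 h 0
  have c2 : SC t x y 5 = - SC t x y 2 := SC_three ht ht1 h 2
  rw [c2] at r2
  rw [c0] at r3
  linear_combination (norm := module) r2 + r3 - r1

end Rel

end Pool.Agent.N6
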