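import Pool.Agent.Lib_helper60.N6.KD

/-!
# Point of order six: the closed elements, `t` and `t + 1` independent
-/

set_option autoImplicit false
set_option linter.unusedSectionVars false
set_option linter.unusedVariables false
set_option linter.unusedSimpArgs false

open scoped TensorProduct

namespace Pool.Agent.N6

open MK4 Pool.Agent.TN

variable {k : Type*} [Field k] {F : Type*} [Field F] [Algebra k F] {t : k} {x y : F}

/-- the brackets of the relations -/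
lemma brk_A5 [CharZero k] (ht : t ≠ 0) (ht1 : t + 1 ≠ 0) (h : G6 t x y) {v : FT F}
    (hv : hk (SA t x y 5) v = 0) :
    ((-1) : ℚ) • hk (SA t x y 0) v + ((-1) : ℚ) • hk (SA t x y 1) v + ((-1) : ℚ) • hk (SA t x y 2) v + ((-1) : ℚ) • hk (SA t x y 3) v + ((-1) : ℚ) • hk (SA t x y 4) v ∈ KC k F := by
  have s := sumA ht ht1 h
  have e : SA t x y 0 + SA t x y 1 + SA t x y 2 + SA t x y 3 + SA t x y 4 =
      sy (algebraMap k F (-t)) + (-1 : ℚ) • SA t x y 5 := by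
    rw [map_neg]; linear_combination (norm := module) s
  have e2 := congrArg (fun z => hk z v) e
  simp only [hk_add_left, hk_smul_left, hv, smul_zero, add_zero] at e2
  have e3 : ((-1) : ℚ) • hk (SA t x y 0) v + ((-1) : ℚ) • hk (SA t x y 1) v + ((-1) : ℚ) • hk (SA t x y 2) v + ((-1) : ℚ) • hk (SA t x y 3) v + ((-1) : ℚ) • hk (SA t x y 4) v = (-1 : ℚ) • hk (sy (algebraMap k F (-t))) v := by
    linear_combination (norm := module) (-1 : ℚ) • e2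
  rw [e3]
  exact Submodule.smul_mem _ _ (Submodule.subset_span ⟨-t, v, rfl⟩)

/-- the brackets of the relations -/
lemma brk_B0 [CharZero k] (ht : t ≠ 0) (ht1 : t + 1 ≠ 0) (h : G6 t x y) {v : FT F}
    (hv : hk (SB t x y 0) v = 0) :
    (1 : ℚ) • hk (SA t x y 0) v + (1 : ℚ) • hk (SA t x y 2) v + (1 : ℚ) • hk (SA t x y 3) v + (1 : ℚ) • hk (SA t x y 4) v + (1 : ℚ) • hk (SC t x y 0) v + ((-1) : ℚ) • hk (SC t x y 2) v ∈ KC k F := by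
  have r : SA t x y 5 + SA t x y 1 + SB t x y 0 = SC t x y 5 + SC t x y 0 := R2 ht ht1 h 5
  have c5 : SC t x y 5 = - SC t x y 2 := SC_three ht ht1 h 2
  rw [c5] at r
  have s := sumA ht ht1 h
  have e : (1 : ℚ) • SA t x y 0 + (1 : ℚ) • SA t x y 2 + (1 : ℚ) • SA t x y 3 + (1 : ℚ) • SA t x y 4 + (1 : ℚ) • SC t x y 0 + ((-1) : ℚ) • SC t x y 2 = (1 : ℚ) • sy (algebraMap k F (-t)) + SB t x y 0 := by
    rw [map_neg]; linear_combination (norm := module) s - r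
  have e2 := congrArg (fun z => hk z v) e
  simp only [hk_add_left, hk_smul_left, hv, smul_zero, add_zero] at e2
  rw [e2]
  exact Submodule.smul_mem _ _ (Submodule.subset_span ⟨-t, v, rfl⟩)

/-- the brackets of the relations -/
lemma brk_B1 [CharZero k] (ht : t ≠ 0) (ht1 : t + 1 ≠ 0) (h : G6 t x y) {v : FT F}
    (hv : hk (SB t x y 1) v = 0) :
    ((-1) : ℚ) • hk (SA t x y 0) v + ((-1) : ℚ) • hk (SA t x y 2) v + (1 : ℚ) • hk (SC t x y 0) v + (1 : ℚ) • hk (SC t x y 1) v ∈ KC k F := by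
  have r : SA t x y 0 + SA t x y 2 + SB t x y 1 = SC t x y 0 + SC t x y 1 := R2 ht ht1 h 0
  have e : ((-1) : ℚ) • SA t x y 0 + ((-1) : ℚ) • SA t x y 2 + (1 : ℚ) • SC t x y 0 + (1 : ℚ) • SC t x y 1 = SB t x y 1 := by
    linear_combination (norm := module) (-1 : ℚ) • r
  have e2 := congrArg (fun z => hk z v) e
  simp only [hk_add_left, hk_smul_left, hv, smul_zero, add_zero] at e2
  rw [e2]
  exact Submodule.zero_mem _

/-- the brackets of the relations -/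
lemma brk_B2 [CharZero k] (ht : t ≠ 0) (ht1 : t + 1 ≠ 0) (h : G6 t x y) {v : FT F}
    (hv : hk (SB t x y 2) v = 0) :
    ((-1) : ℚ) • hk (SA t x y 1) v + ((-1) : ℚ) • hk (SA t x y 3) v + (1 : ℚ) • hk (SC t x y 1) v + (1 : ℚ) • hk (SC t x y 2) v ∈ KC k F := by
  have r : SA t x y 1 + SA t x y 3 + SB t x y 2 = SC t x y 1 + SC t x y 2 := R2 ht ht1 h 1
  have e : ((-1) : ℚ) • SA t x y 1 + ((-1) : ℚ) • SA t x y 3 + (1 : ℚ) • SC t x y 1 + (1 : ℚ) • SC t x y 2 = SB t x y 2 := by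
    linear_combination (norm := module) (-1 : ℚ) • r
  have e2 := congrArg (fun z => hk z v) e
  simp only [hk_add_left, hk_smul_left, hv, smul_zero, add_zero] at e2
  rw [e2]
  exact Submodule.zero_mem _

/-- the brackets of the relations -/
lemma brk_B3 [CharZero k] (ht : t ≠ 0) (ht1 : t + 1 ≠ 0) (h : G6 t x y) {v : FT F}
    (hv : hk (SB t x y 3) v = 0) :
    ((-1) : ℚ) • hk (SA t x y 2) v + ((-1) : ℚ) • hk (SA t x y 4) v + ((-1) : ℚ) • hk (SC t x y 0) v + (1 : ℚ) • hk (SC t x y 2) v ∈ KC k F := by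
  have r : SA t x y 2 + SA t x y 4 + SB t x y 3 = SC t x y 2 + SC t x y 3 := R2 ht ht1 h 2
  have c3 : SC t x y 3 = - SC t x y 0 := SC_three ht ht1 h 0
  rw [c3] at r
  have e : ((-1) : ℚ) • SA t x y 2 + ((-1) : ℚ) • SA t x y 4 + ((-1) : ℚ) • SC t x y 0 + (1 : ℚ) • SC t x y 2 = SB t x y 3 := by
    linear_combination (norm := module) (-1 : ℚ) • r
  have e2 := congrArg (fun z => hk z v) e
  simp only [hk_add_left, hk_smul_left, hv, smul_zero, add_zero] at e2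
  rw [e2]
  exact Submodule.zero_mem _

/-- the brackets of the relations -/
lemma brk_B4 [CharZero k] (ht : t ≠ 0) (ht1 : t + 1 ≠ 0) (h : G6 t x y) {v : FT F}
    (hv : hk (SB t x y 4) v = 0) :
    (1 : ℚ) • hk (SA t x y 0) v + (1 : ℚ) • hk (SA t x y 1) v + (1 : ℚ) • hk (SA t x y 2) v + (1 : ℚ) • hk (SA t x y 4) v + ((-1) : ℚ) • hk (SC t x y 0) v + ((-1) : ℚ) • hk (SC t x y 1) v ∈ KC k F := by
  have r : SA t x y 3 + SA t x y 5 + SB t x y 4 = SC t x y 3 + SC t x y 4 := R2 ht ht1 h 3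
  have c3 : SC t x y 3 = - SC t x y 0 := SC_three ht ht1 h 0
  have c4 : SC t x y 4 = - SC t x y 1 := SC_three ht ht1 h 1
  rw [c3, c4] at r
  have s := sumA ht ht1 h
  have e : (1 : ℚ) • SA t x y 0 + (1 : ℚ) • SA t x y 1 + (1 : ℚ) • SA t x y 2 + (1 : ℚ) • SA t x y 4 + ((-1) : ℚ) • SC t x y 0 + ((-1) : ℚ) • SC t x y 1 = (1 : ℚ) • sy (algebraMap k F (-t)) + SB t x y 4 := by
    rw [map_neg]; linear_combination (norm := module) s - r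
  have e2 := congrArg (fun z => hk z v) e
  simp only [hk_add_left, hk_smul_left, hv, smul_zero, add_zero] at e2
  rw [e2]
  exact Submodule.smul_mem _ _ (Submodule.subset_span ⟨-t, v, rfl⟩)

/-- the brackets of the relations -/
lemma brk_B5 [CharZero k] (ht : t ≠ 0) (ht1 : t + 1 ≠ 0) (h : G6 t x y) {v : FT F}
    (hv : hk (SB t x y 5) v = 0) :
    ((-1) : ℚ) • hk (SA t x y 0) v + ((-1) : ℚ) • hk (SA t x y 4) v + ((-1) : ℚ) • hk (SC t x y 1) v + ((-1) : ℚ) • hk (SC t x y 2) v ∈ KC k F := by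
  have r : SA t x y 4 + SA t x y 0 + SB t x y 5 = SC t x y 4 + SC t x y 5 := R2 ht ht1 h 4
  have c4 : SC t x y 4 = - SC t x y 1 := SC_three ht ht1 h 1
  have c5 : SC t x y 5 = - SC t x y 2 := SC_three ht ht1 h 2
  rw [c4, c5] at r
  have e : ((-1) : ℚ) • SA t x y 0 + ((-1) : ℚ) • SA t x y 4 + ((-1) : ℚ) • SC t x y 1 + ((-1) : ℚ) • SC t x y 2 = SB t x y 5 := by
    linear_combination (norm := module) (-1 : ℚ) • r
  have e2 := congrArg (fun z => hk z v) e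
  simp only [hk_add_left, hk_smul_left, hv, smul_zero, add_zero] at e2
  rw [e2]
  exact Submodule.zero_mem _

/-- **closed elements for a point of order six**: `t` and `t + 1` independent, `t ≠ ±1/3, -1/5` -/
theorem closed [CharZero k] (ht : t ≠ 0) (ht1 : t + 1 ≠ 0) (hkd : Kd 0 t) (h : G6 t x y)
    {z : MK4.HK F} (hz : z ∈ Cu t x y) (hc : Closed z) : z ∈ KC k F := by
  have : CharZero F := charZero_of_injective_algebraMap (algebraMap k F).injective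
  obtain ⟨u, κ, hκ, rfl⟩ := decomp ht ht1 hkd h hz
  obtain ⟨φ, hφ, hd⟩ := dual ht ht1 h
  rw [closed_dE, map_add, map_sum] at hc
  have hc' : dE F (hk (SA t x y 0) (u 0)) + dE F (hk (SA t x y 1) (u 1)) +
      dE F (hk (SA t x y 2) (u 2)) + dE F (hk (SA t x y 3) (u 3)) +
      dE F (hk (SA t x y 4) (u 4)) + dE F (hk (SC t x y 0) (u 5)) +
      dE F (hk (SC t x y 1) (u 6)) + dE F (hk (SC t x y 2) (u 7)) + dE F κ = 0 := by
    rw [← hc, Fin.sum_univ_eight]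
    rfl
  unfold SA SC at hc'
  simp only [dE_sy] at hc'
  have l5 := lg5 ht ht1 h
  obtain ⟨τ, hτ⟩ : ∃ z, z = lg (algebraMap k F t) := ⟨_, rfl⟩
  obtain ⟨β, hβ⟩ : ∃ z, z = lg (algebraMap k F (t ^ 2 + t)) := ⟨_, rfl⟩
  have hind : ∀ p q : ℚ, p • τ + q • β = 0 → p = 0 ∧ q = 0 := by
    rw [hτ, hβ]; exact ind_tb ht ht1 (hkd.1 rfl).1
  obtain ⟨y0, hy0⟩ : ∃ z, z = lg (X t x y 0) := ⟨_, rfl⟩
  obtain ⟨y1, hy1⟩ : ∃ z, z = lg (X t x y 1) := ⟨_, rfl⟩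
  obtain ⟨y2, hy2⟩ : ∃ z, z = lg (X t x y 2) := ⟨_, rfl⟩
  obtain ⟨y3, hy3⟩ : ∃ z, z = lg (X t x y 3) := ⟨_, rfl⟩
  obtain ⟨y4, hy4⟩ : ∃ z, z = lg (X t x y 4) := ⟨_, rfl⟩
  rw [← hτ, ← hβ, ← hy0, ← hy1, ← hy2, ← hy3, ← hy4] at l5
  have fA0 : lg (cA t x y 0) = y0 + ((-1) : ℚ) • β := by
    have e : lg (cA t x y 0) = lg (X t x y 0) - lg (algebraMap k F (t ^ 2 + t)) := lgA ht ht1 h 0
    rw [← hy0, ← hβ] at e
    rw [e]; module
  have gA0 : lg (1 - cA t x y 0) = y0 + ((-1) : ℚ) • y2 + ((-1) : ℚ) • y3 + ((-1) : ℚ) • y4 + τ + β := by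
    have e : lg (1 - cA t x y 0) = lg (X t x y 5) + (2 : ℚ) • lg (X t x y 0) + lg (X t x y 1) - (3 : ℚ) • lg (algebraMap k F (t ^ 2 + t)) := lgA' ht ht1 h 0
    rw [← hy0, ← hy1, l5, ← hβ] at e
    rw [e]; module
  have fA1 : lg (cA t x y 1) = y1 + ((-1) : ℚ) • β := by
    have e : lg (cA t x y 1) = lg (X t x y 1) - lg (algebraMap k F (t ^ 2 + t)) := lgA ht ht1 h 1
    rw [← hy1, ← hβ] at e
    rw [e]; module
  have gA1 : lg (1 - cA t x y 1) = y0 + (2 : ℚ) • y1 + y2 + ((-3) : ℚ) • β := by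
    have e : lg (1 - cA t x y 1) = lg (X t x y 0) + (2 : ℚ) • lg (X t x y 1) + lg (X t x y 2) - (3 : ℚ) • lg (algebraMap k F (t ^ 2 + t)) := lgA' ht ht1 h 1
    rw [← hy0, ← hy1, ← hy2, ← hβ] at e
    rw [e]; module
  have fA2 : lg (cA t x y 2) = y2 + ((-1) : ℚ) • β := by
    have e : lg (cA t x y 2) = lg (X t x y 2) - lg (algebraMap k F (t ^ 2 + t)) := lgA ht ht1 h 2
    rw [← hy2, ← hβ] at e
    rw [e]; module
  have gA2 : lg (1 - cA t x y 2) = y1 + (2 : ℚ) • y2 + y3 + ((-3) : ℚ) • β := by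
    have e : lg (1 - cA t x y 2) = lg (X t x y 1) + (2 : ℚ) • lg (X t x y 2) + lg (X t x y 3) - (3 : ℚ) • lg (algebraMap k F (t ^ 2 + t)) := lgA' ht ht1 h 2
    rw [← hy1, ← hy2, ← hy3, ← hβ] at e
    rw [e]; module
  have fA3 : lg (cA t x y 3) = y3 + ((-1) : ℚ) • β := by
    have e : lg (cA t x y 3) = lg (X t x y 3) - lg (algebraMap k F (t ^ 2 + t)) := lgA ht ht1 h 3
    rw [← hy3, ← hβ] at e
    rw [e]; module
  have gA3 : lg (1 - cA t x y 3) = y2 + (2 : ℚ) • y3 + y4 + ((-3) : ℚ) • β := by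
    have e : lg (1 - cA t x y 3) = lg (X t x y 2) + (2 : ℚ) • lg (X t x y 3) + lg (X t x y 4) - (3 : ℚ) • lg (algebraMap k F (t ^ 2 + t)) := lgA' ht ht1 h 3
    rw [← hy2, ← hy3, ← hy4, ← hβ] at e
    rw [e]; module
  have fA4 : lg (cA t x y 4) = y4 + ((-1) : ℚ) • β := by
    have e : lg (cA t x y 4) = lg (X t x y 4) - lg (algebraMap k F (t ^ 2 + t)) := lgA ht ht1 h 4
    rw [← hy4, ← hβ] at e
    rw [e]; module
  have gA4 : lg (1 - cA t x y 4) = ((-1) : ℚ) • y0 + ((-1) : ℚ) • y1 + ((-1) : ℚ) • y2 + y4 + τ + β := by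
    have e : lg (1 - cA t x y 4) = lg (X t x y 3) + (2 : ℚ) • lg (X t x y 4) + lg (X t x y 5) - (3 : ℚ) • lg (algebraMap k F (t ^ 2 + t)) := lgA' ht ht1 h 4
    rw [← hy3, ← hy4, l5, ← hβ] at e
    rw [e]; module
  have fA5 : lg (cA t x y 5) = ((-1) : ℚ) • y0 + ((-1) : ℚ) • y1 + ((-1) : ℚ) • y2 + ((-1) : ℚ) • y3 + ((-1) : ℚ) • y4 + τ + (3 : ℚ) • β := by
    have e : lg (cA t x y 5) = lg (X t x y 5) - lg (algebraMap k F (t ^ 2 + t)) := lgA ht ht1 h 5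
    rw [l5, ← hβ] at e
    rw [e]; module
  have gA5 : lg (1 - cA t x y 5) = ((-1) : ℚ) • y0 + ((-2) : ℚ) • y1 + ((-2) : ℚ) • y2 + ((-2) : ℚ) • y3 + ((-1) : ℚ) • y4 + (2 : ℚ) • τ + (5 : ℚ) • β := by
    have e : lg (1 - cA t x y 5) = lg (X t x y 4) + (2 : ℚ) • lg (X t x y 5) + lg (X t x y 0) - (3 : ℚ) • lg (algebraMap k F (t ^ 2 + t)) := lgA' ht ht1 h 5
    rw [← hy0, ← hy4, l5, ← hβ] at e
    rw [e]; module
  have fB0 : lg (cB t x y 0) = y0 + ((-1) : ℚ) • τ := by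
    have e : lg (cB t x y 0) = lg (X t x y 0) - lg (algebraMap k F t) := lgB ht ht1 h 0
    rw [← hy0, ← hτ] at e
    rw [e]; module
  have gB0 : lg (1 - cB t x y 0) = y0 + ((-1) : ℚ) • y2 + ((-2) : ℚ) • y3 + ((-1) : ℚ) • y4 + τ + (2 : ℚ) • β := by
    have e : lg (1 - cB t x y 0) = lg (X t x y 5) + (2 : ℚ) • lg (X t x y 0) + lg (X t x y 1) - (2 : ℚ) • lg (algebraMap k F (t ^ 2 + t)) - lg (X t x y 3) := lgB' ht ht1 h 0
    rw [← hy0, ← hy1, ← hy3, l5, ← hβ] at e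
    rw [e]; module
  have fB1 : lg (cB t x y 1) = y1 + ((-1) : ℚ) • τ := by
    have e : lg (cB t x y 1) = lg (X t x y 1) - lg (algebraMap k F t) := lgB ht ht1 h 1
    rw [← hy1, ← hτ] at e
    rw [e]; module
  have gB1 : lg (1 - cB t x y 1) = y0 + (2 : ℚ) • y1 + y2 + ((-1) : ℚ) • y4 + ((-2) : ℚ) • β := by
    have e : lg (1 - cB t x y 1) = lg (X t x y 0) + (2 : ℚ) • lg (X t x y 1) + lg (X t x y 2) - (2 : ℚ) • lg (algebraMap k F (t ^ 2 + t)) - lg (X t x y 4) := lgB' ht ht1 h 1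
    rw [← hy0, ← hy1, ← hy2, ← hy4, ← hβ] at e
    rw [e]; module
  have fB2 : lg (cB t x y 2) = y2 + ((-1) : ℚ) • τ := by
    have e : lg (cB t x y 2) = lg (X t x y 2) - lg (algebraMap k F t) := lgB ht ht1 h 2
    rw [← hy2, ← hτ] at e
    rw [e]; module
  have gB2 : lg (1 - cB t x y 2) = y0 + (2 : ℚ) • y1 + (3 : ℚ) • y2 + (2 : ℚ) • y3 + y4 + ((-1) : ℚ) • τ + ((-6) : ℚ) • β := by
    have e : lg (1 - cB t x y 2) = lg (X t x y 1) + (2 : ℚ) • lg (X t x y 2) + lg (X t x y 3) - (2 : ℚ) • lg (algebraMap k F (t ^ 2 + t)) - lg (X t x y 5) := lgB' ht ht1 h 2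
    rw [← hy1, ← hy2, ← hy3, l5, ← hβ] at e
    rw [e]; module
  have fB3 : lg (cB t x y 3) = y3 + ((-1) : ℚ) • τ := by
    have e : lg (cB t x y 3) = lg (X t x y 3) - lg (algebraMap k F t) := lgB ht ht1 h 3
    rw [← hy3, ← hτ] at e
    rw [e]; module
  have gB3 : lg (1 - cB t x y 3) = ((-1) : ℚ) • y0 + y2 + (2 : ℚ) • y3 + y4 + ((-2) : ℚ) • β := by
    have e : lg (1 - cB t x y 3) = lg (X t x y 2) + (2 : ℚ) • lg (X t x y 3) + lg (X t x y 4) - (2 : ℚ) • lg (algebraMap k F (t ^ 2 + t)) - lg (X t x y 0) := lgB' ht ht1 h 3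
    rw [← hy0, ← hy2, ← hy3, ← hy4, ← hβ] at e
    rw [e]; module
  have fB4 : lg (cB t x y 4) = y4 + ((-1) : ℚ) • τ := by
    have e : lg (cB t x y 4) = lg (X t x y 4) - lg (algebraMap k F t) := lgB ht ht1 h 4
    rw [← hy4, ← hτ] at e
    rw [e]; module
  have gB4 : lg (1 - cB t x y 4) = ((-1) : ℚ) • y0 + ((-2) : ℚ) • y1 + ((-1) : ℚ) • y2 + y4 + τ + (2 : ℚ) • β := by
    have e : lg (1 - cB t x y 4) = lg (X t x y 3) + (2 : ℚ) • lg (X t x y 4) + lg (X t x y 5) - (2 : ℚ) • lg (algebraMap k F (t ^ 2 + t)) - lg (X t x y 1) := lgB' ht ht1 h 4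
    rw [← hy1, ← hy3, ← hy4, l5, ← hβ] at e
    rw [e]; module
  have fC0 : lg (cC t x y 0) = y0 + y1 + ((-1) : ℚ) • τ + ((-1) : ℚ) • β := by
    have e : lg (cC t x y 0) = lg (X t x y 0) + lg (X t x y 1) - lg (algebraMap k F (t ^ 2 + t)) - lg (algebraMap k F t) := lgC ht ht1 h 0
    rw [← hy0, ← hy1, ← hβ, ← hτ] at e
    rw [e]; module
  have gC0 : lg (1 - cC t x y 0) = y0 + y1 + ((-1) : ℚ) • y3 + ((-1) : ℚ) • y4 := by
    have e : lg (1 - cC t x y 0) = lg (X t x y 0) + lg (X t x y 1) - lg (X t x y 3) - lg (X t x y 4) := lgC' ht ht1 h 0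
    rw [← hy0, ← hy1, ← hy3, ← hy4] at e
    rw [e]; module
  have fC1 : lg (cC t x y 1) = y1 + y2 + ((-1) : ℚ) • τ + ((-1) : ℚ) • β := by
    have e : lg (cC t x y 1) = lg (X t x y 1) + lg (X t x y 2) - lg (algebraMap k F (t ^ 2 + t)) - lg (algebraMap k F t) := lgC ht ht1 h 1
    rw [← hy1, ← hy2, ← hβ, ← hτ] at e
    rw [e]; module
  have gC1 : lg (1 - cC t x y 1) = y0 + (2 : ℚ) • y1 + (2 : ℚ) • y2 + y3 + ((-1) : ℚ) • τ + ((-4) : ℚ) • β := by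
    have e : lg (1 - cC t x y 1) = lg (X t x y 1) + lg (X t x y 2) - lg (X t x y 4) - lg (X t x y 5) := lgC' ht ht1 h 1
    rw [← hy1, ← hy2, ← hy4, l5] at e
    rw [e]; module
  have fC2 : lg (cC t x y 2) = y2 + y3 + ((-1) : ℚ) • τ + ((-1) : ℚ) • β := by
    have e : lg (cC t x y 2) = lg (X t x y 2) + lg (X t x y 3) - lg (algebraMap k F (t ^ 2 + t)) - lg (algebraMap k F t) := lgC ht ht1 h 2
    rw [← hy2, ← hy3, ← hβ, ← hτ] at e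
    rw [e]; module
  have gC2 : lg (1 - cC t x y 2) = y1 + (2 : ℚ) • y2 + (2 : ℚ) • y3 + y4 + ((-1) : ℚ) • τ + ((-4) : ℚ) • β := by
    have e : lg (1 - cC t x y 2) = lg (X t x y 2) + lg (X t x y 3) - lg (X t x y 5) - lg (X t x y 0) := lgC' ht ht1 h 2
    rw [← hy0, ← hy2, ← hy3, l5] at e
    rw [e]; module
  rw [gA0, fA0, gA1, fA1, gA2, fA2, gA3, fA3, gA4, fA4, gC0, fC0, gC1, fC1, gC2, fC2] at hc'
  have d00 : φ 0 y0 = 1 := by rw [hy0]; exact (hd 0 0).trans (by decide)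
  have d01 : φ 0 y1 = 0 := by rw [hy1]; exact (hd 0 1).trans (by decide)
  have d02 : φ 0 y2 = 0 := by rw [hy2]; exact (hd 0 2).trans (by decide)
  have d03 : φ 0 y3 = 0 := by rw [hy3]; exact (hd 0 3).trans (by decide)
  have d04 : φ 0 y4 = 0 := by rw [hy4]; exact (hd 0 4).trans (by decide)
  have d0τ : φ 0 τ = 0 := by rw [hτ]; exact hφ 0 _ (lg_mem_V0 t)
  have d0β : φ 0 β = 0 := by rw [hβ]; exact hφ 0 _ (lg_mem_V0 (t ^ 2 + t))
  have d10 : φ 1 y0 = 0 := by rw [hy0]; exact (hd 1 0).trans (by decide)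
  have d11 : φ 1 y1 = 1 := by rw [hy1]; exact (hd 1 1).trans (by decide)
  have d12 : φ 1 y2 = 0 := by rw [hy2]; exact (hd 1 2).trans (by decide)
  have d13 : φ 1 y3 = 0 := by rw [hy3]; exact (hd 1 3).trans (by decide)
  have d14 : φ 1 y4 = 0 := by rw [hy4]; exact (hd 1 4).trans (by decide)
  have d1τ : φ 1 τ = 0 := by rw [hτ]; exact hφ 1 _ (lg_mem_V0 t)
  have d1β : φ 1 β = 0 := by rw [hβ]; exact hφ 1 _ (lg_mem_V0 (t ^ 2 + t))
  have d20 : φ 2 y0 = 0 := by rw [hy0]; exact (hd 2 0).trans (by decide)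
  have d21 : φ 2 y1 = 0 := by rw [hy1]; exact (hd 2 1).trans (by decide)
  have d22 : φ 2 y2 = 1 := by rw [hy2]; exact (hd 2 2).trans (by decide)
  have d23 : φ 2 y3 = 0 := by rw [hy3]; exact (hd 2 3).trans (by decide)
  have d24 : φ 2 y4 = 0 := by rw [hy4]; exact (hd 2 4).trans (by decide)
  have d2τ : φ 2 τ = 0 := by rw [hτ]; exact hφ 2 _ (lg_mem_V0 t)
  have d2β : φ 2 β = 0 := by rw [hβ]; exact hφ 2 _ (lg_mem_V0 (t ^ 2 + t))
  have d30 : φ 3 y0 = 0 := by rw [hy0]; exact (hd 3 0).trans (by decide)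
  have d31 : φ 3 y1 = 0 := by rw [hy1]; exact (hd 3 1).trans (by decide)
  have d32 : φ 3 y2 = 0 := by rw [hy2]; exact (hd 3 2).trans (by decide)
  have d33 : φ 3 y3 = 1 := by rw [hy3]; exact (hd 3 3).trans (by decide)
  have d34 : φ 3 y4 = 0 := by rw [hy4]; exact (hd 3 4).trans (by decide)
  have d3τ : φ 3 τ = 0 := by rw [hτ]; exact hφ 3 _ (lg_mem_V0 t)
  have d3β : φ 3 β = 0 := by rw [hβ]; exact hφ 3 _ (lg_mem_V0 (t ^ 2 + t))
  have d40 : φ 4 y0 = 0 := by rw [hy0]; exact (hd 4 0).trans (by decide)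
  have d41 : φ 4 y1 = 0 := by rw [hy1]; exact (hd 4 1).trans (by decide)
  have d42 : φ 4 y2 = 0 := by rw [hy2]; exact (hd 4 2).trans (by decide)
  have d43 : φ 4 y3 = 0 := by rw [hy3]; exact (hd 4 3).trans (by decide)
  have d44 : φ 4 y4 = 1 := by rw [hy4]; exact (hd 4 4).trans (by decide)
  have d4τ : φ 4 τ = 0 := by rw [hτ]; exact hφ 4 _ (lg_mem_V0 t)
  have d4β : φ 4 β = 0 := by rw [hβ]; exact hφ 4 _ (lg_mem_V0 (t ^ 2 + t))
  obtain ⟨p0, p1, p2, p3, p4, p5, p6, p7, p8, p9, p10, p11, p12, p13, p14, p15, p16, p17, p18, p19, p20, p21, p22, p23, p24, p25, p26, k0, k1, k2, k3, k4, k5, k6, k7⟩ := alg6 d00 d01 d02 d03 d04 d0τ d0β d10 d11 d12 d13 d14 d1τ d1β d20 d21 d22 d23 d24 d2τ d2β d30 d31 d32 d33 d34 d3τ d3β d40 d41 d42 d43 d44 d4τ d4β (ct_KC (hφ 0) (hφ 1) hκ) (ct_KC (hφ 0) (hφ 2) hκ) (ct_KC (hφ 0) (hφ 3) hκ) (ct_KC (hφ 0) (hφ 4) hκ) (ct_KC (hφ 1) (hφ 2)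 hκ) (ct_KC (hφ 1) (hφ 3) hκ) (ct_KC (hφ 1) (hφ 4) hκ) (ct_KC (hφ 2) (hφ 3) hκ) (ct_KC (hφ 2) (hφ 4) hκ) (ct_KC (hφ 3) (hφ 4) hκ) fA0 gA0 fA1 gA1 fA2 gA2 fA3 gA3 fA4 gA4 fA5 gA5 fB0 gB0 fB1 gB1 fB2 gB2 fB3 gB3 fB4 gB4 fC0 gC0 fC1 gC1 fC2 hind hc'
  have z0 : hk (SA t x y 0) (lg (cA t x y 0)) = 0 := hk_self (cA_ne ht ht1 h 0) (c_ne1 ht ht1 h 0).1
  have r0 : (1 : ℚ) • hk (SA t x y 0) (lg (cA t x y 0)) ∈ KC k F := by rw [z0, smul_zero]; exact Submodule.zero_mem _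
  have z1 : hk (SA t x y 0) (lg (1 - cA t x y 0)) = 0 := hk_compl (cA_ne ht ht1 h 0) (c_ne1 ht ht1 h 0).1
  have r1 : (1 : ℚ) • hk (SA t x y 0) (lg (1 - cA t x y 0)) ∈ KC k F := by rw [z1, smul_zero]; exact Submodule.zero_mem _
  have z2 : hk (SA t x y 1) (lg (cA t x y 1)) = 0 := hk_self (cA_ne ht ht1 h 1) (c_ne1 ht ht1 h 1).1
  have r2 : (1 : ℚ) • hk (SA t x y 1) (lg (cA t x y 1)) ∈ KC k F := by rw [z2, smul_zero]; exact Submodule.zero_mem _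
  have z3 : hk (SA t x y 1) (lg (1 - cA t x y 1)) = 0 := hk_compl (cA_ne ht ht1 h 1) (c_ne1 ht ht1 h 1).1
  have r3 : (1 : ℚ) • hk (SA t x y 1) (lg (1 - cA t x y 1)) ∈ KC k F := by rw [z3, smul_zero]; exact Submodule.zero_mem _
  have z4 : hk (SA t x y 2) (lg (cA t x y 2)) = 0 := hk_self (cA_ne ht ht1 h 2) (c_ne1 ht ht1 h 2).1
  have r4 : (1 : ℚ) • hk (SA t x y 2) (lg (cA t x y 2)) ∈ KC k F := by rw [z4, smul_zero]; exact Submodule.zero_mem _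
  have z5 : hk (SA t x y 2) (lg (1 - cA t x y 2)) = 0 := hk_compl (cA_ne ht ht1 h 2) (c_ne1 ht ht1 h 2).1
  have r5 : (1 : ℚ) • hk (SA t x y 2) (lg (1 - cA t x y 2)) ∈ KC k F := by rw [z5, smul_zero]; exact Submodule.zero_mem _
  have z6 : hk (SA t x y 3) (lg (cA t x y 3)) = 0 := hk_self (cA_ne ht ht1 h 3) (c_ne1 ht ht1 h 3).1
  have r6 : (1 : ℚ) • hk (SA t x y 3) (lg (cA t x y 3)) ∈ KC k F := by rw [z6, smul_zero]; exact Submodule.zero_mem _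
  have z7 : hk (SA t x y 3) (lg (1 - cA t x y 3)) = 0 := hk_compl (cA_ne ht ht1 h 3) (c_ne1 ht ht1 h 3).1
  have r7 : (1 : ℚ) • hk (SA t x y 3) (lg (1 - cA t x y 3)) ∈ KC k F := by rw [z7, smul_zero]; exact Submodule.zero_mem _
  have z8 : hk (SA t x y 4) (lg (cA t x y 4)) = 0 := hk_self (cA_ne ht ht1 h 4) (c_ne1 ht ht1 h 4).1
  have r8 : (1 : ℚ) • hk (SA t x y 4) (lg (cA t x y 4)) ∈ KC k F := by rw [z8, smul_zero]; exact Submodule.zero_mem _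
  have z9 : hk (SA t x y 4) (lg (1 - cA t x y 4)) = 0 := hk_compl (cA_ne ht ht1 h 4) (c_ne1 ht ht1 h 4).1
  have r9 : (1 : ℚ) • hk (SA t x y 4) (lg (1 - cA t x y 4)) ∈ KC k F := by rw [z9, smul_zero]; exact Submodule.zero_mem _
  have z10 : hk (SA t x y 5) (lg (cA t x y 5)) = 0 := hk_self (cA_ne ht ht1 h 5) (c_ne1 ht ht1 h 5).1
  have r10 : ((-1) : ℚ) • hk (SA t x y 0) (lg (cA t x y 5)) + ((-1) : ℚ) • hk (SA t x y 1) (lg (cA t x y 5)) + ((-1) : ℚ) • hk (SA t x y 2) (lg (cA t x y 5)) + ((-1) : ℚ) • hk (SA t x y 3) (lg (cA t x y 5)) + ((-1) : ℚ) • hk (SA t x y 4) (lg (cA t x y 5)) ∈ KC k F := brk_A5 ht ht1 h z10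
  have z11 : hk (SA t x y 5) (lg (1 - cA t x y 5)) = 0 := hk_compl (cA_ne ht ht1 h 5) (c_ne1 ht ht1 h 5).1
  have r11 : ((-1) : ℚ) • hk (SA t x y 0) (lg (1 - cA t x y 5)) + ((-1) : ℚ) • hk (SA t x y 1) (lg (1 - cA t x y 5)) + ((-1) : ℚ) • hk (SA t x y 2) (lg (1 - cA t x y 5)) + ((-1) : ℚ) • hk (SA t x y 3) (lg (1 - cA t x y 5)) + ((-1) : ℚ) • hk (SA t x y 4) (lg (1 - cA t x y 5)) ∈ KC k F := brk_A5 ht ht1 h z11
  have z12 : hk (SB t x y 0) (lg (cB t x y 0)) = 0 := hk_self (cB_ne ht ht1 h 0) (c_ne1 ht ht1 h 0).2.1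
  have r12 : (1 : ℚ) • hk (SA t x y 0) (lg (cB t x y 0)) + (1 : ℚ) • hk (SA t x y 2) (lg (cB t x y 0)) + (1 : ℚ) • hk (SA t x y 3) (lg (cB t x y 0)) + (1 : ℚ) • hk (SA t x y 4) (lg (cB t x y 0)) + (1 : ℚ) • hk (SC t x y 0) (lg (cB t x y 0)) + ((-1) : ℚ) • hk (SC t x y 2) (lg (cB t x y 0)) ∈ KC k F := brk_B0 ht ht1 h z12
  have z13 : hk (SB t x y 0) (lg (1 - cB t x y 0)) = 0 := hk_compl (cB_ne ht ht1 h 0) (c_ne1 ht ht1 h 0).2.1
  have r13 : (1 : ℚ) • hk (SA t x y 0) (lg (1 - cB t x y 0)) + (1 : ℚ) • hk (SA t x y 2) (lg (1 - cB t x y 0)) + (1 : ℚ) • hk (SA t x y 3) (lg (1 - cB t x y 0)) + (1 : ℚ) • hk (SA t x y 4) (lg (1 - cB t x y 0)) + (1 : ℚ) • hk (SC t x y 0) (lg (1 - cB t x y 0)) + ((-1) : ℚ) • hk (SC t x y 2) (lg (1 - cB t x y 0)) ∈ KC k F := brk_B0 ht ht1 h z13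
  have z14 : hk (SB t x y 1) (lg (cB t x y 1)) = 0 := hk_self (cB_ne ht ht1 h 1) (c_ne1 ht ht1 h 1).2.1
  have r14 : ((-1) : ℚ) • hk (SA t x y 0) (lg (cB t x y 1)) + ((-1) : ℚ) • hk (SA t x y 2) (lg (cB t x y 1)) + (1 : ℚ) • hk (SC t x y 0) (lg (cB t x y 1)) + (1 : ℚ) • hk (SC t x y 1) (lg (cB t x y 1)) ∈ KC k F := brk_B1 ht ht1 h z14
  have z15 : hk (SB t x y 1) (lg (1 - cB t x y 1)) = 0 := hk_compl (cB_ne ht ht1 h 1) (c_ne1 ht ht1 h 1).2.1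
  have r15 : ((-1) : ℚ) • hk (SA t x y 0) (lg (1 - cB t x y 1)) + ((-1) : ℚ) • hk (SA t x y 2) (lg (1 - cB t x y 1)) + (1 : ℚ) • hk (SC t x y 0) (lg (1 - cB t x y 1)) + (1 : ℚ) • hk (SC t x y 1) (lg (1 - cB t x y 1)) ∈ KC k F := brk_B1 ht ht1 h z15
  have z16 : hk (SB t x y 2) (lg (cB t x y 2)) = 0 := hk_self (cB_ne ht ht1 h 2) (c_ne1 ht ht1 h 2).2.1
  have r16 : ((-1) : ℚ) • hk (SA t x y 1) (lg (cB t x y 2)) + ((-1) : ℚ) • hk (SA t x y 3) (lg (cB t x y 2)) + (1 : ℚ) • hk (SC t x y 1) (lg (cB t x y 2)) + (1 : ℚ) • hk (SC t x y 2) (lg (cB t x y 2)) ∈ KC k F := brk_B2 ht ht1 h z16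
  have z17 : hk (SB t x y 2) (lg (1 - cB t x y 2)) = 0 := hk_compl (cB_ne ht ht1 h 2) (c_ne1 ht ht1 h 2).2.1
  have r17 : ((-1) : ℚ) • hk (SA t x y 1) (lg (1 - cB t x y 2)) + ((-1) : ℚ) • hk (SA t x y 3) (lg (1 - cB t x y 2)) + (1 : ℚ) • hk (SC t x y 1) (lg (1 - cB t x y 2)) + (1 : ℚ) • hk (SC t x y 2) (lg (1 - cB t x y 2)) ∈ KC k F := brk_B2 ht ht1 h z17
  have z18 : hk (SB t x y 3) (lg (cB t x y 3)) = 0 := hk_self (cB_ne ht ht1 h 3) (c_ne1 ht ht1 h 3).2.1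
  have r18 : ((-1) : ℚ) • hk (SA t x y 2) (lg (cB t x y 3)) + ((-1) : ℚ) • hk (SA t x y 4) (lg (cB t x y 3)) + ((-1) : ℚ) • hk (SC t x y 0) (lg (cB t x y 3)) + (1 : ℚ) • hk (SC t x y 2) (lg (cB t x y 3)) ∈ KC k F := brk_B3 ht ht1 h z18
  have z19 : hk (SB t x y 3) (lg (1 - cB t x y 3)) = 0 := hk_compl (cB_ne ht ht1 h 3) (c_ne1 ht ht1 h 3).2.1
  have r19 : ((-1) : ℚ) • hk (SA t x y 2) (lg (1 - cB t x y 3)) + ((-1) : ℚ) • hk (SA t x y 4) (lg (1 - cB t x y 3)) + ((-1) : ℚ) • hk (SC t x y 0) (lg (1 - cB t x y 3)) + (1 : ℚ) • hk (SC t x y 2) (lg (1 - cB t x y 3)) ∈ KC k F := brk_B3 ht ht1 h z19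
  have z20 : hk (SB t x y 4) (lg (cB t x y 4)) = 0 := hk_self (cB_ne ht ht1 h 4) (c_ne1 ht ht1 h 4).2.1
  have r20 : (1 : ℚ) • hk (SA t x y 0) (lg (cB t x y 4)) + (1 : ℚ) • hk (SA t x y 1) (lg (cB t x y 4)) + (1 : ℚ) • hk (SA t x y 2) (lg (cB t x y 4)) + (1 : ℚ) • hk (SA t x y 4) (lg (cB t x y 4)) + ((-1) : ℚ) • hk (SC t x y 0) (lg (cB t x y 4)) + ((-1) : ℚ) • hk (SC t x y 1) (lg (cB t x y 4)) ∈ KC k F := brk_B4 ht ht1 h z20
  have z21 : hk (SB t x y 4) (lg (1 - cB t x y 4)) = 0 := hk_compl (cB_ne ht ht1 h 4) (c_ne1 ht ht1 h 4).2.1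
  have r21 : (1 : ℚ) • hk (SA t x y 0) (lg (1 - cB t x y 4)) + (1 : ℚ) • hk (SA t x y 1) (lg (1 - cB t x y 4)) + (1 : ℚ) • hk (SA t x y 2) (lg (1 - cB t x y 4)) + (1 : ℚ) • hk (SA t x y 4) (lg (1 - cB t x y 4)) + ((-1) : ℚ) • hk (SC t x y 0) (lg (1 - cB t x y 4)) + ((-1) : ℚ) • hk (SC t x y 1) (lg (1 - cB t x y 4)) ∈ KC k F := brk_B4 ht ht1 h z21
  have z22 : hk (SC t x y 0) (lg (cC t x y 0)) = 0 := hk_self (cC_ne ht ht1 h 0) (c_ne1 ht ht1 h 0).2.2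
  have r22 : (1 : ℚ) • hk (SC t x y 0) (lg (cC t x y 0)) ∈ KC k F := by rw [z22, smul_zero]; exact Submodule.zero_mem _
  have z23 : hk (SC t x y 0) (lg (1 - cC t x y 0)) = 0 := hk_compl (cC_ne ht ht1 h 0) (c_ne1 ht ht1 h 0).2.2
  have r23 : (1 : ℚ) • hk (SC t x y 0) (lg (1 - cC t x y 0)) ∈ KC k F := by rw [z23, smul_zero]; exact Submodule.zero_mem _
  have z24 : hk (SC t x y 1) (lg (cC t x y 1)) = 0 := hk_self (cC_ne ht ht1 h 1) (c_ne1 ht ht1 h 1).2.2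
  have r24 : (1 : ℚ) • hk (SC t x y 1) (lg (cC t x y 1)) ∈ KC k F := by rw [z24, smul_zero]; exact Submodule.zero_mem _
  have z25 : hk (SC t x y 1) (lg (1 - cC t x y 1)) = 0 := hk_compl (cC_ne ht ht1 h 1) (c_ne1 ht ht1 h 1).2.2
  have r25 : (1 : ℚ) • hk (SC t x y 1) (lg (1 - cC t x y 1)) ∈ KC k F := by rw [z25, smul_zero]; exact Submodule.zero_mem _
  have z26 : hk (SC t x y 2) (lg (cC t x y 2)) = 0 := hk_self (cC_ne ht ht1 h 2) (c_ne1 ht ht1 h 2).2.2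
  have r26 : (1 : ℚ) • hk (SC t x y 2) (lg (cC t x y 2)) ∈ KC k F := by rw [z26, smul_zero]; exact Submodule.zero_mem _
  refine Submodule.add_mem _ ?_ hκ
  have e : ∑ j, hk (TS t x y j) (u j) =
      p0 • ((1 : ℚ) • hk (SA t x y 0) (lg (cA t x y 0))) +
      p1 • ((1 : ℚ) • hk (SA t x y 0) (lg (1 - cA t x y 0))) +
      p2 • ((1 : ℚ) • hk (SA t x y 1) (lg (cA t x y 1))) +
      p3 • ((1 : ℚ) • hk (SA t x y 1) (lg (1 - cA t x y 1))) +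
      p4 • ((1 : ℚ) • hk (SA t x y 2) (lg (cA t x y 2))) +
      p5 • ((1 : ℚ) • hk (SA t x y 2) (lg (1 - cA t x y 2))) +
      p6 • ((1 : ℚ) • hk (SA t x y 3) (lg (cA t x y 3))) +
      p7 • ((1 : ℚ) • hk (SA t x y 3) (lg (1 - cA t x y 3))) +
      p8 • ((1 : ℚ) • hk (SA t x y 4) (lg (cA t x y 4))) +
      p9 • ((1 : ℚ) • hk (SA t x y 4) (lg (1 - cA t x y 4))) +
      p10 • (((-1) : ℚ) • hk (SA t x y 0) (lg (cA t x y 5)) + ((-1) : ℚ) • hk (SA t x y 1) (lg (cA t x y 5)) + ((-1) : ℚ) • hk (SA t x y 2) (lg (cA t x y 5)) + ((-1) : ℚ) • hk (SA t x y 3) (lg (cA t x y 5)) + ((-1) : ℚ) • hk (SA t x y 4) (lg (cA t x y 5))) +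
      p11 • (((-1) : ℚ) • hk (SA t x y 0) (lg (1 - cA t x y 5)) + ((-1) : ℚ) • hk (SA t x y 1) (lg (1 - cA t x y 5)) + ((-1) : ℚ) • hk (SA t x y 2) (lg (1 - cA t x y 5)) + ((-1) : ℚ) • hk (SA t x y 3) (lg (1 - cA t x y 5)) + ((-1) : ℚ) • hk (SA t x y 4) (lg (1 - cA t x y 5))) +
      p12 • ((1 : ℚ) • hk (SA t x y 0) (lg (cB t x y 0)) + (1 : ℚ) • hk (SA t x y 2) (lg (cB t x y 0)) + (1 : ℚ) • hk (SA t x y 3) (lg (cB t x y 0)) + (1 : ℚ) • hk (SA t x y 4) (lg (cB t x y 0)) + (1 : ℚ) • hk (SC t x y 0) (lg (cB t x y 0)) + ((-1) : ℚ) • hk (SC t x y 2) (lg (cB t x y 0))) +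
      p13 • ((1 : ℚ) • hk (SA t x y 0) (lg (1 - cB t x y 0)) + (1 : ℚ) • hk (SA t x y 2) (lg (1 - cB t x y 0)) + (1 : ℚ) • hk (SA t x y 3) (lg (1 - cB t x y 0)) + (1 : ℚ) • hk (SA t x y 4) (lg (1 - cB t x y 0)) + (1 : ℚ) • hk (SC t x y 0) (lg (1 - cB t x y 0)) + ((-1) : ℚ) • hk (SC t x y 2) (lg (1 - cB t x y 0))) +
      p14 • (((-1) : ℚ) • hk (SA t x y 0) (lg (cB t x y 1)) + ((-1) : ℚ) • hk (SA t x y 2) (lg (cB t x y 1)) + (1 : ℚ) • hk (SC t x y 0) (lg (cB t x y 1)) + (1 : ℚ) • hk (SC t x y 1) (lg (cB t x y 1))) +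
      p15 • (((-1) : ℚ) • hk (SA t x y 0) (lg (1 - cB t x y 1)) + ((-1) : ℚ) • hk (SA t x y 2) (lg (1 - cB t x y 1)) + (1 : ℚ) • hk (SC t x y 0) (lg (1 - cB t x y 1)) + (1 : ℚ) • hk (SC t x y 1) (lg (1 - cB t x y 1))) +
      p16 • (((-1) : ℚ) • hk (SA t x y 1) (lg (cB t x y 2)) + ((-1) : ℚ) • hk (SA t x y 3) (lg (cB t x y 2)) + (1 : ℚ) • hk (SC t x y 1) (lg (cB t x y 2)) + (1 : ℚ) • hk (SC t x y 2) (lg (cB t x y 2))) +
      p17 • (((-1) : ℚ) • hk (SA t x y 1) (lg (1 - cB t x y 2)) + ((-1) : ℚ) • hk (SA t x y 3) (lg (1 - cB t x y 2)) + (1 : ℚ) • hk (SC t x y 1) (lg (1 - cB t x y 2)) + (1 : ℚ) • hk (SC t x y 2) (lg (1 - cB t x y 2))) +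
      p18 • (((-1) : ℚ) • hk (SA t x y 2) (lg (cB t x y 3)) + ((-1) : ℚ) • hk (SA t x y 4) (lg (cB t x y 3)) + ((-1) : ℚ) • hk (SC t x y 0) (lg (cB t x y 3)) + (1 : ℚ) • hk (SC t x y 2) (lg (cB t x y 3))) +
      p19 • (((-1) : ℚ) • hk (SA t x y 2) (lg (1 - cB t x y 3)) + ((-1) : ℚ) • hk (SA t x y 4) (lg (1 - cB t x y 3)) + ((-1) : ℚ) • hk (SC t x y 0) (lg (1 - cB t x y 3)) + (1 : ℚ) • hk (SC t x y 2) (lg (1 - cB t x y 3))) +
      p20 • ((1 : ℚ) • hk (SA t x y 0) (lg (cB t x y 4)) + (1 : ℚ) • hk (SA t x y 1) (lg (cB t x y 4)) + (1 : ℚ) • hk (SA t x y 2) (lg (cB t x y 4)) + (1 : ℚ) • hk (SA t x y 4) (lg (cB t x y 4)) + ((-1) : ℚ) • hk (SC t x y 0) (lg (cB t x y 4)) + ((-1) : ℚ) • hk (SC t x y 1) (lg (cB t x y 4))) +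
      p21 • ((1 : ℚ) • hk (SA t x y 0) (lg (1 - cB t x y 4)) + (1 : ℚ) • hk (SA t x y 1) (lg (1 - cB t x y 4)) + (1 : ℚ) • hk (SA t x y 2) (lg (1 - cB t x y 4)) + (1 : ℚ) • hk (SA t x y 4) (lg (1 - cB t x y 4)) + ((-1) : ℚ) • hk (SC t x y 0) (lg (1 - cB t x y 4)) + ((-1) : ℚ) • hk (SC t x y 1) (lg (1 - cB t x y 4))) +
      p22 • ((1 : ℚ) • hk (SC t x y 0) (lg (cC t x y 0))) +
      p23 • ((1 : ℚ) • hk (SC t x y 0) (lg (1 - cC t x y 0))) +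
      p24 • ((1 : ℚ) • hk (SC t x y 1) (lg (cC t x y 1))) +
      p25 • ((1 : ℚ) • hk (SC t x y 1) (lg (1 - cC t x y 1))) +
      p26 • ((1 : ℚ) • hk (SC t x y 2) (lg (cC t x y 2))) := by
    rw [Fin.sum_univ_eight]
    show hk (SA t x y 0) (u 0) + hk (SA t x y 1) (u 1) + hk (SA t x y 2) (u 2) +
      hk (SA t x y 3) (u 3) + hk (SA t x y 4) (u 4) + hk (SC t x y 0) (u 5) +
      hk (SC t x y 1) (u 6) + hk (SC t x y 2) (u 7) = _
    rw [k0, k1, k2, k3, k4, k5, k6, k7]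
    simp only [hk_add_right, hk_smul_right]
    module
  rw [e]
  exact (Submodule.add_mem _ (Submodule.add_mem _ (Submodule.add_mem _ (Submodule.add_mem _ (Submodule.add_mem _ (Submodule.add_mem _ (Submodule.add_mem _ (Submodule.add_mem _ (Submodule.add_mem _ (Submodule.add_mem _ (Submodule.add_mem _ (Submodule.add_mem _ (Submodule.add_mem _ (Submodule.add_mem _ (Submodule.add_mem _ (Submodule.add_mem _ (Submodule.add_mem _ (Submodule.add_mem _ (Submodule.add_mem _ (Submodule.add_mem _ (Submodule.add_mem _ (Submodule.add_mem _ (Submodule.add_mem _ (Submodule.add_mem _ (Submodule.add_mem _ (Submodule.add_mem _ (Submodule.smul_mem _ p0 r0) (Submodule.smul_mem _ p1 r1)) (Submodule.smul_mem _ p2 r2)) (Submodule.smul_mem _ p3 r3)) (Submodule.smul_mem _ p4 r4)) (Submodule.smul_mem _ p5 r5)) (Submodule.smul_mem _ p6 r6)) (Submodule.smul_mem _ p7 r7)) (Submodule.smul_mem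 _ p8 r8)) (Submodule.smul_mem _ p9 r9)) (Submodule.smul_mem _ p10 r10)) (Submodule.smul_mem _ p11 r11)) (Submodule.smul_mem _ p12 r12)) (Submodule.smul_mem _ p13 r13)) (Submodule.smul_mem _ p14 r14)) (Submodule.smul_mem _ p15 r15)) (Submodule.smul_mem _ p16 r16)) (Submodule.smul_mem _ p17 r17)) (Submodule.smul_mem _ p18 r18)) (Submodule.smul_mem _ p19 r19)) (Submodule.smul_mem _ p20 r20)) (Submodule.smul_mem _ p21 r21)) (Submodule.smul_mem _ p22 r22)) (Submodule.smul_mem _ p23 r23)) (Submodule.smul_mem _ p24 r24)) (Submodule.smul_mem _ p25 r25)) (Submodule.smul_mem _ p26 r26))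

end Pool.Agent.N6
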