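import Pool.Agent.Lib_helper24.FAM.Cl
import Pool.Agent.Lib_helper24.FAM.LK6
import Pool.Agent.Lib_helper76.FAM.Tate
import Pool.Agent.Lib_helper76.UE6.F6
import Pool.Agent.Lib_helper2.K4N.Q6X
import Pool.Agent.Lib_helper54.FAM.Unr6
import Pool.Agent.Lib_helper60.N6.KE

/-!
# Points of order six
-/

set_option autoImplicit false
set_option linter.unusedSectionVars false
set_option linter.unusedVariables false

open scoped TensorProduct WithZero

namespace Pool.Agent.FK4

open Pool.Agent.MK4 WeierstrassCurve.Affine Pool.Agent.KC72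
open Pool.Agent.TN (Wt)
open Pool.Agent.UEG (P0)
open Pool.Agent.N6C (c6_1 c6_2 c6_3 c6_1_ok c6_2_ok c6_3_ok)

section terms

variable {k : Type*} [Field k] [DecidableEq k] {W : WeierstrassCurve.Affine k} {F : Type*}
  [Field F] [Algebra k F] {X Y : F} {H : AddSubgroup W.Point}

lemma supp_evl {g : List F} (hg : ∀ z ∈ g, Supp H X Y z) (a : List ℤ) :
    Supp H X Y (evl g a) := by
  induction g generalizing a with
  | nil => rw [evl_nil_left]; exact supp_one
  | cons z g ih =>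
    cases a with
    | nil => rw [evl_nil_right]; exact supp_one
    | cons n a =>
      rw [evl_cons]
      exact ((hg z (by simp)).zpow n).mul (ih (fun y hy => hg y (by simp [hy])) a)

lemma supp_ev {g : List F} (hg : ∀ z ∈ g, Supp H X Y z) (a : Mo) : Supp H X Y (ev g a) := by
  unfold ev
  rcases a with ⟨_ | _, a⟩
  · rw [cond_false, one_mul]; exact supp_evl hg a
  · rw [cond_true, neg_one_mul]; exact (supp_evl hg a).neg

/-- the explicit elements are in the span -/
lemma zt_mem {g : List F} (hg : ∀ z ∈ g, Supp H X Y z) {cls : List (Mo × Mo)} (hS : Sols g cls)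
    {n : ℕ} {L : List Tm} (hL : okT n cls L = true) : zt g cls L ∈ Sp H X Y := by
  induction L with
  | nil => exact Submodule.zero_mem _
  | cons t L ih =>
    unfold okT at hL
    rw [List.all_cons, Bool.and_eq_true, Bool.and_eq_true] at hL
    obtain ⟨⟨h1, h2⟩, h3⟩ := hL
    have h1' := of_decide_eq_true h1
    refine Submodule.add_mem _ (Submodule.subset_span ⟨_, _, supp_ev hg _, ?_, rfl⟩) (ih h3)
    have h4 := oo_co (fun x hx => (hg x hx).1) hS (p := (t.c, t.s)) h1'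
    have h5 : 1 - ev g (oo cls (t.c, t.s)) = ev g (co cls (t.c, t.s)) := by
      linear_combination -h4
    rw [h5]
    exact supp_ev hg _

end terms

section six

variable {k : Type*} [Field k] [DecidableEq k] [CharZero k] {F : Type*} [Field F] [Algebra k F]
  {x y : F} {t : k}

lemma supp_gl (ht : t ≠ 0) (ht1 : t + 1 ≠ 0) (hb : UE6.bb t ≠ 0)
    (hO : addOrderOf (P0 (UE6.cc t) hb) = 6) (hG : Generic (Wt (UE6.bb t) (UE6.cc t)) x y) :
    ∀ z ∈ N6.gl t x y, Supp (AddSubgroup.zmultiples (P0 (UE6.cc t) hb)) x y z := by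
  have hs := UE6.supp6 ht ht1 hb hO hG
  intro z hz
  simp only [N6.gl, List.mem_cons, List.not_mem_nil, or_false] at hz
  rcases hz with rfl | rfl | rfl | rfl | rfl | rfl
  · exact (hs _).mpr ⟨1, 1, 0, 0, 0, 0, one_ne_zero, by unfold N6.M; simp⟩
  · exact (hs _).mpr ⟨1, 0, 1, 0, 0, 0, one_ne_zero, by unfold N6.M; simp⟩
  · exact (hs _).mpr ⟨1, 0, 0, 1, 0, 0, one_ne_zero, by unfold N6.M; simp⟩
  · exact (hs _).mpr ⟨1, 0, 0, 0, 1, 0, one_ne_zero, by unfold N6.M; simp⟩
  · exact (hs _).mpr ⟨1, 0, 0, 0, 0, 1, one_ne_zero, by unfold N6.M; simp⟩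
  · exact (hs _).mpr ⟨2, 0, 0, 0, 0, 0, two_ne_zero, by
      unfold N6.M
      rw [map_ofNat]
      simp⟩

lemma q6_of (hG : N6.G6 t x y) : Q6 (algebraMap k F (t ^ 2 + t)) (algebraMap k F t) x y x
    (x - algebraMap k F (t ^ 2 + t)) (x - algebraMap k F t) y (y - algebraMap k F t * x) :=
  ⟨rfl, rfl, rfl, rfl, rfl, hG.x_ne, hG.xc_ne _, hG.xc_ne _, hG.y_ne, N6.w_ne hG, hG.eq⟩

/-- from a certificate to the clause `Line` -/
lemma line_of {W : WeierstrassCurve.Affine k} {X Y : F} (hg : Generic W X Y) {P : W.Point}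
    (ht : t ≠ 0) (ht1 : t + 1 ≠ 0) (hb : UE6.bb t ≠ 0)
    (hO : addOrderOf (P0 (UE6.cc t) hb) = 6) (hG : Generic (Wt (UE6.bb t) (UE6.cc t)) x y)
    (hS : SameS (AddSubgroup.zmultiples P) X Y (AddSubgroup.zmultiples (P0 (UE6.cc t) hb)) x y)
    {C : Cert} (hC : Ok C) (hn : C.n = 6) (hr : C.r = 5) (hs : Sols (N6.gl t x y) C.cls)
    (hcl : ∀ z ∈ N6.Cu t x y, Closed z →
      ∃ β : ℚ, (TN.KC k F).mkQ z = β • pl (EB C k (N6.gl t x y)) C.xi)
    {L : List Tm} (hL : okT 6 C.cls L = true) (hD : chkD 6 C.cls L = true) {a : ℤ} (ha : a ≠ 0)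
    (hX : chkX C a L = true) {ξ : HK F} (hξ : ξ = zt (N6.gl t x y) C.cls L)
    (hun : Unram k ξ) (hnz : RegNonZero k X Y ξ) : Line P X Y := by
  have : CharZero F := charZero_of_injective_algebraMap (algebraMap k F).injective
  have hgen : N6.G6 t x y := UE6.gen6 hG
  have hgl : List.ofFn (N6.G6l t x y) = N6.gl t x y := N6.ofFn_G6l
  have hsp : Sp (AddSubgroup.zmultiples P) X Y = N6.Cu t x y := by
    rw [hS.toSame.sp, UE6.sp6 ht ht1 hb hO hG]
  refine ⟨ξ, ⟨?_, ?_, hun⟩, closedIn_line hg hun ?_, hnz⟩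
  · rw [hS.toSame.sp, hξ]
    exact zt_mem (supp_gl ht ht1 hb hO hG) hs hL
  · rw [hξ, ← hgl]
    rw [← hgl] at hs
    exact zt_closed (N6.G6l_ne hgen) hs hL hD
  · intro z hz hc
    rw [hsp] at hz
    obtain ⟨β, hβ⟩ := hcl z hz hc
    rw [← hgl] at hs hξ hβ
    have h1 := zt_xi (k := k) C hn (N6.G6l_ne hgen) hC (by
      intro z hz
      rw [List.mem_drop_iff_getElem] at hz
      obtain ⟨i, hi, rfl⟩ := hz
      rw [List.getElem_ofFn]
      exact N6.G6l_const _ (by simp [hr])) hs hL hX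
    rw [← hξ] at h1
    have ha' : (a : ℚ) ≠ 0 := by exact_mod_cast ha
    refine ⟨β / a, ?_⟩
    rw [← TN.KC_eq, ← Submodule.ker_mkQ (TN.KC k F), LinearMap.mem_ker, map_sub, map_smul, h1,
      hβ, smul_smul, div_mul_cancel₀ _ ha', sub_self]

end six

end Pool.Agent.FK4
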